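import Pool.Agent.Helper5.ProdStep

set_option autoImplicit false

namespace Pool.Agent.Helper5

open Finset

/-- iterated sumset -/
def sI (A : Finset ℤ) : ℕ → Finset ℤ
  | 0 => {0}
  | (j + 1) => image₂ (· + ·) (sI A j) A

/-- iterated product set -/
def pI (A : Finset ℤ) : ℕ → Finset ℤ
  | 0 => {1}
  | (j + 1) => image₂ (· * ·) (pI A j) A

lemma sI_subset {A A' : Finset ℤ} (h : A ⊆ A') (j : ℕ) :
    sI A j ⊆ (Fintype.piFinset (fun _ : Fin j => A')).image (fun f : Fin j → ℤ => ∑ i, f i) := by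
  induction j with
  | zero => intro x hx; simp [sI] at hx; subst hx; simp
  | succ j ih =>
    intro x hx
    simp only [sI, mem_image₂] at hx
    obtain ⟨y, hy, a, ha, rfl⟩ := hx
    have hy' := ih hy
    rw [mem_image] at hy' ⊢
    obtain ⟨f, hf, rfl⟩ := hy'
    refine ⟨Fin.snoc f a, ?_, ?_⟩
    · rw [Fintype.mem_piFinset] at hf ⊢
      intro i
      refine Fin.lastCases ?_ (fun i => ?_) i
      · simpa using h ha
      · simpa using hf i
    · rw [Fin.sum_univ_castSucc]; simp

lemma pI_subset {A A' : Finset ℤ} (h : A ⊆ A') (j : ℕ) :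
    pI A j ⊆ (Fintype.piFinset (fun _ : Fin j => A')).image (fun f : Fin j → ℤ => ∏ i, f i) := by
  induction j with
  | zero => intro x hx; simp [pI] at hx; subst hx; simp
  | succ j ih =>
    intro x hx
    simp only [pI, mem_image₂] at hx
    obtain ⟨y, hy, a, ha, rfl⟩ := hx
    have hy' := ih hy
    rw [mem_image] at hy' ⊢
    obtain ⟨f, hf, rfl⟩ := hy'
    refine ⟨Fin.snoc f a, ?_, ?_⟩
    · rw [Fintype.mem_piFinset] at hf ⊢
      intro i
      refine Fin.lastCases ?_ (fun i => ?_) i
      · simpa using h ha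
      · simpa using hf i
    · rw [Fin.prod_univ_castSucc]; simp

lemma sI_card (A : Finset ℤ) (j : ℕ) : (sI A j).card ≤ A.card ^ j := by
  induction j with
  | zero => simp [sI]
  | succ j ih =>
    simp only [sI, pow_succ]
    exact (card_image₂_le _ _ _).trans (Nat.mul_le_mul_right _ ih)

lemma pI_ne_zero {A : Finset ℤ} (hA : (0 : ℤ) ∉ A) (j : ℕ) : (0 : ℤ) ∉ pI A j := by
  induction j with
  | zero => simp [pI]
  | succ j ih =>
    intro h
    simp only [pI, mem_image₂] at h
    obtain ⟨y, hy, a, ha, h⟩ := h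
    rcases mul_eq_zero.mp h with h | h
    · exact ih (h ▸ hy)
    · exact hA (h ▸ ha)

lemma pI_st {A : Finset ℤ} (hA : (0 : ℤ) ∉ A) {Z : ℤ → Finset ℕ} {s r : ℕ}
    (hZ : ∀ a ∈ A, st Z s r a) (j : ℕ) :
    ∀ x ∈ pI A j, ∃ E : Finset ℕ, st (fun _ => E) (j * s) (j * r) x := by
  induction j with
  | zero =>
    intro x hx
    simp only [pI, mem_singleton] at hx
    subst hx
    exact ⟨∅, by simp [st]⟩
  | succ j ih =>
    intro x hx
    simp only [pI, mem_image₂] at hx
    obtain ⟨y, hy, a, ha, rfl⟩ := hx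
    obtain ⟨E, hE⟩ := ih y hy
    have hy0 : y ≠ 0 := fun h => pI_ne_zero hA j (h ▸ hy)
    have ha0 : a ≠ 0 := fun h => hA (h ▸ ha)
    refine ⟨E ∪ Z a, ?_, ?_⟩
    · have h1 := card_union_le E (Z a)
      have h2 := hE.1
      have h3 := (hZ a ha).1
      calc (E ∪ Z a).card ≤ E.card + (Z a).card := h1
        _ ≤ j * s + s := Nat.add_le_add h2 h3
        _ = (j + 1) * s := by ring
    · have h1 : ∀ T : Finset ℕ, (∀ p ∈ T, p ∉ E ∪ Z a) →
          ∑ p ∈ T, val p (y * a) ≤ (j + 1) * r := by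
        intro T hT
        have e1 : ∑ p ∈ T, val p (y * a) = ∑ p ∈ T, val p y + ∑ p ∈ T, val p a := by
          rw [← sum_add_distrib]
          apply sum_congr rfl
          intro p _
          exact val_mul hy0 ha0
        rw [e1]
        have h2 := sum_val_le hE T (fun p hp h => hT p hp (mem_union_left _ h))
        have h3 := sum_val_le (hZ a ha) T (fun p hp h => hT p hp (mem_union_right _ h))
        calc _ ≤ j * r + r := Nat.add_le_add h2 h3
          _ = _ := by ring
      exact h1 _ (fun p hp => (mem_sdiff.mp hp).2)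

lemma prod_iter {P : Finset ℕ} (hP : ∀ p ∈ P, p.Prime) {A : Finset ℤ}
    (hA : (0 : ℤ) ∉ A) {Z : ℤ → Finset ℕ} {s r F H k : ℕ}
    (hZ : ∀ a ∈ A, st Z s r a)
    (hF : ∀ m, (A.filter (fun a => mP P a = m)).card ≤ F)
    (hH : ∀ p, p ∉ P → H * (A.filter (fun a => p ∈ Z a)).card ≤ 2 * A.card)
    (hHs : 4 * (k * s) ≤ H) (j : ℕ) (hj : j ≤ k) :
    A.card ^ j ≤ (2 * (2 * (2 ^ (k * (s + r)) * 2 ^ (2 * (k * (s + r)))) * F)) ^ j *
      (pI A j).card := by
  classical
  induction j with
  | zero => simp [pI]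
  | succ j ih =>
    have ih := ih (by omega)
    have hex := pI_st hA hZ j
    choose! E hE using hex
    have hstep := prod_step (P := P) hP (A := A) (D := pI A j) hA (pI_ne_zero hA j) (Z := Z)
      (ZD := E) (s := s) (r := r) (sD := j * s) (rD := j * r) (F := F) (H := H) hZ
      (fun d hd => hE d hd) hF hH (by
        have : j * s ≤ k * s := Nat.mul_le_mul_right _ (by omega)
        omega)
    set B := 2 * (2 ^ (k * (s + r)) * 2 ^ (2 * (k * (s + r)))) * F with hB
    have hle : 2 * (2 ^ (s + r + j * s + j * r) * 2 ^ (s + r + j * s + j * r + (r + j * r))) * F ≤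
        B := by
      apply Nat.mul_le_mul_right
      apply Nat.mul_le_mul_left
      have h1 : s + r + j * s + j * r = (j + 1) * (s + r) := by ring
      have h2 : (j + 1) * (s + r) ≤ k * (s + r) := Nat.mul_le_mul_right _ hj
      have h3 : r + j * r ≤ k * (s + r) := by
        calc r + j * r = (j + 1) * r := by ring
          _ ≤ (j + 1) * (s + r) := Nat.mul_le_mul_left _ (by omega)
          _ ≤ _ := h2
      apply Nat.mul_le_mul
      · exact Nat.pow_le_pow_right (by norm_num) (by omega)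
      · exact Nat.pow_le_pow_right (by norm_num) (by omega)
    calc A.card ^ (j + 1) = A.card ^ j * A.card := by ring
      _ ≤ ((2 * B) ^ j * (pI A j).card) * A.card := Nat.mul_le_mul_right _ ih
      _ = (2 * B) ^ j * ((pI A j).card * A.card) := by ring
      _ ≤ (2 * B) ^ j * (2 * B * (pI A (j + 1)).card) := by
          apply Nat.mul_le_mul_left
          refine hstep.trans ?_
          exact Nat.mul_le_mul_right _ (Nat.mul_le_mul_left _ hle)
      _ = _ := by ring

lemma sum_iter {P : Finset ℕ} (hP : ∀ p ∈ P, p.Prime) (hne : P.Nonempty)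
    {K Q j₀ ℓ s k N : ℕ} (hK : 2 ≤ K) {A : Finset ℤ} (hA : (0 : ℤ) ∉ A)
    (hAN : A.card ≤ N) (hN : 1 ≤ N)
    (hj : N ^ k < 2 ^ j₀) (hℓ : N ^ k < K ^ (ℓ + 1)) (hPs : P.card ≤ s)
    (hQ : ∀ p ∈ P, ∀ φ : ℤ → ℕ, Q * (A.filter (fun a => val p a = φ (mP P a))).card ≤ A.card)
    (hQbig : 2 * (s * (K * j₀) + (K * j₀) * (K * j₀)) ≤ Q) (j : ℕ) (hjk : j ≤ k) :
    A.card ^ j ≤ (2 * ((ℓ + 1) ^ s * 2 ^ ℓ)) ^ j * (sI A j).card := by
  classical
  induction j with
  | zero => simp [sI]
  | succ j ih =>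
    have ih := ih (by omega)
    have hDA : (sI A j).card * A.card ≤ N ^ k := by
      calc (sI A j).card * A.card ≤ A.card ^ j * A.card := Nat.mul_le_mul_right _ (sI_card A j)
        _ = A.card ^ (j + 1) := by ring
        _ ≤ N ^ (j + 1) := Nat.pow_le_pow_left hAN _
        _ ≤ N ^ k := Nat.pow_le_pow_right hN hjk
    have hD : (sI A j).card ≤ N ^ k := by
      calc (sI A j).card ≤ A.card ^ j := sI_card A j
        _ ≤ N ^ j := Nat.pow_le_pow_left hAN _
        _ ≤ N ^ k := Nat.pow_le_pow_right hN (by omega)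
    have hA1 : A.card ≤ N ^ k := by
      calc A.card ≤ N := hAN
        _ = N ^ 1 := (pow_one N).symm
        _ ≤ N ^ k := Nat.pow_le_pow_right hN (by omega)
    have hstep := sum_step (P := P) hP hne (K := K) (Q := Q) (jD := j₀) (jM := j₀) (L := ℓ)
      (ℓ := ℓ) hK (D := sI A j) (A := A) hA (lt_of_le_of_lt hD hj) (lt_of_le_of_lt hA1 hj)
      (lt_of_le_of_lt hD hℓ) (lt_of_le_of_lt hDA hℓ) hQ (by
        have : P.card * (K * j₀) ≤ s * (K * j₀) := Nat.mul_le_mul_right _ hPs
        omega)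
    calc A.card ^ (j + 1) = A.card ^ j * A.card := by ring
      _ ≤ ((2 * ((ℓ + 1) ^ s * 2 ^ ℓ)) ^ j * (sI A j).card) * A.card :=
          Nat.mul_le_mul_right _ ih
      _ = (2 * ((ℓ + 1) ^ s * 2 ^ ℓ)) ^ j * ((sI A j).card * A.card) := by ring
      _ ≤ (2 * ((ℓ + 1) ^ s * 2 ^ ℓ)) ^ j *
            (2 * ((ℓ + 1) ^ s * 2 ^ ℓ) * (sI A (j + 1)).card) := by
          apply Nat.mul_le_mul_left
          refine hstep.trans ?_
          apply Nat.mul_le_mul_right
          apply Nat.mul_le_mul_left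
          apply Nat.mul_le_mul_right
          exact Nat.pow_le_pow_right (by omega) hPs
      _ = _ := by ring

lemma mP_empty (a : ℤ) : mP ∅ a = a := by
  unfold mP uP; simp

/-- **Dichotomy**: either the product set or the sumset is large. -/
theorem dichotomy {k s r K j₀ ℓ H F Q N : ℕ} (hk : 1 ≤ k) (hK : 2 ≤ K) {A : Finset ℤ}
    (hA : (0 : ℤ) ∉ A) (hAN : A.card ≤ N) (hN : 1 ≤ N) (Z : ℤ → Finset ℕ)
    (hZp : ∀ a ∈ A, ∀ p ∈ Z a, p.Prime) (hZ : ∀ a ∈ A, st Z s r a)
    (hj : N ^ k < 2 ^ j₀) (hℓ : N ^ k < K ^ (ℓ + 1)) (hH : 4 * (k * s) ≤ H) (hH1 : 1 ≤ H)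
    (hQ : 2 * (s * (K * j₀) + (K * j₀) * (K * j₀)) ≤ Q) (hF : Q ^ s ≤ F) (hQ1 : 1 ≤ Q) :
    A.card ^ k ≤ (2 * H ^ s * (2 * (2 * (2 ^ (k * (s + r)) * 2 ^ (2 * (k * (s + r)))) * F))) ^ k *
      (pI A k).card ∨
    A.card ^ k ≤ (2 * H ^ s * Q ^ s * (2 * ((ℓ + 1) ^ s * 2 ^ ℓ))) ^ k * (sI A k).card := by
  classical
  rcases A.eq_empty_or_nonempty with rfl | hAne
  · left
    rw [card_empty, zero_pow (by omega)]
    exact Nat.zero_le _
  obtain ⟨P, hP1, hP2⟩ := kernel A Z H
  set A₀ := A.filter (fun a => P ⊆ Z a) with hA₀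
  have hA₀ne : A₀.Nonempty := by
    rw [← card_pos]
    rcases Nat.eq_zero_or_pos A₀.card with h | h
    · rw [h, mul_zero] at hP1
      have := card_pos.mpr hAne
      omega
    · exact h
  obtain ⟨a₀, ha₀⟩ := hA₀ne
  rw [hA₀, mem_filter] at ha₀
  have hP : ∀ p ∈ P, p.Prime := fun p hp => hZp a₀ ha₀.1 p (ha₀.2 hp)
  have hPs : P.card ≤ s := (card_le_card ha₀.2).trans (hZ a₀ ha₀.1).1
  have hAA₀ : A.card ≤ H ^ s * A₀.card :=
    hP1.trans (Nat.mul_le_mul_right _ (Nat.pow_le_pow_right hH1 hPs))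
  -- fibre sizes
  let fib : ℤ → ℕ := fun a => (A₀.filter (fun b => mP P b = mP P a)).card
  set As := A₀.filter (fun a => fib a ≤ F) with hAs
  set Al := A₀.filter (fun a => ¬ fib a ≤ F) with hAl
  have hsplit : As.card + Al.card = A₀.card := card_filter_add_card_filter_not _
  have hAsA : As ⊆ A := (filter_subset _ _).trans (filter_subset _ _)
  have hAlA : Al ⊆ A := (filter_subset _ _).trans (filter_subset _ _)
  by_cases hcase : A₀.card ≤ 2 * As.card
  · -- product case
    left
    have hiter := prod_iter (P := P) hP (A := As) (fun h => hA (hAsA h)) (Z := Z) (s := s)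
      (r := r) (F := F) (H := H) (k := k) (fun a ha => hZ a (hAsA ha)) (by
        intro m
        rcases (As.filter (fun a => mP P a = m)).eq_empty_or_nonempty with h0 | ⟨b, hb⟩
        · rw [h0]; simp
        · rw [mem_filter, hAs, mem_filter] at hb
          have h1 : fib b ≤ F := hb.1.2
          refine (card_le_card ?_).trans h1
          intro x hx
          rw [mem_filter, hAs, mem_filter] at hx
          rw [mem_filter]
          exact ⟨hx.1.1, by rw [hx.2, hb.2]⟩) (by
        intro p hp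
        have h1 := hP2 p hp
        have h2 : (As.filter (fun a => p ∈ Z a)).card ≤ (A₀.filter (fun a => p ∈ Z a)).card :=
          card_le_card (filter_subset_filter _ (filter_subset _ _))
        calc H * (As.filter (fun a => p ∈ Z a)).card
            ≤ H * (A₀.filter (fun a => p ∈ Z a)).card := Nat.mul_le_mul_left _ h2
          _ ≤ A₀.card := h1
          _ ≤ 2 * As.card := hcase) hH k (le_refl _)
    set B := 2 * (2 * (2 ^ (k * (s + r)) * 2 ^ (2 * (k * (s + r)))) * F) with hB
    have h1 : A.card ≤ 2 * H ^ s * As.card := by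
      calc A.card ≤ H ^ s * A₀.card := hAA₀
        _ ≤ H ^ s * (2 * As.card) := Nat.mul_le_mul_left _ hcase
        _ = _ := by ring
    have hmono : (pI As k).card ≤ (pI A k).card := by
      have : ∀ j, pI As j ⊆ pI A j := by
        intro j
        induction j with
        | zero => simp [pI]
        | succ j ih => exact image₂_subset ih hAsA
      exact card_le_card (this k)
    calc A.card ^ k ≤ (2 * H ^ s * As.card) ^ k := Nat.pow_le_pow_left h1 k
      _ = (2 * H ^ s) ^ k * As.card ^ k := by rw [mul_pow]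
      _ ≤ (2 * H ^ s) ^ k * (B ^ k * (pI As k).card) := Nat.mul_le_mul_left _ hiter
      _ ≤ (2 * H ^ s) ^ k * (B ^ k * (pI A k).card) :=
          Nat.mul_le_mul_left _ (Nat.mul_le_mul_left _ hmono)
      _ = _ := by rw [← mul_assoc, ← mul_pow]
  · -- sum case
    right
    push Not at hcase
    have hAlbig : A₀.card ≤ 2 * Al.card := by omega
    have hAlne : Al.Nonempty := by
      rw [← card_pos]; omega
    have hAl0 : (0 : ℤ) ∉ Al := fun h => hA (hAlA h)
    obtain ⟨P', hP'P, A', hA'Al, h1, h2, h3⟩ := popular Q P.card P rfl hP Al hAl0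
    have hA'A : A' ⊆ A := hA'Al.trans hAlA
    have hQs : Q ^ (P.card - P'.card) ≤ Q ^ s := Nat.pow_le_pow_right hQ1 (by omega)
    have hAlA' : Al.card ≤ A'.card * Q ^ s := h1.trans (Nat.mul_le_mul_left _ hQs)
    have hP'ne : P'.Nonempty := by
      by_contra hcon
      rw [not_nonempty_iff_eq_empty] at hcon
      subst hcon
      have h4 : (A'.image (mP ∅)).card = A'.card := by
        apply card_image_of_injective
        intro x y h
        simpa [mP_empty] using h
      rw [h4] at h2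
      -- fibres of `Al` are large
      have h5 : (F + 1) * (Al.image (mP P)).card ≤ Al.card := by
        apply mul_card_image_le_card
        intro m hm
        rw [mem_image] at hm
        obtain ⟨a, ha, rfl⟩ := hm
        have ha' := ha
        rw [hAl, mem_filter] at ha'
        have h6 : F + 1 ≤ fib a := by have := ha'.2; omega
        refine h6.trans (card_le_card ?_)
        intro b hb
        rw [mem_filter] at hb ⊢
        refine ⟨?_, hb.2⟩
        rw [hAl, mem_filter]
        refine ⟨hb.1, ?_⟩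
        simp only [fib, hb.2]
        exact ha'.2
      have h6 : Al.card ≤ F * (Al.image (mP P)).card := by
        calc Al.card ≤ A'.card * Q ^ s := hAlA'
          _ ≤ (Al.image (mP P)).card * F := Nat.mul_le_mul h2 hF
          _ = _ := by ring
      have h7 : 0 < (Al.image (mP P)).card := card_pos.mpr (hAlne.image _)
      nlinarith
    have hiter := sum_iter (P := P') (fun p hp => hP p (hP'P hp)) hP'ne (K := K) (Q := Q)
      (j₀ := j₀) (ℓ := ℓ) (s := s) (k := k) (N := N) hK (A := A') (fun h => hA (hA'A h))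
      ((card_le_card hA'A).trans hAN) hN hj hℓ ((card_le_card hP'P).trans hPs) h3 hQ k (le_refl _)
    have h4 : A.card ≤ 2 * H ^ s * Q ^ s * A'.card := by
      calc A.card ≤ H ^ s * A₀.card := hAA₀
        _ ≤ H ^ s * (2 * Al.card) := Nat.mul_le_mul_left _ hAlbig
        _ ≤ H ^ s * (2 * (A'.card * Q ^ s)) :=
            Nat.mul_le_mul_left _ (Nat.mul_le_mul_left _ hAlA')
        _ = _ := by ring
    have hmono : (sI A' k).card ≤ (sI A k).card := by
      have : ∀ j, sI A' j ⊆ sI A j := by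
        intro j
        induction j with
        | zero => simp [sI]
        | succ j ih => exact image₂_subset ih hA'A
      exact card_le_card (this k)
    set B := 2 * ((ℓ + 1) ^ s * 2 ^ ℓ) with hB
    calc A.card ^ k ≤ (2 * H ^ s * Q ^ s * A'.card) ^ k := Nat.pow_le_pow_left h4 k
      _ = (2 * H ^ s * Q ^ s) ^ k * A'.card ^ k := by rw [mul_pow]
      _ ≤ (2 * H ^ s * Q ^ s) ^ k * (B ^ k * (sI A' k).card) := Nat.mul_le_mul_left _ hiter
      _ ≤ (2 * H ^ s * Q ^ s) ^ k * (B ^ k * (sI A k).card) :=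
          Nat.mul_le_mul_left _ (Nat.mul_le_mul_left _ hmono)
      _ = _ := by rw [← mul_assoc, ← mul_pow]

end Pool.Agent.Helper5
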