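import Mathlib

set_option autoImplicit false

namespace Pool.Agent.Helper5.Sub

open NumberField IsDedekindDomain

/-- Values of a finite place are integral powers of the absolute norm. -/
lemma fp_value {K : Type} [Field K] [NumberField K] (v : FinitePlace K) {y : K} (hy : y ≠ 0) :
    ∃ k : ℤ, v y = ((Ideal.absNorm v.maximalIdeal.asIdeal : ℕ) : ℝ) ^ k := by
  rw [← FinitePlace.norm_embedding_eq, FinitePlace.norm_embedding']
  have h0 : v.maximalIdeal.valuation K y ≠ 0 := (Valuation.ne_zero_iff _).2 hy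
  rw [WithZeroMulInt.toNNReal_neg_apply _ h0]
  refine ⟨Multiplicative.toAdd (WithZero.unzero h0), ?_⟩
  push_cast
  rfl

lemma fp_norm_one_lt {K : Type} [Field K] [NumberField K] (v : FinitePlace K) :
    (1 : ℝ) < ((Ideal.absNorm v.maximalIdeal.asIdeal : ℕ) : ℝ) := by
  exact_mod_cast HeightOneSpectrum.one_lt_absNorm v.maximalIdeal

lemma finite_pow {N : ℝ} (hN : 1 < N) {c C : ℝ} (hc : 0 < c) :
    {r : ℝ | (∃ k : ℤ, r = N ^ k) ∧ c ≤ r ∧ r ≤ C}.Finite := by
  have hN0 : 0 < N := by linarith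
  obtain ⟨a, ha1, ha2⟩ := exists_mem_Ico_zpow hc hN
  obtain ⟨b, hb1, hb2⟩ := exists_mem_Ico_zpow (show (0 : ℝ) < max C 1 by positivity) hN
  refine ((Set.finite_Icc a (b + 1)).image (fun k : ℤ => N ^ k)).subset ?_
  rintro r ⟨⟨k, rfl⟩, h1, h2⟩
  refine ⟨k, ⟨?_, ?_⟩, rfl⟩
  · exact (zpow_le_zpow_iff_right₀ hN).1 (ha1.trans h1)
  · have h3 : N ^ k ≤ N ^ (b + 1) := h2.trans ((le_max_left _ _).trans hb2.le)
    exact (zpow_le_zpow_iff_right₀ hN).1 h3

lemma unit_of_fp {K : Type} [Field K] [NumberField K] {x : K} (h : ∀ v : FinitePlace K, v x = 1) :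
    ∃ u : (𝓞 K)ˣ, ((u : 𝓞 K) : K) = x := by
  have hint : ∀ z : K, (∀ v : FinitePlace K, v z = 1) → ∃ a : 𝓞 K, (a : K) = z := by
    intro z hz
    obtain ⟨a, ha⟩ := HeightOneSpectrum.mem_integers_of_valuation_le_one (R := 𝓞 K) K z (by
      intro P
      have h1 := hz (FinitePlace.mk P)
      rw [FinitePlace.mk_apply, FinitePlace.norm_embedding, HeightOneSpectrum.adicAbv_def] at h1
      have h2 : WithZeroMulInt.toNNReal (HeightOneSpectrum.absNorm_ne_zero P) (P.valuation K z) ≤ 1 := by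
        have : (WithZeroMulInt.toNNReal (HeightOneSpectrum.absNorm_ne_zero P) (P.valuation K z)) = 1 := by
          exact_mod_cast h1
        exact this.le
      exact (WithZeroMulInt.toNNReal_le_one_iff (HeightOneSpectrum.one_lt_absNorm_nnreal P)).1 h2)
    exact ⟨a, ha⟩
  have hx0 : x ≠ 0 := by
    rintro rfl
    obtain ⟨P⟩ : Nonempty (HeightOneSpectrum (𝓞 K)) := by
      obtain ⟨M, hM⟩ := Ideal.exists_maximal (𝓞 K)
      exact ⟨⟨M, hM.isPrime, Ring.ne_bot_of_isMaximal_of_not_isField hM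
        (RingOfIntegers.not_isField K)⟩⟩
    have := h (FinitePlace.mk P)
    rw [map_zero] at this
    exact zero_ne_one this
  obtain ⟨a, ha⟩ := hint x h
  obtain ⟨b, hb⟩ := hint x⁻¹ (by intro v; rw [map_inv₀, h v, inv_one])
  have hab : a * b = 1 := by
    apply RingOfIntegers.coe_injective
    rw [map_mul, map_one]
    change (a : K) * (b : K) = 1
    rw [ha, hb, mul_inv_cancel₀ hx0]
  exact ⟨⟨a, b, hab, by rw [mul_comm, hab]⟩, ha⟩

lemma fp_unit {K : Type} [Field K] [NumberField K] (u : (𝓞 K)ˣ) (v : FinitePlace K) :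
    v ((u : 𝓞 K) : K) = 1 := by
  have h1 : v ((u : 𝓞 K) : K) ≤ 1 := by
    rw [← FinitePlace.norm_embedding_eq]
    exact FinitePlace.norm_le_one K _ _
  have h2 : v (((u⁻¹ : (𝓞 K)ˣ) : 𝓞 K) : K) ≤ 1 := by
    rw [← FinitePlace.norm_embedding_eq]
    exact FinitePlace.norm_le_one K _ _
  have h3 : v ((u : 𝓞 K) : K) * v (((u⁻¹ : (𝓞 K)ˣ) : 𝓞 K) : K) = 1 := by
    rw [← map_mul]
    have : ((u : 𝓞 K) : K) * (((u⁻¹ : (𝓞 K)ˣ) : 𝓞 K) : K) = 1 := by
      have h4 : (u : 𝓞 K) * ((u⁻¹ : (𝓞 K)ˣ) : 𝓞 K) = 1 := u.mul_inv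
      rw [← map_mul, h4, map_one]
    rw [this, map_one]
  have h5 : 0 ≤ v ((u : 𝓞 K) : K) := apply_nonneg v _
  nlinarith

/-- Elements with prescribed finite absolute values, modulo units. -/
lemma fin_mod_units (K : Type) [Field K] [NumberField K] (c C : FinitePlace K → ℝ)
    (hc : ∀ v, 0 < c v) (hc1 : {v | c v ≠ 1}.Finite) (hC1 : {v | C v ≠ 1}.Finite) :
    ∃ 𝒞 : Finset K, (∀ x ∈ 𝒞, x ≠ 0) ∧ ∀ y : K, y ≠ 0 →
      (∀ v : FinitePlace K, c v ≤ v y ∧ v y ≤ C v) → ∃ x ∈ 𝒞, ∃ u : (𝓞 K)ˣ,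
        y = x * ((u : 𝓞 K) : K) := by
  classical
  let T : Set (FinitePlace K) := {v | c v ≠ 1} ∪ {v | C v ≠ 1}
  have hT : T.Finite := hc1.union hC1
  let A : Set K := {y | y ≠ 0 ∧ ∀ v : FinitePlace K, c v ≤ v y ∧ v y ≤ C v}
  let Φ : K → (T → ℝ) := fun y t => (t : FinitePlace K) y
  have hfin : (Φ '' A).Finite := by
    have : Finite T := hT
    refine (Set.Finite.pi' (fun t : T => finite_pow (fp_norm_one_lt (t : FinitePlace K))
      (C := C t) (hc t))).subset ?_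
    rintro f ⟨y, ⟨hy0, hy⟩, rfl⟩ t
    exact ⟨fp_value _ hy0, hy t⟩
  have hex : ∀ f ∈ Φ '' A, ∃ y ∈ A, Φ y = f := fun f hf => hf
  choose! g hgA hg using hex
  refine ⟨hfin.toFinset.image g, ?_, ?_⟩
  · intro x hx
    rw [Finset.mem_image] at hx
    obtain ⟨f, hf, rfl⟩ := hx
    exact (hgA f (by simpa using hf)).1
  · intro y hy0 hy
    have hyA : y ∈ A := ⟨hy0, hy⟩
    have hΦ : Φ y ∈ Φ '' A := ⟨y, hyA, rfl⟩
    refine ⟨g (Φ y), Finset.mem_image_of_mem _ (by simpa using hΦ), ?_⟩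
    have hgA' := hgA _ hΦ
    have hg' := hg _ hΦ
    have hne : g (Φ y) ≠ 0 := hgA'.1
    obtain ⟨u, hu⟩ := unit_of_fp (x := y / g (Φ y)) (by
      intro v
      rw [map_div₀]
      have hgv : v (g (Φ y)) ≠ 0 := (FinitePlace.pos_iff.2 hne).ne'
      rw [div_eq_one_iff_eq hgv]
      by_cases hv : v ∈ T
      · exact (congrFun hg' ⟨v, hv⟩).symm
      · have hcv : c v = 1 := by
          by_contra h
          exact hv (Or.inl h)
        have hCv : C v = 1 := by
          by_contra h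
          exact hv (Or.inr h)
        have h1 := hy v
        have h2 := hgA'.2 v
        rw [hcv, hCv] at h1 h2
        rw [le_antisymm h1.2 h1.1, le_antisymm h2.2 h2.1])
    refine ⟨u, ?_⟩
    rw [hu]
    field_simp

lemma classgroup_exp (K : Type) [Field K] [NumberField K] :
    ∃ h : ℕ, h ≠ 0 ∧ ∀ g : ClassGroup (𝓞 K), g ^ h = 1 :=
  ⟨Nat.card (ClassGroup (𝓞 K)), Nat.card_pos.ne', fun _ => pow_card_eq_one'⟩

lemma pow_principal (K : Type) [Field K] [NumberField K] (P : HeightOneSpectrum (𝓞 K)) :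
    ∃ (h : ℕ) (a : 𝓞 K), h ≠ 0 ∧ P.asIdeal ^ h = Ideal.span {a} := by
  obtain ⟨h, hh, hg⟩ := classgroup_exp K
  have hP0 : P.asIdeal ∈ nonZeroDivisors (Ideal (𝓞 K)) :=
    mem_nonZeroDivisors_of_ne_zero P.ne_bot
  have h1 : ClassGroup.mk0 ((⟨P.asIdeal, hP0⟩ : nonZeroDivisors (Ideal (𝓞 K))) ^ h) = 1 := by
    rw [map_pow]
    exact hg _
  have h2 := (ClassGroup.mk0_eq_one_iff (pow_mem hP0 h)).1 h1
  obtain ⟨a, ha⟩ := h2.principal
  exact ⟨h, a, hh, ha⟩

/-- A generator of a power of the prime of a finite place. -/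
lemma exists_gen (K : Type) [Field K] [NumberField K] (v₀ : FinitePlace K) :
    ∃ π : K, π ≠ 0 ∧ v₀ π < 1 ∧ ∀ v : FinitePlace K, v ≠ v₀ → v π = 1 := by
  obtain ⟨h, a, hh, ha'⟩ := pow_principal K v₀.maximalIdeal
  have ha0 : a ≠ 0 := by
    rintro rfl
    rw [Ideal.span_singleton_eq_bot.2 rfl] at ha'
    exact (pow_ne_zero h v₀.maximalIdeal.ne_bot) ha'
  refine ⟨algebraMap (𝓞 K) K a, ?_, ?_, ?_⟩
  · intro h0
    exact ha0 ((FaithfulSMul.algebraMap_eq_zero_iff (𝓞 K) K).1 h0)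
  · rw [← FinitePlace.norm_embedding_eq]
    rw [FinitePlace.norm_lt_one_iff_mem]
    have : a ∈ v₀.maximalIdeal.asIdeal ^ h := by
      rw [ha']; exact Ideal.mem_span_singleton_self a
    exact Ideal.pow_le_self hh this
  · intro v hv
    rw [← FinitePlace.norm_embedding_eq]
    rw [FinitePlace.norm_eq_one_iff_notMem]
    intro hmem
    apply hv
    have h3 : v₀.maximalIdeal.asIdeal ^ h ≤ v.maximalIdeal.asIdeal := by
      rw [ha']
      exact (Ideal.span_singleton_le_iff_mem _).2 hmem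
    have h4 : v₀.maximalIdeal.asIdeal ≤ v.maximalIdeal.asIdeal :=
      v.maximalIdeal.isPrime.le_of_pow_le h3
    have h5 : v₀.maximalIdeal.asIdeal = v.maximalIdeal.asIdeal :=
      v₀.maximalIdeal.isMaximal.eq_of_le v.maximalIdeal.isPrime.ne_top h4
    have h6 : v₀.maximalIdeal = v.maximalIdeal := HeightOneSpectrum.ext h5
    exact (FinitePlace.maximalIdeal_injective h6).symm

lemma prod_unit {K : Type} [Field K] [NumberField K] (u : (𝓞 K)ˣ) :
    ∏ w : InfinitePlace K, w ((u : 𝓞 K) : K) ^ w.mult = 1 := by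
  have hne : ((u : 𝓞 K) : K) ≠ 0 := Units.coe_ne_zero u
  have h := prod_abs_eq_one hne
  rw [finprod_eq_one_of_forall_eq_one (fun v => fp_unit u v), mul_one] at h
  exact h

lemma unit_two_places {K : Type} [Field K] [NumberField K]
    (h2 : Fintype.card (InfinitePlace K) = 2) (w₁ : InfinitePlace K) (u : (𝓞 K)ˣ)
    (hu : w₁ ((u : 𝓞 K) : K) = 1) (w : InfinitePlace K) : w ((u : 𝓞 K) : K) = 1 := by
  classical
  by_cases hw : w = w₁
  · rw [hw, hu]
  · have huniv : (Finset.univ : Finset (InfinitePlace K)) = {w₁, w} := by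
      symm
      apply Finset.eq_of_subset_of_card_le (Finset.subset_univ _)
      rw [Finset.card_univ, h2, Finset.card_pair (Ne.symm hw)]
    have h := prod_unit u
    rw [huniv, Finset.prod_pair (Ne.symm hw), hu, one_pow, one_mul] at h
    have hm : w.mult ≠ 0 := InfinitePlace.mult_ne_zero
    exact (pow_eq_one_iff_of_nonneg (apply_nonneg w _) hm).1 h

lemma torsion_finite (K : Type) [Field K] [NumberField K] :
    ((Units.torsion K : Subgroup (𝓞 K)ˣ) : Set (𝓞 K)ˣ).Finite := by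
  have : Finite (Units.torsion K) := inferInstance
  exact Set.finite_coe_iff.1 this

/-- Case of two infinite places. -/
lemma rank_one (K : Type) [Field K] [NumberField K]
    (h2 : Fintype.card (InfinitePlace K) = 2) (w₁ : InfinitePlace K) :
    ∃ (ε : (𝓞 K)ˣ) (Z : Finset (𝓞 K)ˣ), 1 < w₁ ((ε : 𝓞 K) : K) ∧
      ∀ u : (𝓞 K)ˣ, ∃ z ∈ Z, ∃ q : ℤ, u = z * ε ^ q := by
  classical
  have hr : Units.rank K = 1 := by
    rw [Units.rank, h2]
  let i0 : Fin (Units.rank K) := ⟨0, by omega⟩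
  have hsub : Subsingleton (Fin (Units.rank K)) := by
    rw [hr]; infer_instance
  let η : (𝓞 K)ˣ := Units.fundSystem K i0
  have hdec : ∀ u : (𝓞 K)ˣ, ∃ z ∈ Units.torsion K, ∃ q : ℤ, u = z * η ^ q := by
    intro u
    obtain ⟨⟨⟨z, hz⟩, e⟩, hu, -⟩ := Units.exist_unique_eq_mul_prod K u
    refine ⟨z, hz, e i0, ?_⟩
    have hu' : u = z * ∏ i, (Units.fundSystem K i) ^ (e i) := hu
    rw [hu', Fintype.prod_subsingleton _ i0]
  have hfin : ((Units.torsion K : Subgroup (𝓞 K)ˣ) : Set (𝓞 K)ˣ).Finite :=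
    torsion_finite K
  have hne : w₁ ((η : 𝓞 K) : K) ≠ 1 := by
    intro h1
    have htor : η ∈ Units.torsion K := by
      rw [Units.mem_torsion]
      exact fun w => unit_two_places h2 w₁ η h1 w
    obtain ⟨p, -, hp⟩ := Units.exist_unique_eq_mul_prod K 1
    have h3 := hp (1, fun _ => 0) (by simp)
    have h4 := hp (⟨η⁻¹, (Units.torsion K).inv_mem htor⟩, fun _ => 1) (by
      change (1 : (𝓞 K)ˣ) = η⁻¹ * ∏ i, Units.fundSystem K i ^ (1 : ℤ)
      rw [Fintype.prod_subsingleton _ i0]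
      simp [η])
    have h5 := h3.trans h4.symm
    have h6 := congrFun (congrArg Prod.snd h5) i0
    simp at h6
  rcases lt_or_gt_of_ne hne with hlt | hgt
  · refine ⟨η⁻¹, hfin.toFinset, ?_, ?_⟩
    · have hinv : (((η⁻¹ : (𝓞 K)ˣ) : 𝓞 K) : K) = ((η : 𝓞 K) : K)⁻¹ := by
        have := Units.coe_zpow η (-1)
        rw [zpow_neg_one, zpow_neg_one] at this
        exact this
      rw [hinv, map_inv₀]
      exact (one_lt_inv₀ (InfinitePlace.pos_iff.2 (Units.coe_ne_zero η))).2 hlt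
    · intro u
      obtain ⟨z, hz, q, hu⟩ := hdec u
      exact ⟨z, by simpa using hz, -q, by rw [inv_zpow, zpow_neg, inv_inv]; exact hu⟩
  · refine ⟨η, hfin.toFinset, hgt, ?_⟩
    intro u
    obtain ⟨z, hz, q, hu⟩ := hdec u
    exact ⟨z, by simpa using hz, q, hu⟩

lemma rank_zero (K : Type) [Field K] [NumberField K]
    (h1 : Fintype.card (InfinitePlace K) = 1) :
    ∃ (Z : Finset (𝓞 K)ˣ), ∀ u : (𝓞 K)ˣ, u ∈ Z := by
  classical
  have hr : Units.rank K = 0 := by
    rw [Units.rank, h1]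
  have hsub : IsEmpty (Fin (Units.rank K)) := by
    rw [hr]; infer_instance
  have hfin : ((Units.torsion K : Subgroup (𝓞 K)ˣ) : Set (𝓞 K)ˣ).Finite :=
    torsion_finite K
  refine ⟨hfin.toFinset, fun u => ?_⟩
  obtain ⟨⟨⟨z, hz⟩, e⟩, hu, -⟩ := Units.exist_unique_eq_mul_prod K u
  have hu' : u = z * ∏ i, (Units.fundSystem K i) ^ (e i) := hu
  rw [Finset.univ_eq_empty, Finset.prod_empty, mul_one] at hu'
  rw [hu']
  simpa using hz

/-- UNITS -/
theorem unitsK (K : Type) [Field K] [NumberField K] (S : Finset (FinitePlace K))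
    (hS : Fintype.card (InfinitePlace K) + S.card = 2) (w₁ : InfinitePlace K) :
    ∃ ε : K, ε ≠ 0 ∧ (∀ v : FinitePlace K, v ∉ S → v ε = 1) ∧ 1 < w₁ ε ∧
      ∀ c C : FinitePlace K → ℝ, (∀ v, 0 < c v) → {v | c v ≠ 1}.Finite → {v | C v ≠ 1}.Finite →
      ∃ 𝒞 : Finset K, (∀ x ∈ 𝒞, x ≠ 0) ∧ ∀ y : K, y ≠ 0 →
        (∀ v : FinitePlace K, v ∉ S → c v ≤ v y ∧ v y ≤ C v) → ∃ x ∈ 𝒞, ∃ q : ℤ, y = x * ε ^ q := by
  classical
  have hpos : 0 < Fintype.card (InfinitePlace K) := Fintype.card_pos_iff.2 ⟨w₁⟩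
  rcases Nat.eq_zero_or_pos S.card with h0 | hSpos
  · have hS0 : S = ∅ := Finset.card_eq_zero.1 h0
    subst hS0
    obtain ⟨ε, Z, hε, hZ⟩ := rank_one K (by simpa using hS) w₁
    refine ⟨((ε : 𝓞 K) : K), Units.coe_ne_zero ε, fun v _ => fp_unit ε v, hε, ?_⟩
    intro c C hc hc1 hC1
    obtain ⟨𝒞, h𝒞0, h𝒞⟩ := fin_mod_units K c C hc hc1 hC1
    refine ⟨(𝒞 ×ˢ Z).image (fun p => p.1 * ((p.2 : 𝓞 K) : K)), ?_, ?_⟩
    · intro x hx
      rw [Finset.mem_image] at hx
      obtain ⟨⟨a, z⟩, ha, rfl⟩ := hx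
      rw [Finset.mem_product] at ha
      exact mul_ne_zero (h𝒞0 a ha.1) (Units.coe_ne_zero z)
    · intro y hy0 hy
      obtain ⟨x, hx, u, hu⟩ := h𝒞 y hy0 (fun v => hy v (Finset.notMem_empty v))
      obtain ⟨z, hz, q, hq⟩ := hZ u
      refine ⟨x * ((z : 𝓞 K) : K), ?_, q, ?_⟩
      · rw [Finset.mem_image]
        exact ⟨(x, z), Finset.mem_product.2 ⟨hx, hz⟩, rfl⟩
      · rw [hu, hq, mul_assoc]
        congr 1
        rw [← Units.coe_zpow, ← Units.coe_mul]
  · have hS1 : S.card = 1 := by omega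
    have hI1 : Fintype.card (InfinitePlace K) = 1 := by omega
    obtain ⟨v₀, rfl⟩ := Finset.card_eq_one.1 hS1
    obtain ⟨π, hπ0, hπ1, hπ⟩ := exists_gen K v₀
    obtain ⟨Z, hZ⟩ := rank_zero K hI1
    have hv0 : 0 < v₀ π := FinitePlace.pos_iff.2 hπ0
    have hprod : w₁ π ^ w₁.mult * v₀ π = 1 := by
      have h := prod_abs_eq_one hπ0
      rw [finprod_eq_single (fun v : FinitePlace K => v π) v₀ hπ] at h
      have huniv : (Finset.univ : Finset (InfinitePlace K)) = {w₁} := by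
        symm
        apply Finset.eq_of_subset_of_card_le (Finset.subset_univ _)
        rw [Finset.card_univ, hI1, Finset.card_singleton]
      rw [huniv, Finset.prod_singleton] at h
      exact h
    have hw1 : 1 < w₁ π := by
      by_contra hcon
      have h1 : w₁ π ^ w₁.mult ≤ 1 := pow_le_one₀ (apply_nonneg w₁ _) (not_lt.1 hcon)
      have h2 : w₁ π ^ w₁.mult * v₀ π < 1 := by nlinarith
      linarith
    refine ⟨π, hπ0, fun v hv => hπ v (by simpa using hv), hw1, ?_⟩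
    intro c C hc hc1 hC1
    have hb : 1 < (v₀ π)⁻¹ := (one_lt_inv₀ hv0).2 hπ1
    obtain ⟨𝒞, h𝒞0, h𝒞⟩ := fin_mod_units K (Function.update c v₀ 1)
      (Function.update C v₀ (v₀ π)⁻¹) (by
        intro v
        by_cases hv : v = v₀
        · subst hv; simp
        · rw [Function.update_of_ne hv]; exact hc v)
      (by
        refine hc1.subset ?_
        intro v hv
        by_cases hv' : v = v₀
        · subst hv'; simp at hv
        · simpa [Function.update_of_ne hv'] using hv)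
      (by
        refine (hC1.union (Set.finite_singleton v₀)).subset ?_
        intro v hv
        by_cases hv' : v = v₀
        · right; exact hv'
        · left; simpa [Function.update_of_ne hv'] using hv)
    refine ⟨(𝒞 ×ˢ Z).image (fun p => p.1 * ((p.2 : 𝓞 K) : K)), ?_, ?_⟩
    · intro x hx
      rw [Finset.mem_image] at hx
      obtain ⟨⟨a, z⟩, ha, rfl⟩ := hx
      rw [Finset.mem_product] at ha
      exact mul_ne_zero (h𝒞0 a ha.1) (Units.coe_ne_zero z)
    · intro y hy0 hy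
      obtain ⟨n, hn1, hn2⟩ := exists_mem_Ico_zpow (FinitePlace.pos_iff.2 hy0 : 0 < v₀ y) hb
      have hy'0 : y * π ^ n ≠ 0 := mul_ne_zero hy0 (zpow_ne_zero _ hπ0)
      obtain ⟨x, hx, u, hu⟩ := h𝒞 (y * π ^ n) hy'0 (by
        intro v
        by_cases hv : v = v₀
        · subst hv
          rw [Function.update_self, Function.update_self, map_mul, map_zpow₀]
          have hzp : 0 < (v π) ^ n := zpow_pos hv0 n
          rw [inv_zpow] at hn1
          rw [inv_zpow, zpow_add_one₀ hv0.ne'] at hn2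
          constructor
          · rw [inv_le_iff_one_le_mul₀ hzp] at hn1
            exact hn1
          · have h3 : v y * v π ^ n < (v π ^ n * v π)⁻¹ * v π ^ n :=
              mul_lt_mul_of_pos_right hn2 hzp
            have h4 : (v π ^ n * v π)⁻¹ * v π ^ n = (v π)⁻¹ := by
              field_simp
            rw [h4] at h3
            exact h3.le
        · rw [Function.update_of_ne hv, Function.update_of_ne hv, map_mul, map_zpow₀, hπ v hv,
            one_zpow, mul_one]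
          exact hy v (by simpa using hv))
      refine ⟨x * ((u : 𝓞 K) : K), ?_, -n, ?_⟩
      · rw [Finset.mem_image]
        exact ⟨(x, u), Finset.mem_product.2 ⟨hx, hZ u⟩, rfl⟩
      · rw [← hu, mul_assoc, ← zpow_add₀ hπ0, add_neg_cancel, zpow_zero, mul_one]

end Pool.Agent.Helper5.Sub
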