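import Mathlib
import Pool.Agent.Helper12.Circ.Defs

/-!
Conductances by minimisation of `log det` (MP_4c807e_co, module CIRC-COND).
-/

namespace Pool.Agent.Circ

open Matrix Finset

namespace Cond

section greedy
variable {ι : Type*} {E : Type*} [AddCommGroup E] [Module ℝ E]

theorem card_of_indep (c : ι → E) (T : Finset ι) (h : LinearIndepOn ℝ c (T : Set ι)) :
    Module.finrank ℝ (Submodule.span ℝ (c '' (T : Set ι))) = T.card := by
  have h1 : LinearIndependent ℝ (fun e : T => c e) := h
  have h2 := finrank_span_eq_card h1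
  rw [Fintype.card_coe] at h2
  have h3 : c '' (T : Set ι) = Set.range (fun e : T => c e) := by
    ext x
    simp
  rw [h3]
  exact h2

/-- The greedy basis of `F` with respect to the weights `s`. -/
theorem greedy (c : ι → E) (α : ι → ℝ) (κ : ℝ) (hκ : 0 ≤ κ)
    (hrank : ∀ F : Finset ι, F.Nonempty →
      ∑ e ∈ F, α e + κ ≤ Module.finrank ℝ (Submodule.span ℝ (c '' (F : Set ι))))
    (s : ι → ℝ) (F : Finset ι) :
    ∃ T ⊆ F, LinearIndepOn ℝ c (T : Set ι) ∧
      c '' (F : Set ι) ⊆ Submodule.span ℝ (c '' (T : Set ι)) ∧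
      (∀ m, (∀ e ∈ F, m ≤ s e) → ∑ e ∈ F, α e * (s e - m) ≤ ∑ e ∈ T, (s e - m)) ∧
      (∀ m, (∀ e ∈ F, m ≤ s e) → ∀ e0 ∈ F,
        ∑ e ∈ F, α e * (s e - m) + κ * (s e0 - m) ≤ ∑ e ∈ T, (s e - m)) := by
  classical
  induction F using Finset.induction_on_min_value s with
  | empty =>
    exact ⟨∅, by simp, by simp, by simp, by simp, by simp⟩
  | insert a F' haF hmin ih =>
    obtain ⟨T', hT'F, hli, hsp, h1, h2⟩ := ih
    -- the new basis
    obtain ⟨T, hTF, hTli, hTsp, hTT'⟩ : ∃ T ⊆ insert a F', LinearIndepOn ℝ c (T : Set ι) ∧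
        c '' ((insert a F' : Finset ι) : Set ι) ⊆ Submodule.span ℝ (c '' (T : Set ι)) ∧
        (T = T' ∨ (a ∉ T' ∧ T = insert a T')) := by
      by_cases ha : c a ∈ Submodule.span ℝ (c '' (T' : Set ι))
      · refine ⟨T', hT'F.trans (Finset.subset_insert _ _), hli, ?_, Or.inl rfl⟩
        rw [Finset.coe_insert, Set.image_insert_eq]
        exact Set.insert_subset ha hsp
      · refine ⟨insert a T', Finset.insert_subset_insert _ hT'F, ?_, ?_,
          Or.inr ⟨fun h => haF (hT'F h), rfl⟩⟩
        · rw [Finset.coe_insert]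
          exact hli.insert ha
        · rw [Finset.coe_insert, Set.image_insert_eq]
          refine Set.insert_subset (Submodule.subset_span ?_) (hsp.trans ?_)
          · exact ⟨a, by simp, rfl⟩
          · exact Submodule.span_mono (Set.image_mono (by simp))
    -- sums over `T`
    have hsumT : ∑ e ∈ T, (s e - s a) = ∑ e ∈ T', (s e - s a) := by
      rcases hTT' with rfl | ⟨h, rfl⟩
      · rfl
      · rw [Finset.sum_insert h]; simp
    have hcard : ∑ e ∈ insert a F', α e + κ ≤ (T.card : ℝ) := by
      refine (hrank _ (Finset.insert_nonempty _ _)).trans ?_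
      rw [← card_of_indep c T hTli]
      have : Submodule.span ℝ (c '' ((insert a F' : Finset ι) : Set ι)) ≤
          Submodule.span ℝ (c '' (T : Set ι)) := Submodule.span_le.2 hTsp
      have hfin : Module.Finite ℝ (Submodule.span ℝ (c '' (T : Set ι))) :=
        Module.Finite.span_of_finite ℝ ((T.finite_toSet).image c)
      exact_mod_cast Submodule.finrank_mono this
    have hT (m : ℝ) : ∑ e ∈ T, (s e - m) = ∑ e ∈ T', (s e - s a) + (s a - m) * T.card := by
      rw [← hsumT, mul_comm, ← nsmul_eq_mul, ← Finset.sum_const, ← Finset.sum_add_distrib]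
      exact Finset.sum_congr rfl fun e _ => by ring
    have hF (m : ℝ) : ∑ e ∈ insert a F', α e * (s e - m) =
        ∑ e ∈ F', α e * (s e - s a) + (s a - m) * ∑ e ∈ insert a F', α e := by
      rw [Finset.sum_insert haF, Finset.sum_insert haF, mul_add, Finset.mul_sum]
      have : ∑ e ∈ F', α e * (s e - m) = ∑ e ∈ F', α e * (s e - s a) +
          ∑ e ∈ F', (s a - m) * α e := by
        rw [← Finset.sum_add_distrib]
        exact Finset.sum_congr rfl fun e _ => by ring
      rw [this]; ring
    refine ⟨T, hTF, hTli, hTsp, ?_, ?_⟩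
    · intro m hm
      have hma : 0 ≤ s a - m := sub_nonneg.2 (hm a (by simp))
      rw [hT, hF]
      have := h1 (s a) hmin
      nlinarith
    · intro m hm e0 he0
      have hma : 0 ≤ s a - m := sub_nonneg.2 (hm a (by simp))
      rw [hT, hF]
      rcases Finset.mem_insert.1 he0 with rfl | he0
      · have := h1 (s e0) hmin
        nlinarith
      · have := h2 (s a) hmin e0 he0
        nlinarith

end greedy

section lap
variable {V ι : Type*} [Fintype V]

/-- The weighted Laplacian. -/
noncomputable def Lap (c : ι → V → ℝ) (r : ι → ℝ) (G : Finset ι) : Matrix V V ℝ :=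
  ∑ e ∈ G, r e • vecMulVec (c e) (c e)

theorem quad (c : ι → V → ℝ) (r : ι → ℝ) (G : Finset ι) (y : V → ℝ) :
    y ⬝ᵥ (Lap c r G *ᵥ y) = ∑ e ∈ G, r e * (c e ⬝ᵥ y) ^ 2 := by
  unfold Lap
  rw [Matrix.sum_mulVec, dotProduct_sum]
  refine Finset.sum_congr rfl fun e _ => ?_
  have h1 : vecMulVec (c e) (c e) *ᵥ y = (c e ⬝ᵥ y) • c e := by
    ext i
    simp only [mulVec, dotProduct, vecMulVec_apply, Pi.smul_apply, smul_eq_mul, Finset.sum_mul]
    exact Finset.sum_congr rfl fun j _ => by ring
  rw [Matrix.smul_mulVec, h1, dotProduct_smul, dotProduct_smul, dotProduct_comm y (c e),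
    smul_eq_mul, smul_eq_mul]
  ring

omit [Fintype V] in
theorem isHermitian (c : ι → V → ℝ) (r : ι → ℝ) (G : Finset ι) : (Lap c r G).IsHermitian := by
  unfold Lap Matrix.IsHermitian
  rw [Matrix.conjTranspose_sum]
  refine Finset.sum_congr rfl fun e _ => ?_
  ext i j
  simp [vecMulVec_apply, mul_comm]

theorem posDef (c : ι → V → ℝ) (r : ι → ℝ) (G : Finset ι) (hr : ∀ e ∈ G, 0 < r e)
    (hspan : Submodule.span ℝ (c '' (G : Set ι)) = ⊤) : (Lap c r G).PosDef := by
  refine PosDef.of_dotProduct_mulVec_pos (isHermitian c r G) fun x hx => ?_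
  rw [star_trivial, quad]
  have hnn : ∀ e ∈ G, 0 ≤ r e * (c e ⬝ᵥ x) ^ 2 := fun e he =>
    mul_nonneg (hr e he).le (sq_nonneg _)
  refine lt_of_le_of_ne (Finset.sum_nonneg hnn) fun h0 => hx ?_
  have h1 := (Finset.sum_eq_zero_iff_of_nonneg hnn).1 h0.symm
  have h2 : ∀ e ∈ G, c e ⬝ᵥ x = 0 := by
    intro e he
    have := h1 e he
    have h3 := (mul_eq_zero.1 this).resolve_left (hr e he).ne'
    exact pow_eq_zero_iff (two_ne_zero) |>.1 h3
  have h3 : ∀ z ∈ Submodule.span ℝ (c '' (G : Set ι)), z ⬝ᵥ x = 0 := by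
    intro z hz
    induction hz using Submodule.span_induction with
    | mem z hz =>
      obtain ⟨e, he, rfl⟩ := hz
      exact h2 e he
    | zero => simp
    | add z w _ _ hz hw => rw [add_dotProduct, hz, hw, add_zero]
    | smul a z _ hz => rw [smul_dotProduct, hz, smul_zero]
  have h4 := h3 x (by rw [hspan]; trivial)
  exact dotProduct_self_eq_zero.1 h4

variable [DecidableEq V]

theorem det_add_rank_one (A : Matrix V V ℝ) (hA : IsUnit A.det) (t : ℝ) (u : V → ℝ) :
    (A + t • vecMulVec u u).det = A.det * (1 + t * (u ⬝ᵥ (A⁻¹ *ᵥ u))) := by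
  have h := Matrix.det_add_replicateCol_mul_replicateRow (ι := Unit) hA (t • u) u
  rw [← vecMulVec_eq, smul_vecMulVec] at h
  rw [h]
  congr 1
  rw [det_unique]
  simp only [Matrix.add_apply, Matrix.one_apply_eq]
  congr 1
  rw [Matrix.mul_assoc, Matrix.mul_apply]
  simp only [replicateRow_apply, Matrix.mul_apply, replicateCol_apply, dotProduct, mulVec,
    Pi.smul_apply, smul_eq_mul, Finset.mul_sum]
  refine Finset.sum_congr rfl fun i _ => Finset.sum_congr rfl fun j _ => ?_
  ring

omit [Fintype V] [DecidableEq V] in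
theorem Lap_insert [DecidableEq ι] (c : ι → V → ℝ) (r : ι → ℝ) (G : Finset ι) (e : ι)
    (he : e ∉ G) : Lap c r (insert e G) = Lap c r G + r e • vecMulVec (c e) (c e) := by
  unfold Lap
  rw [Finset.sum_insert he, add_comm]

theorem det_mono [DecidableEq ι] (c : ι → V → ℝ) (r : ι → ℝ) (hr : ∀ e, 0 < r e) (T : Finset ι)
    (hspan : Submodule.span ℝ (c '' (T : Set ι)) = ⊤) (G : Finset ι) (hTG : T ⊆ G) :
    (Lap c r T).det ≤ (Lap c r G).det := by
  have key : ∀ H : Finset ι, Disjoint T H → (Lap c r T).det ≤ (Lap c r (T ∪ H)).det := by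
    intro H
    induction H using Finset.induction_on with
    | empty => simp
    | insert a H haH ih =>
      intro hd
      rw [Finset.disjoint_insert_right] at hd
      refine (ih hd.2).trans ?_
      rw [Finset.union_insert, Lap_insert c r _ a (by simp [hd.1, haH])]
      have hpd : (Lap c r (T ∪ H)).PosDef := posDef c r _ (fun e _ => hr e) (by
        rw [eq_top_iff, ← hspan]
        exact Submodule.span_mono (Set.image_mono (by simp)))
      have hdet := hpd.det_pos
      rw [det_add_rank_one _ (isUnit_iff_ne_zero.2 hdet.ne')]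
      have hnn : 0 ≤ c a ⬝ᵥ ((Lap c r (T ∪ H))⁻¹ *ᵥ c a) := by
        have := hpd.inv.posSemidef.dotProduct_mulVec_nonneg (c a)
        simpa using this
      have : 0 ≤ r a * (c a ⬝ᵥ ((Lap c r (T ∪ H))⁻¹ *ᵥ c a)) := mul_nonneg (hr a).le hnn
      nlinarith
  have := key (G \ T) Finset.disjoint_sdiff
  rwa [Finset.union_sdiff_of_subset hTG] at this

theorem det_basis (b : ι → V → ℤ) (r : ι → ℝ) (hr : ∀ e, 0 < r e) (T : Finset ι)
    (hli : LinearIndepOn ℝ (fun e (v : V) => (b e v : ℝ)) (T : Set ι))
    (hcard : T.card = Fintype.card V) :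
    ∏ e ∈ T, r e ≤ (Lap (fun e (v : V) => (b e v : ℝ)) r T).det := by
  classical
  have hc : Fintype.card V = Fintype.card T := by rw [Fintype.card_coe, hcard]
  let f : V ≃ T := Fintype.equivOfCardEq hc
  let M : Matrix V V ℤ := Matrix.of fun i j => b (f i) j
  let N : Matrix V V ℝ := Matrix.of fun i j => (b (f i) j : ℝ)
  have hN : N = M.map (Int.castRingHom ℝ) := by
    ext i j; simp [N, M]
  have hNdet : N.det = (M.det : ℝ) := by
    rw [hN]
    exact ((Int.castRingHom ℝ).map_det M).symm
  have hli' : LinearIndependent ℝ N.row := by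
    have h1 : LinearIndependent ℝ (fun e : T => (fun (v : V) => (b e v : ℝ))) := hli
    exact h1.comp f f.injective
  have hunit := Matrix.linearIndependent_rows_iff_isUnit.1 hli'
  have hne : N.det ≠ 0 := ((Matrix.isUnit_iff_isUnit_det N).1 hunit).ne_zero
  have hMne : M.det ≠ 0 := by
    intro h; rw [hNdet, h] at hne; simp at hne
  have h1 : (1 : ℝ) ≤ N.det ^ 2 := by
    rw [hNdet]
    have : (1 : ℤ) ≤ M.det ^ 2 := by
      have := sq_pos_of_ne_zero hMne
      omega
    exact_mod_cast this
  have hL : Lap (fun e (v : V) => (b e v : ℝ)) r T = Nᵀ * diagonal (fun i => r (f i)) * N := by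
    ext i j
    unfold Lap
    rw [Matrix.sum_apply, Matrix.mul_apply]
    simp only [Matrix.mul_diagonal, Matrix.smul_apply, vecMulVec_apply, smul_eq_mul,
      Matrix.transpose_apply]
    rw [← Finset.sum_coe_sort T, ← f.sum_comp]
    refine Finset.sum_congr rfl fun k _ => ?_
    simp only [N, Matrix.of_apply]
    ring
  have hP : ∏ e ∈ T, r e = ∏ i, r (f i) := by
    rw [← Finset.prod_coe_sort T, ← f.prod_comp]
  rw [hL, det_mul, det_mul, det_transpose, det_diagonal, hP]
  have hpos : 0 < ∏ i, r (f i : ι) := Finset.prod_pos fun i _ => hr _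
  nlinarith

end lap

section main
variable {V ι : Type*} [Fintype V] [Fintype ι] [DecidableEq V]

/-- The functional, in logarithmic coordinates. -/
noncomputable def Phi (c : ι → V → ℝ) (α : ι → ℝ) (s : ι → ℝ) : ℝ :=
  Real.log (Lap c (fun e => Real.exp (s e)) univ).det - ∑ e, α e * s e + ∑ e, Real.exp (-s e)

theorem Phi_continuous (c : ι → V → ℝ) (α : ι → ℝ)
    (hspan : Submodule.span ℝ (c '' ((univ : Finset ι) : Set ι)) = ⊤) :
    Continuous (Phi c α) := by
  unfold Phi
  have h1 : Continuous fun s : ι → ℝ => (Lap c (fun e => Real.exp (s e)) univ).det := by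
    apply Continuous.matrix_det
    unfold Lap
    refine continuous_finsetSum _ fun e _ => ?_
    exact Continuous.smul (Real.continuous_exp.comp (continuous_apply e)) continuous_const
  refine ((h1.log fun s => ?_).sub ?_).add ?_
  · exact (posDef c _ _ (fun e _ => Real.exp_pos _) hspan).det_pos.ne'
  · exact continuous_finsetSum _ fun e _ => continuous_const.mul (continuous_apply e)
  · exact continuous_finsetSum _ fun e _ => Real.continuous_exp.comp (continuous_apply e).neg

theorem exp_sub (x : ℝ) (hx : 0 ≤ x) : x ≤ Real.exp x - x := by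
  have := Real.quadratic_le_exp_of_nonneg hx
  nlinarith [sq_nonneg (x - 1)]

theorem Phi_lower (b : ι → V → ℤ) (α : ι → ℝ) (hα : ∀ e, 0 ≤ α e) (κ : ℝ) (hκ : 0 < κ)
    (hrank : ∀ F : Finset ι, F.Nonempty →
      ∑ e ∈ F, α e + κ ≤ Module.finrank ℝ (Submodule.span ℝ
        ((fun e (v : V) => (b e v : ℝ)) '' (F : Set ι))))
    (hspan : Submodule.span ℝ ((fun e (v : V) => (b e v : ℝ)) '' ((univ : Finset ι) : Set ι)) = ⊤)
    (s : ι → ℝ) (e0 : ι) :
    min κ 1 * |s e0| ≤ Phi (fun e (v : V) => (b e v : ℝ)) α s := by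
  classical
  obtain ⟨T, -, hli, hsp, -, h2⟩ := greedy (fun e (v : V) => (b e v : ℝ)) α κ hκ.le hrank
    (fun e => max (s e) 0) univ
  have hspT : Submodule.span ℝ ((fun e (v : V) => (b e v : ℝ)) '' (T : Set ι)) = ⊤ := by
    rw [eq_top_iff, ← hspan]
    exact Submodule.span_le.2 hsp
  have hcard : T.card = Fintype.card V := by
    rw [← card_of_indep _ T hli, hspT, finrank_top, Module.finrank_fintype_fun_eq_card]
  have h3 := h2 0 (fun e _ => le_max_right _ _) e0 (mem_univ _)
  simp only [sub_zero] at h3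
  -- determinant bound
  have hdet : ∑ e ∈ T, s e ≤
      Real.log (Lap (fun e (v : V) => (b e v : ℝ)) (fun e => Real.exp (s e)) univ).det := by
    have h4 := det_basis b (fun e => Real.exp (s e)) (fun e => Real.exp_pos _) T hli hcard
    have h5 := det_mono (fun e (v : V) => (b e v : ℝ)) (fun e => Real.exp (s e))
      (fun e => Real.exp_pos _) T hspT univ (subset_univ _)
    rw [← Real.exp_sum] at h4
    exact (Real.le_log_iff_exp_le ((Real.exp_pos _).trans_le (h4.trans h5))).2 (h4.trans h5)
  have hT : ∑ e ∈ T, max (s e) 0 - ∑ e, max (-s e) 0 ≤ ∑ e ∈ T, s e := by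
    have h6 : ∑ e ∈ T, max (-s e) 0 ≤ ∑ e, max (-s e) 0 :=
      Finset.sum_le_sum_of_subset_of_nonneg (subset_univ _) fun e _ _ => le_max_right _ _
    have h7 : ∑ e ∈ T, s e = ∑ e ∈ T, max (s e) 0 - ∑ e ∈ T, max (-s e) 0 := by
      rw [← Finset.sum_sub_distrib]
      refine Finset.sum_congr rfl fun e _ => ?_
      rcases le_total 0 (s e) with h | h
      · rw [max_eq_left h, max_eq_right (by linarith)]; ring
      · rw [max_eq_right h, max_eq_left (by linarith)]; ring
    linarith
  have hα' : ∑ e, α e * s e ≤ ∑ e, α e * max (s e) 0 :=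
    Finset.sum_le_sum fun e _ => mul_le_mul_of_nonneg_left (le_max_left _ _) (hα e)
  have hterm : ∀ e, max (-s e) 0 ≤ Real.exp (-s e) - max (-s e) 0 := by
    intro e
    rcases le_total 0 (s e) with h | h
    · rw [max_eq_right (by linarith)]
      linarith [Real.exp_pos (-s e)]
    · rw [max_eq_left (by linarith)]
      exact exp_sub _ (by linarith)
  have hsum : max (-s e0) 0 ≤ ∑ e, (Real.exp (-s e) - max (-s e) 0) := by
    refine (hterm e0).trans ?_
    exact Finset.single_le_sum (f := fun e => Real.exp (-s e) - max (-s e) 0)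
      (fun e _ => (le_max_right _ _).trans (hterm e)) (mem_univ e0)
  rw [Finset.sum_sub_distrib] at hsum
  have hfin : κ * max (s e0) 0 + max (-s e0) 0 ≤ Phi (fun e (v : V) => (b e v : ℝ)) α s := by
    unfold Phi
    linarith
  refine le_trans ?_ hfin
  rcases le_total 0 (s e0) with h | h
  · rw [max_eq_left h, max_eq_right (by linarith), abs_of_nonneg h, add_zero]
    exact mul_le_mul_of_nonneg_right (min_le_left _ _) h
  · rw [max_eq_right h, max_eq_left (by linarith), abs_of_nonpos h, mul_zero, zero_add]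
    have : min κ 1 ≤ 1 := min_le_right _ _
    nlinarith

theorem exists_min (b : ι → V → ℤ) (α : ι → ℝ) (hα : ∀ e, 0 ≤ α e) (κ : ℝ) (hκ : 0 < κ)
    (hrank : ∀ F : Finset ι, F.Nonempty →
      ∑ e ∈ F, α e + κ ≤ Module.finrank ℝ (Submodule.span ℝ
        ((fun e (v : V) => (b e v : ℝ)) '' (F : Set ι))))
    (hspan : Submodule.span ℝ ((fun e (v : V) => (b e v : ℝ)) '' ((univ : Finset ι) : Set ι)) = ⊤)
    [Nonempty ι] :
    ∃ s : ι → ℝ, ∀ s', Phi (fun e (v : V) => (b e v : ℝ)) α s ≤
      Phi (fun e (v : V) => (b e v : ℝ)) α s' := by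
  have hm : 0 < min κ 1 := lt_min hκ one_pos
  apply (Phi_continuous _ α hspan).exists_forall_le
  have h1 : ∀ s : ι → ℝ, min κ 1 * ‖s‖ ≤ Phi (fun e (v : V) => (b e v : ℝ)) α s := by
    intro s
    have e0 : ι := Classical.arbitrary ι
    have h2 : 0 ≤ Phi (fun e (v : V) => (b e v : ℝ)) α s :=
      (by positivity : 0 ≤ min κ 1 * |s e0|).trans (Phi_lower b α hα κ hκ hrank hspan s e0)
    rw [mul_comm, ← le_div_iff₀ hm, pi_norm_le_iff_of_nonneg (by positivity)]
    intro e
    rw [le_div_iff₀ hm, mul_comm]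
    exact Phi_lower b α hα κ hκ hrank hspan s e
  refine Filter.tendsto_atTop_mono h1 ?_
  exact Filter.Tendsto.const_mul_atTop hm (tendsto_norm_cocompact_atTop)

omit [Fintype V] [DecidableEq V] in
theorem Lap_update [DecidableEq ι] (c : ι → V → ℝ) (r : ι → ℝ) (e : ι) (t : ℝ) :
    Lap c (Function.update r e (r e + t)) univ = Lap c r univ + t • vecMulVec (c e) (c e) := by
  unfold Lap
  rw [← Finset.add_sum_erase _ _ (mem_univ e), ← Finset.add_sum_erase (a := e) univ
    (fun e => r e • vecMulVec (c e) (c e)) (mem_univ e)]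
  have : ∑ x ∈ univ.erase e, Function.update r e (r e + t) x • vecMulVec (c x) (c x) =
      ∑ x ∈ univ.erase e, r x • vecMulVec (c x) (c x) := by
    refine Finset.sum_congr rfl fun x hx => ?_
    rw [Function.update_of_ne (Finset.ne_of_mem_erase hx)]
  rw [this, Function.update_self, add_smul]
  abel

end main

end Cond

/-- CIRC-COND. -/
theorem conduct {V ι : Type*} [Fintype V] [Fintype ι] (b : ι → V → ℤ) (α : ι → ℝ)
    (hα : ∀ e, 0 ≤ α e)
    (hspan : Submodule.span ℝ (Set.range fun e (v : V) => (b e v : ℝ)) = ⊤)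
    (hrank : ∀ F : Finset ι, F.Nonempty →
      ∑ e ∈ F, α e < Module.finrank ℝ (Submodule.span ℝ ((fun e (v : V) => (b e v : ℝ)) '' F))) :
    ∃ r : ι → ℝ, (∀ e, 0 < r e) ∧ ∀ e, ∃ y : V → ℝ,
      α e * ∑ f, r f * (∑ v, (b f v : ℝ) * y v) ^ 2 < r e * (∑ v, (b e v : ℝ) * y v) ^ 2 := by
  classical
  rcases isEmpty_or_nonempty ι with hι | hι
  · exact ⟨fun _ => 1, fun e => one_pos, fun e => hι.elim e⟩
  -- the gap
  obtain ⟨κ, hκ, hκr⟩ : ∃ κ : ℝ, 0 < κ ∧ ∀ F : Finset ι, F.Nonempty →
      ∑ e ∈ F, α e + κ ≤ Module.finrank ℝ (Submodule.span ℝ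
        ((fun e (v : V) => (b e v : ℝ)) '' (F : Set ι))) := by
    have hne : (univ.filter fun F : Finset ι => F.Nonempty).Nonempty :=
      ⟨univ, by simp [univ_nonempty]⟩
    obtain ⟨F0, hF0, hmin⟩ := Finset.exists_min_image (univ.filter fun F : Finset ι => F.Nonempty)
      (fun F => (Module.finrank ℝ (Submodule.span ℝ
        ((fun e (v : V) => (b e v : ℝ)) '' (F : Set ι))) : ℝ) - ∑ e ∈ F, α e) hne
    refine ⟨(Module.finrank ℝ (Submodule.span ℝ
        ((fun e (v : V) => (b e v : ℝ)) '' (F0 : Set ι))) : ℝ) - ∑ e ∈ F0, α e,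
        sub_pos.2 (hrank F0 (by simpa using hF0)), fun F hF => ?_⟩
    have := hmin F (by simpa using hF)
    linarith
  have hspan' : Submodule.span ℝ ((fun e (v : V) => (b e v : ℝ)) '' ((univ : Finset ι) : Set ι))
      = ⊤ := by
    rw [Finset.coe_univ, Set.image_univ]; exact hspan
  obtain ⟨s, hs⟩ := Cond.exists_min b α hα κ hκ hκr hspan'
  set c : ι → V → ℝ := fun e v => (b e v : ℝ) with hc
  have hpd : (Cond.Lap c (fun e => Real.exp (s e)) univ).PosDef :=
    Cond.posDef c _ _ (fun e _ => Real.exp_pos _) hspan'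
  have hdet := hpd.det_pos
  refine ⟨fun e => Real.exp (s e), fun e => Real.exp_pos _, fun e => ?_⟩
  set L := Cond.Lap c (fun e => Real.exp (s e)) univ with hL
  set y : V → ℝ := L⁻¹ *ᵥ c e with hy
  set R : ℝ := c e ⬝ᵥ y with hR
  have hRnn : 0 ≤ R := by
    have := hpd.inv.posSemidef.dotProduct_mulVec_nonneg (c e)
    simpa using this
  have hLy : L *ᵥ y = c e := by
    rw [hy, Matrix.mulVec_mulVec, Matrix.mul_nonsing_inv _ (isUnit_iff_ne_zero.2 hdet.ne'),
      Matrix.one_mulVec]
  have hq : ∑ f, Real.exp (s f) * (∑ v, (b f v : ℝ) * y v) ^ 2 = R := by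
    have := Cond.quad c (fun e => Real.exp (s e)) univ y
    rw [← hL, hLy, dotProduct_comm] at this
    rw [hR, this]
    rfl
  have hce : ∑ v, (b e v : ℝ) * y v = R := rfl
  have key : α e < Real.exp (s e) * R := by
    by_contra hcon
    push Not at hcon
    have hre := Real.exp_pos (s e)
    set t : ℝ := 1 / (α e + 1) with ht
    have hαe := hα e
    have ht0 : 0 < t := by positivity
    have hret : 0 < Real.exp (s e) + t := by positivity
    have h1 := hs (Function.update s e (Real.log (Real.exp (s e) + t)))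
    have hupd : (fun f => Real.exp (Function.update s e (Real.log (Real.exp (s e) + t)) f)) =
        Function.update (fun f => Real.exp (s f)) e (Real.exp (s e) + t) := by
      funext f
      rcases eq_or_ne f e with rfl | hfe
      · simp [Real.exp_log hret]
      · simp [Function.update_of_ne hfe]
    have hlap := Cond.Lap_update c (fun f => Real.exp (s f)) e t
    have hlog : Real.log (Cond.Lap c (fun f => Real.exp (Function.update s e
        (Real.log (Real.exp (s e) + t)) f)) univ).det = Real.log L.det + Real.log (1 + t * R) := by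
      rw [hupd, hlap, ← hL, Cond.det_add_rank_one _ (isUnit_iff_ne_zero.2 hdet.ne')]
      exact Real.log_mul hdet.ne' (by positivity)
    have hsum1 : ∑ f, α f * Function.update s e (Real.log (Real.exp (s e) + t)) f =
        ∑ f, α f * s f + α e * (Real.log (Real.exp (s e) + t) - s e) := by
      rw [← Finset.add_sum_erase _ _ (mem_univ e), ← Finset.add_sum_erase (a := e) univ
        (fun f => α f * s f) (mem_univ e)]
      have : ∑ x ∈ univ.erase e, α x * Function.update s e (Real.log (Real.exp (s e) + t)) x =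
          ∑ x ∈ univ.erase e, α x * s x := by
        refine Finset.sum_congr rfl fun x hx => ?_
        rw [Function.update_of_ne (Finset.ne_of_mem_erase hx)]
      rw [this, Function.update_self]
      ring
    have hsum2 : ∑ f, Real.exp (-Function.update s e (Real.log (Real.exp (s e) + t)) f) =
        ∑ f, Real.exp (-s f) + (1 / (Real.exp (s e) + t) - 1 / Real.exp (s e)) := by
      rw [← Finset.add_sum_erase _ _ (mem_univ e), ← Finset.add_sum_erase (a := e) univ
        (fun f => Real.exp (-s f)) (mem_univ e)]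
      have : ∑ x ∈ univ.erase e,
          Real.exp (-Function.update s e (Real.log (Real.exp (s e) + t)) x) =
          ∑ x ∈ univ.erase e, Real.exp (-s x) := by
        refine Finset.sum_congr rfl fun x hx => ?_
        rw [Function.update_of_ne (Finset.ne_of_mem_erase hx)]
      rw [this, Function.update_self, Real.exp_neg, Real.exp_log hret, Real.exp_neg]
      ring
    unfold Cond.Phi at h1
    rw [hlog, hsum1, hsum2, ← hL] at h1
    -- analytic contradiction
    have h2 : Real.log (1 + t * R) ≤ t * R := by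
      have := Real.log_le_sub_one_of_pos (show 0 < 1 + t * R by positivity)
      linarith
    have h3 : t / (Real.exp (s e) + t) ≤ Real.log (Real.exp (s e) + t) - s e := by
      have h4 := Real.one_sub_inv_le_log_of_pos (show 0 < (Real.exp (s e) + t) / Real.exp (s e) by
        positivity)
      rw [Real.log_div hret.ne' hre.ne', Real.log_exp] at h4
      refine le_trans (le_of_eq ?_) h4
      field_simp
      ring
    have h5 : t * R ≤ t * (α e / Real.exp (s e)) := by
      refine mul_le_mul_of_nonneg_left ?_ ht0.le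
      rw [le_div_iff₀ hre]
      linarith
    have h6 : α e * (t / (Real.exp (s e) + t)) ≤ α e * (Real.log (Real.exp (s e) + t) - s e) :=
      mul_le_mul_of_nonneg_left h3 hαe
    have h7 : t * (α e / Real.exp (s e)) - α e * (t / (Real.exp (s e) + t)) +
        (1 / (Real.exp (s e) + t) - 1 / Real.exp (s e)) =
        t * (α e * t - 1) / (Real.exp (s e) * (Real.exp (s e) + t)) := by
      field_simp
      ring
    have h8 : α e * t < 1 := by
      rw [ht, mul_one_div, div_lt_one (by positivity)]
      linarith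
    have h9 : t * (α e * t - 1) / (Real.exp (s e) * (Real.exp (s e) + t)) < 0 := by
      apply div_neg_of_neg_of_pos
      · nlinarith
      · positivity
    linarith
  refine ⟨y, ?_⟩
  rw [hq, hce]
  have hRpos : 0 < R := by
    rcases hRnn.eq_or_lt with h | h
    · rw [← h, mul_zero] at key
      exact absurd key (not_lt.2 (hα e))
    · exact h
  nlinarith

end Pool.Agent.Circ
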