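import Mathlib

set_option autoImplicit false

namespace Pool.Agent.Helper5

open Real

/-- choice of the parameters -/
theorem numeric (k : ℕ) (hk : 1 ≤ k) (ε : ℝ) (hε : 0 < ε) :
    ∃ c : ℝ, 0 < c ∧ ∃ n₀ : ℕ, 2 ≤ n₀ ∧ ∀ n : ℕ, n₀ ≤ n → ∀ s r : ℕ,
      (s : ℝ) * log (log n) ≤ c * log n → (r : ℝ) ≤ c * log n →
      ∃ K j₀ ℓ : ℕ, 2 ≤ K ∧ n ^ k < 2 ^ j₀ ∧ n ^ k < K ^ (ℓ + 1) ∧ 1 ≤ j₀ ∧
      (8 * (4 * (k:ℝ) * (s + 1)) ^ s * (2 * (s * (K * j₀) + (K * j₀) * (K * j₀))) ^ s *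
        2 ^ (3 * (k * (s + r))) * ((ℓ : ℝ) + 1) ^ s * 2 ^ ℓ) ≤ (n : ℝ) ^ (ε / k) := by
  have hk0 : (0 : ℝ) < k := by exact_mod_cast hk
  have hk1 : (1 : ℝ) ≤ k := by exact_mod_cast hk
  obtain ⟨C₀, hC₀⟩ := exists_nat_gt (4 * (k : ℝ) / ε)
  have hC₀pos : (0 : ℝ) < C₀ := lt_trans (by positivity) hC₀
  have hC₀1 : 1 ≤ C₀ := by exact_mod_cast hC₀pos
  have hC₀1' : (1 : ℝ) ≤ C₀ := by exact_mod_cast hC₀1
  set c : ℝ := min (1 / 2) (ε / (2 * k * (10 + 6 * k + k * C₀))) with hc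
  have hcpos : 0 < c := by
    rw [hc]; apply lt_min (by norm_num); positivity
  have hc2 : c ≤ 1 / 2 := min_le_left _ _
  have hc3 : c * (10 + 6 * k + k * C₀) ≤ ε / (2 * k) := by
    have h1 : c ≤ ε / (2 * k * (10 + 6 * k + k * C₀)) := min_le_right _ _
    calc c * (10 + 6 * k + k * C₀)
        ≤ ε / (2 * k * (10 + 6 * k + k * C₀)) * (10 + 6 * k + k * C₀) :=
          mul_le_mul_of_nonneg_right h1 (by positivity)
      _ = ε / (2 * k) := by
          field_simp
  clear_value c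
  set x₀ : ℝ := 128 * k ^ 2 + k * C₀ + k * C₀ / c + 3 / c + 3 with hx₀
  obtain ⟨n₀, hn₀⟩ := exists_nat_gt (exp x₀)
  refine ⟨c, hcpos, max n₀ 2, le_max_right _ _, ?_⟩
  intro n hn s r hs hr
  have hnn : exp x₀ ≤ n := by
    have : (n₀ : ℝ) ≤ n := by exact_mod_cast (le_max_left _ _).trans hn
    linarith
  have hnpos : (0 : ℝ) < n := lt_of_lt_of_le (exp_pos _) hnn
  set x := log n with hx
  have hxx : x₀ ≤ x := by rw [hx]; exact (le_log_iff_exp_le hnpos).mpr hnn
  have hnx : (n : ℝ) = exp x := by rw [hx, exp_log hnpos]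
  have e1 : 0 ≤ 128 * (k:ℝ) ^ 2 := by positivity
  have e2 : 0 ≤ k * (C₀:ℝ) := by positivity
  have e3 : 0 ≤ k * (C₀:ℝ) / c := by positivity
  have e4 : 0 ≤ 3 / c := by positivity
  have hx3 : 3 ≤ x := by linarith
  have hx128 : 128 * (k:ℝ) ^ 2 ≤ x := by linarith
  have hxkC : k * (C₀:ℝ) ≤ x := by linarith
  have hxkCc : k * (C₀:ℝ) ≤ c * x := by
    have : k * (C₀:ℝ) / c ≤ x := by linarith
    rw [div_le_iff₀ hcpos] at this
    linarith
  have hx3c : 3 ≤ c * x := by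
    have : 3 / c ≤ x := by linarith
    rw [div_le_iff₀ hcpos] at this
    linarith
  have hxpos : 0 < x := by linarith
  clear_value x₀
  set y := log x with hy
  have hxy : x = exp y := by rw [hy, exp_log hxpos]
  have hy1 : 1 ≤ y := by
    rw [hy, le_log_iff_exp_le hxpos]
    exact (exp_one_lt_d9.le.trans (by norm_num)).trans hx3
  have hs1 : (s : ℝ) ≤ c * x := by
    calc (s : ℝ) = s * 1 := by ring
      _ ≤ s * y := mul_le_mul_of_nonneg_left hy1 (Nat.cast_nonneg _)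
      _ ≤ c * x := hs
  have hsx : (s : ℝ) + 1 ≤ x := by
    have : c * x ≤ 1 / 2 * x := mul_le_mul_of_nonneg_right hc2 hxpos.le
    linarith
  have hk4 : 4 * (k:ℝ) ≤ x := by
    have : (k:ℝ) * 1 ≤ k * k := mul_le_mul_of_nonneg_left hk1 hk0.le
    have h2 : (k:ℝ) ^ 2 = k * k := by ring
    rw [h2] at hx128
    linarith
  clear_value y
  set B : ℕ := C₀ * (s + 1) with hB
  have hBpos : 0 < B := by rw [hB]; positivity
  have hBr : (B : ℝ) = C₀ * (s + 1) := by rw [hB]; push_cast; ring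
  have hBpos' : (0 : ℝ) < B := by exact_mod_cast hBpos
  set K : ℕ := ⌊(exp (x / B))⌋₊ + 1 with hK
  have hKlow : exp (x / B) < K := by rw [hK]; push_cast; exact Nat.lt_floor_add_one _
  have hexp1 : 1 ≤ exp (x / B) := one_le_exp (by positivity)
  have hKup : (K : ℝ) ≤ 2 * exp (x / B) := by
    rw [hK]; push_cast
    have := Nat.floor_le (exp_pos (x / B)).le
    linarith
  have hK2 : 2 ≤ K := by
    rw [hK]
    have : 1 ≤ ⌊(exp (x / B))⌋₊ := Nat.le_floor (by simpa using hexp1)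
    omega
  set j₀ : ℕ := 2 * k * (⌊x⌋₊ + 1) with hj₀
  have hfl : x < (⌊x⌋₊ : ℝ) + 1 := Nat.lt_floor_add_one _
  have hfl2 : (⌊x⌋₊ : ℝ) ≤ x := Nat.floor_le hxpos.le
  have hj₀r : (j₀ : ℝ) = 2 * k * (⌊x⌋₊ + 1) := by rw [hj₀]; push_cast; ring
  have hj₀up : (j₀ : ℝ) ≤ 4 * k * x := by
    rw [hj₀r]
    have h1 : (⌊x⌋₊ : ℝ) + 1 ≤ 2 * x := by linarith
    have h2 := mul_le_mul_of_nonneg_left h1 (by positivity : (0:ℝ) ≤ 2 * k)
    linarith
  have hj₀1 : 1 ≤ j₀ := by
    rw [hj₀]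
    have : 0 < 2 * k * (⌊x⌋₊ + 1) := by positivity
    omega
  set ℓ : ℕ := k * B - 1 with hℓ
  have hkB : 1 ≤ k * B := Nat.one_le_iff_ne_zero.mpr (by positivity)
  have hℓ1 : ℓ + 1 = k * B := by omega
  clear_value ℓ j₀ K B
  refine ⟨K, j₀, ℓ, hK2, ?_, ?_, hj₀1, ?_⟩
  · -- n^k < 2^j₀
    have : ((n ^ k : ℕ) : ℝ) < ((2 ^ j₀ : ℕ) : ℝ) := by
      push_cast
      rw [hnx, ← exp_nat_mul]
      have h2 : (2 : ℝ) ^ j₀ = exp (j₀ * log 2) := by
        rw [mul_comm, ← rpow_def_of_pos (by norm_num : (0:ℝ) < 2), rpow_natCast]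
      rw [h2, exp_lt_exp, hj₀r]
      have hl2 : (1 : ℝ) / 2 ≤ log 2 := by
        have := log_two_gt_d9; linarith
      have h3 : k * x < k * ((⌊x⌋₊ : ℝ) + 1) := mul_lt_mul_of_pos_left hfl hk0
      have h4 : 0 ≤ 2 * k * ((⌊x⌋₊ : ℝ) + 1) := by positivity
      calc k * x < k * ((⌊x⌋₊ : ℝ) + 1) := h3
        _ = 2 * k * ((⌊x⌋₊ : ℝ) + 1) * (1 / 2) := by ring
        _ ≤ 2 * k * ((⌊x⌋₊ : ℝ) + 1) * log 2 := mul_le_mul_of_nonneg_left hl2 h4
    exact_mod_cast this
  · -- n^k < K^(ℓ+1)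
    have h1 : (n : ℝ) < ((K ^ B : ℕ) : ℝ) := by
      push_cast
      calc (n : ℝ) = exp (x / B) ^ B := by
            rw [← exp_nat_mul, hnx]; congr 1; field_simp
        _ < (K : ℝ) ^ B := pow_lt_pow_left₀ hKlow (exp_pos _).le hBpos.ne'
    have h2 : n < K ^ B := by exact_mod_cast h1
    calc n ^ k < (K ^ B) ^ k := Nat.pow_lt_pow_left h2 (by omega)
      _ = K ^ (ℓ + 1) := by
          rw [hℓ1, mul_comm k B]
          exact (pow_mul K B k).symm
  · -- the main bound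
    have hs0 : (0:ℝ) ≤ s := Nat.cast_nonneg _
    have hr0 : (0:ℝ) ≤ r := Nat.cast_nonneg _
    have powexp : ∀ (t a : ℝ) (m : ℕ), 0 ≤ t → t ≤ exp a → t ^ m ≤ exp (m * a) := by
      intro t a m ht hta
      rw [exp_nat_mul]
      exact pow_le_pow_left₀ ht hta m
    have h2e : (2 : ℝ) ≤ exp 1 := by
      have := exp_one_gt_d9; linarith
    -- factor 1
    have f1 : (8 : ℝ) ≤ exp (c * x) := by
      calc (8 : ℝ) = 2 ^ 3 := by norm_num
        _ ≤ exp (3 * 1) := by
            have := powexp 2 1 3 (by norm_num) h2e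
            simpa using this
        _ ≤ exp (c * x) := exp_le_exp.mpr (by linarith)
    -- factor 2
    have hxsq : x ^ 2 = exp (2 * y) := by
      have h : x ^ 2 = exp y ^ 2 := by rw [← hxy]
      rw [h, ← exp_nat_mul]; norm_num
    have f2 : (4 * (k:ℝ) * (s + 1)) ^ s ≤ exp (2 * c * x) := by
      have h1 : 4 * (k:ℝ) * (s + 1) ≤ exp (2 * y) := by
        rw [← hxsq, sq]
        exact mul_le_mul hk4 hsx (by positivity) hxpos.le
      refine (powexp _ _ s (by positivity) h1).trans (exp_le_exp.mpr ?_)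
      linarith
    -- factor 3
    have f3 : (2 * ((s:ℝ) * (K * j₀) + (K * j₀) * (K * j₀))) ^ s ≤ exp (4 * c * x + 2 * x / C₀) := by
      have hKj1 : (1:ℝ) ≤ K * j₀ := by
        have h1 : (1:ℝ) ≤ K := by exact_mod_cast (by omega : 1 ≤ K)
        have h2 : (1:ℝ) ≤ j₀ := by exact_mod_cast hj₀1
        exact one_le_mul_of_one_le_of_one_le h1 h2
      have h1 : 2 * ((s:ℝ) * (K * j₀) + (K * j₀) * (K * j₀)) ≤ 2 * (s + 1) * (K * j₀) ^ 2 := by
        generalize (K:ℝ) * j₀ = t at hKj1 ⊢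
        have h2 : t ≤ t ^ 2 := by
          have := mul_le_mul_of_nonneg_left hKj1 (by linarith : (0:ℝ) ≤ t)
          calc t = t * 1 := by ring
            _ ≤ t * t := this
            _ = t ^ 2 := by ring
        have h3 := mul_le_mul_of_nonneg_left h2 hs0
        calc 2 * ((s:ℝ) * t + t * t) = 2 * (s * t) + 2 * t ^ 2 := by ring
          _ ≤ 2 * (s * t ^ 2) + 2 * t ^ 2 := by linarith
          _ = 2 * (s + 1) * t ^ 2 := by ring
      have h2 : (K:ℝ) * j₀ ≤ (2 * exp (x / B)) * (4 * k * x) := by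
        apply mul_le_mul hKup hj₀up (Nat.cast_nonneg _) (by positivity)
      have h3 : ((K:ℝ) * j₀) ^ 2 ≤ ((2 * exp (x / B)) * (4 * k * x)) ^ 2 :=
        pow_le_pow_left₀ (by positivity) h2 2
      have h4 : 2 * ((s:ℝ) * (K * j₀) + (K * j₀) * (K * j₀)) ≤ exp (4 * y + 2 * (x / B)) := by
        calc 2 * ((s:ℝ) * (K * j₀) + (K * j₀) * (K * j₀))
            ≤ 2 * (s + 1) * (K * j₀) ^ 2 := h1
          _ ≤ 2 * x * ((2 * exp (x / B)) * (4 * k * x)) ^ 2 := by
              apply mul_le_mul _ h3 (by positivity) (by positivity)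
              linarith
          _ = (128 * k ^ 2) * x ^ 3 * exp (x / B) ^ 2 := by ring
          _ ≤ x * x ^ 3 * exp (x / B) ^ 2 := by
              apply mul_le_mul_of_nonneg_right _ (by positivity)
              apply mul_le_mul_of_nonneg_right hx128 (by positivity)
          _ = exp (4 * y + 2 * (x / B)) := by
              rw [exp_add]
              congr 1
              · have : x * x ^ 3 = x ^ 4 := by ring
                rw [this]
                have h5 : x ^ 4 = exp y ^ 4 := by rw [← hxy]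
                rw [h5, ← exp_nat_mul]; norm_num
              · rw [← exp_nat_mul]; norm_num
      refine (powexp _ _ s (by positivity) h4).trans (exp_le_exp.mpr ?_)
      have h5 : (s:ℝ) * (x / B) ≤ x / C₀ := by
        rw [hBr]
        rw [mul_div_assoc', div_le_div_iff₀ (by positivity) hC₀pos]
        have := mul_pos hxpos hC₀pos
        linarith
      have h6 : (s:ℝ) * (4 * y + 2 * (x / B)) = 4 * (s * y) + 2 * (s * (x / B)) := by ring
      rw [h6]
      have h7 : 2 * x / C₀ = 2 * (x / C₀) := by ring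
      rw [h7]
      linarith
    -- factor 4
    have f4 : (2:ℝ) ^ (3 * (k * (s + r))) ≤ exp (6 * k * c * x) := by
      refine (powexp 2 1 _ (by norm_num) h2e).trans (exp_le_exp.mpr ?_)
      push_cast
      have : (s:ℝ) + r ≤ 2 * (c * x) := by linarith
      have h8 := mul_le_mul_of_nonneg_left this (by positivity : (0:ℝ) ≤ 3 * k)
      linarith
    -- factor 5
    have hℓr : (ℓ : ℝ) + 1 = k * (C₀ * (s + 1)) := by
      have : ((ℓ + 1 : ℕ) : ℝ) = ((k * B : ℕ) : ℝ) := by rw [hℓ1]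
      push_cast at this
      rw [this, hBr]
    have f5 : ((ℓ : ℝ) + 1) ^ s ≤ exp (2 * c * x) := by
      have h1 : (ℓ : ℝ) + 1 ≤ exp (2 * y) := by
        rw [← hxsq, hℓr, sq, ← mul_assoc]
        exact mul_le_mul hxkC hsx (by positivity) hxpos.le
      refine (powexp _ _ s (by positivity) h1).trans (exp_le_exp.mpr ?_)
      linarith
    -- factor 6
    have f6 : (2 : ℝ) ^ ℓ ≤ exp (k * C₀ * c * x + c * x) := by
      refine (powexp 2 1 ℓ (by norm_num) h2e).trans (exp_le_exp.mpr ?_)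
      have h1 : (ℓ : ℝ) ≤ k * (C₀ * (s + 1)) := by linarith
      have h2 : k * (C₀:ℝ) * s ≤ k * C₀ * (c * x) := mul_le_mul_of_nonneg_left hs1 (by positivity)
      linarith
    -- combine
    have hfin : exp (c * x) * exp (2 * c * x) * exp (4 * c * x + 2 * x / C₀) *
        exp (6 * k * c * x) * exp (2 * c * x) * exp (k * C₀ * c * x + c * x) ≤
        (n:ℝ) ^ (ε / k) := by
      rw [← exp_add, ← exp_add, ← exp_add, ← exp_add, ← exp_add, rpow_def_of_pos hnpos, ← hx]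
      apply exp_le_exp.mpr
      have h1 : 2 * x / C₀ ≤ ε / (2 * k) * x := by
        rw [div_le_iff₀ hC₀pos]
        have h2 : 4 * (k:ℝ) < ε * C₀ := by
          rw [div_lt_iff₀ hε] at hC₀; linarith
        have h3 : 2 ≤ ε / (2 * k) * C₀ := by
          rw [div_mul_eq_mul_div, le_div_iff₀ (by positivity)]
          linarith
        calc 2 * x ≤ (ε / (2 * k) * C₀) * x := mul_le_mul_of_nonneg_right h3 hxpos.le
          _ = ε / (2 * k) * x * C₀ := by ring
      have h2 : c * (10 + 6 * k + k * C₀) * x ≤ ε / (2 * k) * x :=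
        mul_le_mul_of_nonneg_right hc3 hxpos.le
      have h3 : ε / (2 * k) * x + ε / (2 * k) * x = x * (ε / k) := by
        field_simp; ring
      linarith
    refine le_trans ?_ hfin
    have g2 := mul_le_mul f1 f2 (by positivity) (exp_pos _).le
    have g3 := mul_le_mul g2 f3 (by positivity) (by positivity)
    have g4 := mul_le_mul g3 f4 (by positivity) (by positivity)
    have g5 := mul_le_mul g4 f5 (by positivity) (by positivity)
    exact mul_le_mul g5 f6 (by positivity) (by positivity)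

end Pool.Agent.Helper5
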