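import Pool.Agent.Helper5.Iterate
import Pool.Agent.Helper5.Numeric

set_option autoImplicit false

namespace Pool.Agent.Helper5

open Finset

/-- the `k`-fold sumset -/
abbrev kS (k : ℕ) (A : Finset ℤ) : Finset ℤ :=
  (Fintype.piFinset (fun _ : Fin k => A)).image (fun f : Fin k → ℤ => ∑ i, f i)

/-- the `k`-fold product set -/
abbrev kP (k : ℕ) (A : Finset ℤ) : Finset ℤ :=
  (Fintype.piFinset (fun _ : Fin k => A)).image (fun f : Fin k → ℤ => ∏ i, f i)

lemma kS_nonempty (k : ℕ) {A : Finset ℤ} (hA : A.Nonempty) : (kS k A).Nonempty := by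
  obtain ⟨a, ha⟩ := hA
  exact ⟨_, mem_image_of_mem _ (Fintype.mem_piFinset.mpr (fun _ => ha) :
    (fun _ : Fin k => a) ∈ Fintype.piFinset (fun _ : Fin k => A))⟩

lemma kS_mono (k : ℕ) {A B : Finset ℤ} (h : B ⊆ A) : kS k B ⊆ kS k A := by
  apply image_subset_image
  exact Fintype.piFinset_subset _ _ (fun _ => h)

lemma kP_mono (k : ℕ) {A B : Finset ℤ} (h : B ⊆ A) : kP k B ⊆ kP k A := by
  apply image_subset_image
  exact Fintype.piFinset_subset _ _ (fun _ => h)

/-- `a` is the product of an integer with few distinct prime factors and an integer with few prime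
factors counted with multiplicity. -/
def fewP (c n : ℝ) (a : ℤ) : Prop :=
  ∃ z w : ℤ, a = z * w ∧
    (z.natAbs.primeFactors.card : ℝ) * Real.log (Real.log n) ≤ c * Real.log n ∧
    (w.natAbs.primeFactorsList.length : ℝ) ≤ c * Real.log n

lemma sum_val_le_length {w : ℤ} (T : Finset ℕ) :
    ∑ p ∈ T, val p w ≤ w.natAbs.primeFactorsList.length := by
  classical
  have h1 : w.natAbs.primeFactorsList.length = ∑ p ∈ w.natAbs.primeFactors, val p w := by
    have := ArithmeticFunction.cardFactors_eq_sum_factorization (n := w.natAbs)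
    rw [ArithmeticFunction.cardFactors_apply] at this
    rw [this, Finsupp.sum, Nat.support_factorization]
    rfl
  rw [h1]
  calc ∑ p ∈ T, val p w = ∑ p ∈ T ∩ w.natAbs.primeFactors, val p w := by
        symm
        apply sum_subset inter_subset_left
        intro p hp hp'
        apply val_eq_zero_of_not_dvd
        intro h; exact hp' (mem_inter.mpr ⟨hp, h⟩)
    _ ≤ _ := sum_le_sum_of_subset inter_subset_right

theorem core (k : ℕ) (hk : 1 ≤ k) (ε : ℝ) (hε : 0 < ε) :
    ∃ c : ℝ, 0 < c ∧ ∀ A : Finset ℤ, A.Nonempty →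
      (∀ a ∈ A, a ≠ 0 → fewP c A.card a) →
      c * (A.card : ℝ) ^ ((k : ℝ) - ε) ≤ max ((kS k A).card : ℝ) ((kP k A).card : ℝ) := by
  classical
  obtain ⟨c₁, hc₁, n₀, hn₀2, hnum⟩ := numeric k hk ε hε
  have hn₀pos : (0 : ℝ) < n₀ := by exact_mod_cast (by omega : 0 < n₀)
  refine ⟨min c₁ (min (1 / 2 ^ k) (1 / (n₀ : ℝ) ^ k)), by positivity, ?_⟩
  intro A hAne hfew
  set c := min c₁ (min (1 / 2 ^ k) (1 / (n₀ : ℝ) ^ k)) with hc
  have hcc₁ : c ≤ c₁ := min_le_left _ _
  have hc2 : c ≤ 1 / 2 ^ k := (min_le_right _ _).trans (min_le_left _ _)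
  have hc3 : c ≤ 1 / (n₀ : ℝ) ^ k := (min_le_right _ _).trans (min_le_right _ _)
  have hcpos : 0 < c := by rw [hc]; positivity
  clear_value c
  set n := A.card with hn
  have hn1 : 1 ≤ n := card_pos.mpr hAne
  have hn1' : (1 : ℝ) ≤ n := by exact_mod_cast hn1
  have hnpos : (0 : ℝ) < n := by linarith
  have hmax1 : (1 : ℝ) ≤ max ((kS k A).card : ℝ) ((kP k A).card : ℝ) := by
    apply le_max_of_le_left
    exact_mod_cast card_pos.mpr (kS_nonempty k hAne)
  rcases lt_or_ge n n₀ with hlt | hge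
  · -- small sets
    have h1 : (n : ℝ) ^ ((k : ℝ) - ε) ≤ (n₀ : ℝ) ^ k := by
      calc (n : ℝ) ^ ((k : ℝ) - ε) ≤ (n : ℝ) ^ (k : ℝ) :=
            Real.rpow_le_rpow_of_exponent_le hn1' (by linarith)
        _ = (n : ℝ) ^ k := Real.rpow_natCast _ _
        _ ≤ (n₀ : ℝ) ^ k := by
            apply pow_le_pow_left₀ hnpos.le
            exact_mod_cast hlt.le
    calc c * (n : ℝ) ^ ((k : ℝ) - ε) ≤ (1 / (n₀ : ℝ) ^ k) * (n₀ : ℝ) ^ k :=
          mul_le_mul hc3 h1 (by positivity) (by positivity)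
      _ = 1 := by field_simp
      _ ≤ _ := hmax1
  · -- large sets
    set A' := A.erase 0 with hA'
    have hA'0 : (0 : ℤ) ∉ A' := notMem_erase 0 A
    have hA'A : A' ⊆ A := erase_subset _ _
    have hA'card : n ≤ A'.card + 1 := by
      have h : A.card - 1 ≤ A'.card := pred_card_le_card_erase
      omega
    have hA'card2 : n ≤ 2 * A'.card := by omega
    have hA'ne : A'.Nonempty := by rw [← card_pos]; omega
    have hex : ∀ a ∈ A', fewP c n a := fun a ha => hfew a (hA'A ha) (ne_of_mem_erase ha)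
    unfold fewP at hex
    choose! z w hzw hz hw using hex
    let Z : ℤ → Finset ℕ := fun a => (z a).natAbs.primeFactors
    let s := A'.sup (fun a => (Z a).card)
    let r := A'.sup (fun a => (w a).natAbs.primeFactorsList.length)
    have hlogn : 0 ≤ Real.log n := Real.log_nonneg hn1'
    have hs : (s : ℝ) * Real.log (Real.log n) ≤ c₁ * Real.log n := by
      obtain ⟨a, ha, hs'⟩ := exists_mem_eq_sup A' hA'ne (fun a => (Z a).card)
      have h1 := hz a ha
      have h2 : s = (z a).natAbs.primeFactors.card := hs'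
      rw [h2]
      exact h1.trans (mul_le_mul_of_nonneg_right hcc₁ hlogn)
    have hr : (r : ℝ) ≤ c₁ * Real.log n := by
      obtain ⟨a, ha, hr'⟩ := exists_mem_eq_sup A' hA'ne
        (fun a => (w a).natAbs.primeFactorsList.length)
      have h1 := hw a ha
      have h2 : r = (w a).natAbs.primeFactorsList.length := hr'
      rw [h2]
      exact h1.trans (mul_le_mul_of_nonneg_right hcc₁ hlogn)
    obtain ⟨K, j₀, ℓ, hK2, hj, hℓ, hj₀1, hbound⟩ := hnum n hge s r hs hr
    set Q := 2 * (s * (K * j₀) + (K * j₀) * (K * j₀)) with hQ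
    have hQ1 : 1 ≤ Q := by
      have h1 : 0 < K * j₀ := Nat.mul_pos (by omega) (by omega)
      have h2 : 0 < (K * j₀) * (K * j₀) := Nat.mul_pos h1 h1
      omega
    have hst : ∀ a ∈ A', st Z s r a := by
      intro a ha
      refine ⟨Finset.le_sup (f := fun a => (Z a).card) ha, ?_⟩
      have ha0 : a ≠ 0 := ne_of_mem_erase ha
      have hz0 : z a ≠ 0 := fun h => ha0 (by rw [hzw a ha, h, zero_mul])
      have hw0 : w a ≠ 0 := fun h => ha0 (by rw [hzw a ha, h, mul_zero])
      have h1 : ∑ p ∈ a.natAbs.primeFactors \ Z a, val p a =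
          ∑ p ∈ a.natAbs.primeFactors \ Z a, val p (w a) := by
        apply sum_congr rfl
        intro p hp
        rw [mem_sdiff] at hp
        have h2 : val p a = val p (z a) + val p (w a) := by
          conv_lhs => rw [hzw a ha]
          exact val_mul hz0 hw0
        have h3 : val p (z a) = 0 := val_eq_zero_of_not_dvd hp.2
        omega
      rw [h1]
      exact (sum_val_le_length _).trans
        (Finset.le_sup (f := fun a => (w a).natAbs.primeFactorsList.length) ha)
    have hdich := dichotomy (k := k) (s := s) (r := r) (K := K) (j₀ := j₀) (ℓ := ℓ)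
      (H := 4 * k * (s + 1)) (F := Q ^ s) (Q := Q) (N := n) hk hK2 (A := A') hA'0
      (card_le_card hA'A) hn1 Z
      (fun a _ p hp => (Nat.mem_primeFactors.mp hp).1) hst hj hℓ
      (by nlinarith) (by
        have : 0 < 4 * k * (s + 1) := by positivity
        omega) (le_of_eq hQ.symm) (le_refl _) hQ1
    set X : ℕ := 8 * (4 * k * (s + 1)) ^ s * Q ^ s * 2 ^ (3 * (k * (s + r))) * (ℓ + 1) ^ s * 2 ^ ℓ
      with hX
    have hXbound : (X : ℝ) ≤ (n : ℝ) ^ (ε / k) := by
      refine le_trans (le_of_eq ?_) hbound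
      rw [hX, hQ]
      push_cast
      ring
    have hkS : (sI A' k).card ≤ (kS k A).card := card_le_card (sI_subset hA'A k)
    have hkP : (pI A' k).card ≤ (kP k A).card := card_le_card (pI_subset hA'A k)
    set m := max (kS k A).card (kP k A).card with hm
    have hpos1 : 1 ≤ (ℓ + 1) ^ s * 2 ^ ℓ := Nat.one_le_iff_ne_zero.mpr (by positivity)
    have hpos2 : 1 ≤ 2 ^ (3 * (k * (s + r))) := Nat.one_le_two_pow
    have hmain : A'.card ^ k ≤ X ^ k * m := by
      rcases hdich with h | h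
      · refine h.trans (Nat.mul_le_mul (Nat.pow_le_pow_left ?_ k) (hkP.trans (le_max_right _ _)))
        have e : 2 * (4 * k * (s + 1)) ^ s * (2 * (2 * (2 ^ (k * (s + r)) *
            2 ^ (2 * (k * (s + r)))) * Q ^ s)) =
            8 * (4 * k * (s + 1)) ^ s * Q ^ s * 2 ^ (3 * (k * (s + r))) * 1 := by
          have : 2 ^ (3 * (k * (s + r))) = 2 ^ (k * (s + r)) * 2 ^ (2 * (k * (s + r))) := by
            rw [← pow_add]; congr 1; ring
          rw [this]; ring
        rw [e, hX, mul_assoc (8 * (4 * k * (s + 1)) ^ s * Q ^ s * 2 ^ (3 * (k * (s + r))))]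
        exact Nat.mul_le_mul_left _ hpos1
      · refine h.trans (Nat.mul_le_mul (Nat.pow_le_pow_left ?_ k) (hkS.trans (le_max_left _ _)))
        have e : 2 * (4 * k * (s + 1)) ^ s * Q ^ s * (2 * ((ℓ + 1) ^ s * 2 ^ ℓ)) =
            (4 * (4 * k * (s + 1)) ^ s * Q ^ s * (ℓ + 1) ^ s * 2 ^ ℓ) * 1 := by ring
        rw [e]
        calc (4 * (4 * k * (s + 1)) ^ s * Q ^ s * (ℓ + 1) ^ s * 2 ^ ℓ) * 1
            ≤ (4 * (4 * k * (s + 1)) ^ s * Q ^ s * (ℓ + 1) ^ s * 2 ^ ℓ) *
                (2 * 2 ^ (3 * (k * (s + r)))) := Nat.mul_le_mul_left _ (by omega)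
          _ = X := by rw [hX]; ring
    have hmainR : ((n : ℝ) / 2) ^ k ≤ (n : ℝ) ^ ε * m := by
      have h1 : ((A'.card : ℝ)) ^ k ≤ (X : ℝ) ^ k * m := by exact_mod_cast hmain
      have h2 : (n : ℝ) / 2 ≤ A'.card := by
        have : (n : ℝ) ≤ 2 * A'.card := by exact_mod_cast hA'card2
        linarith
      have h3 : (X : ℝ) ^ k ≤ (n : ℝ) ^ ε := by
        calc (X : ℝ) ^ k ≤ ((n : ℝ) ^ (ε / k)) ^ k :=
              pow_le_pow_left₀ (Nat.cast_nonneg _) hXbound k
          _ = (n : ℝ) ^ ε := by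
              rw [← Real.rpow_natCast, ← Real.rpow_mul hnpos.le]
              congr 1
              have : (k : ℝ) ≠ 0 := by positivity
              field_simp
      calc ((n : ℝ) / 2) ^ k ≤ ((A'.card : ℝ)) ^ k := pow_le_pow_left₀ (by positivity) h2 k
        _ ≤ (X : ℝ) ^ k * m := h1
        _ ≤ (n : ℝ) ^ ε * m := mul_le_mul_of_nonneg_right h3 (Nat.cast_nonneg _)
    have hmR : (m : ℝ) = max ((kS k A).card : ℝ) ((kP k A).card : ℝ) := by
      rw [hm]; push_cast; rfl
    rw [← hmR]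
    have h4 : (n : ℝ) ^ ((k : ℝ) - ε) = (n : ℝ) ^ k / (n : ℝ) ^ ε := by
      rw [Real.rpow_sub hnpos, Real.rpow_natCast]
    rw [h4]
    have hnε : 0 < (n : ℝ) ^ ε := Real.rpow_pos_of_pos hnpos _
    have h5 : (n : ℝ) ^ k ≤ 2 ^ k * ((n : ℝ) ^ ε * m) := by
      rw [div_pow, div_le_iff₀ (by positivity)] at hmainR
      linarith
    calc c * ((n : ℝ) ^ k / (n : ℝ) ^ ε) ≤ (1 / 2 ^ k) * ((n : ℝ) ^ k / (n : ℝ) ^ ε) :=
          mul_le_mul_of_nonneg_right hc2 (by positivity)
      _ ≤ (1 / 2 ^ k) * (2 ^ k * ((n : ℝ) ^ ε * m) / (n : ℝ) ^ ε) := by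
          apply mul_le_mul_of_nonneg_left _ (by positivity)
          exact div_le_div_of_nonneg_right h5 hnε.le
      _ = m := by field_simp

end Pool.Agent.Helper5
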