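/-
QP-T4a and QP-T4b (MP_55050e_al): splitting a block of a good colouring.
-/
import Pool.Agent.Helper29.QP.Defs

open MonoidAlgebra Module

namespace Pool.Agent.Helper5.QP4

open Pool.Agent.Helper29.QP

universe u

variable {K : Type u} [Field K] {X : Type}
variable {P : Type} {U V : Type u} [AddCommGroup U] [Module K U] [AddCommGroup V] [Module K V]

section split

open Classical in
/-- the colouring refined by a set -/
noncomputable def spl {C : Type} (col : P → C) (S : Set P) : P → Option C :=
  fun p => if p ∈ S then none else some (col p)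

theorem spl_none {C : Type} (col : P → C) (S : Set P) (p : P) :
    spl col S p = none ↔ p ∈ S := by
  unfold spl; split_ifs with h <;> simp [h]

theorem spl_some {C : Type} (col : P → C) (S : Set P) (p : P) (c : C) :
    spl col S p = some c ↔ p ∉ S ∧ col p = c := by
  unfold spl; split_ifs with h <;> simp [h]

open Classical in
theorem good_spl [Fintype P] [FiniteDimensional K U] (D : CycData K X P U V) (m : ℕ)
    {C : Type} [Fintype C] [DecidableEq C] (col : P → C)
    (hg : D.Good m col) (c0 : C) (S : Set P) (hS : S ⊆ {p | col p = c0}) (hne : S.Nonempty)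
    (hne' : ({p | col p = c0} \ S).Nonempty)
    (hzs : ∀ φ : U →ₗ[K] K, ∑ p, (if p ∈ S then
      (sgn K (D.sg p) * φ (D.nu (D.pos p true))) • D.v (D.pos p true) else 0) = 0)
    (hinv : D.rk true S + D.rk true ({p | col p = c0} \ S) + finrank K (D.LL col) ≤
      D.rk true {p | col p = c0} + finrank K (D.LL (spl col S))) :
    D.Good m (spl col S) where
  surj := by
    intro c
    rcases c with _ | c
    · obtain ⟨p, hp⟩ := hne
      exact ⟨p, (spl_none col S p).2 hp⟩
    · by_cases hc : c = c0
      · subst hc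
        obtain ⟨p, hp, hp'⟩ := hne'
        exact ⟨p, (spl_some col S p c).2 ⟨hp', hp⟩⟩
      · obtain ⟨p, hp⟩ := hg.surj c
        refine ⟨p, (spl_some col S p c).2 ⟨fun h => hc ?_, hp⟩⟩
        have := hS h
        simp only [Set.mem_ofPred_eq] at this
        rw [← hp, this]
  ref := by
    intro p q h
    apply hg.ref
    cases hq : spl col S q with
    | none =>
      rw [hq] at h
      have h1 := hS ((spl_none col S p).1 h)
      have h2 := hS ((spl_none col S q).1 hq)
      simp only [Set.mem_ofPred_eq] at h1 h2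
      rw [h1, h2]
    | some c =>
      rw [hq] at h
      rw [((spl_some col S p c).1 h).2, ((spl_some col S q c).1 hq).2]
  zs := by
    intro c φ
    rcases c with _ | c
    · simp_rw [spl_none]
      exact hzs φ
    · by_cases hc : c = c0
      · subst hc
        have h1 := hg.zs c φ
        have h2 := hzs φ
        have h0 := congrArg₂ (fun a b : V => a - b) h1 h2
        simp only [← Finset.sum_sub_distrib, sub_zero] at h0
        refine (Finset.sum_congr rfl fun p _ => ?_).trans h0
        by_cases hp : p ∈ S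
        · have h3 : col p = c := hS hp
          have h4 : ¬ (spl col S p = some c) := by rw [spl_some]; simp [hp]
          simp [hp, h3, h4]
        · by_cases h3 : col p = c
          · have h4 : (spl col S p = some c) := by rw [spl_some]; exact ⟨hp, h3⟩
            simp [hp, h3, h4]
          · have h4 : ¬ (spl col S p = some c) := by rw [spl_some]; simp [h3]
            simp [hp, h3, h4]
      · have h0 := hg.zs c φ
        refine (Finset.sum_congr rfl fun p _ => ?_).trans h0
        have h4 : (spl col S p = some c) ↔ col p = c := by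
          rw [spl_some]
          refine ⟨fun h => h.2, fun h => ⟨fun h' => hc ?_, h⟩⟩
          have h3 : col p = c0 := hS h'
          rw [← h, h3]
        simp only [h4]
  inv := by
    have e1 : {p | spl col S p = none} = S := by
      ext p; simp [spl_none]
    have e2 : {p | spl col S p = some c0} = {p | col p = c0} \ S := by
      ext p; simp only [Set.mem_ofPred_eq, spl_some, Set.mem_sdiff]; tauto
    have e3 : ∀ c, c ≠ c0 → {p | spl col S p = some c} = {p | col p = c} := by
      intro c hc
      ext p
      simp only [Set.mem_ofPred_eq, spl_some]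
      refine ⟨fun h => h.2, fun h => ⟨fun h' => hc ?_, h⟩⟩
      have h3 : col p = c0 := hS h'
      rw [← h, h3]
    have h0 := hg.inv
    rw [Fintype.sum_option, e1]
    have h1 : ∑ c, D.rk true {p | spl col S p = some c} =
        D.rk true ({p | col p = c0} \ S) +
          ∑ c ∈ Finset.univ.erase c0, D.rk true {p | col p = c} := by
      rw [← Finset.add_sum_erase _ _ (Finset.mem_univ c0), e2]
      congr 1
      exact Finset.sum_congr rfl fun c hc => by rw [e3 c (Finset.ne_of_mem_erase hc)]
    have h2 : ∑ c, D.rk true {p | col p = c} =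
        D.rk true {p | col p = c0} + ∑ c ∈ Finset.univ.erase c0, D.rk true {p | col p = c} := by
      rw [← Finset.add_sum_erase _ _ (Finset.mem_univ c0)]
    rw [h1]
    rw [h2] at h0
    omega

theorem LL_le_spl (D : CycData K X P U V) {C : Type} (col : P → C) (c0 : C) (S : Set P)
    (hS : S ⊆ {p | col p = c0}) : D.LL col ≤ D.LL (spl col S) := by
  intro β hβ c b
  rcases c with _ | c
  · obtain ⟨φ, hφ⟩ := hβ c0 b
    exact ⟨φ, fun p hp => hφ p (hS ((spl_none col S p).1 hp))⟩
  · obtain ⟨φ, hφ⟩ := hβ c b
    exact ⟨φ, fun p hp => hφ p ((spl_some col S p c).1 hp).2⟩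

end split

/-! ### T4a -/

/-- a functional which agrees with `φ` on `A` and vanishes on `B`, for disjoint `A`, `B`. -/
theorem exists_functional (A B : Submodule K U) (h : Disjoint A B) (φ : U →ₗ[K] K) :
    ∃ ψ : U →ₗ[K] K, (∀ x ∈ A, ψ x = φ x) ∧ ∀ x ∈ B, ψ x = 0 := by
  obtain ⟨Q, hAQ, hQ⟩ := h.exists_isCompl
  refine ⟨φ ∘ₗ (Submodule.projection Q B hQ), fun x hx => ?_, fun x hx => ?_⟩
  · rw [LinearMap.comp_apply, Submodule.projection_apply_of_mem_left hQ (hAQ hx)]
  · rw [LinearMap.comp_apply, (Submodule.projection_apply_eq_zero_iff hQ).2 hx, map_zero]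

theorem rk_add (D : CycData K X P U V) [FiniteDimensional K U] (b : Bool) (B S : Set P)
    (hS : S ⊆ B) :
    D.rk b B + finrank K (Submodule.span K ((fun p => D.nu (D.pos p b)) '' S) ⊓
      Submodule.span K ((fun p => D.nu (D.pos p b)) '' (B \ S)) : Submodule K U) =
      D.rk b S + D.rk b (B \ S) := by
  have h := Submodule.finrank_sup_add_finrank_inf_eq
    (Submodule.span K ((fun p => D.nu (D.pos p b)) '' S))
    (Submodule.span K ((fun p => D.nu (D.pos p b)) '' (B \ S)))
  rw [← Submodule.span_union, ← Set.image_union, Set.union_sdiff_cancel hS] at h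
  exact h

theorem split_MC [Fintype P] [DecidableEq P] [FiniteDimensional K U] (D : CycData K X P U V)
    (m : ℕ) {C : Type} [Fintype C] [DecidableEq C] (col : P → C)
    (hg : D.Good m col) (h : ¬ D.MC col) :
    ∃ (C' : Type) (_ : Fintype C') (_ : DecidableEq C') (col' : P → C'),
      D.Good m col' ∧ Fintype.card C' = Fintype.card C + 1 := by
  classical
  unfold CycData.MC at h
  push Not at h
  obtain ⟨c0, S, hS, hne, hne', hlt⟩ := h
  have h1 := rk_add D true _ S hS
  have h2 : finrank K (Submodule.span K ((fun p => D.nu (D.pos p true)) '' S) ⊓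
      Submodule.span K ((fun p => D.nu (D.pos p true)) '' ({p | col p = c0} \ S)) :
        Submodule K U) = 0 := by omega
  have h3 : Disjoint (Submodule.span K ((fun p => D.nu (D.pos p true)) '' S))
      (Submodule.span K ((fun p => D.nu (D.pos p true)) '' ({p | col p = c0} \ S))) := by
    rw [disjoint_iff]
    exact Submodule.finrank_eq_zero.1 h2
  refine ⟨Option C, inferInstance, inferInstance, spl col S,
    good_spl D m col hg c0 S hS hne hne' ?_ ?_, Fintype.card_option⟩
  · intro φ
    obtain ⟨ψ, hψ1, hψ2⟩ := exists_functional _ _ h3 φ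
    have h0 := hg.zs c0 ψ
    refine (Finset.sum_congr rfl fun p _ => ?_).trans h0
    by_cases hp : p ∈ S
    · have h4 : col p = c0 := hS hp
      have h5 := hψ1 (D.nu (D.pos p true)) (Submodule.subset_span ⟨p, hp, rfl⟩)
      simp [hp, h4, h5]
    · by_cases h4 : col p = c0
      · have h5 := hψ2 (D.nu (D.pos p true)) (Submodule.subset_span ⟨p, ⟨h4, hp⟩, rfl⟩)
        simp [hp, h4, h5]
      · simp [hp, h4]
  · have h4 : finrank K (D.LL col) ≤ finrank K (D.LL (spl col S)) :=
      Submodule.finrank_mono (LL_le_spl D col c0 S hS)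
    omega

/-! ### T4b -/

section NC

variable (D : CycData K X P U V)

theorem rk_true_false (S : Set P) (x : X) (hx : ∀ p ∈ S, D.lt p = x) :
    D.rk true S = D.rk false S := by
  unfold CycData.rk
  have h1 : (fun p => D.nu (D.pos p false)) '' S =
      (D.eU x) '' ((fun p => D.nu (D.pos p true)) '' S) := by
    rw [← Set.image_comp]
    refine Set.image_congr fun p hp => ?_
    have h2 := D.hU p
    rw [hx p hp] at h2
    exact h2.symm
  rw [h1]
  have h3 : Submodule.span K ((D.eU x) '' ((fun p => D.nu (D.pos p true)) '' S)) =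
      (Submodule.span K ((fun p => D.nu (D.pos p true)) '' S)).map (D.eU x).toLinearMap := by
    rw [Submodule.map_span]
    rfl
  rw [h3]
  exact (LinearEquiv.finrank_map_eq (D.eU x) _).symm

theorem rk_b (S : Set P) (x : X) (hx : ∀ p ∈ S, D.lt p = x) (b : Bool) :
    D.rk true S = D.rk b S := by
  cases b
  · exact rk_true_false D S x hx
  · rfl

open Classical in
/-- zero-sum relation of a set of steps at a side. -/
def ZS [Fintype P] (b : Bool) (S : Set P) : Prop := ∀ φ : U →ₗ[K] K, ∑ p, (if p ∈ S then
  (sgn K (D.sg p) * φ (D.nu (D.pos p b))) • D.v (D.pos p b) else 0) = 0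

theorem ZS_false [Fintype P] (S : Set P) (x : X) (hx : ∀ p ∈ S, D.lt p = x)
    (h : ZS D true S) : ZS D false S := by
  classical
  intro φ
  have h1 := congrArg (D.eV x) (h (φ ∘ₗ (D.eU x).toLinearMap))
  rw [map_sum, map_zero] at h1
  refine (Finset.sum_congr rfl fun p _ => ?_).trans h1
  by_cases hp : p ∈ S
  · have hU := D.hU p
    have hV := D.hV p
    rw [hx p hp] at hU hV
    simp only [hp, if_true, map_smul, LinearMap.comp_apply, LinearEquiv.coe_coe]
    unfold CycData.pos
    rw [hU, hV]
  · simp [hp]

theorem ZS_true [Fintype P] (S : Set P) (x : X) (hx : ∀ p ∈ S, D.lt p = x)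
    (h : ZS D false S) : ZS D true S := by
  classical
  intro φ
  have h1 := congrArg (D.eV x).symm (h (φ ∘ₗ (D.eU x).symm.toLinearMap))
  rw [map_sum, map_zero] at h1
  refine (Finset.sum_congr rfl fun p _ => ?_).trans h1
  by_cases hp : p ∈ S
  · have hU := D.hU p
    have hV := D.hV p
    rw [hx p hp] at hU hV
    simp only [hp, if_true, map_smul, LinearMap.comp_apply, LinearEquiv.coe_coe]
    unfold CycData.pos
    rw [← hU, ← hV, LinearEquiv.symm_apply_apply, LinearEquiv.symm_apply_apply]
  · simp [hp]

theorem ZS_b [Fintype P] (S : Set P) (x : X) (hx : ∀ p ∈ S, D.lt p = x) (b : Bool)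
    (h : ZS D b S) : ZS D true S := by
  cases b
  · exact ZS_true D S x hx h
  · exact h

theorem sgn_not (b : Bool) : sgn K (!b) = - sgn K b := by
  cases b <;> simp [sgn]

theorem arr_nx {C : Type} (col : P → C) (p : P) : D.arr col (D.nx p) = (col p, !(D.sg p)) := by
  unfold CycData.arr
  simp

open Classical in
theorem lemA [Fintype P] {C : Type} [DecidableEq C] (col : P → C) (T : Set P) (c : C) (b : Bool) (G : P → V) :
    ∑ p, (if col p = c ∧ D.pos p b ∈ T then sgn K (D.sg p) • G (D.pos p b) else 0) =
      sgn K b • (∑ q, (if D.dep col q = (c, b) ∧ q ∈ T then G q else 0) -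
        ∑ q, (if D.arr col q = (c, b) ∧ q ∈ T then G q else 0)) := by
  rw [← Equiv.sum_comp D.nx (fun q => if D.arr col q = (c, b) ∧ q ∈ T then G q else 0),
    ← Finset.sum_sub_distrib, Finset.smul_sum]
  refine Finset.sum_congr rfl fun p _ => ?_
  rw [arr_nx]
  unfold CycData.dep CycData.pos
  by_cases hc : col p = c
  · by_cases hb : D.sg p = b
    · have h1 : (!(D.sg p)) ≠ b := by rw [← hb]; simp
      simp only [hc, hb, if_true, true_and, Prod.mk.injEq]
      rw [hb] at h1
      simp only [h1, false_and, if_false, sub_zero]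
      split_ifs <;> simp
    · have h1 : (!(D.sg p)) = b := by
        cases hb' : D.sg p <;> cases b <;> simp_all
      have h2 : sgn K b = - sgn K (D.sg p) := by rw [← h1, sgn_not]
      simp only [hc, hb, if_false, true_and, Prod.mk.injEq, false_and, zero_sub, h1, h2]
      split_ifs <;> simp
  · simp [hc]

theorem pos_mem {C : Type} (col : P → C) (p : P) (b : Bool) :
    D.dep col (D.pos p b) = (col p, b) ∨ D.arr col (D.pos p b) = (col p, b) := by
  unfold CycData.pos
  by_cases hb : D.sg p = b
  · left
    simp only [hb, if_true]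
    unfold CycData.dep
    rw [hb]
  · right
    simp only [hb, if_false]
    rw [arr_nx]
    have h1 : (!(D.sg p)) = b := by
      cases hb' : D.sg p <;> cases b <;> simp_all
    rw [h1]

theorem exists_pos {C : Type} (col : P → C) (e : P) (c : C) (b : Bool)
    (h : D.dep col e = (c, b) ∨ D.arr col e = (c, b)) : ∃ p, col p = c ∧ D.pos p b = e := by
  rcases h with h | h
  · refine ⟨e, ?_, ?_⟩
    · exact (Prod.mk.inj h).1
    · have := (Prod.mk.inj h).2
      unfold CycData.pos
      simp [this]
  · refine ⟨D.nx.symm e, (Prod.mk.inj h).1, ?_⟩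
    have h1 := (Prod.mk.inj h).2
    have h2 : D.sg (D.nx.symm e) ≠ b := by rw [← h1]; simp
    unfold CycData.pos
    simp [h2]

/-- dimension count -/
theorem dim_count {E W : Type u} [AddCommGroup E] [Module K E] [FiniteDimensional K E]
    [AddCommGroup W] [Module K W] [FiniteDimensional K W] (B : W →ₗ[K] E)
    (L L' : Submodule K E) (hL : L ≤ L') (hB : ∀ w, B w ∈ L') (A : Submodule K W)
    (hA : ∀ w, B w ∈ L → w ∈ A) : finrank K L + finrank K W ≤ finrank K L' + finrank K A := by
  have h1 := Submodule.finrank_sup_add_finrank_inf_eq (LinearMap.range B) L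
  have h2 := LinearMap.finrank_range_add_finrank_ker B
  have h3 : finrank K (LinearMap.range B ⊔ L : Submodule K E) ≤ finrank K L' := by
    apply Submodule.finrank_mono
    refine sup_le ?_ hL
    rintro _ ⟨w, rfl⟩
    exact hB w
  have h4 : LinearMap.range B ⊓ L = (Submodule.comap B L).map B := by
    rw [Submodule.map_comap_eq]
  have h5 : finrank K (LinearMap.range B ⊓ L : Submodule K E) + finrank K (LinearMap.ker B) =
      finrank K (Submodule.comap B L) := by
    rw [h4]
    have h6 := LinearMap.finrank_range_add_finrank_ker (B.domRestrict (Submodule.comap B L))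
    rw [LinearMap.range_domRestrict] at h6
    rw [← h6]
    congr 1
    have h7 : LinearMap.ker B ≤ Submodule.comap B L := by
      intro w hw
      rw [LinearMap.mem_ker] at hw
      rw [Submodule.mem_comap, hw]
      exact L.zero_mem
    rw [LinearMap.ker_domRestrict]
    exact (Submodule.comapSubtypeEquivOfLe h7).finrank_eq.symm
  have h8 : finrank K (Submodule.comap B L) ≤ finrank K A := Submodule.finrank_mono hA
  omega

open Classical in
theorem split_NC [Fintype P] [DecidableEq P] [FiniteDimensional K U]
    (m : ℕ) {C : Type} [Fintype C] [DecidableEq C] (col : P → C)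
    (hg : D.Good m col) (h : ¬ NoCut (D.dep col) (D.arr col)) :
    ∃ (C' : Type) (_ : Fintype C') (_ : DecidableEq C') (col' : P → C'),
      D.Good m col' ∧ Fintype.card C' = Fintype.card C + 1 := by
  unfold NoCut at h
  push Not at h
  obtain ⟨⟨c0, b0⟩, Y, hcY, hY1, hY2, ⟨e1, he1⟩, ⟨e2, he2⟩⟩ := h
  obtain ⟨T, hT⟩ : ∃ T : Set P, ∀ q, q ∈ T ↔ (D.dep col q ∈ Y ∨ D.arr col q ∈ Y) :=
    ⟨{q | D.dep col q ∈ Y ∨ D.arr col q ∈ Y}, fun q => Iff.rfl⟩
  set S : Set P := {p | col p = c0 ∧ D.pos p b0 ∈ T} with hSdef
  have hS : S ⊆ {p | col p = c0} := fun p hp => hp.1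
  have hne : S.Nonempty := by
    rcases he1 with ⟨h1, h2⟩ | ⟨h1, h2⟩
    · obtain ⟨p, hp, hp'⟩ := exists_pos D col e1 c0 b0 (Or.inl h1)
      exact ⟨p, hp, by rw [hp', hT]; exact Or.inr h2⟩
    · obtain ⟨p, hp, hp'⟩ := exists_pos D col e1 c0 b0 (Or.inr h1)
      exact ⟨p, hp, by rw [hp', hT]; exact Or.inl h2⟩
  have hne' : ({p | col p = c0} \ S).Nonempty := by
    rcases he2 with ⟨h1, h2⟩ | ⟨h1, h2⟩
    · obtain ⟨p, hp, hp'⟩ := exists_pos D col e2 c0 b0 (Or.inl h1)
      refine ⟨p, hp, fun h3 => ?_⟩
      have h4 := h3.2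
      rw [hp', hT] at h4
      rcases h4 with h4 | h4
      · rw [h1] at h4; exact hcY h4
      · exact h2 h4
    · obtain ⟨p, hp, hp'⟩ := exists_pos D col e2 c0 b0 (Or.inr h1)
      refine ⟨p, hp, fun h3 => ?_⟩
      have h4 := h3.2
      rw [hp', hT] at h4
      rcases h4 with h4 | h4
      · exact h2 h4
      · rw [h1] at h4; exact hcY h4
  -- the common letter of the block
  obtain ⟨p0, hp0⟩ := hg.surj c0
  have hletter : ∀ p, col p = c0 → D.lt p = D.lt p0 := fun p hp => hg.ref p p0 (by rw [hp, hp0])
  -- relation at the vertices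
  have hrel : ∀ (φ : U →ₗ[K] K) (y : C × Bool),
      ∑ q, (if D.dep col q = y then φ (D.nu q) • D.v q else 0) =
        ∑ q, (if D.arr col q = y then φ (D.nu q) • D.v q else 0) := by
    rintro φ ⟨c, b⟩
    obtain ⟨p1, hp1⟩ := hg.surj c
    have h1 : ∀ p ∈ {p | col p = c}, D.lt p = D.lt p1 := fun p hp => hg.ref p p1 (by
      rw [hp1]; exact hp)
    have h2 : ZS D true {p | col p = c} := by
      intro φ
      refine (Finset.sum_congr rfl fun p _ => ?_).trans (hg.zs c φ)
      simp only [Set.mem_ofPred_eq]
      split_ifs <;> rfl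
    have h3 : ZS D b {p | col p = c} := by
      cases b
      · exact ZS_false D _ _ h1 h2
      · exact h2
    have h4 := lemA D col Set.univ c b (fun q => φ (D.nu q) • D.v q)
    have h5 := h3 φ
    simp only [Set.mem_ofPred_eq, mul_smul] at h5
    simp only [Set.mem_univ, and_true] at h4
    rw [h5] at h4
    have h6 : sgn K b ≠ 0 := by cases b <;> simp [sgn]
    have h7 := (smul_eq_zero.1 h4.symm).resolve_left h6
    exact sub_eq_zero.1 h7
  have hrelY : ∀ (φ : U →ₗ[K] K),
      ∑ q, (if D.dep col q ∈ Y then φ (D.nu q) • D.v q else 0) =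
        ∑ q, (if D.arr col q ∈ Y then φ (D.nu q) • D.v q else 0) := by
    intro φ
    have h1 : ∀ (ends : P → C × Bool),
        ∑ q, (if ends q ∈ Y then φ (D.nu q) • D.v q else 0) =
          ∑ y ∈ Finset.univ.filter (· ∈ Y), ∑ q, (if ends q = y then φ (D.nu q) • D.v q else 0) := by
      intro ends
      rw [Finset.sum_comm]
      refine Finset.sum_congr rfl fun q _ => ?_
      rw [Finset.sum_ite_eq]
      simp
    rw [h1, h1]
    exact Finset.sum_congr rfl fun y _ => hrel φ y
  have hZS : ZS D b0 S := by
    intro φ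
    have h4 := lemA D col T c0 b0 (fun q => φ (D.nu q) • D.v q)
    have h5 : ∑ q, (if D.dep col q = (c0, b0) ∧ q ∈ T then φ (D.nu q) • D.v q else 0) -
        ∑ q, (if D.arr col q = (c0, b0) ∧ q ∈ T then φ (D.nu q) • D.v q else 0) = 0 := by
      rw [← Finset.sum_sub_distrib]
      have h6 := hrelY φ
      rw [eq_comm, ← sub_eq_zero, ← Finset.sum_sub_distrib] at h6
      refine (Finset.sum_congr rfl fun q _ => ?_).trans h6
      by_cases hd : D.dep col q ∈ Y
      · have hd' : D.dep col q ≠ (c0, b0) := fun h => hcY (h ▸ hd)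
        by_cases ha : D.arr col q ∈ Y
        · have ha' : D.arr col q ≠ (c0, b0) := fun h => hcY (h ▸ ha)
          simp [hd, ha, hd', ha']
        · have ha' : D.arr col q = (c0, b0) := (hY1 q hd).resolve_left ha
          have hq : q ∈ T := (hT q).2 (Or.inl hd)
          rw [if_neg (fun h => hd' h.1), if_pos ⟨ha', hq⟩, if_neg ha, if_pos hd]
      · by_cases ha : D.arr col q ∈ Y
        · have ha' : D.arr col q ≠ (c0, b0) := fun h => hcY (h ▸ ha)
          have hd' : D.dep col q = (c0, b0) := (hY2 q ha).resolve_left hd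
          have hq : q ∈ T := (hT q).2 (Or.inr ha)
          rw [if_pos ⟨hd', hq⟩, if_neg (fun h => ha' h.1), if_pos ha, if_neg hd]
        · have hq : q ∉ T := fun h => ((hT q).1 h).elim hd ha
          rw [if_neg (fun h => hq h.2), if_neg (fun h => hq h.2), if_neg ha, if_neg hd]
    rw [h5, smul_zero] at h4
    refine (Finset.sum_congr rfl fun p _ => ?_).trans h4
    simp only [hSdef, Set.mem_ofPred_eq, mul_smul]
  have hZSt : ZS D true S := ZS_b D S (D.lt p0) (fun p hp => hletter p hp.1) b0 hZS
  refine ⟨Option C, inferInstance, inferInstance, spl col S,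
    good_spl D m col hg c0 S hS hne hne' ?_ ?_, Fintype.card_option⟩
  · exact hZSt
  -- dimension count
  have hr1 := rk_add D b0 _ S hS
  rw [rk_b D S (D.lt p0) (fun p hp => hletter p hp.1) b0,
    rk_b D {p | col p = c0} (D.lt p0) (fun p hp => hletter p hp) b0,
    rk_b D ({p | col p = c0} \ S) (D.lt p0) (fun p hp => hletter p hp.1) b0]
  set I : Submodule K U := (Submodule.span K ((fun p => D.nu (D.pos p b0)) '' S) ⊓
      Submodule.span K ((fun p => D.nu (D.pos p b0)) '' ({p | col p = c0} \ S))) with hI
  let Bm : Dual K U →ₗ[K] (P → K) :=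
    { toFun := fun φ q => if q ∈ T then φ (D.nu q) else 0
      map_add' := by
        intro φ ψ
        funext q
        simp only [LinearMap.add_apply, Pi.add_apply]
        split_ifs <;> simp
      map_smul' := by
        intro a φ
        funext q
        simp only [LinearMap.smul_apply, Pi.smul_apply, RingHom.id_apply]
        split_ifs <;> simp }
  have hBm : ∀ φ q, Bm φ q = if q ∈ T then φ (D.nu q) else 0 := fun _ _ => rfl
  -- edges at a vertex different from the cut vertex
  have hvert : ∀ p b, (col p, b) ≠ (c0, b0) → (D.pos p b ∈ T ↔ (col p, b) ∈ Y) := by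
    intro p b hne
    rw [hT]
    constructor
    · intro h
      rcases pos_mem D col p b with h1 | h1
      · rcases h with h2 | h2
        · rwa [h1] at h2
        · rcases hY2 _ h2 with h3 | h3
          · rwa [h1] at h3
          · exact absurd (h1.symm.trans h3) hne
      · rcases h with h2 | h2
        · rcases hY1 _ h2 with h3 | h3
          · rwa [h1] at h3
          · exact absurd (h1.symm.trans h3) hne
        · rwa [h1] at h2
    · intro h
      rcases pos_mem D col p b with h1 | h1
      · exact Or.inl (by rw [h1]; exact h)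
      · exact Or.inr (by rw [h1]; exact h)
  have hBL : ∀ φ, Bm φ ∈ D.LL (spl col S) := by
    intro φ c b
    -- the case of an ordinary vertex
    have key : ∀ c1, (c1, b) ≠ (c0, b0) → ∃ ψ : U →ₗ[K] K, ∀ p, col p = c1 →
        Bm φ (D.pos p b) = ψ (D.nu (D.pos p b)) := by
      intro c1 hc1
      by_cases hy : (c1, b) ∈ Y
      · refine ⟨φ, fun p hp => ?_⟩
        rw [hBm, if_pos ((hvert p b (by rw [hp]; exact hc1)).2 (by rw [hp]; exact hy))]
      · refine ⟨0, fun p hp => ?_⟩
        rw [hBm, if_neg (fun h => hy ?_), LinearMap.zero_apply]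
        have := (hvert p b (by rw [hp]; exact hc1)).1 h
        rwa [hp] at this
    rcases c with _ | c
    · by_cases hb : b = b0
      · subst hb
        refine ⟨φ, fun p hp => ?_⟩
        have hp' := (spl_none col S p).1 hp
        rw [hBm, if_pos hp'.2]
      · obtain ⟨ψ, hψ⟩ := key c0 (fun h => hb (Prod.mk.inj h).2)
        exact ⟨ψ, fun p hp => hψ p ((spl_none col S p).1 hp).1⟩
    · by_cases hc : (c, b) = (c0, b0)
      · obtain ⟨h1, h2⟩ := Prod.mk.inj hc
        subst h1 h2
        refine ⟨0, fun p hp => ?_⟩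
        have hp' := (spl_some col S p c).1 hp
        rw [hBm, if_neg (fun h => hp'.1 ⟨hp'.2, h⟩), LinearMap.zero_apply]
      · obtain ⟨ψ, hψ⟩ := key c hc
        exact ⟨ψ, fun p hp => hψ p ((spl_some col S p c).1 hp).2⟩
  have hA : ∀ φ, Bm φ ∈ D.LL col → φ ∈ I.dualAnnihilator := by
    intro φ hφ
    rw [Submodule.mem_dualAnnihilator]
    intro w hw
    obtain ⟨ψ, hψ⟩ := hφ c0 b0
    have h1 : Submodule.span K ((fun p => D.nu (D.pos p b0)) '' S) ≤
        LinearMap.ker (φ - ψ) := by
      rw [Submodule.span_le]
      rintro _ ⟨p, hp, rfl⟩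
      have h2 := hψ p hp.1
      rw [hBm, if_pos hp.2] at h2
      simp [h2]
    have h2 : Submodule.span K ((fun p => D.nu (D.pos p b0)) '' ({p | col p = c0} \ S)) ≤
        LinearMap.ker ψ := by
      rw [Submodule.span_le]
      rintro _ ⟨p, hp, rfl⟩
      have h2 := hψ p hp.1
      rw [hBm, if_neg (fun h => hp.2 ⟨hp.1, h⟩)] at h2
      simp [← h2]
    have h3 := h1 hw.1
    have h4 := h2 hw.2
    rw [LinearMap.mem_ker] at h3 h4
    rw [LinearMap.sub_apply, h4, sub_zero] at h3
    exact h3
  have hd := dim_count Bm (D.LL col) (D.LL (spl col S)) (LL_le_spl D col c0 S hS) hBL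
    I.dualAnnihilator hA
  have hd2 : finrank K I + finrank K I.dualAnnihilator = finrank K U :=
    Subspace.finrank_add_finrank_dualAnnihilator_eq I
  have hd3 : finrank K (Dual K U) = finrank K U := Subspace.dual_finrank_eq
  omega

end NC

end Pool.Agent.Helper5.QP4
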