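import Pool.Agent.Helper47.RR.Defs
import Pool.Agent.Helper45.S4Clos

/-!
# Weak approximation and integrality of traces for function fields
-/

set_option autoImplicit false
set_option linter.style.haveILetI false

namespace Pool.Agent.Helper47.RR

open Polynomial IntermediateField Pool.Agent.Helper16 Pool.Agent.Helper33 Pool.Agent.Helper45.FF
  Pool.Agent.Helper45.S4

section approx

variable {k L : Type} [Field k] [Field L] [Algebra k L]

/-- There is a function with a pole at `v` and zeros at finitely many other places. -/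
theorem exists_pole_zero [IsAlgClosed k] (hN : IsFunctionField k L) (v : Place k L)
    (S : Finset (Place k L)) : ∃ g : L, 1 < v.val g ∧ ∀ u ∈ S, u ≠ v → u.val g < 1 := by
  classical
  obtain ⟨f, hf, hfv⟩ := hN.exists_single_pole v
  have hf0 : f ≠ 0 := transcendental_ne_zero hf
  have hpole : 1 < v.val f := by
    obtain ⟨T, hT, hsum, hpos⟩ := hN.zeros f⁻¹ (transcendental_inv hf)
    have hne : T.Nonempty := by
      rw [Finset.nonempty_iff_ne_empty]
      rintro rfl
      rw [Finset.sum_empty] at hsum
      have : (Module.finrank k⟮f⁻¹⟯ L : ℤ) ≠ 0 := by exact_mod_cast hpos.ne'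
      exact this hsum.symm
    obtain ⟨u, hu⟩ := hne
    have h1 := (hT u).1 hu
    rw [map_inv₀] at h1
    have hf0' : u.val f ≠ 0 := by simpa using hf0
    have h2 := (inv_lt_one₀ (zero_lt_iff.2 hf0')).1 h1
    by_cases huw : u = v
    · rw [← huw]; exact h2
    · exact absurd (hfv u huw) (not_le.2 h2)
  have hres : ∀ u : Place k L, ∃ c : k, u ≠ v → u.val (f - algebraMap k L c) < 1 := by
    intro u
    by_cases hu : u = v
    · exact ⟨0, fun h => absurd hu h⟩
    · obtain ⟨c, hc⟩ := exists_res_val hN u f (hfv u hu)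
      exact ⟨c, fun _ => hc⟩
  choose c hc using hres
  refine ⟨f * ∏ u ∈ S.erase v, (f - algebraMap k L (c u)), ?_, ?_⟩
  · rw [map_mul, map_prod]
    apply one_lt_mul_of_lt_of_le' hpole
    apply Finset.one_le_prod'
    intro u _
    rw [Valuation.map_sub_eq_of_lt_left _ (lt_of_le_of_lt (v.val_algebraMap_le (c u)) hpole)]
    exact hpole.le
  · intro u hu huv
    rw [map_mul, map_prod]
    have hmem : u ∈ S.erase v := Finset.mem_erase.2 ⟨huv, hu⟩
    rw [← Finset.mul_prod_erase _ _ hmem]
    have h1 : u.val f ≤ 1 := hfv u huv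
    have h2 : u.val (f - algebraMap k L (c u)) < 1 := hc u huv
    have h3 : ∏ w ∈ (S.erase v).erase u, u.val (f - algebraMap k L (c w)) ≤ 1 := by
      apply Finset.prod_le_one'
      intro w _
      exact (u.val.map_sub _ _).trans (max_le h1 (u.val_algebraMap_le _))
    exact lt_of_le_of_lt (mul_le_of_le_one_left' h1) (mul_lt_one_of_lt_of_le h2 h3)

/-- An element close to one at `v` and close to zero at finitely many other places. -/
theorem exists_idem [IsAlgClosed k] (hN : IsFunctionField k L) (v : Place k L)
    (S : Finset (Place k L)) (m : ℕ) : ∃ z : L, v.val (z - 1) ≤ WithZero.exp (-(m : ℤ)) ∧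
      ∀ u ∈ S, u ≠ v → u.val z ≤ WithZero.exp (-(m : ℤ)) := by
  obtain ⟨g, hg, hgS⟩ := exists_pole_zero hN v S
  have hg0 : g ≠ 0 := by
    rintro rfl
    rw [map_zero] at hg
    exact absurd hg (not_lt.2 zero_le)
  rcases Nat.eq_zero_or_pos m with hm | hm
  · subst hm
    refine ⟨0, by simp, fun u _ _ => by simp⟩
  have hgm : 1 < v.val (g ^ m) := by
    rw [map_pow]; exact one_lt_pow₀ hg hm.ne'
  have h1g : v.val (1 + g ^ m) = v.val (g ^ m) := by
    rw [Valuation.map_add_eq_of_lt_right]
    rw [map_one]; exact hgm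
  have hne : 1 + g ^ m ≠ 0 := by
    intro h
    rw [h, map_zero] at h1g
    rw [← h1g] at hgm
    exact absurd hgm (not_lt.2 zero_le)
  refine ⟨g ^ m / (1 + g ^ m), ?_, ?_⟩
  · have h2 : g ^ m / (1 + g ^ m) - 1 = -(1 + g ^ m)⁻¹ := by
      field_simp
      ring
    rw [h2, Valuation.map_neg, map_inv₀, h1g, map_pow]
    have h3 : WithZero.exp (1 : ℤ) ≤ v.val g := by
      have h4 := hg
      rw [← WithZero.log_le_log (by simp) (by simpa using hg0)]
      rw [← WithZero.log_lt_log one_ne_zero (by simpa using hg0)] at h4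
      rw [WithZero.log_one] at h4
      rw [WithZero.log_exp]
      omega
    have h5 : WithZero.exp (m : ℤ) ≤ v.val g ^ m := by
      calc WithZero.exp (m : ℤ) = WithZero.exp (1 : ℤ) ^ m := by
            rw [← WithZero.exp_nsmul]; simp
        _ ≤ _ := pow_le_pow_left' h3 m
    rw [WithZero.exp_neg]
    exact inv_anti₀ (by simp [zero_lt_iff]) h5
  · intro u hu huv
    have h1 := hgS u hu huv
    have h2 : u.val (g ^ m) < 1 := by
      rw [map_pow]; exact pow_lt_one₀ zero_le h1 hm.ne'
    have h3 : u.val (1 + g ^ m) = 1 := by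
      rw [Valuation.map_add_eq_of_lt_left, map_one]
      rw [map_one]; exact h2
    rw [map_div₀, h3, div_one, map_pow]
    have h4 : u.val g ≤ WithZero.exp (-1 : ℤ) := by
      rw [← WithZero.log_le_log (by simpa using hg0) (by simp)]
      rw [← WithZero.log_lt_log (by simpa using hg0) one_ne_zero] at h1
      rw [WithZero.log_one] at h1
      rw [WithZero.log_exp]
      omega
    calc u.val g ^ m ≤ WithZero.exp (-1 : ℤ) ^ m := pow_le_pow_left' h4 m
      _ = WithZero.exp (-(m : ℤ)) := by rw [← WithZero.exp_nsmul]; simp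

/-- Weak approximation. -/
theorem weak_approx [IsAlgClosed k] (hN : IsFunctionField k L) (S : Finset (Place k L))
    (a : Place k L → L) (n : ℤ) : ∃ x : L, ∀ v ∈ S, v.val (x - a v) ≤ WithZero.exp n := by
  classical
  -- a bound for all the values
  obtain ⟨B, hB⟩ : ∃ B : ℕ, ∀ u ∈ S, ∀ v ∈ S, u.val (a v) ≤ WithZero.exp (B : ℤ) := by
    let f : Place k L × Place k L → ℕ := fun p => (WithZero.log (p.1.val (a p.2))).toNat
    refine ⟨∑ p ∈ S ×ˢ S, f p, ?_⟩
    intro u hu v hv
    by_cases h0 : a v = 0
    · rw [h0, map_zero]; exact zero_le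
    · rw [← WithZero.log_le_log (by simpa using h0) (by simp), WithZero.log_exp]
      have h1 : f (u, v) ≤ ∑ p ∈ S ×ˢ S, f p :=
        Finset.single_le_sum (fun _ _ => Nat.zero_le _) (Finset.mem_product.2 ⟨hu, hv⟩)
      have h2 : WithZero.log (u.val (a v)) ≤ (f (u, v) : ℤ) := Int.self_le_toNat _
      have h3 : (f (u, v) : ℤ) ≤ ((∑ p ∈ S ×ˢ S, f p : ℕ) : ℤ) := by exact_mod_cast h1
      exact h2.trans h3
  let m : ℕ := B + (-n).toNat
  have hm : (B : ℤ) - m ≤ n := by
    have := Int.self_le_toNat (-n)
    simp only [m]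
    push_cast
    omega
  choose z hz1 hz2 using fun v : Place k L => exists_idem hN v S m
  refine ⟨∑ v ∈ S, a v * z v, ?_⟩
  intro u hu
  have h1 : (∑ v ∈ S, a v * z v) - a u = a u * (z u - 1) + ∑ v ∈ S.erase u, a v * z v := by
    rw [← Finset.add_sum_erase S _ hu]; ring
  have hexp : WithZero.exp (B : ℤ) * WithZero.exp (-(m : ℤ)) ≤ WithZero.exp n := by
    rw [← WithZero.exp_add, WithZero.exp_le_exp]
    omega
  rw [h1]
  refine (u.val.map_add _ _).trans (max_le ?_ ?_)
  · rw [map_mul]
    exact (mul_le_mul' (hB u hu u hu) (hz1 u)).trans hexp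
  · apply Valuation.map_sum_le
    intro v hv
    rw [Finset.mem_erase] at hv
    rw [map_mul]
    exact (mul_le_mul' (hB u hu v hv.2) (hz2 v u hu (Ne.symm hv.1))).trans hexp

end approx

section trace

variable {k L M : Type} [Field k] [Field L] [Field M] [Algebra k L] [Algebra k M] [Algebra L M]
  [IsScalarTower k L M]

theorem trace_val_zero [IsAlgClosed k] (hN : IsFunctionField k L) [FiniteDimensional L M]
    (v : Place k L) (x : M) (hx : ∀ w : Place k M, resPl hN w = v → w.val x ≤ 1) :
    v.val (Algebra.trace L M x) ≤ 1 := by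
  classical
  by_cases hsep : Algebra.IsSeparable L M
  swap
  · rw [Algebra.trace_eq_zero_of_not_isSeparable hsep]
    simp
  obtain ⟨N, iN, iLN, iMN, h1, h2, h3, h4, -⟩ := exists_galois_closure_gen L M
  letI : Algebra k N := ((algebraMap L N).comp (algebraMap k L)).toAlgebra
  haveI : IsScalarTower k L N := IsScalarTower.of_algebraMap_eq fun x => rfl
  haveI : IsScalarTower k M N := IsScalarTower.of_algebraMap_eq fun x => by
    rw [IsScalarTower.algebraMap_apply k L M, ← IsScalarTower.algebraMap_apply L M N]
    rfl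
  have hM : IsFunctionField k M := isFunctionField_ext hN
  obtain ⟨u, hu⟩ := exists_above (M := N) hN v
  have hconj : ∀ τ : N ≃ₐ[L] N, u.val (τ (algebraMap M N x)) ≤ 1 := by
    intro τ
    let w' : Place k N := act (τ.symm.restrictScalars k) u
    have hw' : ∀ y : N, w'.val y = u.val (τ y) := fun y => rfl
    have hres : resPl hN w' = v := by
      have := (resPl_act hN τ.symm u).1
      rw [hu] at this
      exact this
    have hres2 : resPl hN w' = resPl hN (resPl hM w') ∧
        ram hN w' = ram hM w' * ram hN (resPl hM w') := by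
      apply resPl_ram_unique hN w'
      · exact Nat.one_le_iff_ne_zero.2 (Nat.mul_ne_zero
          (Nat.one_le_iff_ne_zero.1 (ram_pos hM w')) (Nat.one_le_iff_ne_zero.1 (ram_pos hN _)))
      · intro y
        rw [IsScalarTower.algebraMap_apply L M N, Pool.Agent.Helper45.S4.ord_algebraMap hM w',
          Pool.Agent.Helper45.S4.ord_algebraMap hN (resPl hM w')]
        push_cast
        ring
    have hval := hx (resPl hM w') (by rw [← hres2.1, hres])
    rw [← hw']
    by_cases hx0 : x = 0
    · rw [hx0, map_zero, map_zero]; exact zero_le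
    have hx0' : algebraMap M N x ≠ 0 := by simpa using hx0
    rw [← w'.ord_nonneg_iff hx0', Pool.Agent.Helper45.S4.ord_algebraMap hM w']
    rw [← (resPl hM w').ord_nonneg_iff hx0] at hval
    positivity
  have hsplit : ((minpoly L x).map (algebraMap L N)).Splits := by
    have := Normal.splits (F := L) (K := N) inferInstance (algebraMap M N x)
    rwa [minpoly.algebraMap_eq (algebraMap M N).injective] at this
  have htr := trace_eq_sum_roots (F := N) (K := L) (L := M) (x := x) hsplit
  have hval : u.val (algebraMap L N (Algebra.trace L M x)) ≤ 1 := by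
    rw [htr, nsmul_eq_mul, map_mul]
    have hn : u.val ((Module.finrank L⟮x⟯ M : ℕ) : N) ≤ 1 := by
      have : ((Module.finrank L⟮x⟯ M : ℕ) : N) = algebraMap k N ((Module.finrank L⟮x⟯ M : ℕ) : k) := by
        rw [map_natCast]
      rw [this]
      exact u.val_algebraMap_le _
    have hs : u.val ((minpoly L x).aroots N).sum ≤ 1 := by
      have hroot : ∀ y ∈ (minpoly L x).aroots N, u.val y ≤ 1 := by
        intro y hy
        rw [mem_aroots] at hy
        have halg : IsAlgebraic L (algebraMap M N x) :=
          (Algebra.IsAlgebraic.isAlgebraic x).algebraMap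
        obtain ⟨σ, hσ⟩ := minpoly.exists_algEquiv_of_root' (K := L) (L := N)
          (x := y) (y := algebraMap M N x) halg (by
            rw [minpoly.algebraMap_eq (algebraMap M N).injective]
            exact hy.2)
        rw [← hσ]
        exact hconj σ
      revert hroot
      generalize (minpoly L x).aroots N = s
      induction s using Multiset.induction_on with
      | empty => intro _; simp
      | cons a s ih =>
        intro hroot
        rw [Multiset.sum_cons]
        exact (u.val.map_add _ _).trans (max_le (hroot a (Multiset.mem_cons_self a s))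
          (ih fun y hy => hroot y (Multiset.mem_cons_of_mem hy)))
    exact mul_le_one' hn hs
  by_cases h0 : Algebra.trace L M x = 0
  · rw [h0, map_zero]; exact zero_le
  have h0' : algebraMap L N (Algebra.trace L M x) ≠ 0 := by simpa using h0
  rw [← u.ord_nonneg_iff h0', Pool.Agent.Helper45.S4.ord_algebraMap hN u, hu] at hval
  rw [← v.ord_nonneg_iff h0]
  have hr := ram_pos hN u
  by_contra hcon
  rw [not_le] at hcon
  have : (ram hN u : ℤ) * v.ord (Algebra.trace L M x) < 0 :=
    mul_neg_of_pos_of_neg (by exact_mod_cast hr) hcon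
  omega

/-- Integrality of traces. -/
theorem trace_val [IsAlgClosed k] (hN : IsFunctionField k L) [FiniteDimensional L M]
    (v : Place k L) (m : ℤ) (x : M)
    (hx : ∀ w : Place k M, resPl hN w = v → w.val x ≤ WithZero.exp ((ram hN w : ℤ) * m)) :
    v.val (Algebra.trace L M x) ≤ WithZero.exp m := by
  obtain ⟨π, hπ0, hπ⟩ := exists_ord_eq_one v
  have hvπ : v.val π = WithZero.exp (-1 : ℤ) := by
    rw [Place.ord] at hπ
    rw [← WithZero.exp_log (x := v.val π) (by simpa using hπ0)]
    congr 1
    omega
  have hvπm : v.val (π ^ m) = WithZero.exp (-m) := by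
    rw [map_zpow₀, hvπ, ← WithZero.exp_zsmul]
    simp
  have hwπ : ∀ w : Place k M, resPl hN w = v →
      w.val (algebraMap L M (π ^ m)) = WithZero.exp (-((ram hN w : ℤ) * m)) := by
    intro w hw
    have hne : algebraMap L M (π ^ m) ≠ 0 := by
      rw [Ne, map_eq_zero]; exact zpow_ne_zero _ hπ0
    have h1 := Pool.Agent.Helper45.S4.ord_algebraMap hN w (π ^ m)
    rw [hw] at h1
    have h2 : v.ord (π ^ m) = m := by
      rw [Place.ord, hvπm, WithZero.log_exp]; ring
    rw [h2, Place.ord] at h1
    rw [← WithZero.exp_log (x := w.val (algebraMap L M (π ^ m))) (by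
      rw [Ne, Valuation.zero_iff]; exact hne)]
    congr 1
    omega
  have key := trace_val_zero hN v (algebraMap L M (π ^ m) * x) (by
    intro w hw
    rw [map_mul, hwπ w hw, WithZero.exp_neg]
    have := hx w hw
    exact (inv_mul_le_one₀ (by simp [zero_lt_iff])).2 this)
  rw [← Algebra.smul_def, map_smul, smul_eq_mul, map_mul, hvπm, WithZero.exp_neg,
    inv_mul_le_one₀ (by simp [zero_lt_iff])] at key
  exact key

end trace

end Pool.Agent.Helper47.RR
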