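import Mathlib

set_option autoImplicit false

open Filter MeasureTheory Topology

namespace Pool.Agent.Helper5.TTD

lemma norm_sinh_ge (z : ℂ) : |Real.sinh z.re| ≤ ‖Complex.sinh z‖ := by
  have h1 : ‖Complex.sinh z‖ = ‖Complex.exp z - Complex.exp (-z)‖ / 2 := by
    rw [Complex.sinh, norm_div]; norm_num
  have h2 : |‖Complex.exp z‖ - ‖Complex.exp (-z)‖| ≤ ‖Complex.exp z - Complex.exp (-z)‖ :=
    abs_norm_sub_norm_le _ _
  rw [Complex.norm_exp, Complex.norm_exp, Complex.neg_re] at h2
  rw [h1, Real.sinh_eq, abs_div]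
  have : |(2 : ℝ)| = 2 := by norm_num
  rw [this]
  linarith

lemma sinh_ne_zero {z : ℂ} (hz : z ≠ 0) (him : |z.im| ≤ 1 / 2) :
    Complex.sinh (Real.pi * z) ≠ 0 := by
  intro h
  by_cases hre : z.re = 0
  · have hzi : z = z.im * Complex.I := by
      apply Complex.ext <;> simp [hre]
    rw [hzi, ← mul_assoc, ← Complex.ofReal_mul, Complex.sinh_mul_I, ← Complex.ofReal_sin] at h
    have hs : Real.sin (Real.pi * z.im) = 0 := by
      rcases mul_eq_zero.1 h with h | h
      · exact_mod_cast h
      · exact absurd h Complex.I_ne_zero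
    have hne : z.im ≠ 0 := by
      intro h0
      apply hz
      rw [hzi, h0]; simp
    have h3 : -Real.pi < Real.pi * z.im := by
      have := (abs_le.1 him).1
      nlinarith [Real.pi_pos]
    have h4 : Real.pi * z.im < Real.pi := by
      have := (abs_le.1 him).2
      nlinarith [Real.pi_pos]
    rw [Real.sin_eq_zero_iff_of_lt_of_lt h3 h4] at hs
    rcases mul_eq_zero.1 hs with h5 | h5
    · exact Real.pi_ne_zero h5
    · exact hne h5
  · have h1 := norm_sinh_ge (Real.pi * z)
    rw [h, norm_zero] at h1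
    have h2 : Real.sinh ((Real.pi * z : ℂ).re) = 0 := abs_eq_zero.1 (le_antisymm h1 (abs_nonneg _))
    rw [Real.sinh_eq_zero] at h2
    simp at h2
    exact hre h2

lemma cosh_ge_pos {x : ℝ} (hx : 0 ≤ x) : 1 + x ^ 2 / 2 ≤ Real.cosh x := by
  have h1 : Real.cosh x = 1 + 2 * Real.sinh (x / 2) ^ 2 := by
    have := Real.cosh_two_mul (x / 2)
    rw [mul_div_cancel₀ x two_ne_zero] at this
    rw [this, Real.cosh_sq]
    ring
  have h2 : x / 2 ≤ Real.sinh (x / 2) := Real.self_le_sinh_iff.2 (by linarith)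
  nlinarith

lemma cosh_ge (x : ℝ) : 1 + x ^ 2 / 2 ≤ Real.cosh x := by
  have := cosh_ge_pos (abs_nonneg x)
  rwa [sq_abs, Real.cosh_abs] at this

lemma inv_cosh_le (t : ℝ) : (Real.cosh (Real.pi * t))⁻¹ ≤ (1 + t ^ 2)⁻¹ := by
  have h1 := cosh_ge (Real.pi * t)
  have h2 : 1 + t ^ 2 ≤ Real.cosh (Real.pi * t) := by
    have h3 : (2 : ℝ) ≤ Real.pi ^ 2 := by nlinarith [Real.pi_gt_three]
    have h4 : 2 * t ^ 2 ≤ Real.pi ^ 2 * t ^ 2 := by
      apply mul_le_mul_of_nonneg_right h3 (sq_nonneg t)
    nlinarith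
  exact inv_anti₀ (by positivity) h2

lemma continuous_inv_cosh : Continuous fun t : ℝ => (Real.cosh (Real.pi * t))⁻¹ := by
  apply Continuous.inv₀
  · fun_prop
  · intro t; exact (Real.cosh_pos _).ne'

lemma integrable_inv_cosh : Integrable fun t : ℝ => (Real.cosh (Real.pi * t))⁻¹ := by
  refine Integrable.mono' integrable_inv_one_add_sq continuous_inv_cosh.aestronglyMeasurable ?_
  filter_upwards with t
  rw [Real.norm_of_nonneg (inv_nonneg.2 (Real.cosh_pos _).le)]
  exact inv_cosh_le t

lemma integral_inv_cosh : ∫ t : ℝ, (Real.cosh (Real.pi * t))⁻¹ = 1 := by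
  have hd : ∀ t : ℝ, HasDerivAt (fun t : ℝ => Real.arctan (Real.sinh (Real.pi * t)) / Real.pi)
      ((Real.cosh (Real.pi * t))⁻¹) t := by
    intro t
    have h1 : HasDerivAt (fun t : ℝ => Real.pi * t) Real.pi t := by
      simpa using (hasDerivAt_id t).const_mul Real.pi
    have h2 := ((Real.hasDerivAt_arctan _).comp t ((Real.hasDerivAt_sinh _).comp t h1)).div_const
      Real.pi
    refine HasDerivAt.congr_deriv (f := fun t : ℝ => Real.arctan (Real.sinh (Real.pi * t)) / Real.pi)
      h2 ?_
    have hc : Real.cosh (Real.pi * t) ≠ 0 := (Real.cosh_pos _).ne'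
    have hs : 1 + Real.sinh (Real.pi * t) ^ 2 = Real.cosh (Real.pi * t) ^ 2 := by
      rw [Real.cosh_sq]; ring
    change 1 / (1 + Real.sinh (Real.pi * t) ^ 2) * (Real.cosh (Real.pi * t) * Real.pi) / Real.pi =
      (Real.cosh (Real.pi * t))⁻¹
    rw [hs]
    have := Real.pi_ne_zero
    field_simp
  have hsinh_top : Tendsto Real.sinh atTop atTop := by
    refine tendsto_atTop_mono' _ ?_ tendsto_id
    filter_upwards [eventually_ge_atTop (0 : ℝ)] with x hx
    exact Real.self_le_sinh_iff.2 hx
  have hsinh_bot : Tendsto Real.sinh atBot atBot := by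
    refine tendsto_atBot_mono' _ ?_ tendsto_id
    filter_upwards [eventually_le_atBot (0 : ℝ)] with x hx
    have := Real.self_le_sinh_iff.2 (neg_nonneg.2 hx)
    rw [Real.sinh_neg] at this
    simp only [id]
    linarith
  have htop : Tendsto (fun t : ℝ => Real.arctan (Real.sinh (Real.pi * t)) / Real.pi) atTop
      (𝓝 (Real.pi / 2 / Real.pi)) := by
    apply Tendsto.div_const
    have h1 : Tendsto Real.arctan atTop (𝓝 (Real.pi / 2)) :=
      Real.tendsto_arctan_atTop.mono_right nhdsWithin_le_nhds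
    exact h1.comp (hsinh_top.comp (tendsto_id.const_mul_atTop Real.pi_pos))
  have hbot : Tendsto (fun t : ℝ => Real.arctan (Real.sinh (Real.pi * t)) / Real.pi) atBot
      (𝓝 (-(Real.pi / 2) / Real.pi)) := by
    apply Tendsto.div_const
    have h1 : Tendsto Real.arctan atBot (𝓝 (-(Real.pi / 2))) :=
      Real.tendsto_arctan_atBot.mono_right nhdsWithin_le_nhds
    exact h1.comp (hsinh_bot.comp (tendsto_id.const_mul_atBot Real.pi_pos))
  rw [integral_of_hasDerivAt_of_tendsto hd integrable_inv_cosh hbot htop]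
  have := Real.pi_ne_zero
  field_simp
  norm_num

/-- The case of `β = 0` after absorbing the exponential. -/
lemma strip_aux (F : ℂ → ℂ) (hF : Differentiable ℂ F) (C : ℝ)
    (hC : ∀ z : ℂ, |z.im| ≤ 1 / 2 → ‖F z‖ ≤ C) :
    ∫ t : ℝ, (((Real.cosh (Real.pi * t))⁻¹ : ℝ) : ℂ) *
      (F (t - Complex.I / 2) + F (t + Complex.I / 2)) = 2 * F 0 := by
  have hC0 : 0 ≤ C := (norm_nonneg _).trans (hC 0 (by norm_num))
  let S : ℂ → ℂ := fun z => Complex.sinh (Real.pi * z)
  have hS : Differentiable ℂ S := by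
    intro z
    exact (Complex.differentiable_sinh _).comp z (by fun_prop)
  have hS0 : S 0 = 0 := by simp [S]
  have hSd : deriv S 0 = Real.pi := by
    have h1 : HasDerivAt (fun z : ℂ => (Real.pi : ℂ) * z) (Real.pi : ℂ) 0 := by
      simpa using (hasDerivAt_id (0 : ℂ)).const_mul (Real.pi : ℂ)
    have h2 := (Complex.hasDerivAt_sinh ((Real.pi : ℂ) * 0)).comp (0 : ℂ) h1
    have h3 : HasDerivAt S (Complex.cosh ((Real.pi : ℂ) * 0) * Real.pi) 0 := h2
    rw [h3.deriv]
    simp
  have hdF : Differentiable ℂ (dslope F 0) := by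
    have := (Complex.differentiableOn_dslope (c := (0 : ℂ)) (s := Set.univ) univ_mem).2
      hF.differentiableOn
    exact differentiableOn_univ.1 this
  have hdS : Differentiable ℂ (dslope S 0) := by
    have := (Complex.differentiableOn_dslope (c := (0 : ℂ)) (s := Set.univ) univ_mem).2
      hS.differentiableOn
    exact differentiableOn_univ.1 this
  have hne : ∀ z : ℂ, |z.im| ≤ 1 / 2 → dslope S 0 z ≠ 0 := by
    intro z hz
    by_cases h0 : z = 0
    · rw [h0, dslope_same, hSd]
      exact_mod_cast Real.pi_ne_zero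
    · rw [dslope_of_ne _ h0, slope_def_field, hS0, sub_zero, sub_zero]
      exact div_ne_zero (sinh_ne_zero h0 hz) h0
  let G : ℂ → ℂ := fun z => dslope F 0 z / dslope S 0 z
  have hG : ∀ z : ℂ, z ≠ 0 → G z = (F z - F 0) / S z := by
    intro z hz
    simp only [G]
    rw [dslope_of_ne _ hz, dslope_of_ne _ hz, slope_def_field, slope_def_field, hS0, sub_zero,
      sub_zero, div_div_div_cancel_right₀ hz]
  have hGb : ∀ z : ℂ, |z.im| ≤ 1 / 2 → z.re ≠ 0 →
      ‖G z‖ ≤ 2 * C / Real.sinh (Real.pi * |z.re|) := by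
    intro z hz hre
    have hz0 : z ≠ 0 := by rintro rfl; simp at hre
    rw [hG z hz0, norm_div]
    have h1 : Real.sinh (Real.pi * |z.re|) ≤ ‖S z‖ := by
      have := norm_sinh_ge (Real.pi * z)
      rw [show ((Real.pi : ℂ) * z).re = Real.pi * z.re by simp] at this
      have h2 : |Real.sinh (Real.pi * z.re)| = Real.sinh (Real.pi * |z.re|) := by
        rw [Real.abs_sinh, abs_mul, abs_of_pos Real.pi_pos]
      rw [h2] at this
      exact this
    have h3 : 0 < Real.sinh (Real.pi * |z.re|) :=
      Real.sinh_pos_iff.2 (mul_pos Real.pi_pos (abs_pos.2 hre))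
    have h4 : ‖F z - F 0‖ ≤ 2 * C := by
      have := norm_sub_le (F z) (F 0)
      have h5 := hC z hz
      have h6 := hC 0 (by norm_num)
      linarith
    exact div_le_div₀ (by positivity) h4 h3 h1
  -- values on the horizontal lines
  have hminus : ∀ t : ℝ, G (t - Complex.I / 2) =
      Complex.I * ((((Real.cosh (Real.pi * t))⁻¹ : ℝ) : ℂ) * (F (t - Complex.I / 2) - F 0)) := by
    intro t
    rw [hG _ (by
      intro h
      have := congrArg Complex.im h
      simp at this)]
    have h1 : S (t - Complex.I / 2) = -Complex.I * Complex.cosh (Real.pi * t) := by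
      simp only [S]
      rw [mul_sub, Complex.sinh_sub, show (Real.pi : ℂ) * (Complex.I / 2) =
        (Real.pi / 2 : ℂ) * Complex.I by ring, Complex.cosh_mul_I, Complex.sinh_mul_I,
        Complex.cos_pi_div_two, Complex.sin_pi_div_two]
      ring
    rw [h1]
    push_cast
    have hc : Complex.cosh (Real.pi * t) ≠ 0 := by
      have := (Real.cosh_pos (Real.pi * t)).ne'
      exact_mod_cast this
    field_simp
    ring_nf
    simp
  have hplus : ∀ t : ℝ, G (t + Complex.I / 2) =
      -(Complex.I * ((((Real.cosh (Real.pi * t))⁻¹ : ℝ) : ℂ) *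
        (F (t + Complex.I / 2) - F 0))) := by
    intro t
    rw [hG _ (by
      intro h
      have := congrArg Complex.im h
      simp at this)]
    have h1 : S (t + Complex.I / 2) = Complex.I * Complex.cosh (Real.pi * t) := by
      simp only [S]
      rw [mul_add, Complex.sinh_add, show (Real.pi : ℂ) * (Complex.I / 2) =
        (Real.pi / 2 : ℂ) * Complex.I by ring, Complex.cosh_mul_I, Complex.sinh_mul_I,
        Complex.cos_pi_div_two, Complex.sin_pi_div_two]
      ring
    rw [h1]
    push_cast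
    have hc : Complex.cosh (Real.pi * t) ≠ 0 := by
      have := (Real.cosh_pos (Real.pi * t)).ne'
      exact_mod_cast this
    field_simp
    ring_nf
    simp
    ring
  have hrect : ∀ L : ℝ, 0 < L →
      (∫ x in (-L)..L, G (x - Complex.I / 2)) - (∫ x in (-L)..L, G (x + Complex.I / 2)) +
      Complex.I • (∫ y in (-(1 / 2 : ℝ))..(1 / 2), G (L + y * Complex.I)) -
      Complex.I • (∫ y in (-(1 / 2 : ℝ))..(1 / 2), G ((-L : ℝ) + y * Complex.I)) = 0 := by
    intro L hL
    have h := Complex.integral_boundary_rect_eq_zero_of_differentiableOn G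
      (⟨-L, -(1 / 2)⟩ : ℂ) (⟨L, 1 / 2⟩ : ℂ) (by
        intro z hz
        have hz2 := hz.2
        rw [Set.mem_preimage] at hz2
        rw [Set.uIcc_of_le (by norm_num : -(1 / 2 : ℝ) ≤ 1 / 2)] at hz2
        exact ((hdF z).div (hdS z) (hne z (abs_le.2 ⟨hz2.1, hz2.2⟩))).differentiableWithinAt)
    simp only at h
    have e1 : ∀ x : ℝ, (x : ℂ) + ((-(1 / 2) : ℝ) : ℂ) * Complex.I = x - Complex.I / 2 := by
      intro x; push_cast; ring
    have e2 : ∀ x : ℝ, (x : ℂ) + ((1 / 2 : ℝ) : ℂ) * Complex.I = x + Complex.I / 2 := by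
      intro x; push_cast; ring
    simp only [e1, e2] at h
    exact h
  have hint : ∀ φ : ℝ → ℂ, Continuous φ → (∀ t, ‖φ t‖ ≤ 2 * C) →
      Integrable fun t : ℝ => (((Real.cosh (Real.pi * t))⁻¹ : ℝ) : ℂ) * φ t := by
    intro φ hφ hb
    refine Integrable.mono' (integrable_inv_cosh.mul_const (2 * C)) ?_ ?_
    · exact ((Complex.continuous_ofReal.comp continuous_inv_cosh).mul hφ).aestronglyMeasurable
    · filter_upwards with t
      rw [norm_mul, Complex.norm_real, Real.norm_of_nonneg (inv_nonneg.2 (Real.cosh_pos _).le)]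
      exact mul_le_mul_of_nonneg_left (hb t) (inv_nonneg.2 (Real.cosh_pos _).le)
  have hFm : Continuous fun t : ℝ => F (t - Complex.I / 2) := hF.continuous.comp (by fun_prop)
  have hFp : Continuous fun t : ℝ => F (t + Complex.I / 2) := hF.continuous.comp (by fun_prop)
  have hbm : ∀ t : ℝ, ‖F (t - Complex.I / 2)‖ ≤ C := fun t => hC _ (by simp)
  have hbp : ∀ t : ℝ, ‖F (t + Complex.I / 2)‖ ≤ C := fun t => hC _ (by simp)
  have hb0 : ‖F 0‖ ≤ C := hC 0 (by norm_num)
  have hIm := hint (fun t => F (t - Complex.I / 2) - F 0) (hFm.sub continuous_const) (fun t => by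
    have := norm_sub_le (F (t - Complex.I / 2)) (F 0)
    linarith [hbm t])
  have hIp := hint (fun t => F (t + Complex.I / 2) - F 0) (hFp.sub continuous_const) (fun t => by
    have := norm_sub_le (F (t + Complex.I / 2)) (F 0)
    linarith [hbp t])
  have hGm : Integrable fun t : ℝ => G (t - Complex.I / 2) := by
    simp only [hminus]
    exact hIm.const_mul _
  have hGp : Integrable fun t : ℝ => G (t + Complex.I / 2) := by
    simp only [hplus]
    exact (hIp.const_mul _).neg
  have hlm : Tendsto (fun L : ℝ => ∫ x in (-L)..L, G (x - Complex.I / 2)) atTop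
      (𝓝 (∫ x : ℝ, G (x - Complex.I / 2))) :=
    intervalIntegral_tendsto_integral hGm tendsto_neg_atTop_atBot tendsto_id
  have hlp : Tendsto (fun L : ℝ => ∫ x in (-L)..L, G (x + Complex.I / 2)) atTop
      (𝓝 (∫ x : ℝ, G (x + Complex.I / 2))) :=
    intervalIntegral_tendsto_integral hGp tendsto_neg_atTop_atBot tendsto_id
  have hsinh_top : Tendsto Real.sinh atTop atTop := by
    refine tendsto_atTop_mono' _ ?_ tendsto_id
    filter_upwards [eventually_ge_atTop (0 : ℝ)] with x hx
    exact Real.self_le_sinh_iff.2 hx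
  have hlim0 : Tendsto (fun L : ℝ => 2 * C / Real.sinh (Real.pi * L)) atTop (𝓝 0) :=
    Tendsto.div_atTop tendsto_const_nhds
      (hsinh_top.comp (tendsto_id.const_mul_atTop Real.pi_pos))
  have hv : ∀ s : ℝ → ℝ, (∀ L, 0 < L → |s L| = L) →
      Tendsto (fun L : ℝ => ∫ y in (-(1 / 2 : ℝ))..(1 / 2), G (s L + y * Complex.I)) atTop
      (𝓝 0) := by
    intro s hs
    apply squeeze_zero_norm' (a := fun L : ℝ => 2 * C / Real.sinh (Real.pi * L)) _ hlim0
    filter_upwards [eventually_gt_atTop (0 : ℝ)] with L hL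
    have := intervalIntegral.norm_integral_le_of_norm_le_const
      (a := -(1 / 2 : ℝ)) (b := 1 / 2) (f := fun y : ℝ => G (s L + y * Complex.I))
      (C := 2 * C / Real.sinh (Real.pi * L)) (by
        intro y hy
        rw [Set.uIoc_of_le (by norm_num)] at hy
        have h1 := hGb (s L + y * Complex.I) (by
          simp only [Complex.add_im, Complex.ofReal_im, Complex.mul_im, Complex.ofReal_re,
            Complex.I_im, Complex.I_re, mul_one, mul_zero, add_zero, zero_add]
          exact abs_le.2 ⟨hy.1.le, hy.2⟩) (by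
          simp only [Complex.add_re, Complex.ofReal_re, Complex.mul_re, Complex.I_re, mul_zero,
            Complex.ofReal_im, Complex.I_im, mul_one, sub_self, add_zero]
          intro h0
          have := hs L hL
          rw [h0, abs_zero] at this
          linarith)
        have h2 : ((s L : ℂ) + y * Complex.I).re = s L := by simp
        rw [h2, hs L hL] at h1
        exact h1)
    rw [show |1 / 2 - -(1 / 2 : ℝ)| = 1 by norm_num, mul_one] at this
    exact this
  have hv1 := hv (fun L => L) (fun L hL => abs_of_pos hL)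
  have hv2 := hv (fun L => -L) (fun L hL => by rw [abs_neg, abs_of_pos hL])
  have hsum := (((hlm.sub hlp).add (hv1.const_smul Complex.I)).sub (hv2.const_smul Complex.I))
  have hzero : Tendsto (fun _ : ℝ => (0 : ℂ)) atTop (𝓝
      (((∫ x : ℝ, G (x - Complex.I / 2)) - (∫ x : ℝ, G (x + Complex.I / 2)) +
        Complex.I • (0 : ℂ)) - Complex.I • (0 : ℂ))) := by
    refine hsum.congr' ?_
    filter_upwards [eventually_gt_atTop (0 : ℝ)] with L hL
    exact hrect L hL
  have hAB := tendsto_nhds_unique hzero tendsto_const_nhds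
  rw [smul_zero, add_zero, sub_zero] at hAB
  have hA : ∫ x : ℝ, G (x - Complex.I / 2) = Complex.I *
      ∫ t : ℝ, (((Real.cosh (Real.pi * t))⁻¹ : ℝ) : ℂ) * (F (t - Complex.I / 2) - F 0) := by
    rw [← integral_const_mul]
    exact integral_congr_ae (by filter_upwards with t using hminus t)
  have hB : ∫ x : ℝ, G (x + Complex.I / 2) = -(Complex.I *
      ∫ t : ℝ, (((Real.cosh (Real.pi * t))⁻¹ : ℝ) : ℂ) * (F (t + Complex.I / 2) - F 0)) := by
    rw [← integral_const_mul, ← integral_neg]
    exact integral_congr_ae (by filter_upwards with t using hplus t)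
  rw [hA, hB, sub_neg_eq_add, ← mul_add] at hAB
  have hAB' := (mul_eq_zero.1 hAB).resolve_left Complex.I_ne_zero
  rw [← integral_add hIm hIp] at hAB'
  have hk : ∫ t : ℝ, (((Real.cosh (Real.pi * t))⁻¹ : ℝ) : ℂ) * (2 * F 0) = 2 * F 0 := by
    rw [integral_mul_const, integral_complex_ofReal, integral_inv_cosh]
    simp
  have hI0 : Integrable fun t : ℝ => (((Real.cosh (Real.pi * t))⁻¹ : ℝ) : ℂ) * (2 * F 0) :=
    hint (fun _ => 2 * F 0) continuous_const (fun t => by
      rw [norm_mul]
      have : ‖(2 : ℂ)‖ = 2 := by norm_num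
      rw [this]; linarith)
  have hfin : ∫ t : ℝ, (((Real.cosh (Real.pi * t))⁻¹ : ℝ) : ℂ) *
      (F (t - Complex.I / 2) + F (t + Complex.I / 2)) =
      (∫ t : ℝ, ((((Real.cosh (Real.pi * t))⁻¹ : ℝ) : ℂ) * (F (t - Complex.I / 2) - F 0) +
        (((Real.cosh (Real.pi * t))⁻¹ : ℝ) : ℂ) * (F (t + Complex.I / 2) - F 0))) +
      ∫ t : ℝ, (((Real.cosh (Real.pi * t))⁻¹ : ℝ) : ℂ) * (2 * F 0) := by
    have e := integral_add (hIm.add hIp) hI0
    simp only [Pi.add_apply] at e
    rw [← e]
    apply integral_congr_ae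
    filter_upwards with t
    ring
  rw [hfin, hAB', hk, zero_add]

/-- MODULE TT-D -/
theorem strip_formula (c : ℂ → ℂ) (hc : Differentiable ℂ c) (C : ℝ)
    (hC : ∀ z : ℂ, |z.im| ≤ 1 / 2 → ‖c z‖ ≤ C) (β : ℝ) :
    c 0 = ∫ t : ℝ, (Complex.exp (Complex.I * β * t) / (2 * Real.cosh (Real.pi * t) : ℝ)) *
      (((Real.exp (β / 2) : ℝ) : ℂ) * c (t - Complex.I / 2) +
        ((Real.exp (-β / 2) : ℝ) : ℂ) * c (t + Complex.I / 2)) := by
  have hC0 : 0 ≤ C := (norm_nonneg _).trans (hC 0 (by norm_num))
  have h := strip_aux (fun z => Complex.exp (Complex.I * β * z) * c z)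
    (by
      intro z
      exact ((by fun_prop : DifferentiableAt ℂ (fun z => Complex.exp (Complex.I * β * z)) z)).mul
        (hc z)) (Real.exp (|β| / 2) * C) (by
      intro z hz
      rw [norm_mul]
      apply mul_le_mul _ (hC z hz) (norm_nonneg _) (Real.exp_nonneg _)
      rw [Complex.norm_exp]
      apply Real.exp_le_exp.2
      have h1 : (Complex.I * β * z).re = -(β * z.im) := by
        simp [Complex.mul_re]
      rw [h1]
      calc -(β * z.im) ≤ |β * z.im| := neg_le_abs _
        _ = |β| * |z.im| := abs_mul _ _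
        _ ≤ |β| * (1 / 2) := mul_le_mul_of_nonneg_left hz (abs_nonneg _)
        _ = |β| / 2 := by ring)
  simp only [mul_zero, Complex.exp_zero, one_mul] at h
  have h2 : ∫ t : ℝ, (Complex.exp (Complex.I * β * t) / (2 * Real.cosh (Real.pi * t) : ℝ)) *
      (((Real.exp (β / 2) : ℝ) : ℂ) * c (t - Complex.I / 2) +
        ((Real.exp (-β / 2) : ℝ) : ℂ) * c (t + Complex.I / 2)) =
      (1 / 2 : ℂ) * ∫ t : ℝ, (((Real.cosh (Real.pi * t))⁻¹ : ℝ) : ℂ) *
      (Complex.exp (Complex.I * β * (t - Complex.I / 2)) * c (t - Complex.I / 2) +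
        Complex.exp (Complex.I * β * (t + Complex.I / 2)) * c (t + Complex.I / 2)) := by
    rw [← integral_const_mul]
    apply integral_congr_ae
    filter_upwards with t
    have e1 : Complex.exp (Complex.I * β * (t - Complex.I / 2)) =
        Complex.exp (Complex.I * β * t) * ((Real.exp (β / 2) : ℝ) : ℂ) := by
      rw [Complex.ofReal_exp, ← Complex.exp_add]
      congr 1
      push_cast
      linear_combination (-(β : ℂ) / 2) * Complex.I_sq
    have e2 : Complex.exp (Complex.I * β * (t + Complex.I / 2)) =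
        Complex.exp (Complex.I * β * t) * ((Real.exp (-β / 2) : ℝ) : ℂ) := by
      rw [Complex.ofReal_exp, ← Complex.exp_add]
      congr 1
      push_cast
      linear_combination ((β : ℂ) / 2) * Complex.I_sq
    rw [e1, e2]
    push_cast
    have hc : Complex.cosh (Real.pi * t) ≠ 0 := by
      have := (Real.cosh_pos (Real.pi * t)).ne'
      exact_mod_cast this
    field_simp
  rw [h2, h]
  ring

end Pool.Agent.Helper5.TTD
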