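import Pool.Agent.Helper5.BernFin

/-!
# The sign conditions for `0 < α ≤ 2/5`
-/

set_option autoImplicit false

open Set Filter Topology Nat MeasureTheory intervalIntegral

namespace Pool.Agent.Helper5.Bern

noncomputable def cea : ℕ → ℝ
  | 0 => 207905 / 10 ^ 6
  | 1 => 207574 / 10 ^ 7
  | 2 => 822114 / 10 ^ 9
  | 3 => 163137 / 10 ^ 10
  | 4 => 194425 / 10 ^ 12
  | 5 => 154828 / 10 ^ 14
  | 6 => 883056 / 10 ^ 17
  | 7 => 378764 / 10 ^ 19
  | _ => 0

theorem num_a : 0 < ∫ l in Ioi (0 : ℝ), wgt (3 / 10) (node (√(987 / 100)) 2) l *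
    (l * Lam (√(987 / 100)) l + Real.exp (-l) * (-(1 - besP 0 ((√(987 / 100)) ^ 2 / 4)))) := by
  have hB : (987 / 100 : ℝ) / 4 = 987 / 400 := by norm_num
  have hJ0 := (besP_partial 0 (y := 987 / 400) (by norm_num) (by norm_num) 6 (by norm_num)).1
  have hJ1 := (besP_partial 0 (y := 987 / 400) (by norm_num) (by norm_num) 7 (by norm_num)).1
  have hE := (besP_partial 1 (y := 987 / 400) (by norm_num) (by norm_num) 6 (by norm_num)).1
  simp only [Finset.sum_range_succ, Finset.sum_range_zero] at hJ0 hJ1 hE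
  norm_num [Nat.factorial] at hJ0 hJ1 hE
  refine numeric_main (ρ := 866 / 1000) (J := -3047 / 10000) (E := 1811 / 10000) (S := 95 / 10000) (e := cea)
    (by norm_num) (by norm_num) (by norm_num) (by norm_num) (by norm_num) (by norm_num)
    ?_ ?_ ?_ (by norm_num) ?_ ?_ ?_ (by norm_num) ?_ (by norm_num)
  · rw [hB]; linarith
  · rw [hB]; linarith
  · rw [hB]; linarith
  · intro m
    unfold cea
    split <;> norm_num
  · intro m hm hme
    rw [hB]
    interval_cases m
    · exact Ea0
    · exact absurd hme (by decide)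
    · exact Ea2
    · exact absurd hme (by decide)
    · exact Ea4
    · exact absurd hme (by decide)
    · exact Ea6
    · exact absurd hme (by decide)
  · intro m hm hmo
    rw [hB]
    interval_cases m
    · exact absurd hmo (by decide)
    · exact Ea1
    · exact absurd hmo (by decide)
    · exact Ea3
    · exact absurd hmo (by decide)
    · exact Ea5
    · exact absurd hmo (by decide)
    · exact Ea7
  · simp only [Finset.sum_range_succ, Finset.sum_range_zero, cea]
    norm_num [Nat.even_iff]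

noncomputable def ceb : ℕ → ℝ
  | 0 => 241043 / 10 ^ 6
  | 1 => 233147 / 10 ^ 7
  | 2 => 893647 / 10 ^ 9
  | 3 => 174106 / 10 ^ 10
  | 4 => 205101 / 10 ^ 12
  | 5 => 162022 / 10 ^ 14
  | 6 => 918654 / 10 ^ 17
  | 7 => 392255 / 10 ^ 19
  | _ => 0

theorem num_b : 0 < ∫ l in Ioi (0 : ℝ), wgt (9 / 25) (node (√(17 / 2)) 2) l *
    (l * Lam (√(17 / 2)) l + Real.exp (-l) * (-(1 - besP 0 ((√(17 / 2)) ^ 2 / 4)))) := by
  have hB : (17 / 2 : ℝ) / 4 = 17 / 8 := by norm_num
  have hJ0 := (besP_partial 0 (y := 17 / 8) (by norm_num) (by norm_num) 6 (by norm_num)).1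
  have hJ1 := (besP_partial 0 (y := 17 / 8) (by norm_num) (by norm_num) 7 (by norm_num)).1
  have hE := (besP_partial 1 (y := 17 / 8) (by norm_num) (by norm_num) 6 (by norm_num)).1
  simp only [Finset.sum_range_succ, Finset.sum_range_zero] at hJ0 hJ1 hE
  norm_num [Nat.factorial] at hJ0 hJ1 hE
  refine numeric_main (ρ := 8858 / 10000) (J := -2303 / 10000) (E := 2537 / 10000) (S := 823 / 100000) (e := ceb)
    (by norm_num) (by norm_num) (by norm_num) (by norm_num) (by norm_num) (by norm_num)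
    ?_ ?_ ?_ (by norm_num) ?_ ?_ ?_ (by norm_num) ?_ (by norm_num)
  · rw [hB]; linarith
  · rw [hB]; linarith
  · rw [hB]; linarith
  · intro m
    unfold ceb
    split <;> norm_num
  · intro m hm hme
    rw [hB]
    interval_cases m
    · exact Eb0
    · exact absurd hme (by decide)
    · exact Eb2
    · exact absurd hme (by decide)
    · exact Eb4
    · exact absurd hme (by decide)
    · exact Eb6
    · exact absurd hme (by decide)
  · intro m hm hmo
    rw [hB]
    interval_cases m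
    · exact absurd hmo (by decide)
    · exact Eb1
    · exact absurd hmo (by decide)
    · exact Eb3
    · exact absurd hmo (by decide)
    · exact Eb5
    · exact absurd hmo (by decide)
    · exact Eb7
  · simp only [Finset.sum_range_succ, Finset.sum_range_zero, ceb]
    norm_num [Nat.even_iff]

noncomputable def cec : ℕ → ℝ
  | 0 => 236673 / 10 ^ 6
  | 1 => 234021 / 10 ^ 7
  | 2 => 897556 / 10 ^ 9
  | 3 => 174791 / 10 ^ 10
  | 4 => 205810 / 10 ^ 12
  | 5 => 162519 / 10 ^ 14
  | 6 => 921171 / 10 ^ 17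
  | 7 => 393226 / 10 ^ 19
  | _ => 0

theorem num_c : 0 < ∫ l in Ioi (0 : ℝ), wgt (2 / 5) (node (√(208 / 25)) 2) l *
    (l * Lam (√(208 / 25)) l + Real.exp (-l) * (-(1 - besP 0 ((√(208 / 25)) ^ 2 / 4)))) := by
  have hB : (208 / 25 : ℝ) / 4 = 52 / 25 := by norm_num
  have hJ0 := (besP_partial 0 (y := 52 / 25) (by norm_num) (by norm_num) 6 (by norm_num)).1
  have hJ1 := (besP_partial 0 (y := 52 / 25) (by norm_num) (by norm_num) 7 (by norm_num)).1
  have hE := (besP_partial 1 (y := 52 / 25) (by norm_num) (by norm_num) 6 (by norm_num)).1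
  simp only [Finset.sum_range_succ, Finset.sum_range_zero] at hJ0 hJ1 hE
  norm_num [Nat.factorial] at hJ0 hJ1 hE
  refine numeric_main (ρ := 8883 / 10000) (J := -2186 / 10000) (E := 2640 / 10000) (S := 345 / 100000) (e := cec)
    (by norm_num) (by norm_num) (by norm_num) (by norm_num) (by norm_num) (by norm_num)
    ?_ ?_ ?_ (by norm_num) ?_ ?_ ?_ (by norm_num) ?_ (by norm_num)
  · rw [hB]; linarith
  · rw [hB]; linarith
  · rw [hB]; linarith
  · intro m
    unfold cec
    split <;> norm_num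
  · intro m hm hme
    rw [hB]
    interval_cases m
    · exact Ec0
    · exact absurd hme (by decide)
    · exact Ec2
    · exact absurd hme (by decide)
    · exact Ec4
    · exact absurd hme (by decide)
    · exact Ec6
    · exact absurd hme (by decide)
  · intro m hm hmo
    rw [hB]
    interval_cases m
    · exact absurd hmo (by decide)
    · exact Ec1
    · exact absurd hmo (by decide)
    · exact Ec3
    · exact absurd hmo (by decide)
    · exact Ec5
    · exact absurd hmo (by decide)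
    · exact Ec7
  · simp only [Finset.sum_range_succ, Finset.sum_range_zero, cec]
    norm_num [Nat.even_iff]

theorem Psi_b : Psi (3 / 10) (√(17 / 2)) ≤ 0 := by
  rw [Psi_eq]
  have hd : (√(17 / 2 : ℝ)) ^ 2 = 17 / 2 := Real.sq_sqrt (by norm_num)
  have h := Psi_upper (α := 3 / 10) (c := √(17 / 2)) (by norm_num) (by rw [hd]; norm_num)
  rw [hd] at h
  refine h.trans ?_
  rw [show (17 / 2 : ℝ) / 4 = 17 / 8 by norm_num]
  simp only [Finset.sum_range_succ, Finset.sum_range_zero, rc]
  norm_num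

theorem Psi_c : Psi (9 / 25) (√(208 / 25)) ≤ 0 := by
  rw [Psi_eq]
  have hd : (√(208 / 25 : ℝ)) ^ 2 = 208 / 25 := Real.sq_sqrt (by norm_num)
  have h := Psi_upper (α := 9 / 25) (c := √(208 / 25)) (by norm_num) (by rw [hd]; norm_num)
  rw [hd] at h
  refine h.trans ?_
  rw [show (208 / 25 : ℝ) / 4 = 52 / 25 by norm_num]
  simp only [Finset.sum_range_succ, Finset.sum_range_zero, rc]
  norm_num

/-- Main result: for `0 < α ≤ 2/5` there is `c ∈ (0,π)` with
`∫₀¹ (1-s)^α J₀(c√(1-s²)) ds = 0` such that all the weights are nonnegative. -/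
theorem exists_param {α : ℝ} (hα0 : 0 < α) (hα1 : α ≤ 2 / 5) :
    ∃ c : ℝ, 0 < c ∧ c < Real.pi ∧ (∫ s in (0 : ℝ)..1, (1 - s) ^ α * besR c s = 0) ∧
      ∀ k : ℕ, 1 ≤ k → 0 ≤ ∫ t in (0 : ℝ)..1, t ^ (α - 1) *
        ∫ u in (0 : ℝ)..t, besR c (1 - (t - u)) * Real.cos (√((Real.pi * k) ^ 2 - c ^ 2) * u) := by
  have hπ3 := Real.pi_gt_d6
  have hπ4 := Real.pi_lt_d6
  rcases le_or_gt α (3 / 10) with h1 | h1
  · obtain ⟨c, hc0, hc1, hc2⟩ := exists_zero_of_nonpos hα0 Real.pi_pos (Psi_pi_neg hα0).le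
    have hcπ : c < Real.pi := by
      rcases hc1.lt_or_eq with h | h
      · exact h
      · exfalso
        rw [h] at hc2
        have := Psi_pi_neg hα0
        linarith
    refine ⟨c, hc0, hcπ, hc2, fun k hk => ?_⟩
    have hd : (√(987 / 100 : ℝ)) ^ 2 = 987 / 100 := Real.sq_sqrt (by norm_num)
    refine positivity_of_numeric hα0 h1 (by norm_num) hc0 hcπ ?_ (by rw [hd]; norm_num) num_a k hk
    apply Real.le_sqrt_of_sq_le
    nlinarith
  · rcases le_or_gt α (9 / 25) with h2 | h2
    · have hd : (√(17 / 2 : ℝ)) ^ 2 = 17 / 2 := Real.sq_sqrt (by norm_num)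
      have h3 : Psi α (√(17 / 2)) ≤ 0 :=
        Psi_nonpos_of_le (by norm_num) h1.le (by rw [hd]; norm_num) Psi_b
      obtain ⟨c, hc0, hc1, hc2⟩ := exists_zero_of_nonpos hα0 (Real.sqrt_pos.2 (by norm_num)) h3
      have hcπ : c < Real.pi := by
        refine lt_of_le_of_lt hc1 ?_
        rw [Real.sqrt_lt' Real.pi_pos]
        nlinarith
      exact ⟨c, hc0, hcπ, hc2, fun k hk =>
        positivity_of_numeric hα0 h2 (by norm_num) hc0 hcπ hc1 (by rw [hd]; norm_num) num_b k hk⟩
    · have hd : (√(208 / 25 : ℝ)) ^ 2 = 208 / 25 := Real.sq_sqrt (by norm_num)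
      have h3 : Psi α (√(208 / 25)) ≤ 0 :=
        Psi_nonpos_of_le (by norm_num) h2.le (by rw [hd]; norm_num) Psi_c
      obtain ⟨c, hc0, hc1, hc2⟩ := exists_zero_of_nonpos hα0 (Real.sqrt_pos.2 (by norm_num)) h3
      have hcπ : c < Real.pi := by
        refine lt_of_le_of_lt hc1 ?_
        rw [Real.sqrt_lt' Real.pi_pos]
        nlinarith
      exact ⟨c, hc0, hcπ, hc2, fun k hk =>
        positivity_of_numeric hα0 hα1 (by norm_num) hc0 hcπ hc1 (by rw [hd]; norm_num) num_c k hk⟩

end Pool.Agent.Helper5.Bern
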