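import Pool.Agent.Helper5.BernR

/-!
# Integral identities for `besP`

`∫₀^ξ J₀(c √(ξ²-s²)) cos (ν s) ds = sin (z ξ) / z` with `z = √(ν² + c²)`, and the companion
`cos (ν ξ) - ξ ∫₀^ξ (c²/2) besP 1 (c²(ξ²-s²)/4) cos (ν s) ds = cos (z ξ)`.
-/

set_option autoImplicit false

open Set Filter Topology Nat MeasureTheory intervalIntegral

namespace Pool.Agent.Helper5.Bern

theorem hasSum_of_eq {ι : Type*} {f g : ι → ℝ} {a : ℝ} (h : HasSum f a) (e : ∀ i, g i = f i) :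
    HasSum g a := by
  have : g = f := funext e
  rw [this]; exact h

/-- `bcoef m j = ∫₀¹ s^{2m} (1-s²)^j ds`. -/
noncomputable def bcoef (m j : ℕ) : ℝ :=
  4 ^ j * (j ! : ℕ) * ((2 * m)! : ℕ) * ((m + j)! : ℕ) / ((m ! : ℕ) * ((2 * (m + j) + 1)! : ℕ))

theorem bcoef_zero (m : ℕ) : bcoef m 0 = 1 / (2 * m + 1) := by
  unfold bcoef
  simp only [pow_zero, Nat.factorial_zero, add_zero, one_mul, Nat.cast_one]
  rw [show (2 * m + 1)! = (2 * m + 1) * (2 * m)! from Nat.factorial_succ _]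
  have h0 : ((m ! : ℕ) : ℝ) ≠ 0 := by positivity
  have h1 : (((2 * m)! : ℕ) : ℝ) ≠ 0 := by positivity
  push_cast
  field_simp

theorem bcoef_succ (m j : ℕ) : bcoef m (j + 1) = bcoef m j - bcoef (m + 1) j := by
  unfold bcoef
  rw [show m + (j + 1) = (m + j) + 1 by ring, show m + 1 + j = (m + j) + 1 by ring]
  generalize hn : m + j = n
  have e1 : (n + 1)! = (n + 1) * n ! := Nat.factorial_succ _
  have e2 : (2 * (n + 1) + 1)! = (2 * n + 3) * ((2 * n + 2) * (2 * n + 1)!) := by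
    rw [show 2 * (n + 1) + 1 = (2 * n + 2) + 1 by ring, Nat.factorial_succ,
      show 2 * n + 2 = (2 * n + 1) + 1 by ring, Nat.factorial_succ]
  have e3 : (j + 1)! = (j + 1) * j ! := Nat.factorial_succ _
  have e4 : (m + 1)! = (m + 1) * m ! := Nat.factorial_succ _
  have e5 : (2 * (m + 1))! = (2 * m + 2) * ((2 * m + 1) * (2 * m)!) := by
    rw [show 2 * (m + 1) = (2 * m + 1) + 1 by ring, Nat.factorial_succ, Nat.factorial_succ]
  rw [e1, e2, e3, e4, e5]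
  have h0 : ((m ! : ℕ) : ℝ) ≠ 0 := by positivity
  have h1 : (((2 * n + 1)! : ℕ) : ℝ) ≠ 0 := by positivity
  have h2 : (m : ℝ) + 1 ≠ 0 := by positivity
  have hnn : (n : ℝ) = m + j := by exact_mod_cast hn.symm
  have h3 : (2 * (n : ℝ) + 3) ≠ 0 := by positivity
  have h4 : (2 * (n : ℝ) + 2) ≠ 0 := by positivity
  push_cast
  rw [pow_succ]
  field_simp
  rw [hnn]
  ring

theorem integral_pow_mul_pow (ξ : ℝ) (j : ℕ) : ∀ m : ℕ,
    ∫ s in (0 : ℝ)..ξ, s ^ (2 * m) * (ξ ^ 2 - s ^ 2) ^ j = bcoef m j * ξ ^ (2 * (m + j) + 1) := by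
  induction j with
  | zero =>
    intro m
    simp only [pow_zero, mul_one, add_zero]
    rw [integral_pow, bcoef_zero]
    simp
    ring
  | succ j ih =>
    intro m
    have e : ∀ s : ℝ, s ^ (2 * m) * (ξ ^ 2 - s ^ 2) ^ (j + 1) =
        ξ ^ 2 * (s ^ (2 * m) * (ξ ^ 2 - s ^ 2) ^ j) -
          s ^ (2 * (m + 1)) * (ξ ^ 2 - s ^ 2) ^ j := by
      intro s
      ring
    simp_rw [e]
    rw [intervalIntegral.integral_sub, intervalIntegral.integral_const_mul, ih, ih, bcoef_succ]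
    · ring
    · apply Continuous.intervalIntegrable
      fun_prop
    · apply Continuous.intervalIntegrable
      fun_prop

theorem hasSum_integral_besP (p : ℕ) (c ν ξ : ℝ) (hξ : 0 ≤ ξ) :
    HasSum (fun q : ℕ × ℕ =>
      (-(c ^ 2 / 4)) ^ q.1 / (((q.1 ! : ℕ) : ℝ) * (((q.1 + p)! : ℕ) : ℝ)) *
        ((-1) ^ q.2 * ν ^ (2 * q.2) / (((2 * q.2)! : ℕ) : ℝ)) *
          (bcoef q.2 q.1 * ξ ^ (2 * (q.2 + q.1) + 1)))
      (∫ s in (0 : ℝ)..ξ, besP p (c ^ 2 * (ξ ^ 2 - s ^ 2) / 4) * Real.cos (ν * s)) := by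
  have hb1 : Summable (fun j : ℕ =>
      (c ^ 2 * ξ ^ 2 / 4) ^ j / (((j ! : ℕ) : ℝ) * (((j + p)! : ℕ) : ℝ))) := by
    have h := (summable_norm_besP p (-(c ^ 2 * ξ ^ 2 / 4))).of_norm
    simpa using h
  have hb2 : Summable (fun m : ℕ => (|ν| * ξ) ^ (2 * m) / (((2 * m)! : ℕ) : ℝ)) :=
    (Real.hasSum_cosh (|ν| * ξ)).summable
  have hb : Summable (fun q : ℕ × ℕ =>
      (c ^ 2 * ξ ^ 2 / 4) ^ q.1 / (((q.1 ! : ℕ) : ℝ) * (((q.1 + p)! : ℕ) : ℝ)) *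
        ((|ν| * ξ) ^ (2 * q.2) / (((2 * q.2)! : ℕ) : ℝ))) :=
    hb1.mul_of_nonneg hb2 (fun j => by positivity) (fun m => by positivity)
  have key := hasSum_integral_of_dominated_convergence (μ := volume) (a := 0) (b := ξ)
    (F := fun (q : ℕ × ℕ) (t : ℝ) =>
      (-(c ^ 2 * (ξ ^ 2 - t ^ 2) / 4)) ^ q.1 / (((q.1 ! : ℕ) : ℝ) * (((q.1 + p)! : ℕ) : ℝ)) *
        ((-1) ^ q.2 * (ν * t) ^ (2 * q.2) / (((2 * q.2)! : ℕ) : ℝ)))
    (f := fun t => besP p (c ^ 2 * (ξ ^ 2 - t ^ 2) / 4) * Real.cos (ν * t))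
    (fun q _ => (c ^ 2 * ξ ^ 2 / 4) ^ q.1 / (((q.1 ! : ℕ) : ℝ) * (((q.1 + p)! : ℕ) : ℝ)) *
        ((|ν| * ξ) ^ (2 * q.2) / (((2 * q.2)! : ℕ) : ℝ))) ?_ ?_ ?_ ?_ ?_
  · refine hasSum_of_eq key (fun q => ?_)
    have e : ∀ t : ℝ, (-(c ^ 2 * (ξ ^ 2 - t ^ 2) / 4)) ^ q.1 /
        (((q.1 ! : ℕ) : ℝ) * (((q.1 + p)! : ℕ) : ℝ)) *
        ((-1) ^ q.2 * (ν * t) ^ (2 * q.2) / (((2 * q.2)! : ℕ) : ℝ)) =
        ((-(c ^ 2 / 4)) ^ q.1 / (((q.1 ! : ℕ) : ℝ) * (((q.1 + p)! : ℕ) : ℝ)) *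
        ((-1) ^ q.2 * ν ^ (2 * q.2) / (((2 * q.2)! : ℕ) : ℝ))) *
          (t ^ (2 * q.2) * (ξ ^ 2 - t ^ 2) ^ q.1) := by
      intro t
      rw [show -(c ^ 2 * (ξ ^ 2 - t ^ 2) / 4) = -(c ^ 2 / 4) * (ξ ^ 2 - t ^ 2) by ring,
        mul_pow, mul_pow]
      ring
    simp_rw [e]
    rw [intervalIntegral.integral_const_mul, integral_pow_mul_pow]
  · intro q
    apply Continuous.aestronglyMeasurable
    fun_prop
  · intro q
    refine Filter.Eventually.of_forall (fun t ht => ?_)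
    rw [uIoc_of_le hξ] at ht
    have ht0 : 0 ≤ t := ht.1.le
    have h1 : |ξ ^ 2 - t ^ 2| ≤ ξ ^ 2 := by
      rw [abs_le]
      constructor
      · nlinarith [ht.2, sq_nonneg t, sq_nonneg ξ]
      · nlinarith [sq_nonneg t]
    rw [norm_mul, norm_div, norm_div, norm_mul ((-1 : ℝ) ^ q.2), norm_pow, norm_pow, norm_pow,
      norm_neg, norm_neg, norm_one, one_pow, one_mul]
    have h2 : ‖c ^ 2 * (ξ ^ 2 - t ^ 2) / 4‖ ≤ c ^ 2 * ξ ^ 2 / 4 := by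
      rw [Real.norm_eq_abs, abs_div, abs_mul, abs_of_nonneg (sq_nonneg c),
        abs_of_pos (by norm_num : (0 : ℝ) < 4)]
      have := mul_le_mul_of_nonneg_left h1 (sq_nonneg c)
      linarith
    have h3 : ‖ν * t‖ ≤ |ν| * ξ := by
      rw [Real.norm_eq_abs, abs_mul, abs_of_nonneg ht0]
      exact mul_le_mul_of_nonneg_left ht.2 (abs_nonneg _)
    have h4 : ‖(((q.1 ! : ℕ) : ℝ) * (((q.1 + p)! : ℕ) : ℝ))‖ =
      (((q.1 ! : ℕ) : ℝ) * (((q.1 + p)! : ℕ) : ℝ)) := Real.norm_of_nonneg (by positivity)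
    have h5 : ‖(((2 * q.2)! : ℕ) : ℝ)‖ = (((2 * q.2)! : ℕ) : ℝ) :=
      Real.norm_of_nonneg (by positivity)
    rw [h4, h5]
    gcongr
  · exact Filter.Eventually.of_forall (fun t _ => hb)
  · exact intervalIntegrable_const
  · refine Filter.Eventually.of_forall (fun t _ => ?_)
    refine HasSum.mul (hasSum_besP p _) (Real.hasSum_cos (ν * t)) ?_
    exact summable_mul_of_summable_norm (summable_norm_besP p _) (Real.hasSum_cos (ν * t)).summable.norm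

/-- regroup a sum over `ℕ × ℕ` along antidiagonals. -/
theorem hasSum_antidiag {F : ℕ × ℕ → ℝ} {a : ℝ} (h : HasSum F a) :
    HasSum (fun n => ∑ q ∈ Finset.HasAntidiagonal.antidiagonal n, F q) a := by
  have h1 := (Finset.HasAntidiagonal.sigmaAntidiagonalEquivProd (A := ℕ)).hasSum_iff.2 h
  have h2 := h1.sigma (g := fun n => ∑ q ∈ Finset.HasAntidiagonal.antidiagonal n, F q) (fun n => by
    have h3 := hasSum_fintype (fun q : Finset.HasAntidiagonal.antidiagonal n =>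
      (F ∘ (Finset.HasAntidiagonal.sigmaAntidiagonalEquivProd (A := ℕ))) ⟨n, q⟩)
    have h4 : ∑ q ∈ Finset.HasAntidiagonal.antidiagonal n, F q =
      ∑ q : Finset.HasAntidiagonal.antidiagonal n,
      (F ∘ (Finset.HasAntidiagonal.sigmaAntidiagonalEquivProd (A := ℕ))) ⟨n, q⟩ := by
      rw [← Finset.sum_coe_sort]
      rfl
    rw [h4]
    exact h3)
  exact h2

/-- `∫₀^ξ J₀(c √(ξ²-s²)) cos (ν s) ds = sin (z ξ) / z`, `z = √(ν² + c²) > 0`. -/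
theorem integral_besP_zero_cos (c ν ξ : ℝ) (hξ : 0 ≤ ξ) (h0 : 0 < ν ^ 2 + c ^ 2) :
    ∫ s in (0 : ℝ)..ξ, besP 0 (c ^ 2 * (ξ ^ 2 - s ^ 2) / 4) * Real.cos (ν * s) =
      Real.sin (√(ν ^ 2 + c ^ 2) * ξ) / √(ν ^ 2 + c ^ 2) := by
  set z : ℝ := √(ν ^ 2 + c ^ 2) with hz
  have hzpos : 0 < z := Real.sqrt_pos.2 h0
  have hz2 : z ^ 2 = ν ^ 2 + c ^ 2 := Real.sq_sqrt h0.le
  have h1 := hasSum_antidiag (hasSum_integral_besP 0 c ν ξ hξ)
  have h2 := (Real.hasSum_sin (z * ξ)).div_const z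
  refine h1.unique (hasSum_of_eq h2 (fun n => ?_))
  have e : (z * ξ) ^ (2 * n + 1) = z * ((ν ^ 2 + c ^ 2) ^ n * ξ ^ (2 * n + 1)) := by
    rw [mul_pow, pow_succ, pow_mul z, hz2]; ring
  rw [e, add_comm (ν ^ 2) (c ^ 2), (Commute.all (c ^ 2) (ν ^ 2)).add_pow', Finset.sum_mul,
    Finset.mul_sum, Finset.mul_sum, Finset.sum_div, Finset.sum_div]
  refine Finset.sum_congr rfl (fun q hq => ?_)
  have hq' : q.1 + q.2 = n := Finset.HasAntidiagonal.mem_antidiagonal.1 hq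
  have hq2 : q.2 + q.1 = n := by omega
  rw [hq2]
  unfold bcoef
  rw [hq2, nsmul_eq_mul]
  have hch : ((n.choose q.1 : ℕ) : ℝ) = (n ! : ℕ) / ((q.1 ! : ℕ) * (q.2 ! : ℕ)) := by
    have h5 := Nat.add_choose q.1 q.2
    have h6 : n.choose q.1 * (q.1 ! * q.2 !) = n ! := by
      have := Nat.choose_mul_factorial_mul_factorial (show q.1 ≤ n by omega)
      rw [show n - q.1 = q.2 by omega] at this
      rw [← this]; ring
    have h7 : ((n.choose q.1 : ℕ) : ℝ) * (((q.1 ! : ℕ) : ℝ) * ((q.2 ! : ℕ) : ℝ)) =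
      ((n ! : ℕ) : ℝ) := by exact_mod_cast h6
    rw [← h7]
    have h8 : ((q.1 ! : ℕ) : ℝ) ≠ 0 := by positivity
    have h9 : ((q.2 ! : ℕ) : ℝ) ≠ 0 := by positivity
    field_simp
  rw [hch]
  have h8 : ((q.1 ! : ℕ) : ℝ) ≠ 0 := by positivity
  have h9 : ((q.2 ! : ℕ) : ℝ) ≠ 0 := by positivity
  have h10 : (((2 * q.2)! : ℕ) : ℝ) ≠ 0 := by positivity
  have h11 : (((2 * n + 1)! : ℕ) : ℝ) ≠ 0 := by positivity
  have e3 : (-(c ^ 2 / 4)) ^ q.1 * 4 ^ q.1 = (-1) ^ q.1 * (c ^ 2) ^ q.1 := by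
    rw [← mul_pow, ← mul_pow]; congr 1; ring
  have e4 : ((-1 : ℝ)) ^ n = (-1) ^ q.1 * (-1) ^ q.2 := by rw [← hq', pow_add]
  rw [add_zero, e4, pow_mul ν 2 q.2]
  generalize ((q.1 ! : ℕ) : ℝ) = J at *
  generalize ((q.2 ! : ℕ) : ℝ) = M at *
  generalize (((2 * q.2)! : ℕ) : ℝ) = M2 at *
  generalize (((2 * n + 1)! : ℕ) : ℝ) = N2 at *
  generalize ((n ! : ℕ) : ℝ) = N at *
  generalize ξ ^ (2 * n + 1) = X at *
  generalize (ν ^ 2) ^ q.2 = V at *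
  generalize (c ^ 2) ^ q.1 = C at *
  generalize (-(c ^ 2 / 4)) ^ q.1 = D at *
  generalize (4 : ℝ) ^ q.1 = F at *
  generalize (-1 : ℝ) ^ q.1 = G at *
  generalize (-1 : ℝ) ^ q.2 = H at *
  have hz' : z ≠ 0 := hzpos.ne'
  calc D / (J * J) * (H * V / M2) * (F * J * M2 * N / (M * N2) * X)
      = (D * F) * H * V * N * X / (J * M * N2) := by field_simp
    _ = G * C * H * V * N * X / (J * M * N2) := by rw [e3]
    _ = _ := by field_simp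

/-- `cos (ν ξ) - ξ ∫₀^ξ (c²/2) besP 1 (c²(ξ²-s²)/4) cos (ν s) ds = cos (z ξ)`, `z = √(ν² + c²)`. -/
theorem integral_besP_one_cos (c ν ξ : ℝ) (hξ : 0 ≤ ξ) :
    ξ * ∫ s in (0 : ℝ)..ξ, c ^ 2 / 2 * besP 1 (c ^ 2 * (ξ ^ 2 - s ^ 2) / 4) * Real.cos (ν * s) =
      Real.cos (ν * ξ) - Real.cos (√(ν ^ 2 + c ^ 2) * ξ) := by
  set z : ℝ := √(ν ^ 2 + c ^ 2) with hz
  have hz2 : z ^ 2 = ν ^ 2 + c ^ 2 := Real.sq_sqrt (by positivity)
  have e0 : ∫ s in (0 : ℝ)..ξ, c ^ 2 / 2 * besP 1 (c ^ 2 * (ξ ^ 2 - s ^ 2) / 4) * Real.cos (ν * s) =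
      c ^ 2 / 2 * ∫ s in (0 : ℝ)..ξ, besP 1 (c ^ 2 * (ξ ^ 2 - s ^ 2) / 4) * Real.cos (ν * s) := by
    rw [← intervalIntegral.integral_const_mul]
    congr 1
    funext s
    ring
  rw [e0, ← mul_assoc]
  have h1 := (hasSum_antidiag (hasSum_integral_besP 1 c ν ξ hξ)).mul_left (ξ * (c ^ 2 / 2))
  have h2 := (Real.hasSum_cos (ν * ξ)).sub (Real.hasSum_cos (z * ξ))
  have h3 := (hasSum_nat_add_iff' 1).2 h2
  simp only [Finset.range_one, Finset.sum_singleton, pow_zero, mul_zero, Nat.factorial_zero,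
    Nat.cast_one, div_one, mul_one, sub_self, sub_zero] at h3
  refine h1.unique (hasSum_of_eq h3 (fun n => ?_))
  have e1 : (z * ξ) ^ (2 * (n + 1)) = (c ^ 2 + ν ^ 2) ^ (n + 1) * ξ ^ (2 * (n + 1)) := by
    rw [mul_pow, pow_mul z, hz2, add_comm]
  have e2 : (ν * ξ) ^ (2 * (n + 1)) = (ν ^ 2) ^ (n + 1) * ξ ^ (2 * (n + 1)) := by
    rw [mul_pow, pow_mul ν]
  rw [e1, e2, (Commute.all (c ^ 2) (ν ^ 2)).add_pow', Finset.Nat.sum_antidiagonal_succ,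
    Finset.mul_sum]
  simp only [Nat.choose_zero_right, pow_zero, one_mul, one_smul]
  have e3 : (-1 : ℝ) ^ (n + 1) * ((ν ^ 2) ^ (n + 1) * ξ ^ (2 * (n + 1))) / ((2 * (n + 1))! : ℕ) -
      (-1) ^ (n + 1) * (((ν ^ 2) ^ (n + 1) + ∑ p ∈ Finset.HasAntidiagonal.antidiagonal n,
        (n + 1).choose (p.1 + 1) • ((c ^ 2) ^ (p.1 + 1) * (ν ^ 2) ^ p.2)) * ξ ^ (2 * (n + 1))) /
          ((2 * (n + 1))! : ℕ) =
      ∑ p ∈ Finset.HasAntidiagonal.antidiagonal n,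
        (-1) ^ n * ((n + 1).choose (p.1 + 1) • ((c ^ 2) ^ (p.1 + 1) * (ν ^ 2) ^ p.2)) *
          ξ ^ (2 * (n + 1)) / ((2 * (n + 1))! : ℕ) := by
    rw [← Finset.sum_div, ← Finset.sum_mul, ← Finset.mul_sum, pow_succ (-1 : ℝ)]
    ring
  rw [e3]
  refine Finset.sum_congr rfl (fun q hq => ?_)
  have hq' : q.1 + q.2 = n := Finset.HasAntidiagonal.mem_antidiagonal.1 hq
  have hq2 : q.2 + q.1 = n := by omega
  rw [hq2]
  unfold bcoef
  rw [hq2, nsmul_eq_mul]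
  have h8 : ((q.1 ! : ℕ) : ℝ) ≠ 0 := by positivity
  have h9 : ((q.2 ! : ℕ) : ℝ) ≠ 0 := by positivity
  have h12 : (((q.1 + 1)! : ℕ) : ℝ) ≠ 0 := by positivity
  have hch : (((n + 1).choose (q.1 + 1) : ℕ) : ℝ) =
      ((n : ℝ) + 1) * (n ! : ℕ) / (((q.1 + 1)! : ℕ) * (q.2 ! : ℕ)) := by
    have h6 : (n + 1).choose (q.1 + 1) * ((q.1 + 1)! * q.2 !) = (n + 1) * n ! := by
      have := Nat.choose_mul_factorial_mul_factorial (show q.1 + 1 ≤ n + 1 by omega)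
      rw [show n + 1 - (q.1 + 1) = q.2 by omega, Nat.factorial_succ n] at this
      rw [← this]; ring
    have h7 : (((n + 1).choose (q.1 + 1) : ℕ) : ℝ) *
        ((((q.1 + 1)! : ℕ) : ℝ) * ((q.2 ! : ℕ) : ℝ)) =
      ((n : ℝ) + 1) * ((n ! : ℕ) : ℝ) := by exact_mod_cast h6
    rw [← h7]
    field_simp
  rw [hch]
  have h10 : (((2 * q.2)! : ℕ) : ℝ) ≠ 0 := by positivity
  have h11 : (((2 * n + 1)! : ℕ) : ℝ) ≠ 0 := by positivity
  have h13 : (((2 * (n + 1))! : ℕ) : ℝ) = 2 * ((n : ℝ) + 1) * (((2 * n + 1)! : ℕ) : ℝ) := by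
    rw [show 2 * (n + 1) = (2 * n + 1) + 1 by ring, Nat.factorial_succ]
    push_cast
    ring
  have e3 : (-(c ^ 2 / 4)) ^ q.1 * 4 ^ q.1 = (-1) ^ q.1 * (c ^ 2) ^ q.1 := by
    rw [← mul_pow, ← mul_pow]; congr 1; ring
  have e4 : ((-1 : ℝ)) ^ n = (-1) ^ q.1 * (-1) ^ q.2 := by rw [← hq', pow_add]
  have hn1 : (n : ℝ) + 1 ≠ 0 := by positivity
  rw [h13, e4, pow_mul ν 2 q.2, show 2 * (n + 1) = (2 * n + 1) + 1 by ring, pow_succ ξ (2 * n + 1),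
    pow_succ (c ^ 2) q.1]
  generalize ((q.1 ! : ℕ) : ℝ) = J at *
  generalize ((q.2 ! : ℕ) : ℝ) = M at *
  generalize (((2 * q.2)! : ℕ) : ℝ) = M2 at *
  generalize (((2 * n + 1)! : ℕ) : ℝ) = N2 at *
  generalize (((q.1 + 1)! : ℕ) : ℝ) = J1 at *
  generalize ((n ! : ℕ) : ℝ) = N at *
  generalize ξ ^ (2 * n + 1) = X at *
  generalize (ν ^ 2) ^ q.2 = V at *
  generalize (c ^ 2) ^ q.1 = C at *
  generalize (-(c ^ 2 / 4)) ^ q.1 = D at *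
  generalize (4 : ℝ) ^ q.1 = F at *
  generalize (-1 : ℝ) ^ q.1 = G at *
  generalize (-1 : ℝ) ^ q.2 = H at *
  generalize (n : ℝ) + 1 = n1 at *
  calc ξ * (c ^ 2 / 2) * (D / (J * J1) * (H * V / M2) * (F * J * M2 * N / (M * N2) * X))
      = (D * F) * H * V * N * X * c ^ 2 * ξ / (2 * J1 * M * N2) := by field_simp
    _ = G * C * H * V * N * X * c ^ 2 * ξ / (2 * J1 * M * N2) := by rw [e3]
    _ = _ := by field_simp

end Pool.Agent.Helper5.Bern
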