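import Pool.Agent.Helper5.BernNumE

/-!
# Positivity of all weights and localisation of the parameter, for `0 < α ≤ 2/5`
-/

set_option autoImplicit false

open Set Filter Topology Nat MeasureTheory intervalIntegral

namespace Pool.Agent.Helper5.Bern

theorem sum_lower {X Xlo Xhi : ℝ} (h0 : 0 ≤ Xlo) (h1 : Xlo ≤ X) (h2 : X ≤ Xhi) {E e : ℕ → ℝ}
    (he : ∀ m, 0 ≤ e m) (hev : ∀ m, m < 8 → Even m → e m ≤ E m)
    (hod : ∀ m, m < 8 → Odd m → E m ≤ e m) :
    ∑ m ∈ Finset.range 8, (-1) ^ m * (if Even m then Xlo else Xhi) ^ m * e m ≤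
      ∑ m ∈ Finset.range 8, (-1) ^ m * X ^ m * E m := by
  apply Finset.sum_le_sum
  intro m hm
  have hm8 := Finset.mem_range.1 hm
  have hX0 : 0 ≤ X := h0.trans h1
  rcases Nat.even_or_odd m with hme | hmo
  · rw [if_pos hme, hme.neg_one_pow, one_mul, one_mul]
    have h3 : Xlo ^ m ≤ X ^ m := pow_le_pow_left₀ h0 h1 m
    exact mul_le_mul h3 (hev m hm8 hme) (he m) (pow_nonneg hX0 m)
  · rw [if_neg (Nat.not_even_iff_odd.2 hmo), hmo.neg_one_pow]
    have h3 : X ^ m ≤ Xhi ^ m := pow_le_pow_left₀ hX0 h2 m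
    have h4 : X ^ m * E m ≤ X ^ m * e m :=
      mul_le_mul_of_nonneg_left (hod m hm8 hmo) (pow_nonneg hX0 m)
    have h5 : X ^ m * e m ≤ Xhi ^ m * e m := mul_le_mul_of_nonneg_right h3 (he m)
    linarith

theorem pi_sq_bounds : (3141592 / 1000000 : ℝ) ^ 2 < Real.pi ^ 2 ∧
    Real.pi ^ 2 < (3141593 / 1000000 : ℝ) ^ 2 := by
  have h1 := Real.pi_gt_d6
  have h2 := Real.pi_lt_d6
  constructor
  · exact pow_lt_pow_left₀ (by linarith) (by norm_num) two_ne_zero
  · exact pow_lt_pow_left₀ (by linarith) Real.pi_pos.le two_ne_zero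

/-- General reduction of the numeric inequality to rational inequalities. -/
theorem numeric_main {α A ρ J E : ℝ} (hα0 : 0 < α) (hα1 : α < 1) (hA0 : 0 < A) (hA10 : A ≤ 10)
    (hρ0 : 0 ≤ ρ) (hρ : A ≤ (1 - ρ ^ 2) * (4 * (3141592 / 1000000 : ℝ) ^ 2))
    (hJ0 : J ≤ besP 0 (A / 4)) (hJ1 : besP 0 (A / 4) ≤ J + 1 / 1000) (hE : E ≤ besP 1 (A / 4))
    (hEJ : 0 ≤ E - J - 1 / 1000)
    {e : ℕ → ℝ} (he : ∀ m, 0 ≤ e m)
    (hev : ∀ m, m < 8 → Even m → e m ≤ Ecoef α (A / 4) m)
    (hod : ∀ m, m < 8 → Odd m → Ecoef α (A / 4) m ≤ e m)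
    {S : ℝ} (hS0 : 0 ≤ S)
    (hS : S + ((A / 4) ^ 6 / 518400 / (1 + α) +
      (4 * (3141593 / 1000000 : ℝ) ^ 2 - A) ^ 8 / 355687428096000 / (17 + α)) ≤
      ∑ m ∈ Finset.range 8, (-1) ^ m * (if Even m then 4 * (3141592 / 1000000 : ℝ) ^ 2 - A else
        4 * (3141593 / 1000000 : ℝ) ^ 2 - A) ^ m * e m)
    (hfin : (1 - J) * (1 - ρ) - ρ * (A * (E - J - 1 / 1000) /
      (8 * (3141593 / 1000000 : ℝ) ^ 2)) < (4 * (3141592 / 1000000 : ℝ) ^ 2 - A) * S) :
    0 < ∫ l in Ioi (0 : ℝ), wgt α (node (√A) 2) l *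
      (l * Lam (√A) l + Real.exp (-l) * (-(1 - besP 0 ((√A) ^ 2 / 4)))) := by
  have hd2 : (√A) ^ 2 = A := Real.sq_sqrt hA0.le
  obtain ⟨hπ1, hπ2⟩ := pi_sq_bounds
  have hπ0 := Real.pi_pos
  set K : ℝ := (Real.pi * (2 : ℕ)) ^ 2 with hK
  have hK' : K = 4 * Real.pi ^ 2 := by rw [hK]; push_cast; ring
  have hK0 : 0 < K := by rw [hK']; positivity
  have hx2 : node (√A) 2 ^ 2 = K - A := by
    unfold node
    rw [hd2, Real.sq_sqrt]
    have : (9 : ℝ) < (3141592 / 1000000 : ℝ) ^ 2 := by norm_num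
    rw [← hK, hK']
    linarith
  have hxlo : 4 * (3141592 / 1000000 : ℝ) ^ 2 - A ≤ node (√A) 2 ^ 2 := by
    rw [hx2, hK']; linarith
  have hxhi : node (√A) 2 ^ 2 ≤ 4 * (3141593 / 1000000 : ℝ) ^ 2 - A := by
    rw [hx2, hK']; linarith
  have hXlo0 : 0 ≤ 4 * (3141592 / 1000000 : ℝ) ^ 2 - A := by
    have : (9 : ℝ) < (3141592 / 1000000 : ℝ) ^ 2 := by norm_num
    linarith
  apply numeric_of_S hα0 hα1 (Real.sqrt_pos.2 hA0) (by rw [hd2]; exact hA10)
  rw [hd2]
  -- lower bound of the integral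
  have hSl := S_lower (c := √A) (x := node (√A) 2) hα0 (by rw [hd2]; exact hA10) (by
    have : (3141593 / 1000000 : ℝ) ^ 2 ≤ 10 := by norm_num
    linarith)
  rw [hd2] at hSl
  have hsum := sum_lower hXlo0 hxlo hxhi he hev hod
  have hX8 : (node (√A) 2 ^ 2) ^ 8 ≤ (4 * (3141593 / 1000000 : ℝ) ^ 2 - A) ^ 8 :=
    pow_le_pow_left₀ (sq_nonneg _) hxhi 8
  have hterm : (node (√A) 2 ^ 2) ^ 8 / 355687428096000 / (17 + α) ≤
      (4 * (3141593 / 1000000 : ℝ) ^ 2 - A) ^ 8 / 355687428096000 / (17 + α) := by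
    apply div_le_div_of_nonneg_right _ (by linarith)
    linarith
  have hSS : S ≤ ∫ t in (0 : ℝ)..1, t ^ (α - 1) * convCos (rho (√A)) (node (√A) 2) t := by
    linarith
  have hfinal : (4 * (3141592 / 1000000 : ℝ) ^ 2 - A) * S ≤
      node (√A) 2 ^ 2 * ∫ t in (0 : ℝ)..1, t ^ (α - 1) * convCos (rho (√A)) (node (√A) 2) t :=
    mul_le_mul hxlo hSS hS0 (sq_nonneg _)
  refine lt_of_le_of_lt ?_ (lt_of_lt_of_le hfin hfinal)
  -- upper bound of the left-hand side
  have hAK : A < K := by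
    rw [hK']
    have : (9 : ℝ) < (3141592 / 1000000 : ℝ) ^ 2 := by norm_num
    linarith
  have hge := sigI_ge hA0.le hA10 hAK
  set I : ℝ := sigI K A with hI
  set Jv : ℝ := besP 0 (A / 4) with hJv
  set Ev : ℝ := besP 1 (A / 4) with hEv
  have hnodeρ : ρ * √K ≤ node (√A) 2 := by
    have h1 : node (√A) 2 = √(K - A) := by
      unfold node
      rw [hd2]
    rw [h1]
    apply Real.le_sqrt_of_sq_le
    rw [mul_pow, Real.sq_sqrt hK0.le, hK']
    have h2 : 0 ≤ 1 - ρ ^ 2 := by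
      by_contra hcon
      push Not at hcon
      have : (1 - ρ ^ 2) * (4 * (3141592 / 1000000 : ℝ) ^ 2) < 0 :=
        mul_neg_of_neg_of_pos hcon (by norm_num)
      linarith
    have h3 := mul_le_mul_of_nonneg_left (show (4 * (3141592 / 1000000 : ℝ) ^ 2) ≤
      4 * Real.pi ^ 2 by linarith) h2
    linarith
  have hJ1' : Jv ≤ 1 := by
    have h := besP_zero_antitone (a := 0) (b := A / 4) ⟨le_rfl, by norm_num⟩
      ⟨by positivity, by linarith⟩ (by positivity)
    rw [besP_zero] at h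
    norm_num at h
    exact h
  have hG0 : 0 ≤ (1 - Jv) + A * (Ev - Jv) / (2 * K) := by
    have : 0 ≤ A * (Ev - Jv) / (2 * K) := by
      apply div_nonneg _ (by positivity)
      apply mul_nonneg hA0.le
      linarith
    linarith
  have hI0 : 0 ≤ I := by
    have h1 : 0 ≤ √K * I := hG0.trans hge
    exact nonneg_of_mul_nonneg_right h1 (Real.sqrt_pos.2 hK0)
  have h5 : ρ * ((1 - Jv) + A * (Ev - Jv) / (2 * K)) ≤ node (√A) 2 * I := by
    calc ρ * ((1 - Jv) + A * (Ev - Jv) / (2 * K)) ≤ ρ * (√K * I) :=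
          mul_le_mul_of_nonneg_left hge hρ0
      _ = (ρ * √K) * I := by ring
      _ ≤ node (√A) 2 * I := mul_le_mul_of_nonneg_right hnodeρ hI0
  have h6 : A * (E - J - 1 / 1000) / (8 * (3141593 / 1000000 : ℝ) ^ 2) ≤
      A * (Ev - Jv) / (2 * K) := by
    rw [hK']
    have h7 : A * (E - J - 1 / 1000) ≤ A * (Ev - Jv) :=
      mul_le_mul_of_nonneg_left (by linarith) hA0.le
    apply div_le_div₀ _ h7 (by positivity) (by linarith)
    exact mul_nonneg hA0.le (by linarith)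
  have hρ1 : ρ ≤ 1 := by
    by_contra hcon
    push Not at hcon
    have h8 : 1 - ρ ^ 2 < 0 := by nlinarith
    have : (1 - ρ ^ 2) * (4 * (3141592 / 1000000 : ℝ) ^ 2) < 0 :=
      mul_neg_of_neg_of_pos h8 (by norm_num)
    linarith
  have h9 := mul_le_mul_of_nonneg_left h6 hρ0
  have h10 : (1 - Jv) * (1 - ρ) ≤ (1 - J) * (1 - ρ) :=
    mul_le_mul_of_nonneg_right (by linarith) (by linarith)
  nlinarith

/-- Upper bound for `∫₀¹ t^α ρ(t) dt`. -/
theorem Psi_upper {α c : ℝ} (hα : 0 < α) (hc : c ^ 2 ≤ 10) :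
    ∫ t in (0 : ℝ)..1, t ^ α * rho c t ≤
      (∑ n ∈ Finset.range 11, rc (c ^ 2 / 4) n / (n + 1 + α)) +
        (c ^ 2 / 4) ^ 6 / 518400 / (1 + α) := by
  have hcr := continuous_rho c
  have hpolc : Continuous (pol (c ^ 2 / 4)) := by unfold pol; fun_prop
  have e : ∫ t in (0 : ℝ)..1, t ^ (α - 1) * (t * (pol (c ^ 2 / 4) t + (c ^ 2 / 4) ^ 6 / 518400)) =
      (∑ n ∈ Finset.range 11, rc (c ^ 2 / 4) n / (n + 1 + α)) +
        (c ^ 2 / 4) ^ 6 / 518400 / (1 + α) := by
    have e4 : ∀ t : ℝ, t ^ (α - 1) * (t * (pol (c ^ 2 / 4) t + (c ^ 2 / 4) ^ 6 / 518400)) =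
        (∑ n ∈ Finset.range 11, rc (c ^ 2 / 4) n * (t ^ (α - 1) * t ^ (n + 1))) +
          (c ^ 2 / 4) ^ 6 / 518400 * (t ^ (α - 1) * t ^ 1) := by
      intro t
      unfold pol
      rw [mul_add, mul_add, Finset.mul_sum, Finset.mul_sum]
      congr 1
      · refine Finset.sum_congr rfl (fun n _ => ?_)
        ring
      · ring
    simp_rw [e4]
    rw [intervalIntegral.integral_add, intervalIntegral.integral_finsetSum,
      intervalIntegral.integral_const_mul, integral_rpow_pow hα]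
    · congr 1
      · refine Finset.sum_congr rfl (fun n _ => ?_)
        rw [intervalIntegral.integral_const_mul, integral_rpow_pow hα]
        push_cast
        ring
      · push_cast
        ring
    · intro n _
      exact (rpow_pow_integrable hα (f := fun t => t ^ (n + 1)) (by fun_prop)).const_mul _
    · have h1 : ∀ t : ℝ, ∑ n ∈ Finset.range 11, rc (c ^ 2 / 4) n * (t ^ (α - 1) * t ^ (n + 1)) =
          t ^ (α - 1) * ∑ n ∈ Finset.range 11, rc (c ^ 2 / 4) n * t ^ (n + 1) := by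
        intro t
        rw [Finset.mul_sum]
        refine Finset.sum_congr rfl (fun n _ => ?_)
        ring
      simp_rw [h1]
      exact rpow_pow_integrable hα (f := fun t => ∑ n ∈ Finset.range 11, rc (c ^ 2 / 4) n *
        t ^ (n + 1)) (by fun_prop)
    · exact (rpow_pow_integrable hα (f := fun t => t ^ 1) (by fun_prop)).const_mul _
  rw [← e]
  have hrp : Continuous (fun t : ℝ => t ^ α) := Real.continuous_rpow_const hα.le
  apply intervalIntegral.integral_mono_on_of_le_Ioo zero_le_one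
  · apply Continuous.intervalIntegrable; fun_prop
  · exact rpow_pow_integrable hα (f := fun t => t * (pol (c ^ 2 / 4) t + (c ^ 2 / 4) ^ 6 / 518400))
      (by fun_prop)
  · intro t ht
    have h1 : t ^ α = t ^ (α - 1) * t := by
      rw [← Real.rpow_add_one ht.1.ne']
      congr 1
      ring
    rw [h1, mul_assoc]
    apply mul_le_mul_of_nonneg_left _ (Real.rpow_nonneg ht.1.le _)
    apply mul_le_mul_of_nonneg_left _ ht.1.le
    have := (rho_pol hc ht.1.le ht.2.le).2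
    linarith

/-- `Ψ(α,c) = ∫₀¹ (1-s)^α J₀(c√(1-s²)) ds`. -/
noncomputable def Psi (α c : ℝ) : ℝ := ∫ s in (0 : ℝ)..1, (1 - s) ^ α * besR c s

theorem Psi_eq (α c : ℝ) : Psi α c = ∫ t in (0 : ℝ)..1, t ^ α * rho c t := by
  unfold Psi rho
  have h := intervalIntegral.integral_comp_sub_left (a := 0) (b := 1)
      (fun t => t ^ α * besR c (1 - t)) 1
  simp only [sub_self, sub_zero, sub_sub_cancel] at h
  exact h

theorem continuous_Psi {α : ℝ} (hα : 0 < α) : Continuous (Psi α) := by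
  unfold Psi
  apply intervalIntegral.continuous_parametric_intervalIntegral_of_continuous' (a₀ := 0) (b₀ := 1)
  have h0 := continuous_besR₂
  have c2 : Continuous (fun q : ℝ × ℝ => (1 - q.2) ^ α) :=
    (Real.continuous_rpow_const hα.le).comp (by fun_prop)
  exact c2.mul h0

theorem Psi_zero_pos {α : ℝ} (hα : 0 < α) : 0 < Psi α 0 := by
  unfold Psi
  have hc2 : Continuous (fun s : ℝ => (1 - s) ^ α) :=
    (Real.continuous_rpow_const hα.le).comp (by fun_prop)
  apply intervalIntegral.integral_pos zero_lt_one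
  · exact (hc2.mul (continuous_besR 0)).continuousOn
  · intro s hs
    rw [besR_zero_left, mul_one]
    exact Real.rpow_nonneg (by linarith [hs.2]) _
  · refine ⟨0, ⟨le_rfl, zero_le_one⟩, ?_⟩
    rw [besR_zero_left, sub_zero, Real.one_rpow]
    norm_num

/-- zeros of `Ψ(α,·)` from a sign at `d`. -/
theorem exists_zero_of_nonpos {α d : ℝ} (hα : 0 < α) (hd : 0 < d) (h : Psi α d ≤ 0) :
    ∃ c, 0 < c ∧ c ≤ d ∧ Psi α c = 0 := by
  have h1 := intermediate_value_Icc' hd.le (continuous_Psi hα).continuousOn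
  obtain ⟨c, hc, hc0⟩ := h1 ⟨h, (Psi_zero_pos hα).le⟩
  refine ⟨c, ?_, hc.2, hc0⟩
  rcases hc.1.eq_or_lt with h2 | h2
  · exfalso
    rw [← h2] at hc0
    have := Psi_zero_pos hα
    linarith
  · exact h2

theorem Psi_pi_neg {α : ℝ} (hα : 0 < α) : Psi α Real.pi < 0 := by
  have hπ10 : Real.pi ^ 2 ≤ 10 := by nlinarith [Real.pi_lt_d2, Real.pi_pos]
  have hmono := besR_mono hπ10
  obtain ⟨r, hr, hr1, hr2⟩ := exists_sign_change hmono
  have hcont := continuous_besR Real.pi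
  have hint : ∫ s in (0 : ℝ)..1, besR Real.pi s = 0 := by
    rw [integral_besR _ Real.pi_pos, Real.sin_pi, zero_div]
  have hrlt : r < 1 := by
    rcases hr.2.lt_or_eq with h | h
    · exact h
    · exfalso
      have h1 : Tendsto (besR Real.pi) (𝓝[<] 1) (𝓝 (besR Real.pi 1)) :=
        (hcont.tendsto 1).mono_left nhdsWithin_le_nhds
      have h2 : ∀ᶠ s in 𝓝[<] (1 : ℝ), besR Real.pi s ≤ 0 := by
        have h3 : Ioo (0 : ℝ) 1 ∈ 𝓝[<] (1 : ℝ) := Ioo_mem_nhdsLT zero_lt_one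
        filter_upwards [h3] with s hs
        exact hr1 s ⟨hs.1.le, hs.2.le⟩ (by rw [h]; exact hs.2)
      have h4 := le_of_tendsto h1 h2
      rw [besR_one] at h4
      linarith
  have hc2 : Continuous (fun s : ℝ => (1 - s) ^ α) :=
    (Real.continuous_rpow_const hα.le).comp (by fun_prop)
  have hpos : 0 < ∫ s in (0 : ℝ)..1, ((1 - r) ^ α - (1 - s) ^ α) * besR Real.pi s := by
    apply intervalIntegral.integral_pos zero_lt_one
    · exact ((continuous_const.sub hc2).mul hcont).continuousOn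
    · intro s hs
      rcases lt_trichotomy s r with h | h | h
      · apply mul_nonneg_of_nonpos_of_nonpos
        · have := Real.rpow_le_rpow (by linarith [hr.2]) (by linarith : 1 - r ≤ 1 - s) hα.le
          linarith
        · exact hr1 s ⟨hs.1.le, hs.2⟩ h
      · rw [h]; simp
      · apply mul_nonneg
        · have := Real.rpow_le_rpow (by linarith [hs.2]) (by linarith : 1 - s ≤ 1 - r) hα.le
          linarith
        · exact hr2 s ⟨hs.1.le, hs.2⟩ h
    · refine ⟨1, ⟨zero_le_one, le_rfl⟩, ?_⟩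
      rw [besR_one, sub_self, Real.zero_rpow hα.ne', sub_zero, mul_one]
      exact Real.rpow_pos_of_pos (by linarith) _
  have e : ∫ s in (0 : ℝ)..1, ((1 - r) ^ α - (1 - s) ^ α) * besR Real.pi s =
      (1 - r) ^ α * (∫ s in (0 : ℝ)..1, besR Real.pi s) - Psi α Real.pi := by
    unfold Psi
    rw [← intervalIntegral.integral_const_mul, ← intervalIntegral.integral_sub]
    · congr 1
      funext s
      ring
    · apply Continuous.intervalIntegrable; fun_prop
    · exact (hc2.mul hcont).intervalIntegrable _ _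
  rw [e, hint] at hpos
  linarith

theorem Psi_nonpos_of_le {α α₀ d : ℝ} (hα0 : 0 < α₀) (hαα : α₀ ≤ α) (hd : d ^ 2 ≤ 10)
    (h : Psi α₀ d ≤ 0) : Psi α d ≤ 0 := by
  have hmono := besR_mono hd
  obtain ⟨r, hr, hr1, hr2⟩ := exists_sign_change hmono
  have hcont := continuous_besR d
  have hc0 : Continuous (fun s : ℝ => (1 - s) ^ α₀) :=
    (Real.continuous_rpow_const hα0.le).comp (by fun_prop)
  have hc1 : Continuous (fun s : ℝ => (1 - s) ^ (α - α₀)) :=
    (Real.continuous_rpow_const (by linarith)).comp (by fun_prop)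
  have h1 := sign_change_integral (f := fun s => (1 - s) ^ α₀ * besR d s)
    (w := fun s => -(1 - s) ^ (α - α₀)) hr
    (fun s hs hsr => mul_nonpos_of_nonneg_of_nonpos (Real.rpow_nonneg (by linarith [hs.2]) _)
      (hr1 s hs hsr))
    (fun s hs hsr => mul_nonneg (Real.rpow_nonneg (by linarith [hs.2]) _) (hr2 s hs hsr))
    (fun a ha b hb hab => neg_le_neg (Real.rpow_le_rpow (by linarith [hb.2]) (by linarith)
      (by linarith)))
    ((hc0.mul hcont).intervalIntegrable _ _) ((hc1.neg.mul (hc0.mul hcont)).intervalIntegrable _ _)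
  have e : ∫ s in (0 : ℝ)..1, -(1 - s) ^ (α - α₀) * ((1 - s) ^ α₀ * besR d s) = -Psi α d := by
    unfold Psi
    rw [← intervalIntegral.integral_neg]
    apply intervalIntegral.integral_congr
    intro s hs
    rw [uIcc_of_le zero_le_one] at hs
    have h2 : (1 - s) ^ α = (1 - s) ^ (α - α₀) * (1 - s) ^ α₀ := by
      rw [← Real.rpow_add_of_nonneg (by linarith [hs.2]) (by linarith) hα0.le]
      congr 1
      ring
    simp only
    rw [h2]
    ring
  rw [e] at h1
  have h3 : 0 ≤ (1 - r) ^ (α - α₀) := Real.rpow_nonneg (by linarith [hr.2]) _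
  have h4 : (1 - r) ^ (α - α₀) * Psi α₀ d ≤ 0 := mul_nonpos_of_nonneg_of_nonpos h3 h
  unfold Psi at h4 ⊢
  simp only [neg_mul] at h1
  unfold Psi at h1
  linarith

end Pool.Agent.Helper5.Bern
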