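import Pool.Agent.Helper5.BernSign

/-!
# Laplace transform representation
-/

set_option autoImplicit false

open Set Filter Topology MeasureTheory intervalIntegral

namespace Pool.Agent.Helper5.Bern

/-- `convCos ρ x t = ∫₀ᵗ ρ(t-u) cos (x u) du`. -/
noncomputable def convCos (ρ : ℝ → ℝ) (x t : ℝ) : ℝ :=
  ∫ u in (0 : ℝ)..t, ρ (t - u) * Real.cos (x * u)

/-- `convSin ρ x t = ∫₀ᵗ ρ(t-u) sin (x u) du`. -/
noncomputable def convSin (ρ : ℝ → ℝ) (x t : ℝ) : ℝ :=
  ∫ u in (0 : ℝ)..t, ρ (t - u) * Real.sin (x * u)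

theorem convCos_eq {ρ : ℝ → ℝ} (hρ : Continuous ρ) (x t : ℝ) :
    convCos ρ x t = Real.cos (x * t) * (∫ v in (0 : ℝ)..t, ρ v * Real.cos (x * v)) +
      Real.sin (x * t) * (∫ v in (0 : ℝ)..t, ρ v * Real.sin (x * v)) := by
  unfold convCos
  have h1 : ∫ u in (0 : ℝ)..t, ρ (t - u) * Real.cos (x * u) =
      ∫ v in (0 : ℝ)..t, ρ v * Real.cos (x * (t - v)) := by
    have := intervalIntegral.integral_comp_sub_left (a := 0) (b := t)
      (fun v => ρ v * Real.cos (x * (t - v))) t
    simp only [sub_self, sub_zero, sub_sub_cancel] at this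
    exact this
  rw [h1, ← intervalIntegral.integral_const_mul, ← intervalIntegral.integral_const_mul,
    ← intervalIntegral.integral_add]
  · congr 1
    funext v
    rw [mul_sub, Real.cos_sub]
    ring
  · apply Continuous.intervalIntegrable; fun_prop
  · apply Continuous.intervalIntegrable; fun_prop

theorem convSin_eq {ρ : ℝ → ℝ} (hρ : Continuous ρ) (x t : ℝ) :
    convSin ρ x t = Real.sin (x * t) * (∫ v in (0 : ℝ)..t, ρ v * Real.cos (x * v)) -
      Real.cos (x * t) * (∫ v in (0 : ℝ)..t, ρ v * Real.sin (x * v)) := by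
  unfold convSin
  have h1 : ∫ u in (0 : ℝ)..t, ρ (t - u) * Real.sin (x * u) =
      ∫ v in (0 : ℝ)..t, ρ v * Real.sin (x * (t - v)) := by
    have := intervalIntegral.integral_comp_sub_left (a := 0) (b := t)
      (fun v => ρ v * Real.sin (x * (t - v))) t
    simp only [sub_self, sub_zero, sub_sub_cancel] at this
    exact this
  rw [h1, ← intervalIntegral.integral_const_mul, ← intervalIntegral.integral_const_mul,
    ← intervalIntegral.integral_sub]
  · congr 1
    funext v
    rw [mul_sub, Real.sin_sub]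
    ring
  · apply Continuous.intervalIntegrable; fun_prop
  · apply Continuous.intervalIntegrable; fun_prop

theorem hasDerivAt_convCos {ρ : ℝ → ℝ} (hρ : Continuous ρ) (x t : ℝ) :
    HasDerivAt (convCos ρ x) (ρ t - x * convSin ρ x t) t := by
  have e : convCos ρ x = fun t => Real.cos (x * t) * (∫ v in (0 : ℝ)..t, ρ v * Real.cos (x * v)) +
      Real.sin (x * t) * (∫ v in (0 : ℝ)..t, ρ v * Real.sin (x * v)) := by
    funext t; exact convCos_eq hρ x t
  have hc : Continuous (fun v => ρ v * Real.cos (x * v)) := by fun_prop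
  have hs : Continuous (fun v => ρ v * Real.sin (x * v)) := by fun_prop
  have h1 := hc.integral_hasStrictDerivAt 0 t |>.hasDerivAt
  have h2 := hs.integral_hasStrictDerivAt 0 t |>.hasDerivAt
  have hx : HasDerivAt (fun t => x * t) x t := by
    simpa using (hasDerivAt_id t).const_mul x
  have h3 := hx.cos
  have h4 := hx.sin
  rw [e, convSin_eq hρ]
  have h5 := (h3.mul h1).add (h4.mul h2)
  refine h5.congr_deriv ?_
  have := Real.sin_sq_add_cos_sq (x * t)
  linear_combination (ρ t) * this

theorem hasDerivAt_convSin {ρ : ℝ → ℝ} (hρ : Continuous ρ) (x t : ℝ) :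
    HasDerivAt (convSin ρ x) (x * convCos ρ x t) t := by
  have e : convSin ρ x = fun t => Real.sin (x * t) * (∫ v in (0 : ℝ)..t, ρ v * Real.cos (x * v)) -
      Real.cos (x * t) * (∫ v in (0 : ℝ)..t, ρ v * Real.sin (x * v)) := by
    funext t; exact convSin_eq hρ x t
  have hc : Continuous (fun v => ρ v * Real.cos (x * v)) := by fun_prop
  have hs : Continuous (fun v => ρ v * Real.sin (x * v)) := by fun_prop
  have h1 := hc.integral_hasStrictDerivAt 0 t |>.hasDerivAt
  have h2 := hs.integral_hasStrictDerivAt 0 t |>.hasDerivAt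
  have hx : HasDerivAt (fun t => x * t) x t := by
    simpa using (hasDerivAt_id t).const_mul x
  have h3 := hx.cos
  have h4 := hx.sin
  rw [e, convCos_eq hρ]
  have h5 := (h4.mul h1).sub (h3.mul h2)
  refine h5.congr_deriv ?_
  ring

theorem continuous_convCos {ρ : ℝ → ℝ} (hρ : Continuous ρ) (x : ℝ) : Continuous (convCos ρ x) :=
  continuous_iff_continuousAt.2 fun t => (hasDerivAt_convCos hρ x t).continuousAt

theorem continuous_convSin {ρ : ℝ → ℝ} (hρ : Continuous ρ) (x : ℝ) : Continuous (convSin ρ x) :=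
  continuous_iff_continuousAt.2 fun t => (hasDerivAt_convSin hρ x t).continuousAt

/-- The Laplace transform of `convCos` over `[0,1]`. -/
theorem laplace_convCos {ρ : ℝ → ℝ} (hρ : Continuous ρ) (x l : ℝ) :
    (l ^ 2 + x ^ 2) * (∫ t in (0 : ℝ)..1, Real.exp (-(l * t)) * convCos ρ x t) =
      l * (∫ t in (0 : ℝ)..1, Real.exp (-(l * t)) * ρ t) +
        Real.exp (-l) * (x * convSin ρ x 1 - l * convCos ρ x 1) := by
  have hder : ∀ t ∈ uIcc (0 : ℝ) 1, HasDerivAt
      (fun t => Real.exp (-(l * t)) * (x * convSin ρ x t - l * convCos ρ x t))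
      ((l ^ 2 + x ^ 2) * (Real.exp (-(l * t)) * convCos ρ x t) -
        l * (Real.exp (-(l * t)) * ρ t)) t := by
    intro t _
    have h1 : HasDerivAt (fun t => -(l * t)) (-l) t := by
      have := ((hasDerivAt_id t).const_mul l).neg
      rw [mul_one] at this
      exact this
    have h2 : HasDerivAt (fun t => Real.exp (-(l * t)) * (x * convSin ρ x t - l * convCos ρ x t))
      (Real.exp (-(l * t)) * (-l) * (x * convSin ρ x t - l * convCos ρ x t) +
        Real.exp (-(l * t)) * (x * (x * convCos ρ x t) - l * (ρ t - x * convSin ρ x t))) t :=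
      h1.exp.mul (((hasDerivAt_convSin hρ x t).const_mul x).sub
      ((hasDerivAt_convCos hρ x t).const_mul l))
    refine h2.congr_deriv ?_
    ring
  have hcC := continuous_convCos hρ x
  have hint : IntervalIntegrable (fun t => (l ^ 2 + x ^ 2) * (Real.exp (-(l * t)) * convCos ρ x t) -
        l * (Real.exp (-(l * t)) * ρ t)) volume 0 1 := by
    apply Continuous.intervalIntegrable; fun_prop
  have h := intervalIntegral.integral_eq_sub_of_hasDerivAt hder hint
  have h0 : convSin ρ x 0 = 0 := by simp [convSin]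
  have h0' : convCos ρ x 0 = 0 := by simp [convCos]
  rw [intervalIntegral.integral_sub, intervalIntegral.integral_const_mul,
    intervalIntegral.integral_const_mul, h0, h0'] at h
  · simp only [mul_one, mul_zero, sub_zero] at h
    linarith
  · apply Continuous.intervalIntegrable; fun_prop
  · apply Continuous.intervalIntegrable; fun_prop

/-- The Gamma integral. -/
theorem gamma_integral {α t : ℝ} (hα1 : α < 1) (ht : 0 < t) :
    ∫ l in Ioi (0 : ℝ), l ^ (-α) * Real.exp (-(l * t)) = Real.Gamma (1 - α) * t ^ (α - 1) := by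
  have h := Real.integral_rpow_mul_exp_neg_mul_Ioi (a := 1 - α) (r := t) (by linarith) ht
  rw [show (1 - α) - 1 = -α by ring] at h
  simp_rw [mul_comm _ t]
  rw [h, one_div, Real.inv_rpow ht.le, ← Real.rpow_neg ht.le, show -(1 - α) = α - 1 by ring]
  ring

theorem gamma_integrable {α t : ℝ} (hα1 : α < 1) (ht : 0 < t) :
    IntegrableOn (fun l : ℝ => l ^ (-α) * Real.exp (-(l * t))) (Ioi 0) := by
  by_contra hcon
  have h := gamma_integral hα1 ht
  rw [integral_undef hcon] at h
  have h1 := Real.Gamma_pos_of_pos (show 0 < 1 - α by linarith)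
  have h2 := Real.rpow_pos_of_pos ht (α - 1)
  have := mul_pos h1 h2
  linarith

/-- Laplace representation of `∫₀¹ t^{α-1} Q(t) dt`. -/
theorem laplace_repr {α : ℝ} (hα0 : 0 < α) (hα1 : α < 1) {Q : ℝ → ℝ} (hQ : Continuous Q) :
    IntegrableOn (fun l : ℝ => l ^ (-α) * ∫ t in (0 : ℝ)..1, Real.exp (-(l * t)) * Q t) (Ioi 0) ∧
    ∫ l in Ioi (0 : ℝ), l ^ (-α) * ∫ t in (0 : ℝ)..1, Real.exp (-(l * t)) * Q t =
      Real.Gamma (1 - α) * ∫ t in (0 : ℝ)..1, t ^ (α - 1) * Q t := by
  set F : ℝ → ℝ → ℝ := fun t l => l ^ (-α) * Real.exp (-(l * t)) * Q t with hF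
  have hmeas : AEStronglyMeasurable (Function.uncurry F)
      ((volume.restrict (Ioc (0 : ℝ) 1)).prod (volume.restrict (Ioi (0 : ℝ)))) := by
    apply Measurable.aestronglyMeasurable
    have h1 : Measurable (fun p : ℝ × ℝ => p.2 ^ (-α)) := measurable_snd.pow_const _
    have h2 : Measurable (fun p : ℝ × ℝ => Real.exp (-(p.2 * p.1))) := by fun_prop
    have h3 : Measurable (fun p : ℝ × ℝ => Q p.1) := hQ.measurable.comp measurable_fst
    exact (h1.mul h2).mul h3
  have hinner : ∀ t : ℝ, 0 < t → ∫ l in Ioi (0 : ℝ), F t l =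
      Real.Gamma (1 - α) * (t ^ (α - 1) * Q t) := by
    intro t ht
    simp only [hF]
    rw [MeasureTheory.integral_mul_const, gamma_integral hα1 ht]
    ring
  have hinner' : ∀ t : ℝ, 0 < t → ∫ l in Ioi (0 : ℝ), ‖F t l‖ =
      Real.Gamma (1 - α) * (t ^ (α - 1) * |Q t|) := by
    intro t ht
    have : ∀ l ∈ Ioi (0 : ℝ), ‖F t l‖ = l ^ (-α) * Real.exp (-(l * t)) * |Q t| := by
      intro l hl
      have h1 : 0 ≤ l ^ (-α) * Real.exp (-(l * t)) :=
        mul_nonneg (Real.rpow_nonneg (le_of_lt hl) _) (Real.exp_pos _).le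
      simp only [hF]
      rw [norm_mul, Real.norm_of_nonneg h1, Real.norm_eq_abs]
    rw [setIntegral_congr_fun measurableSet_Ioi this, MeasureTheory.integral_mul_const, gamma_integral hα1 ht]
    ring
  have hrp : IntervalIntegrable (fun t : ℝ => t ^ (α - 1)) volume 0 1 :=
    intervalIntegrable_rpow' (by linarith)
  have hrpQ : IntegrableOn (fun t : ℝ => t ^ (α - 1) * |Q t|) (Ioc 0 1) := by
    have := hrp.mul_continuousOn (g := fun t => |Q t|) hQ.abs.continuousOn
    exact (intervalIntegrable_iff_integrableOn_Ioc_of_le zero_le_one).1 this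
  have hint : Integrable (Function.uncurry F)
      ((volume.restrict (Ioc (0 : ℝ) 1)).prod (volume.restrict (Ioi (0 : ℝ)))) := by
    rw [integrable_prod_iff hmeas]
    constructor
    · refine (ae_restrict_iff' measurableSet_Ioc).2 (Filter.Eventually.of_forall (fun t ht => ?_))
      exact (gamma_integrable hα1 ht.1).mul_const (Q t)
    · have h1 : IntegrableOn (fun t : ℝ => Real.Gamma (1 - α) * (t ^ (α - 1) * |Q t|)) (Ioc 0 1) :=
        hrpQ.const_mul _
      refine h1.congr_fun (fun t ht => ?_) measurableSet_Ioc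
      exact (hinner' t ht.1).symm
  have hswap := integral_integral_swap hint
  have hswapI := hint.integral_prod_right
  have e1 : ∀ l : ℝ, ∫ t in Ioc (0 : ℝ) 1, F t l =
      l ^ (-α) * ∫ t in (0 : ℝ)..1, Real.exp (-(l * t)) * Q t := by
    intro l
    rw [intervalIntegral.integral_of_le zero_le_one, ← MeasureTheory.integral_const_mul]
    simp only [hF]
    congr 1
    funext t
    ring
  have e2 : ∫ t in Ioc (0 : ℝ) 1, ∫ l in Ioi (0 : ℝ), F t l =
      Real.Gamma (1 - α) * ∫ t in (0 : ℝ)..1, t ^ (α - 1) * Q t := by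
    rw [setIntegral_congr_fun measurableSet_Ioc (fun t ht => hinner t ht.1),
      MeasureTheory.integral_const_mul, intervalIntegral.integral_of_le zero_le_one]
  constructor
  · have : IntegrableOn (fun l => ∫ t in Ioc (0 : ℝ) 1, F t l) (Ioi 0) := hswapI
    simpa only [e1] using this
  · rw [← e2, hswap]
    simp only [e1]

/-- Single-crossing comparison of integrals on `(0, ∞)`. -/
theorem single_crossing {w₁ w₂ h : ℝ → ℝ}
    (hi1 : IntegrableOn (fun l => w₁ l * h l) (Ioi 0))
    (hi2 : IntegrableOn (fun l => w₂ l * h l) (Ioi 0))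
    (hw1 : ∀ l, 0 < l → 0 ≤ w₁ l) (hw2 : ∀ l, 0 < l → 0 < w₂ l)
    (hratio : ∀ l m, 0 < l → l ≤ m → w₁ l * w₂ m ≤ w₁ m * w₂ l)
    (hsign : ∀ l m, 0 < l → l ≤ m → 0 ≤ h l → 0 ≤ h m)
    (hpos : 0 < ∫ l in Ioi (0 : ℝ), w₂ l * h l) :
    0 ≤ ∫ l in Ioi (0 : ℝ), w₁ l * h l := by
  set S : Set ℝ := {l | 0 < l ∧ 0 ≤ h l} with hS
  have hne : S.Nonempty := by
    by_contra hcon
    rw [Set.not_nonempty_iff_eq_empty] at hcon
    have h1 : ∀ l ∈ Ioi (0 : ℝ), w₂ l * h l ≤ 0 := by
      intro l hl
      have h2 : h l < 0 := by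
        by_contra h3
        push Not at h3
        have : l ∈ S := ⟨hl, h3⟩
        rw [hcon] at this
        exact this
      exact mul_nonpos_of_nonneg_of_nonpos (hw2 l hl).le h2.le
    have := setIntegral_nonpos (μ := volume) measurableSet_Ioi h1
    linarith
  have hbdd : BddBelow S := ⟨0, fun l hl => hl.1.le⟩
  set r : ℝ := sInf S with hr
  have hr0 : 0 ≤ r := le_csInf hne (fun l hl => hl.1.le)
  have habove : ∀ l, r < l → 0 ≤ h l := by
    intro l hl
    obtain ⟨s, hs, hsl⟩ := exists_lt_of_csInf_lt hne hl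
    exact hsign s l hs.1 hsl.le hs.2
  have hbelow : ∀ l, 0 < l → l < r → h l ≤ 0 := by
    intro l hl0 hl
    by_contra hcon
    push Not at hcon
    exact absurd (csInf_le hbdd ⟨hl0, hcon.le⟩) (not_le.2 hl)
  rcases hr0.eq_or_lt with h0 | h0
  · apply setIntegral_nonneg measurableSet_Ioi
    intro l hl
    exact mul_nonneg (hw1 l hl) (habove l (by rw [← h0]; exact hl))
  · set κ : ℝ := w₁ r / w₂ r with hκ
    have hκ0 : 0 ≤ κ := div_nonneg (hw1 r h0) (hw2 r h0).le
    have hpt : ∀ l ∈ Ioi (0 : ℝ), κ * (w₂ l * h l) ≤ w₁ l * h l := by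
      intro l hl
      have hw2r := hw2 r h0
      rcases lt_trichotomy l r with hlr | hlr | hlr
      · have h1 := hratio l r hl hlr.le
        have h2 : w₁ l ≤ κ * w₂ l := by
          rw [hκ, div_mul_eq_mul_div, le_div_iff₀ hw2r]; exact h1
        have h3 := hbelow l hl hlr
        nlinarith
      · rw [hlr, hκ, ← mul_assoc, div_mul_cancel₀ _ hw2r.ne']
      · have h1 := hratio r l h0 hlr.le
        have h2 : κ * w₂ l ≤ w₁ l := by
          rw [hκ, div_mul_eq_mul_div, div_le_iff₀ hw2r]; exact h1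
        have h3 := habove l hlr
        nlinarith
    have h4 := setIntegral_mono_on (hi2.const_mul κ) hi1 measurableSet_Ioi hpt
    rw [MeasureTheory.integral_const_mul] at h4
    exact le_trans (mul_nonneg hκ0 hpos.le) h4

end Pool.Agent.Helper5.Bern
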