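import Pool.Agent.Helper5.BernPos

/-!
# Polynomial approximation of `∫₀¹ t^{α-1} Q(t) dt`
-/

set_option autoImplicit false

open Set Filter Topology Nat MeasureTheory intervalIntegral

namespace Pool.Agent.Helper5.Bern

/-- coefficients of the degree ten polynomial approximating `J₀(√(4B)·√(t(2-t)))` from below. -/
noncomputable def rc (B : ℝ) : ℕ → ℝ
  | 0 => 1
  | 1 => -2 * B
  | 2 => B + B ^ 2
  | 3 => -B ^ 2 - 2 / 9 * B ^ 3
  | 4 => 1 / 4 * B ^ 2 + 1 / 3 * B ^ 3 + 1 / 36 * B ^ 4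
  | 5 => -1 / 6 * B ^ 3 - 1 / 18 * B ^ 4 - 1 / 450 * B ^ 5
  | 6 => 1 / 36 * B ^ 3 + 1 / 24 * B ^ 4 + 1 / 180 * B ^ 5
  | 7 => -1 / 72 * B ^ 4 - 1 / 180 * B ^ 5
  | 8 => 1 / 576 * B ^ 4 + 1 / 360 * B ^ 5
  | 9 => -1 / 1440 * B ^ 5
  | 10 => 1 / 14400 * B ^ 5
  | _ => 0

/-- the approximating polynomial -/
noncomputable def pol (B v : ℝ) : ℝ := ∑ n ∈ Finset.range 11, rc B n * v ^ n

theorem pol_eq (B v : ℝ) : pol B v = ∑ m ∈ Finset.range 6,
    (-1) ^ m * ((B * (v * (2 - v))) ^ m / (((m ! : ℕ) : ℝ) * (((m + 0)! : ℕ) : ℝ))) := by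
  unfold pol
  simp only [Finset.sum_range_succ, Finset.sum_range_zero, rc]
  norm_num [Nat.factorial]
  ring

theorem rho_eq (c v : ℝ) : rho c v = besP 0 (c ^ 2 / 4 * (v * (2 - v))) := by
  unfold rho
  rw [besR_eq]
  congr 1
  ring

theorem rho_pol {c v : ℝ} (hc : c ^ 2 ≤ 10) (h0 : 0 ≤ v) (h1 : v ≤ 1) :
    0 ≤ rho c v - pol (c ^ 2 / 4) v ∧
      rho c v - pol (c ^ 2 / 4) v ≤ (c ^ 2 / 4) ^ 6 / 518400 := by
  have hv : 0 ≤ v * (2 - v) := by nlinarith
  have hv1 : v * (2 - v) ≤ 1 := by nlinarith [sq_nonneg (v - 1)]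
  have hB : 0 ≤ c ^ 2 / 4 := by positivity
  have hy0 : 0 ≤ c ^ 2 / 4 * (v * (2 - v)) := mul_nonneg hB hv
  have hy1 : c ^ 2 / 4 * (v * (2 - v)) ≤ c ^ 2 / 4 := mul_le_of_le_one_right hB hv1
  have h := besP_partial 0 hy0 (by linarith) 6 (by norm_num)
  rw [← pol_eq, ← rho_eq] at h
  norm_num [Nat.factorial] at h
  constructor
  · linarith [h.1]
  · have h6 : (c ^ 2 / 4 * (v * (2 - v))) ^ 6 ≤ (c ^ 2 / 4) ^ 6 := pow_le_pow_left₀ hy0 hy1 6
    have h2 := h.2
    have h7 : (c ^ 2 / 4 * (v * (2 - v))) ^ 6 / 518400 ≤ (c ^ 2 / 4) ^ 6 / 518400 := by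
      linarith
    linarith

theorem rho_le_one {c v : ℝ} (hc : c ^ 2 ≤ 10) (h0 : 0 ≤ v) (h1 : v ≤ 1) : rho c v ≤ 1 := by
  unfold rho
  have h := besR_mono hc (a := 1 - v) (b := 1) ⟨by linarith, by linarith⟩ ⟨zero_le_one, le_rfl⟩
    (by linarith)
  rwa [besR_one] at h

theorem rho_ge {c v : ℝ} (hc : c ^ 2 ≤ 10) (h0 : 0 ≤ v) (h1 : v ≤ 1) : -(1 / 3) ≤ rho c v := by
  rw [rho_eq]
  have hv : 0 ≤ v * (2 - v) := by nlinarith
  have hv1 : v * (2 - v) ≤ 1 := by nlinarith [sq_nonneg (v - 1)]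
  have hB : 0 ≤ c ^ 2 / 4 := by positivity
  have hy1 : c ^ 2 / 4 * (v * (2 - v)) ≤ c ^ 2 / 4 := mul_le_of_le_one_right hB hv1
  exact besP_zero_ge (mul_nonneg hB hv) (by linarith)

/-- Taylor polynomial of the cosine -/
noncomputable def cpol (w : ℝ) : ℝ :=
  ∑ m ∈ Finset.range 8, (-1) ^ m * (w ^ (2 * m) / (((2 * m)! : ℕ) : ℝ))

theorem cos_cpol {w : ℝ} (hw : w ^ 2 ≤ 100) :
    |Real.cos w - cpol w| ≤ w ^ 16 / 20922789888000 := by
  have hs : HasSum (fun m : ℕ => (-1) ^ m * (w ^ (2 * m) / (((2 * m)! : ℕ) : ℝ))) (Real.cos w) :=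
    hasSum_of_eq (Real.hasSum_cos w) (fun m => by ring)
  have h := alt_tail hs 8 (fun m hm => by
    rw [show 2 * (m + 1) = (2 * m + 1) + 1 by ring, Nat.factorial_succ, Nat.factorial_succ]
    have h1 : (0 : ℝ) < (((2 * m)! : ℕ) : ℝ) := by positivity
    have hm' : (8 : ℝ) ≤ m := by exact_mod_cast hm
    push_cast
    rw [div_le_div_iff₀ (by positivity) h1]
    have h2 : w ^ (2 * m + 1 + 1) = w ^ (2 * m) * w ^ 2 := by ring
    rw [h2]
    have h3 : 0 ≤ w ^ (2 * m) := by rw [pow_mul]; positivity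
    have h4 : w ^ 2 ≤ (2 * (m : ℝ) + 1 + 1) * (2 * m + 1) := by nlinarith
    have h5 := mul_le_mul_of_nonneg_left h4 (mul_nonneg h3 h1.le)
    linarith)
  rw [show (-1 : ℝ) ^ 8 = 1 by norm_num, one_mul] at h
  have h9 : (((2 * 8)! : ℕ) : ℝ) = 20922789888000 := by norm_num [Nat.factorial]
  rw [h9] at h
  have : ∑ m ∈ Finset.range 8, (-1) ^ m * (w ^ (2 * m) / (((2 * m)! : ℕ) : ℝ)) = cpol w := rfl
  rw [this] at h
  rw [abs_of_nonneg h.1]
  exact h.2

theorem integral_beta (t : ℝ) (n : ℕ) : ∀ k : ℕ, ∫ u in (0 : ℝ)..t, (t - u) ^ n * u ^ k =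
    (n ! : ℕ) * (k ! : ℕ) / ((n + k + 1)! : ℕ) * t ^ (n + k + 1) := by
  induction n with
  | zero =>
    intro k
    simp only [pow_zero, one_mul, Nat.factorial_zero, Nat.cast_one, zero_add]
    rw [integral_pow, Nat.factorial_succ]
    have h0 : ((k ! : ℕ) : ℝ) ≠ 0 := by positivity
    have h1 : (k : ℝ) + 1 ≠ 0 := by positivity
    push_cast
    field_simp
    simp
  | succ n ih =>
    intro k
    have e : ∀ u : ℝ, (t - u) ^ (n + 1) * u ^ k =
        t * ((t - u) ^ n * u ^ k) - (t - u) ^ n * u ^ (k + 1) := by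
      intro u
      ring
    simp_rw [e]
    rw [intervalIntegral.integral_sub, intervalIntegral.integral_const_mul, ih, ih]
    · rw [show n + (k + 1) + 1 = (n + k + 1) + 1 by ring,
        show n + 1 + k + 1 = (n + k + 1) + 1 by ring, Nat.factorial_succ (n + k + 1),
        Nat.factorial_succ n, Nat.factorial_succ k]
      have h0 : (((n + k + 1)! : ℕ) : ℝ) ≠ 0 := by positivity
      have h1 : ((n : ℝ) + k + 1 + 1) ≠ 0 := by positivity
      push_cast
      rw [pow_succ t (n + k + 1)]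
      field_simp
      ring
    · apply Continuous.intervalIntegrable; fun_prop
    · apply Continuous.intervalIntegrable; fun_prop

theorem rpow_pow_integrable {α : ℝ} (hα : 0 < α) {f : ℝ → ℝ} (hf : Continuous f) :
    IntervalIntegrable (fun t : ℝ => t ^ (α - 1) * f t) volume 0 1 :=
  (intervalIntegrable_rpow' (by linarith)).mul_continuousOn hf.continuousOn

theorem integral_rpow_pow {α : ℝ} (hα : 0 < α) (N : ℕ) :
    ∫ t in (0 : ℝ)..1, t ^ (α - 1) * t ^ N = 1 / (N + α) := by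
  have h1 : ∫ t in (0 : ℝ)..1, t ^ (α - 1) * t ^ N = ∫ t in (0 : ℝ)..1, t ^ (α - 1 + N) := by
    rw [intervalIntegral.integral_of_le zero_le_one, intervalIntegral.integral_of_le zero_le_one]
    apply setIntegral_congr_fun measurableSet_Ioc
    intro t ht
    show t ^ (α - 1) * t ^ N = t ^ (α - 1 + N)
    rw [Real.rpow_add_natCast ht.1.ne']
  rw [h1, integral_rpow (Or.inl (by have : (0 : ℝ) ≤ N := by positivity
                                    linarith))]
  rw [Real.one_rpow, Real.zero_rpow (by have : (0 : ℝ) ≤ N := by positivity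
                                        linarith)]
  congr 1
  · ring
  · ring

/-- the approximate value -/
noncomputable def Ecoef (α B : ℝ) (m : ℕ) : ℝ :=
  ∑ n ∈ Finset.range 11, rc B n * ((n ! : ℕ) / (((n + 2 * m + 1)! : ℕ) * (n + 2 * m + 1 + α)))

theorem conv_pol (B x t : ℝ) :
    ∫ u in (0 : ℝ)..t, pol B (t - u) * cpol (x * u) =
      ∑ m ∈ Finset.range 8, ∑ n ∈ Finset.range 11, (-1) ^ m * (x ^ 2) ^ m *
        (rc B n * ((n ! : ℕ) / ((n + 2 * m + 1)! : ℕ))) * t ^ (n + 2 * m + 1) := by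
  have e : ∀ u : ℝ, pol B (t - u) * cpol (x * u) = ∑ m ∈ Finset.range 8, ∑ n ∈ Finset.range 11,
      ((-1) ^ m * (x ^ 2) ^ m * (rc B n / (((2 * m)! : ℕ) : ℝ))) *
        ((t - u) ^ n * u ^ (2 * m)) := by
    intro u
    unfold pol cpol
    rw [Finset.sum_mul_sum, Finset.sum_comm]
    refine Finset.sum_congr rfl (fun m _ => Finset.sum_congr rfl (fun n _ => ?_))
    rw [mul_pow x u, pow_mul x]
    ring
  simp_rw [e]
  rw [intervalIntegral.integral_finsetSum]
  · refine Finset.sum_congr rfl (fun m _ => ?_)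
    rw [intervalIntegral.integral_finsetSum]
    · refine Finset.sum_congr rfl (fun n _ => ?_)
      rw [intervalIntegral.integral_const_mul, integral_beta]
      have h1 : (((2 * m)! : ℕ) : ℝ) ≠ 0 := by positivity
      field_simp
    · intro n _
      apply Continuous.intervalIntegrable; fun_prop
  · intro m _
    apply Continuous.intervalIntegrable; fun_prop

theorem integral_conv_pol {α : ℝ} (hα : 0 < α) (B x : ℝ) :
    ∫ t in (0 : ℝ)..1, t ^ (α - 1) * ∫ u in (0 : ℝ)..t, pol B (t - u) * cpol (x * u) =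
      ∑ m ∈ Finset.range 8, (-1) ^ m * (x ^ 2) ^ m * Ecoef α B m := by
  simp_rw [conv_pol, Finset.mul_sum]
  rw [intervalIntegral.integral_finsetSum]
  · refine Finset.sum_congr rfl (fun m _ => ?_)
    rw [intervalIntegral.integral_finsetSum]
    · unfold Ecoef
      rw [Finset.mul_sum]
      refine Finset.sum_congr rfl (fun n _ => ?_)
      have e : ∀ t : ℝ, t ^ (α - 1) * ((-1) ^ m * (x ^ 2) ^ m *
          (rc B n * ((n ! : ℕ) / ((n + 2 * m + 1)! : ℕ))) * t ^ (n + 2 * m + 1)) =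
          ((-1) ^ m * (x ^ 2) ^ m * (rc B n * ((n ! : ℕ) / ((n + 2 * m + 1)! : ℕ)))) *
            (t ^ (α - 1) * t ^ (n + 2 * m + 1)) := by
        intro t
        ring
      simp_rw [e]
      rw [intervalIntegral.integral_const_mul, integral_rpow_pow hα]
      push_cast
      rw [div_mul_eq_div_div]
      ring
    · intro n _
      apply rpow_pow_integrable hα (f := fun t => (-1) ^ m * (x ^ 2) ^ m *
          (rc B n * ((n ! : ℕ) / ((n + 2 * m + 1)! : ℕ))) * t ^ (n + 2 * m + 1))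
      fun_prop
  · intro m _
    simp_rw [← Finset.mul_sum]
    apply rpow_pow_integrable hα (f := fun t => ∑ n ∈ Finset.range 11, (-1) ^ m * (x ^ 2) ^ m *
          (rc B n * ((n ! : ℕ) / ((n + 2 * m + 1)! : ℕ))) * t ^ (n + 2 * m + 1))
    fun_prop

/-- Lower bound for the integral by the polynomial approximation. -/
theorem S_lower {α c x : ℝ} (hα : 0 < α) (hc : c ^ 2 ≤ 10) (hx : x ^ 2 ≤ 100) :
    (∑ m ∈ Finset.range 8, (-1) ^ m * (x ^ 2) ^ m * Ecoef α (c ^ 2 / 4) m) -
      ((c ^ 2 / 4) ^ 6 / 518400 / (1 + α) + (x ^ 2) ^ 8 / 355687428096000 / (17 + α)) ≤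
      ∫ t in (0 : ℝ)..1, t ^ (α - 1) * convCos (rho c) x t := by
  set ε : ℝ := (c ^ 2 / 4) ^ 6 / 518400 with hε
  have hε0 : 0 ≤ ε := by positivity
  have hε1 : ε ≤ 2 / 3 := by
    have : (c ^ 2 / 4) ^ 6 ≤ (10 / 4) ^ 6 := pow_le_pow_left₀ (by positivity) (by linarith) 6
    rw [hε]
    norm_num at this
    linarith
  have hcr := continuous_rho c
  have hpolc : Continuous (pol (c ^ 2 / 4)) := by unfold pol; fun_prop
  have hcpolc : Continuous cpol := by unfold cpol; fun_prop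
  -- pointwise bound for the convolution
  have hconv : ∀ t ∈ Icc (0 : ℝ) 1,
      (∫ u in (0 : ℝ)..t, pol (c ^ 2 / 4) (t - u) * cpol (x * u)) -
        (ε * t + (x ^ 2) ^ 8 / 355687428096000 * t ^ 17) ≤ convCos (rho c) x t := by
    intro t ht
    have e1 : ε * t + (x ^ 2) ^ 8 / 355687428096000 * t ^ 17 =
        ∫ u in (0 : ℝ)..t, (ε + (x ^ 2) ^ 8 / 20922789888000 * u ^ 16) := by
      rw [intervalIntegral.integral_add, intervalIntegral.integral_const,
        intervalIntegral.integral_const_mul, integral_pow]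
      · simp
        ring
      · exact intervalIntegrable_const
      · apply Continuous.intervalIntegrable; fun_prop
    unfold convCos
    rw [e1, ← intervalIntegral.integral_sub]
    · apply intervalIntegral.integral_mono_on ht.1
      · apply Continuous.intervalIntegrable; fun_prop
      · apply Continuous.intervalIntegrable; fun_prop
      · intro u hu
        have hv0 : 0 ≤ t - u := by linarith [hu.2]
        have hv1 : t - u ≤ 1 := by linarith [hu.1, ht.2]
        have hu1 : u ≤ 1 := hu.2.trans ht.2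
        obtain ⟨h1, h2⟩ := rho_pol hc hv0 hv1
        have h3 := rho_le_one hc hv0 hv1
        have h4 := rho_ge hc hv0 hv1
        rw [← hε] at h2
        have hxu : (x * u) ^ 2 ≤ 100 := by
          rw [mul_pow]
          have : u ^ 2 ≤ 1 := pow_le_one₀ hu.1 hu1
          calc x ^ 2 * u ^ 2 ≤ x ^ 2 * 1 := mul_le_mul_of_nonneg_left this (sq_nonneg x)
            _ ≤ 100 := by linarith
        have h5 := cos_cpol hxu
        have hpow : (x * u) ^ 16 = (x ^ 2) ^ 8 * u ^ 16 := by ring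
        rw [hpow] at h5
        have hP : |pol (c ^ 2 / 4) (t - u)| ≤ 1 := by
          rw [abs_le]
          constructor <;> linarith
        have hcos := Real.abs_cos_le_one (x * u)
        have e2 : rho c (t - u) * Real.cos (x * u) - pol (c ^ 2 / 4) (t - u) * cpol (x * u) =
          (rho c (t - u) - pol (c ^ 2 / 4) (t - u)) * Real.cos (x * u) +
            pol (c ^ 2 / 4) (t - u) * (Real.cos (x * u) - cpol (x * u)) := by ring
        have h6 : |(rho c (t - u) - pol (c ^ 2 / 4) (t - u)) * Real.cos (x * u)| ≤ ε * 1 := by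
          rw [abs_mul, abs_of_nonneg h1]
          exact mul_le_mul h2 hcos (abs_nonneg _) hε0
        have h7 : |pol (c ^ 2 / 4) (t - u) * (Real.cos (x * u) - cpol (x * u))| ≤
            1 * ((x ^ 2) ^ 8 * u ^ 16 / 20922789888000) := by
          rw [abs_mul]
          exact mul_le_mul hP h5 (abs_nonneg _) zero_le_one
        have h8 := abs_le.1 h6
        have h9 := abs_le.1 h7
        have h10 : (x ^ 2) ^ 8 / 20922789888000 * u ^ 16 =
          (x ^ 2) ^ 8 * u ^ 16 / 20922789888000 := by ring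
        rw [h10]
        linarith [h8.1, h9.1]
    · apply Continuous.intervalIntegrable; fun_prop
    · apply Continuous.intervalIntegrable; fun_prop
  have hcontQ := continuous_convCos hcr x
  have hcontP : Continuous (fun t => ∫ u in (0 : ℝ)..t, pol (c ^ 2 / 4) (t - u) * cpol (x * u)) := by
    simp_rw [conv_pol]
    fun_prop
  have e3 : (∑ m ∈ Finset.range 8, (-1) ^ m * (x ^ 2) ^ m * Ecoef α (c ^ 2 / 4) m) -
      (ε / (1 + α) + (x ^ 2) ^ 8 / 355687428096000 / (17 + α)) =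
      ∫ t in (0 : ℝ)..1, t ^ (α - 1) * ((∫ u in (0 : ℝ)..t, pol (c ^ 2 / 4) (t - u) *
        cpol (x * u)) - (ε * t + (x ^ 2) ^ 8 / 355687428096000 * t ^ 17)) := by
    have e4 : ∀ t : ℝ, t ^ (α - 1) * ((∫ u in (0 : ℝ)..t, pol (c ^ 2 / 4) (t - u) *
        cpol (x * u)) - (ε * t + (x ^ 2) ^ 8 / 355687428096000 * t ^ 17)) =
        t ^ (α - 1) * (∫ u in (0 : ℝ)..t, pol (c ^ 2 / 4) (t - u) * cpol (x * u)) -
        (ε * (t ^ (α - 1) * t ^ 1) + (x ^ 2) ^ 8 / 355687428096000 * (t ^ (α - 1) * t ^ 17)) := by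
      intro t
      ring
    simp_rw [e4]
    have i1 := rpow_pow_integrable hα hcontP
    have i2 := (rpow_pow_integrable hα (f := fun t => t ^ 1) (by fun_prop)).const_mul ε
    have i3 := (rpow_pow_integrable hα (f := fun t => t ^ 17) (by fun_prop)).const_mul
      ((x ^ 2) ^ 8 / 355687428096000)
    rw [intervalIntegral.integral_sub i1 (i2.add i3), intervalIntegral.integral_add i2 i3,
      intervalIntegral.integral_const_mul, intervalIntegral.integral_const_mul,
      integral_rpow_pow hα, integral_rpow_pow hα, integral_conv_pol hα]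
    push_cast
    ring
  rw [e3]
  apply intervalIntegral.integral_mono_on zero_le_one
  · apply rpow_pow_integrable hα (f := fun t => (∫ u in (0 : ℝ)..t, pol (c ^ 2 / 4) (t - u) *
        cpol (x * u)) - (ε * t + (x ^ 2) ^ 8 / 355687428096000 * t ^ 17))
    exact hcontP.sub (by fun_prop)
  · exact rpow_pow_integrable hα hcontQ
  · intro t ht
    exact mul_le_mul_of_nonneg_left (hconv t ht) (Real.rpow_nonneg ht.1 _)

end Pool.Agent.Helper5.Bern
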