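import Pool.Agent.Helper5.BernNum

/-!
# Numerical values of the coefficients
-/

set_option autoImplicit false

open Set Filter Topology Nat MeasureTheory intervalIntegral

namespace Pool.Agent.Helper5.Bern

theorem Ea0 : (207905 / 10 ^ 6 : ℝ) ≤ Ecoef (3 / 10) (987 / 400) 0 := by
  unfold Ecoef
  simp only [Finset.sum_range_succ, Finset.sum_range_zero, rc]
  norm_num [Nat.factorial]

theorem Ea1 : Ecoef (3 / 10) (987 / 400) 1 ≤ (207574 / 10 ^ 7 : ℝ) := by
  unfold Ecoef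
  simp only [Finset.sum_range_succ, Finset.sum_range_zero, rc]
  norm_num [Nat.factorial]

theorem Ea2 : (822114 / 10 ^ 9 : ℝ) ≤ Ecoef (3 / 10) (987 / 400) 2 := by
  unfold Ecoef
  simp only [Finset.sum_range_succ, Finset.sum_range_zero, rc]
  norm_num [Nat.factorial]

theorem Ea3 : Ecoef (3 / 10) (987 / 400) 3 ≤ (163137 / 10 ^ 10 : ℝ) := by
  unfold Ecoef
  simp only [Finset.sum_range_succ, Finset.sum_range_zero, rc]
  norm_num [Nat.factorial]

theorem Ea4 : (194425 / 10 ^ 12 : ℝ) ≤ Ecoef (3 / 10) (987 / 400) 4 := by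
  unfold Ecoef
  simp only [Finset.sum_range_succ, Finset.sum_range_zero, rc]
  norm_num [Nat.factorial]

theorem Ea5 : Ecoef (3 / 10) (987 / 400) 5 ≤ (154828 / 10 ^ 14 : ℝ) := by
  unfold Ecoef
  simp only [Finset.sum_range_succ, Finset.sum_range_zero, rc]
  norm_num [Nat.factorial]

theorem Ea6 : (883056 / 10 ^ 17 : ℝ) ≤ Ecoef (3 / 10) (987 / 400) 6 := by
  unfold Ecoef
  simp only [Finset.sum_range_succ, Finset.sum_range_zero, rc]
  norm_num [Nat.factorial]

theorem Ea7 : Ecoef (3 / 10) (987 / 400) 7 ≤ (378764 / 10 ^ 19 : ℝ) := by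
  unfold Ecoef
  simp only [Finset.sum_range_succ, Finset.sum_range_zero, rc]
  norm_num [Nat.factorial]

theorem Eb0 : (241043 / 10 ^ 6 : ℝ) ≤ Ecoef (9 / 25) (17 / 8) 0 := by
  unfold Ecoef
  simp only [Finset.sum_range_succ, Finset.sum_range_zero, rc]
  norm_num [Nat.factorial]

theorem Eb1 : Ecoef (9 / 25) (17 / 8) 1 ≤ (233147 / 10 ^ 7 : ℝ) := by
  unfold Ecoef
  simp only [Finset.sum_range_succ, Finset.sum_range_zero, rc]
  norm_num [Nat.factorial]

theorem Eb2 : (893647 / 10 ^ 9 : ℝ) ≤ Ecoef (9 / 25) (17 / 8) 2 := by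
  unfold Ecoef
  simp only [Finset.sum_range_succ, Finset.sum_range_zero, rc]
  norm_num [Nat.factorial]

theorem Eb3 : Ecoef (9 / 25) (17 / 8) 3 ≤ (174106 / 10 ^ 10 : ℝ) := by
  unfold Ecoef
  simp only [Finset.sum_range_succ, Finset.sum_range_zero, rc]
  norm_num [Nat.factorial]

theorem Eb4 : (205101 / 10 ^ 12 : ℝ) ≤ Ecoef (9 / 25) (17 / 8) 4 := by
  unfold Ecoef
  simp only [Finset.sum_range_succ, Finset.sum_range_zero, rc]
  norm_num [Nat.factorial]

theorem Eb5 : Ecoef (9 / 25) (17 / 8) 5 ≤ (162022 / 10 ^ 14 : ℝ) := by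
  unfold Ecoef
  simp only [Finset.sum_range_succ, Finset.sum_range_zero, rc]
  norm_num [Nat.factorial]

theorem Eb6 : (918654 / 10 ^ 17 : ℝ) ≤ Ecoef (9 / 25) (17 / 8) 6 := by
  unfold Ecoef
  simp only [Finset.sum_range_succ, Finset.sum_range_zero, rc]
  norm_num [Nat.factorial]

theorem Eb7 : Ecoef (9 / 25) (17 / 8) 7 ≤ (392255 / 10 ^ 19 : ℝ) := by
  unfold Ecoef
  simp only [Finset.sum_range_succ, Finset.sum_range_zero, rc]
  norm_num [Nat.factorial]

theorem Ec0 : (236673 / 10 ^ 6 : ℝ) ≤ Ecoef (2 / 5) (52 / 25) 0 := by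
  unfold Ecoef
  simp only [Finset.sum_range_succ, Finset.sum_range_zero, rc]
  norm_num [Nat.factorial]

theorem Ec1 : Ecoef (2 / 5) (52 / 25) 1 ≤ (234021 / 10 ^ 7 : ℝ) := by
  unfold Ecoef
  simp only [Finset.sum_range_succ, Finset.sum_range_zero, rc]
  norm_num [Nat.factorial]

theorem Ec2 : (897556 / 10 ^ 9 : ℝ) ≤ Ecoef (2 / 5) (52 / 25) 2 := by
  unfold Ecoef
  simp only [Finset.sum_range_succ, Finset.sum_range_zero, rc]
  norm_num [Nat.factorial]

theorem Ec3 : Ecoef (2 / 5) (52 / 25) 3 ≤ (174791 / 10 ^ 10 : ℝ) := by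
  unfold Ecoef
  simp only [Finset.sum_range_succ, Finset.sum_range_zero, rc]
  norm_num [Nat.factorial]

theorem Ec4 : (205810 / 10 ^ 12 : ℝ) ≤ Ecoef (2 / 5) (52 / 25) 4 := by
  unfold Ecoef
  simp only [Finset.sum_range_succ, Finset.sum_range_zero, rc]
  norm_num [Nat.factorial]

theorem Ec5 : Ecoef (2 / 5) (52 / 25) 5 ≤ (162519 / 10 ^ 14 : ℝ) := by
  unfold Ecoef
  simp only [Finset.sum_range_succ, Finset.sum_range_zero, rc]
  norm_num [Nat.factorial]

theorem Ec6 : (921171 / 10 ^ 17 : ℝ) ≤ Ecoef (2 / 5) (52 / 25) 6 := by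
  unfold Ecoef
  simp only [Finset.sum_range_succ, Finset.sum_range_zero, rc]
  norm_num [Nat.factorial]

theorem Ec7 : Ecoef (2 / 5) (52 / 25) 7 ≤ (393226 / 10 ^ 19 : ℝ) := by
  unfold Ecoef
  simp only [Finset.sum_range_succ, Finset.sum_range_zero, rc]
  norm_num [Nat.factorial]

end Pool.Agent.Helper5.Bern
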