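import Pool.Agent.Helper5.BernNum

/-!
# Numerical bounds for the coefficients (second family)
-/

set_option autoImplicit false

open Set Filter Topology Nat MeasureTheory intervalIntegral

namespace Pool.Agent.Helper5.Bern

noncomputable def cep : ℕ → ℝ
  | 0 => 2336185 / 10 ^ 7
  | 1 => 2345951 / 10 ^ 8
  | 2 => 9002240 / 10 ^ 10
  | 3 => 1752617 / 10 ^ 11
  | 4 => 2063018 / 10 ^ 13
  | 5 => 1628625 / 10 ^ 15
  | 6 => 9229213 / 10 ^ 18
  | 7 => 3939015 / 10 ^ 20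
  | _ => 0

theorem Ep0 : (2336185 / 10 ^ 7 : ℝ) ≤ Ecoef (43 / 100) (819 / 400) 0 := by
  unfold Ecoef
  simp only [Finset.sum_range_succ, Finset.sum_range_zero, rc]
  norm_num [Nat.factorial]

theorem Ep1 : Ecoef (43 / 100) (819 / 400) 1 ≤ (2345951 / 10 ^ 8 : ℝ) := by
  unfold Ecoef
  simp only [Finset.sum_range_succ, Finset.sum_range_zero, rc]
  norm_num [Nat.factorial]

theorem Ep2 : (9002240 / 10 ^ 10 : ℝ) ≤ Ecoef (43 / 100) (819 / 400) 2 := by
  unfold Ecoef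
  simp only [Finset.sum_range_succ, Finset.sum_range_zero, rc]
  norm_num [Nat.factorial]

theorem Ep3 : Ecoef (43 / 100) (819 / 400) 3 ≤ (1752617 / 10 ^ 11 : ℝ) := by
  unfold Ecoef
  simp only [Finset.sum_range_succ, Finset.sum_range_zero, rc]
  norm_num [Nat.factorial]

theorem Ep4 : (2063018 / 10 ^ 13 : ℝ) ≤ Ecoef (43 / 100) (819 / 400) 4 := by
  unfold Ecoef
  simp only [Finset.sum_range_succ, Finset.sum_range_zero, rc]
  norm_num [Nat.factorial]

theorem Ep5 : Ecoef (43 / 100) (819 / 400) 5 ≤ (1628625 / 10 ^ 15 : ℝ) := by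
  unfold Ecoef
  simp only [Finset.sum_range_succ, Finset.sum_range_zero, rc]
  norm_num [Nat.factorial]

theorem Ep6 : (9229213 / 10 ^ 18 : ℝ) ≤ Ecoef (43 / 100) (819 / 400) 6 := by
  unfold Ecoef
  simp only [Finset.sum_range_succ, Finset.sum_range_zero, rc]
  norm_num [Nat.factorial]

theorem Ep7 : Ecoef (43 / 100) (819 / 400) 7 ≤ (3939015 / 10 ^ 20 : ℝ) := by
  unfold Ecoef
  simp only [Finset.sum_range_succ, Finset.sum_range_zero, rc]
  norm_num [Nat.factorial]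

noncomputable def ceq : ℕ → ℝ
  | 0 => 2565419 / 10 ^ 7
  | 1 => 2533440 / 10 ^ 8
  | 2 => 9528659 / 10 ^ 10
  | 3 => 1833166 / 10 ^ 11
  | 4 => 2141190 / 10 ^ 13
  | 5 => 1681167 / 10 ^ 15
  | 6 => 9488605 / 10 ^ 18
  | 7 => 4037127 / 10 ^ 20
  | _ => 0

theorem Eq0 : Ecoef (1 / 2) (179 / 100) 0 ≤ (2565419 / 10 ^ 7 : ℝ) := by
  unfold Ecoef
  simp only [Finset.sum_range_succ, Finset.sum_range_zero, rc]
  norm_num [Nat.factorial]

theorem Eq1 : (2533440 / 10 ^ 8 : ℝ) ≤ Ecoef (1 / 2) (179 / 100) 1 := by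
  unfold Ecoef
  simp only [Finset.sum_range_succ, Finset.sum_range_zero, rc]
  norm_num [Nat.factorial]

theorem Eq2 : Ecoef (1 / 2) (179 / 100) 2 ≤ (9528659 / 10 ^ 10 : ℝ) := by
  unfold Ecoef
  simp only [Finset.sum_range_succ, Finset.sum_range_zero, rc]
  norm_num [Nat.factorial]

theorem Eq3 : (1833166 / 10 ^ 11 : ℝ) ≤ Ecoef (1 / 2) (179 / 100) 3 := by
  unfold Ecoef
  simp only [Finset.sum_range_succ, Finset.sum_range_zero, rc]
  norm_num [Nat.factorial]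

theorem Eq4 : Ecoef (1 / 2) (179 / 100) 4 ≤ (2141190 / 10 ^ 13 : ℝ) := by
  unfold Ecoef
  simp only [Finset.sum_range_succ, Finset.sum_range_zero, rc]
  norm_num [Nat.factorial]

theorem Eq5 : (1681167 / 10 ^ 15 : ℝ) ≤ Ecoef (1 / 2) (179 / 100) 5 := by
  unfold Ecoef
  simp only [Finset.sum_range_succ, Finset.sum_range_zero, rc]
  norm_num [Nat.factorial]

theorem Eq6 : Ecoef (1 / 2) (179 / 100) 6 ≤ (9488605 / 10 ^ 18 : ℝ) := by
  unfold Ecoef
  simp only [Finset.sum_range_succ, Finset.sum_range_zero, rc]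
  norm_num [Nat.factorial]

theorem Eq7 : (4037127 / 10 ^ 20 : ℝ) ≤ Ecoef (1 / 2) (179 / 100) 7 := by
  unfold Ecoef
  simp only [Finset.sum_range_succ, Finset.sum_range_zero, rc]
  norm_num [Nat.factorial]

noncomputable def cer : ℕ → ℝ
  | 0 => 2381058 / 10 ^ 7
  | 1 => 2387989 / 10 ^ 8
  | 2 => 9122353 / 10 ^ 10
  | 3 => 1771138 / 10 ^ 11
  | 4 => 2081077 / 10 ^ 13
  | 5 => 1640800 / 10 ^ 15
  | 6 => 9289463 / 10 ^ 18
  | 7 => 3961843 / 10 ^ 20
  | _ => 0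

theorem Er0 : Ecoef (9 / 20) (397 / 200) 0 ≤ (2381058 / 10 ^ 7 : ℝ) := by
  unfold Ecoef
  simp only [Finset.sum_range_succ, Finset.sum_range_zero, rc]
  norm_num [Nat.factorial]

theorem Er1 : (2387989 / 10 ^ 8 : ℝ) ≤ Ecoef (9 / 20) (397 / 200) 1 := by
  unfold Ecoef
  simp only [Finset.sum_range_succ, Finset.sum_range_zero, rc]
  norm_num [Nat.factorial]

theorem Er2 : Ecoef (9 / 20) (397 / 200) 2 ≤ (9122353 / 10 ^ 10 : ℝ) := by
  unfold Ecoef
  simp only [Finset.sum_range_succ, Finset.sum_range_zero, rc]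
  norm_num [Nat.factorial]

theorem Er3 : (1771138 / 10 ^ 11 : ℝ) ≤ Ecoef (9 / 20) (397 / 200) 3 := by
  unfold Ecoef
  simp only [Finset.sum_range_succ, Finset.sum_range_zero, rc]
  norm_num [Nat.factorial]

theorem Er4 : Ecoef (9 / 20) (397 / 200) 4 ≤ (2081077 / 10 ^ 13 : ℝ) := by
  unfold Ecoef
  simp only [Finset.sum_range_succ, Finset.sum_range_zero, rc]
  norm_num [Nat.factorial]

theorem Er5 : (1640800 / 10 ^ 15 : ℝ) ≤ Ecoef (9 / 20) (397 / 200) 5 := by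
  unfold Ecoef
  simp only [Finset.sum_range_succ, Finset.sum_range_zero, rc]
  norm_num [Nat.factorial]

theorem Er6 : Ecoef (9 / 20) (397 / 200) 6 ≤ (9289463 / 10 ^ 18 : ℝ) := by
  unfold Ecoef
  simp only [Finset.sum_range_succ, Finset.sum_range_zero, rc]
  norm_num [Nat.factorial]

theorem Er7 : (3961843 / 10 ^ 20 : ℝ) ≤ Ecoef (9 / 20) (397 / 200) 7 := by
  unfold Ecoef
  simp only [Finset.sum_range_succ, Finset.sum_range_zero, rc]
  norm_num [Nat.factorial]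

end Pool.Agent.Helper5.Bern
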