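import Pool.Agent.Helper5.BernSig

/-!
# Positivity of the weights, conditional on one numerical inequality
-/

set_option autoImplicit false

open Set Filter Topology Nat MeasureTheory intervalIntegral

namespace Pool.Agent.Helper5.Bern

/-- `ρ(t) = J₀(c √(t(2-t)))`. -/
noncomputable def rho (c t : ℝ) : ℝ := besR c (1 - t)

theorem continuous_rho (c : ℝ) : Continuous (rho c) := by
  have := continuous_besR c
  unfold rho
  fun_prop

/-- the nodes -/
noncomputable def node (c : ℝ) (k : ℕ) : ℝ := √((Real.pi * k) ^ 2 - c ^ 2)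

/-- the weight function -/
noncomputable def wgt (α x l : ℝ) : ℝ := l ^ (-α) / (l ^ 2 + x ^ 2)

/-- the Laplace transform of `rho` over `[0,1]` -/
noncomputable def Lam (c l : ℝ) : ℝ := ∫ t in (0 : ℝ)..1, Real.exp (-(l * t)) * rho c t

/-- `∫₀¹ e^{ls} J₀(c√(1-s²)) ds` -/
noncomputable def gfun (c l : ℝ) : ℝ := ∫ s in (0 : ℝ)..1, Real.exp (l * s) * besR c s

theorem Lam_eq (c l : ℝ) : Lam c l = Real.exp (-l) * gfun c l := by
  unfold Lam gfun rho
  have h := intervalIntegral.integral_comp_sub_left (a := 0) (b := 1)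
      (fun s => Real.exp (-(l * (1 - s))) * besR c s) 1
  simp only [sub_self, sub_zero, sub_sub_cancel] at h
  rw [h, ← intervalIntegral.integral_const_mul]
  congr 1
  funext s
  rw [← mul_assoc, ← Real.exp_add]
  congr 2
  ring

theorem integral_besR (c : ℝ) (hc : 0 < c) :
    ∫ s in (0 : ℝ)..1, besR c s = Real.sin c / c := by
  have h := integral_besP_zero_cos c 0 1 zero_le_one (by positivity)
  rw [show √((0 : ℝ) ^ 2 + c ^ 2) = c by rw [zero_pow two_ne_zero, zero_add, Real.sqrt_sq hc.le]] at h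
  simp only [zero_mul, Real.cos_zero, mul_one, one_pow] at h
  rw [← h]
  congr 1
  funext s
  exact besR_eq c s

theorem integral_besR_cos {c : ℝ} {k : ℕ} (hc : 0 < c)
    (hck : c < Real.pi * k) : ∫ s in (0 : ℝ)..1, besR c s * Real.cos (node c k * s) = 0 := by
  have hk' : (0 : ℝ) < Real.pi * k := by linarith
  have h2 : 0 ≤ (Real.pi * k) ^ 2 - c ^ 2 := by nlinarith
  have h := integral_besP_zero_cos c (node c k) 1 zero_le_one (by positivity)
  have e : (node c k) ^ 2 + c ^ 2 = (Real.pi * k) ^ 2 := by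
    unfold node
    rw [Real.sq_sqrt h2]; ring
  rw [e, Real.sqrt_sq hk'.le, mul_one, mul_comm Real.pi, Real.sin_nat_mul_pi, zero_div] at h
  rw [← h]
  congr 1
  funext s
  rw [besR_eq, one_pow]

theorem convCos_rho_one {c : ℝ} {k : ℕ} (hc : 0 < c)
    (hck : c < Real.pi * k) : convCos (rho c) (node c k) 1 = 0 := by
  rw [← integral_besR_cos hc hck]
  unfold convCos rho
  congr 1
  funext u
  congr 2
  ring

theorem convSin_rho_one (c : ℝ) (k : ℕ) :
    convSin (rho c) (node c k) 1 = sig ((Real.pi * k) ^ 2) (c ^ 2) := by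
  unfold convSin rho sig node
  congr 1
  funext u
  rw [show 1 - (1 - u) = u by ring, besR_eq]

/-- monotonicity and positivity of `gfun` -/
theorem gfun_mono {c : ℝ} (hc : 0 < c) (hcπ : c ≤ Real.pi) {l m : ℝ} (hl : 0 ≤ l) (hlm : l ≤ m) :
    0 ≤ gfun c l ∧ gfun c l ≤ gfun c m := by
  have hc10 : c ^ 2 ≤ 10 := by nlinarith [Real.pi_lt_d2]
  have hmono := besR_mono hc10
  obtain ⟨r, hr, hr1, hr2⟩ := exists_sign_change hmono
  have hcont := continuous_besR c
  have hint : 0 ≤ ∫ s in (0 : ℝ)..1, besR c s := by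
    rw [integral_besR c hc]
    exact div_nonneg (Real.sin_nonneg_of_nonneg_of_le_pi hc.le hcπ) hc.le
  constructor
  · have h := sign_change_integral (f := besR c) (w := fun s => Real.exp (l * s)) hr hr1 hr2
      (fun a _ b _ hab => Real.exp_le_exp.2 (mul_le_mul_of_nonneg_left hab hl))
      (hcont.intervalIntegrable _ _)
      ((show Continuous (fun s => Real.exp (l * s) * besR c s) by fun_prop).intervalIntegrable _ _)
    exact le_trans (mul_nonneg (Real.exp_pos _).le hint) h
  · have hw : MonotoneOn (fun s => Real.exp (m * s) - Real.exp (l * s)) (Icc 0 1) := by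
      refine monotoneOn_of_deriv_nonneg (convex_Icc _ _) (by fun_prop) (by fun_prop) ?_
      intro s hs
      rw [interior_Icc] at hs
      have h1 : HasDerivAt (fun s => Real.exp (m * s) - Real.exp (l * s))
        (Real.exp (m * s) * m - Real.exp (l * s) * l) s := by
        have e : ∀ a : ℝ, HasDerivAt (fun s : ℝ => a * s) a s := by
          intro a
          have := (hasDerivAt_id s).const_mul a
          rw [mul_one] at this
          exact this
        exact (e m).exp.sub (e l).exp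
      rw [h1.deriv]
      have h2 : Real.exp (l * s) ≤ Real.exp (m * s) :=
        Real.exp_le_exp.2 (mul_le_mul_of_nonneg_right hlm hs.1.le)
      have h3 : Real.exp (l * s) * l ≤ Real.exp (m * s) * m :=
        mul_le_mul h2 hlm hl (Real.exp_pos _).le
      linarith
    have h := sign_change_integral (f := besR c)
      (w := fun s => Real.exp (m * s) - Real.exp (l * s)) hr hr1 hr2 hw
      (hcont.intervalIntegrable _ _)
      ((show Continuous (fun s => (Real.exp (m * s) - Real.exp (l * s)) * besR c s) by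
        fun_prop).intervalIntegrable _ _)
    have hwr : 0 ≤ Real.exp (m * r) - Real.exp (l * r) :=
      sub_nonneg.2 (Real.exp_le_exp.2 (mul_le_mul_of_nonneg_right hlm hr.1))
    have h4 := le_trans (mul_nonneg hwr hint) h
    have e : ∫ s in (0 : ℝ)..1, (Real.exp (m * s) - Real.exp (l * s)) * besR c s =
      gfun c m - gfun c l := by
      unfold gfun
      rw [← intervalIntegral.integral_sub]
      · congr 1
        funext s
        ring
      · exact (show Continuous (fun s => Real.exp (m * s) * besR c s) by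
          fun_prop).intervalIntegrable _ _
      · exact (show Continuous (fun s => Real.exp (l * s) * besR c s) by
          fun_prop).intervalIntegrable _ _
    rw [e] at h4
    linarith

theorem Lam_nonneg {c : ℝ} (hc : 0 < c) (hcπ : c ≤ Real.pi) {l : ℝ} (hl : 0 ≤ l) : 0 ≤ Lam c l := by
  rw [Lam_eq]
  exact mul_nonneg (Real.exp_pos _).le (gfun_mono hc hcπ hl le_rfl).1

theorem Lam_anti {c d : ℝ} (hd : d ^ 2 ≤ 10) (hcd : c ^ 2 ≤ d ^ 2) (l : ℝ) :
    Lam d l ≤ Lam c l := by
  unfold Lam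
  have h1 := continuous_rho c
  have h2 := continuous_rho d
  apply intervalIntegral.integral_mono_on zero_le_one
  · exact (show Continuous (fun t => Real.exp (-(l * t)) * rho d t) by
      fun_prop).intervalIntegrable _ _
  · exact (show Continuous (fun t => Real.exp (-(l * t)) * rho c t) by
      fun_prop).intervalIntegrable _ _
  · intro t ht
    apply mul_le_mul_of_nonneg_left _ (Real.exp_pos _).le
    exact besR_anti_left hd hcd (by linarith [ht.2]) (by linarith [ht.1])

theorem wgt_pos {α x l : ℝ} (hl : 0 < l) : 0 < wgt α x l :=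
  div_pos (Real.rpow_pos_of_pos hl _) (by positivity)

theorem measurable_wgt (α x : ℝ) : Measurable (wgt α x) := by
  unfold wgt
  exact (measurable_id.pow_const _).div (by fun_prop)

theorem gamma_integrable_one {α : ℝ} (hα1 : α < 1) :
    IntegrableOn (fun l : ℝ => l ^ (-α) * Real.exp (-l)) (Ioi 0) := by
  simpa using gamma_integrable hα1 one_pos

theorem wexp_integrable {α x : ℝ} (hα1 : α < 1) (hx : 0 < x) :
    IntegrableOn (fun l => wgt α x l * Real.exp (-l)) (Ioi 0) := by
  refine Integrable.mono' ((gamma_integrable_one hα1).mul_const (1 / x ^ 2))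
    ((measurable_wgt α x).mul (by fun_prop)).aestronglyMeasurable ?_
  refine (ae_restrict_iff' measurableSet_Ioi).2 (Filter.Eventually.of_forall (fun l hl => ?_))
  have hl' : 0 < l := hl
  rw [Real.norm_of_nonneg (mul_nonneg (wgt_pos hl').le (Real.exp_pos _).le)]
  unfold wgt
  have h1 : 0 ≤ l ^ (-α) * Real.exp (-l) :=
    mul_nonneg (Real.rpow_nonneg hl'.le _) (Real.exp_pos _).le
  have h2 : 1 / (l ^ 2 + x ^ 2) ≤ 1 / x ^ 2 :=
    one_div_le_one_div_of_le (by positivity) (by nlinarith [sq_nonneg l])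
  have h3 := mul_le_mul_of_nonneg_left h2 h1
  calc l ^ (-α) / (l ^ 2 + x ^ 2) * Real.exp (-l)
      = l ^ (-α) * Real.exp (-l) * (1 / (l ^ 2 + x ^ 2)) := by ring
    _ ≤ _ := h3

theorem wexp_le {α x : ℝ} (hα1 : α < 1) (hx : 0 < x) :
    ∫ l in Ioi (0 : ℝ), wgt α x l * Real.exp (-l) ≤ Real.Gamma (1 - α) / x ^ 2 := by
  have h1 : ∫ l in Ioi (0 : ℝ), l ^ (-α) * Real.exp (-l) * (1 / x ^ 2) =
      Real.Gamma (1 - α) / x ^ 2 := by
    rw [MeasureTheory.integral_mul_const]
    have := gamma_integral hα1 one_pos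
    simp only [mul_one, Real.one_rpow] at this
    rw [this]
    ring
  rw [← h1]
  apply setIntegral_mono_on (wexp_integrable hα1 hx)
    ((gamma_integrable_one hα1).mul_const (1 / x ^ 2)) measurableSet_Ioi
  intro l hl
  have hl' : 0 < l := hl
  unfold wgt
  have h1 : 0 ≤ l ^ (-α) * Real.exp (-l) :=
    mul_nonneg (Real.rpow_nonneg hl'.le _) (Real.exp_pos _).le
  have h2 : 1 / (l ^ 2 + x ^ 2) ≤ 1 / x ^ 2 :=
    one_div_le_one_div_of_le (by positivity) (by nlinarith [sq_nonneg l])
  have h3 := mul_le_mul_of_nonneg_left h2 h1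
  calc l ^ (-α) / (l ^ 2 + x ^ 2) * Real.exp (-l)
      = l ^ (-α) * Real.exp (-l) * (1 / (l ^ 2 + x ^ 2)) := by ring
    _ ≤ _ := h3

theorem wlexp_integrable {α x : ℝ} (hα1 : α < 1) (hx : 0 < x) :
    IntegrableOn (fun l => wgt α x l * (l * Real.exp (-l))) (Ioi 0) := by
  refine Integrable.mono' ((gamma_integrable_one hα1).mul_const (1 / x))
    ((measurable_wgt α x).mul (by fun_prop)).aestronglyMeasurable ?_
  refine (ae_restrict_iff' measurableSet_Ioi).2 (Filter.Eventually.of_forall (fun l hl => ?_))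
  have hl' : 0 < l := hl
  rw [Real.norm_of_nonneg (mul_nonneg (wgt_pos hl').le (mul_nonneg hl'.le (Real.exp_pos _).le))]
  unfold wgt
  have h1 : 0 ≤ l ^ (-α) * Real.exp (-l) :=
    mul_nonneg (Real.rpow_nonneg hl'.le _) (Real.exp_pos _).le
  have h2 : l / (l ^ 2 + x ^ 2) ≤ 1 / x := by
    rw [div_le_div_iff₀ (by positivity) hx]
    nlinarith [sq_nonneg (l - x)]
  have h3 := mul_le_mul_of_nonneg_left h2 h1
  calc l ^ (-α) / (l ^ 2 + x ^ 2) * (l * Real.exp (-l))
      = l ^ (-α) * Real.exp (-l) * (l / (l ^ 2 + x ^ 2)) := by ring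
    _ ≤ _ := h3

theorem laplace_eq_wgt (α c x l : ℝ) (hx : 0 < x) :
    l ^ (-α) * (∫ t in (0 : ℝ)..1, Real.exp (-(l * t)) * convCos (rho c) x t) =
      wgt α x l * (l * Lam c l + Real.exp (-l) *
        (x * convSin (rho c) x 1 - l * convCos (rho c) x 1)) := by
  have h := laplace_convCos (continuous_rho c) x l
  have hpos : l ^ 2 + x ^ 2 ≠ 0 := by positivity
  unfold wgt Lam
  rw [← h]
  field_simp

theorem wLam_integrable {α c x : ℝ} (hα0 : 0 < α) (hα1 : α < 1) (hx : 0 < x) :
    IntegrableOn (fun l => wgt α x l * (l * Lam c l)) (Ioi 0) := by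
  have h1 := (laplace_repr hα0 hα1 (continuous_convCos (continuous_rho c) x)).1
  simp only [laplace_eq_wgt α c x _ hx] at h1
  have h2 := (wexp_integrable hα1 hx).mul_const (x * convSin (rho c) x 1)
  have h3 := (wlexp_integrable hα1 hx).mul_const (convCos (rho c) x 1)
  refine ((h1.sub h2).add h3).congr (Filter.Eventually.of_forall (fun l => ?_))
  simp only [Pi.add_apply, Pi.sub_apply]
  ring

/-- `∫₀¹ t^{α-1} Q(t) dt` in Laplace form, at a node. -/
theorem S_repr {α c : ℝ} {k : ℕ} (hα0 : 0 < α) (hα1 : α < 1) (hc : 0 < c)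
    (hck : c < Real.pi * k) :
    Real.Gamma (1 - α) * ∫ t in (0 : ℝ)..1, t ^ (α - 1) * convCos (rho c) (node c k) t =
      ∫ l in Ioi (0 : ℝ), wgt α (node c k) l * (l * Lam c l + Real.exp (-l) *
        (node c k * sig ((Real.pi * k) ^ 2) (c ^ 2))) := by
  have hx : 0 < node c k := Real.sqrt_pos.2 (by nlinarith)
  rw [← (laplace_repr hα0 hα1 (continuous_convCos (continuous_rho c) (node c k))).2]
  simp only [laplace_eq_wgt α c _ _ hx]
  rw [convCos_rho_one hc hck, convSin_rho_one]
  simp only [mul_zero, sub_zero]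

theorem wh_integrable {α c x : ℝ} (hα0 : 0 < α) (hα1 : α < 1) (hx : 0 < x) (D : ℝ) :
    IntegrableOn (fun l => wgt α x l * (l * Lam c l + Real.exp (-l) * D)) (Ioi 0) := by
  have h1 := wLam_integrable (c := c) hα0 hα1 hx
  have h2 := (wexp_integrable hα1 hx).mul_const D
  refine (h1.add h2).congr (Filter.Eventually.of_forall (fun l => ?_))
  simp only [Pi.add_apply]
  ring

/-- bounds on `x_k σ_k` -/
theorem node_sig_even {c : ℝ} {k : ℕ} (hc : 0 < c) (hc10 : c ^ 2 ≤ 10) (hk : 1 ≤ k)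
    (hke : Even k) (hck : c < Real.pi * k) :
    -(1 - besP 0 (c ^ 2 / 4)) ≤ node c k * sig ((Real.pi * k) ^ 2) (c ^ 2) := by
  have hlt : c ^ 2 < (Real.pi * k) ^ 2 := by nlinarith
  rw [sig_eq (sq_nonneg c) hlt, sig_zero hk, hke.neg_one_pow, sub_self, zero_div, zero_sub]
  have := sigI_le (sq_nonneg c) hc10 hlt
  unfold node
  linarith

theorem sig_nonneg_one {c : ℝ} (hc : 0 < c) (hcπ : c ≤ Real.pi) :
    0 ≤ sig ((Real.pi * (1 : ℕ)) ^ 2) (c ^ 2) := by
  have hπ : Real.pi ^ 2 ≤ 10 := by nlinarith [Real.pi_lt_d2, Real.pi_pos]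
  rw [Nat.cast_one, mul_one]
  have hanti : AntitoneOn (sig (Real.pi ^ 2)) (Icc 0 (Real.pi ^ 2)) := by
    refine antitoneOn_of_deriv_nonpos (convex_Icc _ _) (continuous_sig _).continuousOn ?_ ?_
    · intro A hA
      rw [interior_Icc] at hA
      exact (hasDerivAt_sig hA.2).differentiableAt.differentiableWithinAt
    · intro A hA
      rw [interior_Icc] at hA
      rw [(hasDerivAt_sig hA.2).deriv]
      have h1 := besP_one_pos' hA.1.le (hA.2.le.trans hπ)
      have h2 : 0 ≤ besP 1 (A / 4) / (4 * √(Real.pi ^ 2 - A)) := by positivity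
      linarith
  have hmem : c ^ 2 ∈ Icc (0 : ℝ) (Real.pi ^ 2) := ⟨sq_nonneg c, by nlinarith⟩
  have h := hanti hmem (right_mem_Icc.2 (sq_nonneg _)) hmem.2
  have h0 : sig (Real.pi ^ 2) (Real.pi ^ 2) = 0 := by
    unfold sig
    simp
  rw [h0] at h
  exact h

theorem besP_zero_ge {y : ℝ} (h0 : 0 ≤ y) (h1 : y ≤ 5 / 2) : -(1 / 3) ≤ besP 0 y := by
  have h := (besP_partial 0 h0 (by linarith) 6 (by norm_num)).1
  simp only [Finset.sum_range_succ, Finset.sum_range_zero] at h
  norm_num [Nat.factorial] at h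
  have hm := besP_zero_antitone ⟨h0, h1⟩ (right_mem_Icc.2 (by norm_num : (0 : ℝ) ≤ 5 / 2)) h1
  have h' := (besP_partial 0 (y := 5 / 2) (by norm_num) (by norm_num) 6 (by norm_num)).1
  simp only [Finset.sum_range_succ, Finset.sum_range_zero] at h'
  norm_num [Nat.factorial] at h'
  linarith

theorem node_sig_odd {c : ℝ} {k : ℕ} (hc : 0 < c) (hcπ : c ≤ Real.pi) (hko : Odd k) :
    0 ≤ node c k * sig ((Real.pi * k) ^ 2) (c ^ 2) := by
  have hπ : Real.pi ^ 2 ≤ 10 := by nlinarith [Real.pi_lt_d2, Real.pi_pos]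
  have hc2 : c ^ 2 ≤ Real.pi ^ 2 := by nlinarith
  by_cases hk1 : k = 1
  · subst hk1
    exact mul_nonneg (Real.sqrt_nonneg _) (sig_nonneg_one hc hcπ)
  · have hk3 : 3 ≤ k := by
      rcases hko with ⟨m, hm⟩
      omega
    have hk3' : (3 : ℝ) ≤ k := by exact_mod_cast hk3
    have hk1' : 1 ≤ k := by omega
    have hπk : Real.pi * 3 ≤ Real.pi * k := mul_le_mul_of_nonneg_left hk3' Real.pi_pos.le
    have hlt : c ^ 2 < (Real.pi * k) ^ 2 := by nlinarith [Real.pi_pos]
    rw [sig_eq (sq_nonneg c) hlt, sig_zero hk1', hko.neg_one_pow, mul_sub]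
    have h1 := sigI_le (sq_nonneg c) (hc2.trans hπ) hlt
    have h2 := besP_zero_ge (y := c ^ 2 / 4) (by positivity) (by linarith)
    have h3 : 4 / 3 ≤ node c k * ((1 - -1) / (Real.pi * k)) := by
      have hpk : 0 < Real.pi * k := by positivity
      have h4 : 2 / 3 * (Real.pi * k) ≤ node c k := by
        unfold node
        apply Real.le_sqrt_of_sq_le
        nlinarith [Real.pi_pos]
      rw [mul_div_assoc', le_div_iff₀ hpk]
      linarith
    unfold node at h3 ⊢
    linarith

/-- The positivity statement, conditional on a single numerical inequality at `(α₀, d)`. -/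
theorem positivity_of_numeric {α α₀ c d : ℝ} (hα0 : 0 < α) (hαα : α ≤ α₀) (hα1 : α₀ < 1)
    (hc : 0 < c) (hcπ : c < Real.pi) (hcd : c ≤ d) (hd10 : d ^ 2 ≤ 10)
    (hnum : 0 < ∫ l in Ioi (0 : ℝ), wgt α₀ (node d 2) l *
      (l * Lam d l + Real.exp (-l) * (-(1 - besP 0 (d ^ 2 / 4)))))
    (k : ℕ) (hk : 1 ≤ k) :
    0 ≤ ∫ t in (0 : ℝ)..1, t ^ (α - 1) * convCos (rho c) (node c k) t := by
  have hπ0 := Real.pi_pos
  have hk' : (1 : ℝ) ≤ k := by exact_mod_cast hk
  have hck : c < Real.pi * k := by nlinarith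
  have hα1' : α < 1 := by linarith
  have hΓ : 0 < Real.Gamma (1 - α) := Real.Gamma_pos_of_pos (by linarith)
  have hx : 0 < node c k := Real.sqrt_pos.2 (by nlinarith)
  suffices h : 0 ≤ Real.Gamma (1 - α) *
      ∫ t in (0 : ℝ)..1, t ^ (α - 1) * convCos (rho c) (node c k) t by
    exact nonneg_of_mul_nonneg_right h hΓ
  rw [S_repr hα0 hα1' hc hck]
  rcases Nat.even_or_odd k with hke | hko
  · have hk2 : 2 ≤ k := by
      rcases hke with ⟨m, hm⟩
      omega
    have hk2' : (2 : ℝ) ≤ k := by exact_mod_cast hk2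
    have hd2 : d ^ 2 < (Real.pi * 2) ^ 2 := by nlinarith [Real.pi_gt_three]
    have hx1 : 0 < node d 2 := Real.sqrt_pos.2 (by push_cast; linarith)
    have hxx : node d 2 ≤ node c k := by
      unfold node
      apply Real.sqrt_le_sqrt
      have h1 : (Real.pi * (2 : ℕ)) ^ 2 ≤ (Real.pi * k) ^ 2 := by
        push_cast
        exact pow_le_pow_left₀ (by positivity) (mul_le_mul_of_nonneg_left hk2' hπ0.le) 2
      have h2 : c ^ 2 ≤ d ^ 2 := pow_le_pow_left₀ hc.le hcd 2
      linarith
    have hcd2 : c ^ 2 ≤ d ^ 2 := pow_le_pow_left₀ hc.le hcd 2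
    set Δ : ℝ := 1 - besP 0 (d ^ 2 / 4) with hΔ
    have hD : -Δ ≤ node c k * sig ((Real.pi * k) ^ 2) (c ^ 2) := by
      refine le_trans ?_ (node_sig_even hc (hcd2.trans hd10) hk hke hck)
      have := besP_zero_antitone (a := c ^ 2 / 4) (b := d ^ 2 / 4)
        ⟨by positivity, by linarith⟩ ⟨by positivity, by linarith⟩ (by linarith)
      rw [hΔ]
      linarith
    have hstep1 : ∫ l in Ioi (0 : ℝ), wgt α (node c k) l * (l * Lam c l + Real.exp (-l) * (-Δ)) ≤
        ∫ l in Ioi (0 : ℝ), wgt α (node c k) l * (l * Lam c l + Real.exp (-l) *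
        (node c k * sig ((Real.pi * k) ^ 2) (c ^ 2))) := by
      apply setIntegral_mono_on (wh_integrable hα0 hα1' hx _) (wh_integrable hα0 hα1' hx _)
        measurableSet_Ioi
      intro l hl
      apply mul_le_mul_of_nonneg_left _ (wgt_pos hl).le
      have := mul_le_mul_of_nonneg_left hD (Real.exp_pos (-l)).le
      linarith
    refine le_trans ?_ hstep1
    apply single_crossing (w₂ := wgt α₀ (node d 2)) (wh_integrable hα0 hα1' hx _)
      (wh_integrable (by linarith) hα1 hx1 _) (fun l hl => (wgt_pos hl).le) (fun l hl => wgt_pos hl)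
    · intro l m hl hlm
      have hm : 0 < m := lt_of_lt_of_le hl hlm
      unfold wgt
      rw [_root_.div_mul_div_comm, _root_.div_mul_div_comm]
      have h1 : l ^ (-α) * m ^ (-α₀) ≤ m ^ (-α) * l ^ (-α₀) := by
        have e1 : l ^ (-α) = l ^ (α₀ - α) * l ^ (-α₀) := by
          rw [← Real.rpow_add hl]; congr 1; ring
        have e2 : m ^ (-α) = m ^ (α₀ - α) * m ^ (-α₀) := by
          rw [← Real.rpow_add hm]; congr 1; ring
        rw [e1, e2]
        have h2 : l ^ (α₀ - α) ≤ m ^ (α₀ - α) :=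
          Real.rpow_le_rpow hl.le hlm (by linarith)
        have h3 : 0 ≤ l ^ (-α₀) * m ^ (-α₀) :=
          mul_nonneg (Real.rpow_nonneg hl.le _) (Real.rpow_nonneg hm.le _)
        have := mul_le_mul_of_nonneg_right h2 h3
        linarith
      have h4 : (m ^ 2 + node c k ^ 2) * (l ^ 2 + node d 2 ^ 2) ≤
          (l ^ 2 + node c k ^ 2) * (m ^ 2 + node d 2 ^ 2) := by
        have h5 : l ^ 2 ≤ m ^ 2 := pow_le_pow_left₀ hl.le hlm 2
        have h6 : node d 2 ^ 2 ≤ node c k ^ 2 := pow_le_pow_left₀ hx1.le hxx 2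
        nlinarith [mul_nonneg (sub_nonneg.2 h5) (sub_nonneg.2 h6)]
      apply div_le_div₀ _ h1 (by positivity) h4
      exact mul_nonneg (Real.rpow_nonneg hm.le _) (Real.rpow_nonneg hl.le _)
    · intro l m hl hlm h
      have e : ∀ l, l * Lam c l + Real.exp (-l) * (-Δ) = Real.exp (-l) * (l * gfun c l - Δ) := by
        intro l
        rw [Lam_eq]
        ring
      rw [e] at h ⊢
      have h1 : 0 ≤ l * gfun c l - Δ := nonneg_of_mul_nonneg_right h (Real.exp_pos _)
      obtain ⟨h2, h3⟩ := gfun_mono hc hcπ.le hl.le hlm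
      apply mul_nonneg (Real.exp_pos _).le
      have h4 : l * gfun c l ≤ m * gfun c m := mul_le_mul hlm h3 h2 (hl.le.trans hlm)
      linarith
    · refine lt_of_lt_of_le hnum ?_
      apply setIntegral_mono_on (wh_integrable (by linarith) hα1 hx1 _)
        (wh_integrable (by linarith) hα1 hx1 _) measurableSet_Ioi
      intro l hl
      have hl' : 0 < l := hl
      apply mul_le_mul_of_nonneg_left _ (wgt_pos hl).le
      have := mul_le_mul_of_nonneg_left (Lam_anti hd10 hcd2 l) hl'.le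
      linarith
  · apply setIntegral_nonneg measurableSet_Ioi
    intro l hl
    have hl' : 0 < l := hl
    apply mul_nonneg (wgt_pos hl).le
    exact add_nonneg (mul_nonneg hl'.le (Lam_nonneg hc hcπ.le hl'.le))
      (mul_nonneg (Real.exp_pos _).le (node_sig_odd hc hcπ.le hko))

/-- Reduction of the numerical inequality to a lower bound for one integral. -/
theorem numeric_of_S {α d : ℝ} (hα0 : 0 < α) (hα1 : α < 1) (hd : 0 < d) (hd10 : d ^ 2 ≤ 10)
    (h : (1 - besP 0 (d ^ 2 / 4)) - node d 2 * sigI ((Real.pi * (2 : ℕ)) ^ 2) (d ^ 2) <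
      node d 2 ^ 2 * ∫ t in (0 : ℝ)..1, t ^ (α - 1) * convCos (rho d) (node d 2) t) :
    0 < ∫ l in Ioi (0 : ℝ), wgt α (node d 2) l *
      (l * Lam d l + Real.exp (-l) * (-(1 - besP 0 (d ^ 2 / 4)))) := by
  have hπ3 := Real.pi_gt_three
  have hd2 : d ^ 2 < (Real.pi * (2 : ℕ)) ^ 2 := by push_cast; nlinarith
  have hdπ : d < Real.pi * (2 : ℕ) := lt_of_pow_lt_pow_left₀ 2 (by positivity) hd2
  have hx1 : 0 < node d 2 := Real.sqrt_pos.2 (by linarith)
  have hΓ : 0 < Real.Gamma (1 - α) := Real.Gamma_pos_of_pos (by linarith)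
  set S : ℝ := ∫ t in (0 : ℝ)..1, t ^ (α - 1) * convCos (rho d) (node d 2) t with hS
  set Δ : ℝ := 1 - besP 0 (d ^ 2 / 4) with hΔ
  have hsig : sig ((Real.pi * (2 : ℕ)) ^ 2) (d ^ 2) = -sigI ((Real.pi * (2 : ℕ)) ^ 2) (d ^ 2) := by
    rw [sig_eq (sq_nonneg d) hd2, sig_zero (by norm_num)]
    norm_num
  have hrep := S_repr hα0 hα1 hd hdπ
  rw [hsig] at hrep
  set I : ℝ := sigI ((Real.pi * (2 : ℕ)) ^ 2) (d ^ 2) with hI
  have hsplit : ∫ l in Ioi (0 : ℝ), wgt α (node d 2) l * (l * Lam d l + Real.exp (-l) * (-Δ)) =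
      Real.Gamma (1 - α) * S - (Δ - node d 2 * I) *
        ∫ l in Ioi (0 : ℝ), wgt α (node d 2) l * Real.exp (-l) := by
    rw [hrep, ← MeasureTheory.integral_const_mul, ← integral_sub (wh_integrable hα0 hα1 hx1 _)
      ((wexp_integrable hα1 hx1).const_mul _)]
    congr 1
    funext l
    ring
  rw [hsplit]
  have hle := wexp_le (α := α) hα1 hx1
  have hnn : 0 ≤ Δ - node d 2 * I := by
    have := sigI_le (sq_nonneg d) hd10 hd2
    rw [← hI, ← hΔ] at this
    unfold node
    linarith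
  have h1 := mul_le_mul_of_nonneg_left hle hnn
  have h2 : (Δ - node d 2 * I) * (Real.Gamma (1 - α) / node d 2 ^ 2) <
      Real.Gamma (1 - α) * S := by
    rw [mul_div_assoc', div_lt_iff₀ (by positivity)]
    nlinarith [mul_lt_mul_of_pos_left h hΓ]
  linarith

end Pool.Agent.Helper5.Bern
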