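import Mathlib

/-!
# The Bessel function `J₀(c √(1-s²))` as a power series

`besR c s = J₀(c √(1-s²))`, `besP p y = ∑ (-y)^m / (m! (m+p)!)`, so that `besP 0 (x²/4) = J₀(x)`
and `(x/2)^p besP p (x²/4) = J_p(x)`.
-/

set_option autoImplicit false

open Set Filter Topology Nat

namespace Pool.Agent.Helper5.Bern

/-- `besR c s = J₀(c √(1 - s²)) = ∑ₘ (-(c²(1-s²)/4))ᵐ / (m!)²`. -/
noncomputable def besR (c s : ℝ) : ℝ :=
  ∑' m : ℕ, (-(c ^ 2 * (1 - s ^ 2) / 4)) ^ m / ((m ! : ℕ) : ℝ) ^ 2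

/-- `besP p y = ∑ₘ (-y)ᵐ / (m! (m+p)!)`. -/
noncomputable def besP (p : ℕ) (y : ℝ) : ℝ :=
  ∑' m : ℕ, (-y) ^ m / (((m ! : ℕ) : ℝ) * (((m + p)! : ℕ) : ℝ))

theorem besR_eq (c s : ℝ) : besR c s = besP 0 (c ^ 2 * (1 - s ^ 2) / 4) := by
  unfold besR besP
  simp only [add_zero, sq (((_ ! : ℕ) : ℝ))]

theorem summable_norm_besP (p : ℕ) (y : ℝ) :
    Summable (fun m : ℕ => ‖(-y) ^ m / (((m ! : ℕ) : ℝ) * (((m + p)! : ℕ) : ℝ))‖) := by
  have h := Real.summable_pow_div_factorial |y|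
  refine Summable.of_nonneg_of_le (fun m => norm_nonneg _) (fun m => ?_) h
  rw [norm_div, norm_pow, norm_neg, Real.norm_eq_abs, norm_mul]
  have h1 : (1 : ℝ) ≤ (((m + p)! : ℕ) : ℝ) := by
    exact_mod_cast Nat.succ_le_of_lt (Nat.factorial_pos _)
  have h0 : (0 : ℝ) < ((m ! : ℕ) : ℝ) := by exact_mod_cast Nat.factorial_pos _
  rw [Real.norm_of_nonneg h0.le, Real.norm_of_nonneg (by linarith)]
  apply div_le_div_of_nonneg_left (by positivity) h0
  nlinarith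

theorem hasSum_besP (p : ℕ) (y : ℝ) :
    HasSum (fun m : ℕ => (-y) ^ m / (((m ! : ℕ) : ℝ) * (((m + p)! : ℕ) : ℝ))) (besP p y) :=
  (summable_norm_besP p y).of_norm.hasSum

theorem hasSum_besR (c s : ℝ) :
    HasSum (fun m : ℕ => (-(c ^ 2 * (1 - s ^ 2) / 4)) ^ m / ((m ! : ℕ) : ℝ) ^ 2) (besR c s) := by
  have h := hasSum_besP 0 (c ^ 2 * (1 - s ^ 2) / 4)
  rw [← besR_eq] at h
  simpa only [add_zero, sq (((_ ! : ℕ) : ℝ))] using h

theorem besP_zero (p : ℕ) : besP p 0 = 1 / ((p ! : ℕ) : ℝ) := by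
  have h := hasSum_besP p 0
  have h2 : HasSum (fun m : ℕ => (-(0:ℝ)) ^ m / (((m ! : ℕ) : ℝ) * (((m + p)! : ℕ) : ℝ)))
      ((-(0:ℝ)) ^ 0 / (((0 ! : ℕ) : ℝ) * (((0 + p)! : ℕ) : ℝ))) := by
    apply hasSum_single
    intro m hm
    simp [hm]
  rw [h.unique h2]
  simp

/-- The derivative of `besP p` is `- besP (p+1)`. -/
theorem hasDerivAt_besP (p : ℕ) (y : ℝ) : HasDerivAt (besP p) (-(besP (p + 1) y)) y := by
  set R : ℝ := |y| + 1 with hR
  have hRpos : 0 < R := by positivity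
  have hmem : y ∈ Metric.ball (0 : ℝ) R := by
    rw [mem_ball_zero_iff, Real.norm_eq_abs]; linarith
  have key : HasDerivAt (fun z : ℝ => ∑' m : ℕ,
      (-z) ^ m / (((m ! : ℕ) : ℝ) * (((m + p)! : ℕ) : ℝ)))
      (∑' m : ℕ, (-((m : ℝ) * (-y) ^ (m - 1))) / (((m ! : ℕ) : ℝ) * (((m + p)! : ℕ) : ℝ))) y := by
    refine hasDerivAt_tsum_of_isPreconnected
      (u := fun m : ℕ => (m : ℝ) * R ^ (m - 1) / ((m ! : ℕ) : ℝ))
      (g := fun (m : ℕ) (z : ℝ) => (-z) ^ m / (((m ! : ℕ) : ℝ) * (((m + p)! : ℕ) : ℝ)))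
      (g' := fun (m : ℕ) (z : ℝ) => (-((m : ℝ) * (-z) ^ (m - 1))) /
        (((m ! : ℕ) : ℝ) * (((m + p)! : ℕ) : ℝ)))
      ?_ Metric.isOpen_ball
      (convex_ball _ _).isPreconnected ?_ ?_ hmem (summable_norm_besP p y).of_norm hmem
    · rw [← summable_nat_add_iff 1]
      refine (Real.summable_pow_div_factorial R).congr (fun m => ?_)
      rw [Nat.add_sub_cancel, Nat.factorial_succ]
      push_cast
      field_simp
    · intro m z _
      have h1 : HasDerivAt (fun z : ℝ => (-z) ^ m) ((m : ℝ) * (-z) ^ (m - 1) * (-1)) z :=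
        (hasDerivAt_neg z).pow m
      have h2 := h1.div_const (((m ! : ℕ) : ℝ) * (((m + p)! : ℕ) : ℝ))
      rw [show (m : ℝ) * (-z) ^ (m - 1) * (-1) = -((m : ℝ) * (-z) ^ (m - 1)) by ring] at h2
      exact h2
    · intro m z hz
      rw [mem_ball_zero_iff, Real.norm_eq_abs] at hz
      have h1 : (1 : ℝ) ≤ (((m + p)! : ℕ) : ℝ) := by
        exact_mod_cast Nat.succ_le_of_lt (Nat.factorial_pos _)
      have h0 : (0 : ℝ) < ((m ! : ℕ) : ℝ) := by exact_mod_cast Nat.factorial_pos _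
      rw [Real.norm_eq_abs, abs_div, abs_neg, abs_mul, abs_pow, abs_neg, abs_mul, Nat.abs_cast,
        abs_of_pos h0, abs_of_pos (lt_of_lt_of_le one_pos h1)]
      have h3 : |z| ^ (m - 1) ≤ R ^ (m - 1) := pow_le_pow_left₀ (abs_nonneg _) hz.le _
      have h4 : (m : ℝ) * |z| ^ (m - 1) ≤ (m : ℝ) * R ^ (m - 1) :=
        mul_le_mul_of_nonneg_left h3 (by positivity)
      calc (m : ℝ) * |z| ^ (m - 1) / (((m ! : ℕ) : ℝ) * (((m + p)! : ℕ) : ℝ))
          ≤ (m : ℝ) * R ^ (m - 1) / (((m ! : ℕ) : ℝ) * (((m + p)! : ℕ) : ℝ)) := by gcongr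
        _ ≤ (m : ℝ) * R ^ (m - 1) / ((m ! : ℕ) : ℝ) := by
            apply div_le_div_of_nonneg_left (by positivity) h0
            nlinarith
  have hval : (∑' m : ℕ, (-((m : ℝ) * (-y) ^ (m - 1))) / (((m ! : ℕ) : ℝ) * (((m + p)! : ℕ) : ℝ)))
      = -(besP (p + 1) y) := by
    have hs : Summable (fun m : ℕ => (-((m : ℝ) * (-y) ^ (m - 1))) /
        (((m ! : ℕ) : ℝ) * (((m + p)! : ℕ) : ℝ))) := by
      rw [← summable_nat_add_iff 1]
      refine ((summable_norm_besP (p + 1) y).of_norm.neg).congr (fun m => ?_)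
      rw [Nat.add_sub_cancel, Nat.factorial_succ, show m + 1 + p = m + (p + 1) by ring]
      have h0 : ((m ! : ℕ) : ℝ) ≠ 0 := by positivity
      have h1 : (((m + (p + 1))! : ℕ) : ℝ) ≠ 0 := by positivity
      push_cast
      field_simp
    rw [hs.tsum_eq_zero_add]
    simp only [CharP.cast_eq_zero, zero_mul, neg_zero, zero_div, zero_add]
    rw [besP, ← tsum_neg]
    apply tsum_congr
    intro m
    rw [Nat.add_sub_cancel, Nat.factorial_succ, show m + 1 + p = m + (p + 1) by ring]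
    have h0 : ((m ! : ℕ) : ℝ) ≠ 0 := by positivity
    have h1 : (((m + (p + 1))! : ℕ) : ℝ) ≠ 0 := by positivity
    push_cast
    field_simp
  rw [hval] at key
  exact key

theorem continuous_besP (p : ℕ) : Continuous (besP p) :=
  continuous_iff_continuousAt.2 fun y => (hasDerivAt_besP p y).continuousAt

theorem continuous_besR (c : ℝ) : Continuous (besR c) := by
  have : besR c = fun s => besP 0 (c ^ 2 * (1 - s ^ 2) / 4) := by
    funext s; exact besR_eq c s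
  rw [this]
  exact (continuous_besP 0).comp (by fun_prop)

theorem continuous_besR₂ : Continuous (fun q : ℝ × ℝ => besR q.1 q.2) := by
  have : (fun q : ℝ × ℝ => besR q.1 q.2) = fun q => besP 0 (q.1 ^ 2 * (1 - q.2 ^ 2) / 4) := by
    funext q; exact besR_eq q.1 q.2
  rw [this]
  exact (continuous_besP 0).comp (by fun_prop)

@[simp] theorem besR_one (c : ℝ) : besR c 1 = 1 := by
  rw [besR_eq]; norm_num [besP_zero]

theorem besR_zero_left (s : ℝ) : besR 0 s = 1 := by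
  rw [besR_eq]; norm_num [besP_zero]

/-- The derivative of `besR c` in `s`. -/
theorem hasDerivAt_besR (c s : ℝ) :
    HasDerivAt (besR c) (s * (c ^ 2 / 2 * besP 1 (c ^ 2 * (1 - s ^ 2) / 4))) s := by
  have h1 : HasDerivAt (fun s : ℝ => c ^ 2 * (1 - s ^ 2) / 4) (-(c ^ 2 * s / 2)) s := by
    have h := (((hasDerivAt_pow 2 s).const_sub 1).const_mul (c ^ 2)).div_const 4
    rw [show c ^ 2 * (-(((2 : ℕ) : ℝ) * s ^ (2 - 1))) / 4 = -(c ^ 2 * s / 2) by
      push_cast; ring] at h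
    exact h
  have h2 := (hasDerivAt_besP 0 (c ^ 2 * (1 - s ^ 2) / 4)).comp s h1
  have h3 : besR c = (besP 0) ∘ (fun s : ℝ => c ^ 2 * (1 - s ^ 2) / 4) := by
    funext s; exact besR_eq c s
  rw [h3, show s * (c ^ 2 / 2 * besP 1 (c ^ 2 * (1 - s ^ 2) / 4)) =
    -besP (0 + 1) (c ^ 2 * (1 - s ^ 2) / 4) * -(c ^ 2 * s / 2) by
      rw [zero_add]; ring]
  exact h2

end Pool.Agent.Helper5.Bern
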