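import Pool.Agent.Helper5.BernPos

/-!
# The second weight decides: `S₂ ≥ 0` implies that all the weights are nonnegative
-/

set_option autoImplicit false

open Set Filter Topology Nat MeasureTheory intervalIntegral

namespace Pool.Agent.Helper5.Bern

/-- `e^{-lt} - e^{-mt} ≥ t (e^{-l} - e^{-m})` -/
theorem exp_diff_ge {l m t : ℝ} (hl : 0 ≤ l) (hlm : l ≤ m) (ht0 : 0 ≤ t) (ht1 : t ≤ 1) :
    t * (Real.exp (-l) - Real.exp (-m)) ≤ Real.exp (-(l * t)) - Real.exp (-(m * t)) := by
  set r : ℝ := Real.exp (-(m - l)) with hr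
  have hr0 : 0 < r := Real.exp_pos _
  have hr1 : r ≤ 1 := Real.exp_le_one_iff.2 (by linarith)
  have e1 : Real.exp (-m) = Real.exp (-l) * r := by
    rw [hr, ← Real.exp_add]; congr 1; ring
  have e2 : Real.exp (-(m * t)) = Real.exp (-(l * t)) * r ^ t := by
    rw [hr, ← Real.exp_mul, ← Real.exp_add]; congr 1; ring
  have hb : r ^ t ≤ 1 + t * (r - 1) := by
    have := rpow_one_add_le_one_add_mul_self (s := r - 1) (by linarith) ht0 ht1
    rwa [add_sub_cancel] at this
  have h3 : Real.exp (-l) ≤ Real.exp (-(l * t)) := by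
    apply Real.exp_le_exp.2
    nlinarith
  have h4 : 0 ≤ t * (1 - r) := mul_nonneg ht0 (by linarith)
  rw [e1, e2]
  have h5 : Real.exp (-l) * (t * (1 - r)) ≤ Real.exp (-(l * t)) * (t * (1 - r)) :=
    mul_le_mul_of_nonneg_right h3 h4
  have h6 : Real.exp (-(l * t)) * (t * (1 - r)) ≤ Real.exp (-(l * t)) * (1 - r ^ t) :=
    mul_le_mul_of_nonneg_left (by linarith) (Real.exp_pos _).le
  nlinarith

theorem hasDerivAt_rho (c t : ℝ) :
    HasDerivAt (rho c) (-((1 - t) * (c ^ 2 / 2 * besP 1 (c ^ 2 * (1 - (1 - t) ^ 2) / 4)))) t := by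
  have h1 : HasDerivAt (fun t : ℝ => 1 - t) (-1) t := by
    simpa using (hasDerivAt_id t).const_sub 1
  have h2 := (hasDerivAt_besR c (1 - t)).comp t h1
  refine h2.congr_deriv ?_
  ring

theorem integral_rho {c : ℝ} (hc : 0 < c) : ∫ t in (0 : ℝ)..1, rho c t = Real.sin c / c := by
  rw [← integral_besR c hc]
  unfold rho
  have h := intervalIntegral.integral_comp_sub_left (a := 0) (b := 1) (fun s => besR c s) 1
  simp only [sub_self, sub_zero] at h
  exact h

/-- `l ↦ l Λ(l)` is nondecreasing. -/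
theorem lLam_mono {c : ℝ} (hc : 0 < c) (hcπ : c ≤ Real.pi) {l m : ℝ} (hl : 0 ≤ l) (hlm : l ≤ m) :
    l * Lam c l ≤ m * Lam c m := by
  have hc10 : c ^ 2 ≤ 10 := by nlinarith [Real.pi_lt_d2]
  have hr := continuous_rho c
  set a : ℝ := Real.exp (-l) - Real.exp (-m) with ha
  have ha0 : 0 ≤ a := by
    rw [ha]
    have := Real.exp_le_exp.2 (show -m ≤ -l by linarith)
    linarith
  set W : ℝ → ℝ := fun t => Real.exp (-(l * t)) - Real.exp (-(m * t)) - t * a with hW
  set W' : ℝ → ℝ := fun t => m * Real.exp (-(m * t)) - l * Real.exp (-(l * t)) - a with hW'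
  have hdW : ∀ t, HasDerivAt W (W' t) t := by
    intro t
    have h1 : ∀ s : ℝ, HasDerivAt (fun t : ℝ => Real.exp (-(s * t))) (-(s * Real.exp (-(s * t)))) t := by
      intro s
      have h := ((hasDerivAt_id t).const_mul s).neg.exp
      refine h.congr_deriv ?_
      show Real.exp (-(s * t)) * -(s * 1) = _
      ring
    have h2 := ((h1 l).sub (h1 m)).sub ((hasDerivAt_id t).mul_const a)
    refine h2.congr_deriv ?_
    simp only [hW']
    ring
  set r' : ℝ → ℝ := fun t => -((1 - t) * (c ^ 2 / 2 * besP 1 (c ^ 2 * (1 - (1 - t) ^ 2) / 4)))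
    with hr'
  have hcr' : Continuous r' := by
    have := continuous_besP 1
    rw [hr']
    fun_prop
  have hcW' : Continuous W' := by rw [hW']; fun_prop
  have hcW : Continuous W := by rw [hW]; fun_prop
  have hparts := intervalIntegral.integral_mul_deriv_eq_deriv_mul (a := 0) (b := 1)
    (u := rho c) (v := W) (u' := r') (v' := W')
    (fun t _ => hasDerivAt_rho c t) (fun t _ => hdW t)
    (hcr'.intervalIntegrable _ _) (hcW'.intervalIntegrable _ _)
  have hW0 : W 0 = 0 := by simp [hW]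
  have hW1 : W 1 = 0 := by simp [hW, ha]
  rw [hW0, hW1, mul_zero, mul_zero, sub_zero, zero_sub] at hparts
  have hneg : 0 ≤ ∫ t in (0 : ℝ)..1, rho c t * W' t := by
    rw [hparts, ← intervalIntegral.integral_neg]
    apply intervalIntegral.integral_nonneg zero_le_one
    intro t ht
    have h1 : 0 ≤ W t := by
      have := exp_diff_ge hl hlm ht.1 ht.2
      simp only [hW]
      linarith
    have h2 : r' t ≤ 0 := by
      have h3 := besP_one_pos (y := c ^ 2 * (1 - (1 - t) ^ 2) / 4)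
        (arg_mem hc10 (by linarith [ht.2]) (by linarith [ht.1])).1
        (arg_mem hc10 (by linarith [ht.2]) (by linarith [ht.1])).2
      have h4 : 0 ≤ (1 - t) * (c ^ 2 / 2 * besP 1 (c ^ 2 * (1 - (1 - t) ^ 2) / 4)) := by
        apply mul_nonneg (by linarith [ht.2])
        positivity
      simp only [hr']
      linarith
    nlinarith
  have hI : ∫ t in (0 : ℝ)..1, rho c t * W' t = m * Lam c m - l * Lam c l -
      a * (Real.sin c / c) := by
    rw [← integral_rho hc]
    unfold Lam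
    rw [← intervalIntegral.integral_const_mul, ← intervalIntegral.integral_const_mul,
      ← intervalIntegral.integral_const_mul, ← intervalIntegral.integral_sub,
      ← intervalIntegral.integral_sub]
    · apply intervalIntegral.integral_congr
      intro t _
      simp only [hW']
      ring
    · apply Continuous.intervalIntegrable; fun_prop
    · apply Continuous.intervalIntegrable; fun_prop
    · apply Continuous.intervalIntegrable; fun_prop
    · apply Continuous.intervalIntegrable; fun_prop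
  rw [hI] at hneg
  have hsin : 0 ≤ Real.sin c / c := div_nonneg (Real.sin_nonneg_of_nonneg_of_le_pi hc.le hcπ) hc.le
  have := mul_nonneg ha0 hsin
  linarith

/-- scaling of the Laplace part -/
theorem V_scale {α c x y : ℝ} (hα0 : 0 < α) (hα1 : α < 1) (hc : 0 < c) (hcπ : c ≤ Real.pi)
    (hx : 0 < x) (hxy : x ≤ y) :
    (y / x) ^ (1 - α) * (x ^ 2 * ∫ l in Ioi (0 : ℝ), wgt α x l * (l * Lam c l)) ≤
      y ^ 2 * ∫ l in Ioi (0 : ℝ), wgt α y l * (l * Lam c l) := by
  have hy : 0 < y := lt_of_lt_of_le hx hxy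
  set b : ℝ := y / x with hb
  have hb0 : 0 < b := div_pos hy hx
  have hb1 : 1 ≤ b := (one_le_div hx).2 hxy
  have hsub := MeasureTheory.integral_comp_mul_left_Ioi (fun l => wgt α y l * (l * Lam c l)) 0 hb0
  rw [mul_zero, smul_eq_mul] at hsub
  have hint : IntegrableOn (fun l => wgt α y (b * l) * (b * l * Lam c (b * l))) (Ioi 0) := by
    have h := wLam_integrable (c := c) hα0 hα1 hy
    have := (integrableOn_Ioi_comp_mul_left_iff (fun l => wgt α y l * (l * Lam c l)) 0 hb0).2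
      (by rwa [mul_zero])
    exact this
  have hw : ∀ l, 0 < l → wgt α y (b * l) = b ^ (-α) * (x ^ 2 / y ^ 2) * wgt α x l := by
    intro l hl
    unfold wgt
    rw [Real.mul_rpow hb0.le hl.le, hb]
    field_simp
  have hmain : (b ^ (-α) * (x ^ 2 / y ^ 2)) * ∫ l in Ioi (0 : ℝ), wgt α x l * (l * Lam c l) ≤
      ∫ l in Ioi (0 : ℝ), wgt α y (b * l) * (b * l * Lam c (b * l)) := by
    rw [← MeasureTheory.integral_const_mul]
    apply setIntegral_mono_on ((wLam_integrable (c := c) hα0 hα1 hx).const_mul _) hint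
      measurableSet_Ioi
    intro l hl
    have hl' : 0 < l := hl
    rw [hw l hl', ← mul_assoc]
    apply mul_le_mul_of_nonneg_left (lLam_mono hc hcπ hl'.le (by nlinarith))
    have h1 := wgt_pos (α := α) (x := x) hl'
    have h2 := Real.rpow_pos_of_pos hb0 (-α)
    positivity
  have hI : ∫ l in Ioi (0 : ℝ), wgt α y l * (l * Lam c l) =
      b * ∫ l in Ioi (0 : ℝ), wgt α y (b * l) * (b * l * Lam c (b * l)) := by
    rw [hsub]
    field_simp
  rw [hI]
  have e1 : b ^ (1 - α) = b * b ^ (-α) := by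
    rw [sub_eq_add_neg, Real.rpow_add hb0, Real.rpow_one]
  rw [e1]
  have h5 := mul_le_mul_of_nonneg_left hmain (show 0 ≤ y ^ 2 * b by positivity)
  have e2 : y ^ 2 * b * (b ^ (-α) * (x ^ 2 / y ^ 2) *
      ∫ l in Ioi (0 : ℝ), wgt α x l * (l * Lam c l)) = b * b ^ (-α) * (x ^ 2 *
      ∫ l in Ioi (0 : ℝ), wgt α x l * (l * Lam c l)) := by
    field_simp
  rw [e2] at h5
  linarith

/-- lower bound for the exponential part -/
theorem wexp_ge {α x : ℝ} (hα0 : 0 < α) (hα1 : α < 1) (hx : 0 < x) :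
    Real.Gamma (1 - α) * (1 - (1 - α) * (2 - α) / x ^ 2) ≤
      x ^ 2 * ∫ l in Ioi (0 : ℝ), wgt α x l * Real.exp (-l) := by
  have hG : ∀ s : ℝ, 0 < s → IntegrableOn (fun l : ℝ => Real.exp (-l) * l ^ (s - 1)) (Ioi 0) :=
    fun s hs => Real.GammaIntegral_convergent hs
  have h1 := hG (1 - α) (by linarith)
  have h3 := hG (3 - α) (by linarith)
  have e1 : ∫ l in Ioi (0 : ℝ), Real.exp (-l) * l ^ (1 - α - 1) = Real.Gamma (1 - α) :=
    (Real.Gamma_eq_integral (by linarith)).symm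
  have e3 : ∫ l in Ioi (0 : ℝ), Real.exp (-l) * l ^ (3 - α - 1) = Real.Gamma (3 - α) :=
    (Real.Gamma_eq_integral (by linarith)).symm
  have e4 : Real.Gamma (3 - α) = (2 - α) * ((1 - α) * Real.Gamma (1 - α)) := by
    rw [show (3 : ℝ) - α = (2 - α) + 1 by ring, Real.Gamma_add_one (by linarith),
      show (2 : ℝ) - α = (1 - α) + 1 by ring, Real.Gamma_add_one (by linarith)]
  have e5 : Real.Gamma (1 - α) * (1 - (1 - α) * (2 - α) / x ^ 2) =
      ∫ l in Ioi (0 : ℝ), (Real.exp (-l) * l ^ (1 - α - 1) -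
        (1 / x ^ 2) * (Real.exp (-l) * l ^ (3 - α - 1))) := by
    rw [integral_sub h1 (h3.const_mul _), MeasureTheory.integral_const_mul, e1, e3, e4]
    field_simp
  rw [e5, ← MeasureTheory.integral_const_mul]
  apply setIntegral_mono_on (h1.sub (h3.const_mul _)) ((wexp_integrable hα1 hx).const_mul _)
    measurableSet_Ioi
  intro l hl
  have hl' : 0 < l := hl
  show Real.exp (-l) * l ^ (1 - α - 1) - 1 / x ^ 2 * (Real.exp (-l) * l ^ (3 - α - 1)) ≤
    x ^ 2 * (wgt α x l * Real.exp (-l))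
  unfold wgt
  have e6 : l ^ (3 - α - 1) = l ^ (-α) * l ^ 2 := by
    rw [show (3 : ℝ) - α - 1 = -α + (2 : ℕ) by push_cast; ring, Real.rpow_add_natCast hl'.ne']
  have e7 : l ^ (1 - α - 1) = l ^ (-α) := by congr 1; ring
  rw [e6, e7]
  have h4 : 1 - l ^ 2 / x ^ 2 ≤ x ^ 2 / (l ^ 2 + x ^ 2) := by
    rw [le_div_iff₀ (by positivity)]
    have h5 : (1 - l ^ 2 / x ^ 2) * (l ^ 2 + x ^ 2) = x ^ 2 - l ^ 4 / x ^ 2 := by
      field_simp
      ring
    rw [h5]
    have : 0 ≤ l ^ 4 / x ^ 2 := by positivity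
    linarith
  have h6 : 0 ≤ l ^ (-α) * Real.exp (-l) :=
    mul_nonneg (Real.rpow_nonneg hl'.le _) (Real.exp_pos _).le
  have h7 := mul_le_mul_of_nonneg_left h4 h6
  calc Real.exp (-l) * l ^ (-α) - 1 / x ^ 2 * (Real.exp (-l) * (l ^ (-α) * l ^ 2))
      = l ^ (-α) * Real.exp (-l) * (1 - l ^ 2 / x ^ 2) := by ring
    _ ≤ l ^ (-α) * Real.exp (-l) * (x ^ 2 / (l ^ 2 + x ^ 2)) := h7
    _ = x ^ 2 * (l ^ (-α) / (l ^ 2 + x ^ 2) * Real.exp (-l)) := by ring

/-- lower bound for `d₂` -/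
theorem node_sigI_ge {K A : ℝ} (hA0 : 0 ≤ A) (hA10 : A ≤ 10) (hA : A ≤ K / 4) (hK : 0 < K) :
    (866 / 1000 : ℝ) * (1 - besP 0 (A / 4)) ≤ √(K - A) * sigI K A := by
  have hlt : A < K := by linarith
  have h1 := continuous_besP 1
  have hge : (1 - besP 0 (A / 4)) ≤ √K * sigI K A := by
    rw [← integral_besP_one_div]
    unfold sigI
    rw [← intervalIntegral.integral_const_mul]
    have hc := continuousOn_sigI_integrand hlt
    rw [← uIcc_of_le hA0] at hc
    apply intervalIntegral.integral_mono_on hA0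
    · apply Continuous.intervalIntegrable; fun_prop
    · exact (hc.intervalIntegrable).const_mul _
    · intro B hB
      have hpos := besP_one_pos' hB.1 (hB.2.trans hA10)
      have hs : 0 < √(K - B) := Real.sqrt_pos.2 (by linarith [hB.2])
      have hle : √(K - B) ≤ √K := Real.sqrt_le_sqrt (by linarith [hB.1])
      rw [mul_div_assoc', le_div_iff₀ (by positivity)]
      have := mul_le_mul_of_nonneg_left hle hpos.le
      nlinarith
  have hδ : 0 ≤ 1 - besP 0 (A / 4) := by
    have h := besP_zero_antitone (a := 0) (b := A / 4) ⟨le_rfl, by norm_num⟩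
      ⟨by positivity, by linarith⟩ (by positivity)
    rw [besP_zero] at h
    norm_num at h
    linarith
  have hsq : (866 / 1000 : ℝ) * √K ≤ √(K - A) := by
    apply Real.le_sqrt_of_sq_le
    rw [mul_pow, Real.sq_sqrt hK.le]
    nlinarith
  have hI : 0 ≤ sigI K A := by
    have : 0 ≤ √K * sigI K A := hδ.trans hge
    exact nonneg_of_mul_nonneg_right this (Real.sqrt_pos.2 hK)
  calc (866 / 1000 : ℝ) * (1 - besP 0 (A / 4)) ≤ 866 / 1000 * (√K * sigI K A) :=
        mul_le_mul_of_nonneg_left hge (by norm_num)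
    _ = (866 / 1000 * √K) * sigI K A := by ring
    _ ≤ √(K - A) * sigI K A := mul_le_mul_of_nonneg_right hsq hI

theorem node_mul_sig_even {c : ℝ} {k : ℕ} (hc : 0 < c) (hk : 1 ≤ k) (hke : Even k)
    (hck : c < Real.pi * k) :
    node c k * sig ((Real.pi * k) ^ 2) (c ^ 2) = -(node c k * sigI ((Real.pi * k) ^ 2) (c ^ 2)) := by
  have hlt : c ^ 2 < (Real.pi * k) ^ 2 := by nlinarith
  rw [sig_eq (sq_nonneg c) hlt, sig_zero hk, hke.neg_one_pow, sub_self, zero_div, zero_sub]
  ring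

theorem two_rpow_ge : (13 / 10 : ℝ) ≤ 2 ^ (2 / 5 : ℝ) := by
  by_contra hcon
  push Not at hcon
  have h1 : ((2 : ℝ) ^ (2 / 5 : ℝ)) ^ 5 < (13 / 10) ^ 5 :=
    pow_lt_pow_left₀ hcon (Real.rpow_nonneg (by norm_num) _) (by norm_num)
  rw [← Real.rpow_natCast, ← Real.rpow_mul (by norm_num)] at h1
  norm_num at h1

theorem split_repr {α c x D : ℝ} (hα0 : 0 < α) (hα1 : α < 1) (hx : 0 < x) :
    ∫ l in Ioi (0 : ℝ), wgt α x l * (l * Lam c l + Real.exp (-l) * D) =
      (∫ l in Ioi (0 : ℝ), wgt α x l * (l * Lam c l)) +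
        (∫ l in Ioi (0 : ℝ), wgt α x l * Real.exp (-l)) * D := by
  rw [← MeasureTheory.integral_mul_const, ← integral_add (wLam_integrable hα0 hα1 hx)
    ((wexp_integrable hα1 hx).mul_const _)]
  congr 1
  funext l
  ring

/-- If the second weight is nonnegative then all the weights are. -/
theorem pos_of_S2 {α c : ℝ} (hα0 : 0 < α) (hα1 : α ≤ 3 / 5) (hc : 0 < c) (hcπ : c < Real.pi)
    (hS : 0 ≤ ∫ t in (0 : ℝ)..1, t ^ (α - 1) * convCos (rho c) (node c 2) t)
    (k : ℕ) (hk : 1 ≤ k) :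
    0 ≤ ∫ t in (0 : ℝ)..1, t ^ (α - 1) * convCos (rho c) (node c k) t := by
  have hπ0 := Real.pi_pos
  have hπ3 := Real.pi_gt_three
  have hk' : (1 : ℝ) ≤ k := by exact_mod_cast hk
  have hck : c < Real.pi * k := by nlinarith
  have hc2' : c < Real.pi * (2 : ℕ) := by push_cast; linarith
  have hα1' : α < 1 := by linarith
  have hΓ : 0 < Real.Gamma (1 - α) := Real.Gamma_pos_of_pos (by linarith)
  have hx : 0 < node c k := Real.sqrt_pos.2 (by nlinarith)
  have hπ10 : Real.pi ^ 2 ≤ 10 := by nlinarith [Real.pi_lt_d2, Real.pi_pos]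
  have hc2 : c ^ 2 ≤ Real.pi ^ 2 := by nlinarith
  have hc10 : c ^ 2 ≤ 10 := hc2.trans hπ10
  rcases Nat.even_or_odd k with hke | hko
  · rcases eq_or_ne k 2 with rfl | hk2
    · exact hS
    have hk4 : 4 ≤ k := by
      rcases hke with ⟨m, hm⟩
      omega
    have hk4' : (4 : ℝ) ≤ k := by exact_mod_cast hk4
    have hx2sq : node c 2 ^ 2 = (Real.pi * (2 : ℕ)) ^ 2 - c ^ 2 := by
      unfold node
      rw [Real.sq_sqrt]
      push_cast
      nlinarith
    have hxksq : node c k ^ 2 = (Real.pi * k) ^ 2 - c ^ 2 := by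
      unfold node
      rw [Real.sq_sqrt]
      nlinarith
    have hx2 : 0 < node c 2 := by
      unfold node
      apply Real.sqrt_pos.2
      push_cast
      nlinarith
    have hx2ge : 27 ≤ node c 2 ^ 2 := by
      rw [hx2sq]
      push_cast
      nlinarith
    have hratio : 2 * node c 2 ≤ node c k := by
      apply le_of_sq_le_sq _ hx.le
      rw [mul_pow, hx2sq, hxksq]
      push_cast
      have : (Real.pi * 4) ^ 2 ≤ (Real.pi * k) ^ 2 :=
        pow_le_pow_left₀ (by positivity) (mul_le_mul_of_nonneg_left hk4' hπ0.le) 2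
      nlinarith
    suffices h : 0 ≤ Real.Gamma (1 - α) *
        ∫ t in (0 : ℝ)..1, t ^ (α - 1) * convCos (rho c) (node c k) t by
      exact nonneg_of_mul_nonneg_right h hΓ
    have hS2 := mul_nonneg hΓ.le hS
    rw [S_repr hα0 hα1' hc hc2', split_repr hα0 hα1' hx2,
      node_mul_sig_even hc (by norm_num) even_two hc2'] at hS2
    rw [S_repr hα0 hα1' hc hck, split_repr hα0 hα1' hx]
    have hsigk := node_sig_even hc hc10 hk hke hck
    set δ : ℝ := 1 - besP 0 (c ^ 2 / 4) with hδ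
    have hδ0 : 0 ≤ δ := by
      have h := besP_zero_antitone (a := 0) (b := c ^ 2 / 4) ⟨le_rfl, by norm_num⟩
        ⟨by positivity, by linarith⟩ (by positivity)
      rw [besP_zero] at h
      norm_num at h
      linarith
    have hd : (866 / 1000 : ℝ) * δ ≤ node c 2 * sigI ((Real.pi * (2 : ℕ)) ^ 2) (c ^ 2) := by
      have := node_sigI_ge (K := (Real.pi * (2 : ℕ)) ^ 2) (sq_nonneg c) hc10
        (by push_cast; nlinarith) (by positivity)
      unfold node
      exact this
    set d : ℝ := node c 2 * sigI ((Real.pi * (2 : ℕ)) ^ 2) (c ^ 2) with hd_def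
    set V2 : ℝ := ∫ l in Ioi (0 : ℝ), wgt α (node c 2) l * (l * Lam c l) with hV2
    set E2 : ℝ := ∫ l in Ioi (0 : ℝ), wgt α (node c 2) l * Real.exp (-l) with hE2
    set Vk : ℝ := ∫ l in Ioi (0 : ℝ), wgt α (node c k) l * (l * Lam c l) with hVk
    set Ek : ℝ := ∫ l in Ioi (0 : ℝ), wgt α (node c k) l * Real.exp (-l) with hEk
    set Dk : ℝ := node c k * sig ((Real.pi * k) ^ 2) (c ^ 2) with hDk
    have hscale := V_scale (x := node c 2) (y := node c k) hα0 hα1' hc hcπ.le hx2
      (by linarith)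
    rw [← hV2, ← hVk] at hscale
    have hEk_le : node c k ^ 2 * Ek ≤ Real.Gamma (1 - α) := by
      have := wexp_le (α := α) hα1' hx
      rw [← hEk, le_div_iff₀ (by positivity)] at this
      linarith
    have hE2_ge := wexp_ge hα0 hα1' hx2
    rw [← hE2] at hE2_ge
    have hW : (92 / 100 : ℝ) ≤ 1 - (1 - α) * (2 - α) / node c 2 ^ 2 := by
      have : (1 - α) * (2 - α) / node c 2 ^ 2 ≤ 2 / 27 := by
        apply div_le_div₀ (by norm_num) (by nlinarith) (by norm_num) hx2ge
      linarith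
    have hpow : (13 / 10 : ℝ) ≤ (node c k / node c 2) ^ (1 - α) := by
      have h2 : (2 : ℝ) ≤ node c k / node c 2 := by
        rw [le_div_iff₀ hx2]; linarith
      calc (13 / 10 : ℝ) ≤ 2 ^ (2 / 5 : ℝ) := two_rpow_ge
        _ ≤ 2 ^ (1 - α) := Real.rpow_le_rpow_of_exponent_le (by norm_num) (by linarith)
        _ ≤ _ := Real.rpow_le_rpow (by norm_num) h2 (by linarith)
    have hE2nn : 0 ≤ E2 := by
      rw [hE2]
      apply setIntegral_nonneg measurableSet_Ioi
      intro l hl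
      exact mul_nonneg (wgt_pos hl).le (Real.exp_pos _).le
    have hd0 : 0 ≤ d := le_trans (by positivity) hd
    have hV2ge : d * E2 ≤ V2 := by linarith
    -- x₂² V₂ ≥ 0.92 Γ d
    have h1 : (92 / 100 : ℝ) * Real.Gamma (1 - α) * d ≤ node c 2 ^ 2 * V2 := by
      have h2 : (92 / 100 : ℝ) * Real.Gamma (1 - α) ≤ node c 2 ^ 2 * E2 := by
        have := mul_le_mul_of_nonneg_left hW hΓ.le
        linarith
      calc (92 / 100 : ℝ) * Real.Gamma (1 - α) * d ≤ (node c 2 ^ 2 * E2) * d :=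
            mul_le_mul_of_nonneg_right h2 hd0
        _ = node c 2 ^ 2 * (d * E2) := by ring
        _ ≤ node c 2 ^ 2 * V2 := mul_le_mul_of_nonneg_left hV2ge (sq_nonneg _)
    have hx2V : 0 ≤ node c 2 ^ 2 * V2 := le_trans (by positivity) h1
    have h3 : δ * Real.Gamma (1 - α) ≤ node c k ^ 2 * Vk := by
      have h4 : (13 / 10 : ℝ) * (node c 2 ^ 2 * V2) ≤
          (node c k / node c 2) ^ (1 - α) * (node c 2 ^ 2 * V2) :=
        mul_le_mul_of_nonneg_right hpow hx2V
      have h5 : (866 / 1000 : ℝ) * δ * Real.Gamma (1 - α) ≤ d * Real.Gamma (1 - α) :=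
        mul_le_mul_of_nonneg_right hd hΓ.le
      have h6 : 0 ≤ δ * Real.Gamma (1 - α) := mul_nonneg hδ0 hΓ.le
      linarith
    have hEknn : 0 ≤ Ek := by
      rw [hEk]
      apply setIntegral_nonneg measurableSet_Ioi
      intro l hl
      exact mul_nonneg (wgt_pos hl).le (Real.exp_pos _).le
    have h7 : -(δ * Real.Gamma (1 - α)) ≤ node c k ^ 2 * (Ek * Dk) := by
      have h8 : Ek * (-δ) ≤ Ek * Dk := mul_le_mul_of_nonneg_left hsigk hEknn
      have h9 : node c k ^ 2 * (Ek * (-δ)) ≤ node c k ^ 2 * (Ek * Dk) :=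
        mul_le_mul_of_nonneg_left h8 (sq_nonneg _)
      have h10 : node c k ^ 2 * Ek * δ ≤ Real.Gamma (1 - α) * δ :=
        mul_le_mul_of_nonneg_right hEk_le hδ0
      linarith
    have h11 : 0 ≤ node c k ^ 2 * (Vk + Ek * Dk) := by
      rw [mul_add]; linarith
    exact nonneg_of_mul_nonneg_right h11 (by positivity)
  · suffices h : 0 ≤ Real.Gamma (1 - α) *
        ∫ t in (0 : ℝ)..1, t ^ (α - 1) * convCos (rho c) (node c k) t by
      exact nonneg_of_mul_nonneg_right h hΓ
    rw [S_repr hα0 hα1' hc hck]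
    apply setIntegral_nonneg measurableSet_Ioi
    intro l hl
    have hl' : 0 < l := hl
    apply mul_nonneg (wgt_pos hl).le
    exact add_nonneg (mul_nonneg hl'.le (Lam_nonneg hc hcπ.le hl'.le))
      (mul_nonneg (Real.exp_pos _).le (node_sig_odd hc hcπ.le hko))

/-- `A ↦ √(K-A) ∫₀^A ...` is nondecreasing. -/
theorem node_sigI_mono {K A A' : ℝ} (hA0 : 0 ≤ A) (hAA : A ≤ A') (hA10 : A' ≤ 10)
    (hK : 36 ≤ K) : √(K - A) * sigI K A ≤ √(K - A') * sigI K A' := by
  have h1c := continuous_besP 1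
  have hltA : A < K := by linarith
  have hltA' : A' < K := by linarith
  have hs : 0 < √(K - A) := Real.sqrt_pos.2 (by linarith)
  have hs' : 0 < √(K - A') := Real.sqrt_pos.2 (by linarith)
  have hss : √(K - A') ≤ √(K - A) := Real.sqrt_le_sqrt (by linarith)
  have hsq : √(K - A) ^ 2 = K - A := Real.sq_sqrt (by linarith)
  have hsq' : √(K - A') ^ 2 = K - A' := Real.sq_sqrt (by linarith)
  have hcA' := continuousOn_sigI_integrand hltA'
  have hint1 : IntervalIntegrable (fun B : ℝ => besP 1 (B / 4) / (4 * √(K - B))) volume 0 A := by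
    apply ContinuousOn.intervalIntegrable
    rw [uIcc_of_le hA0]
    exact hcA'.mono (Icc_subset_Icc le_rfl hAA)
  have hint2 : IntervalIntegrable (fun B : ℝ => besP 1 (B / 4) / (4 * √(K - B))) volume A A' := by
    apply ContinuousOn.intervalIntegrable
    rw [uIcc_of_le hAA]
    exact hcA'.mono (Icc_subset_Icc hA0 le_rfl)
  have hadd : sigI K A' = sigI K A +
      ∫ B in A..A', besP 1 (B / 4) / (4 * √(K - B)) := by
    unfold sigI
    rw [intervalIntegral.integral_add_adjacent_intervals hint1 hint2]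
  have hφ : (16 / 100 : ℝ) ≤ besP 1 (5 / 2) := by
    have h := (besP_partial 1 (y := 5 / 2) (by norm_num) (by norm_num) 4 (by norm_num)).1
    simp only [Finset.sum_range_succ, Finset.sum_range_zero] at h
    norm_num [Nat.factorial] at h
    linarith
  have hsecond : (A' - A) * (4 / 100) / √(K - A) ≤
      ∫ B in A..A', besP 1 (B / 4) / (4 * √(K - B)) := by
    have e : (A' - A) * (4 / 100) / √(K - A) = ∫ B in A..A', (4 / 100) / √(K - A) := by
      rw [intervalIntegral.integral_const, smul_eq_mul]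
      ring
    rw [e]
    apply intervalIntegral.integral_mono_on hAA intervalIntegrable_const hint2
    intro B hB
    have hsB : 0 < √(K - B) := Real.sqrt_pos.2 (by linarith [hB.2])
    have hle : √(K - B) ≤ √(K - A) := Real.sqrt_le_sqrt (by linarith [hB.1])
    have hb : (16 / 100 : ℝ) ≤ besP 1 (B / 4) := by
      have := besP_one_antitone (a := B / 4) (b := 5 / 2)
        ⟨by linarith [hB.1], by linarith [hB.2]⟩ ⟨by norm_num, le_rfl⟩ (by linarith [hB.2])
      linarith
    rw [div_le_div_iff₀ hs (by positivity)]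
    nlinarith
  have hI := sigI_le hA0 (hAA.trans hA10) hltA
  have hJ := besP_zero_ge (y := A / 4) (by positivity) (by linarith)
  have hI0 : √(K - A) * sigI K A ≤ 4 / 3 := by linarith
  rw [hadd, mul_add]
  have hdiff : √(K - A) - √(K - A') ≤ (A' - A) / (2 * √(K - A')) := by
    rw [le_div_iff₀ (by positivity)]
    nlinarith
  have hInn : 0 ≤ sigI K A := by
    unfold sigI
    apply intervalIntegral.integral_nonneg hA0
    intro B hB
    have := besP_one_pos' hB.1 (by linarith [hB.2])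
    positivity
  have h2 : (√(K - A) - √(K - A')) * sigI K A ≤ (A' - A) / (2 * √(K - A')) * (4 / 3 / √(K - A)) := by
    apply mul_le_mul hdiff _ hInn (by apply div_nonneg <;> [linarith; positivity])
    rw [le_div_iff₀ hs]
    linarith
  have h3 : (A' - A) / (2 * √(K - A')) * (4 / 3 / √(K - A)) ≤
      √(K - A') * ((A' - A) * (4 / 100) / √(K - A)) := by
    have e : √(K - A') * ((A' - A) * (4 / 100) / √(K - A)) - (A' - A) / (2 * √(K - A')) *
        (4 / 3 / √(K - A)) = (A' - A) / (√(K - A') * √(K - A)) *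
          (4 / 100 * √(K - A') ^ 2 - 2 / 3) := by
      field_simp
      ring
    have : 0 ≤ (A' - A) / (√(K - A') * √(K - A)) * (4 / 100 * √(K - A') ^ 2 - 2 / 3) := by
      apply mul_nonneg
      · apply div_nonneg (by linarith) (by positivity)
      · rw [hsq']; linarith
    linarith
  have h4 := mul_le_mul_of_nonneg_left hsecond hs'.le
  linarith

/-- The main comparison: the sign of `S₂` in two parameters. -/
theorem S2_compare {α α₀ c d : ℝ} (hα0 : 0 < α) (hαα : α ≤ α₀) (hα1 : α₀ < 1)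
    (hc : 0 < c) (hcπ : c < Real.pi) (hcd : c ≤ d) (hd10 : d ^ 2 ≤ 10) {ε : ℝ}
    (hd : 0 < ∫ l in Ioi (0 : ℝ), wgt α₀ (node d 2) l * (l * Lam d l +
      Real.exp (-l) * (ε + node d 2 * sig ((Real.pi * (2 : ℕ)) ^ 2) (d ^ 2)))) :
    0 ≤ ∫ l in Ioi (0 : ℝ), wgt α (node c 2) l * (l * Lam c l +
      Real.exp (-l) * (ε + node c 2 * sig ((Real.pi * (2 : ℕ)) ^ 2) (c ^ 2))) := by
  have hπ0 := Real.pi_pos
  have hπ3 := Real.pi_gt_three
  have hα1' : α < 1 := by linarith
  have hcd2 : c ^ 2 ≤ d ^ 2 := pow_le_pow_left₀ hc.le hcd 2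
  have hd0 : 0 < d := lt_of_lt_of_le hc hcd
  have hK36 : (36 : ℝ) ≤ (Real.pi * (2 : ℕ)) ^ 2 := by push_cast; nlinarith
  have hc2' : c < Real.pi * (2 : ℕ) := by push_cast; linarith
  have hd2' : d < Real.pi * (2 : ℕ) := by
    apply lt_of_pow_lt_pow_left₀ 2 (by positivity)
    linarith
  have hx : 0 < node c 2 := Real.sqrt_pos.2 (by linarith)
  have hx1 : 0 < node d 2 := Real.sqrt_pos.2 (by linarith)
  have hxx : node d 2 ≤ node c 2 := by
    unfold node
    exact Real.sqrt_le_sqrt (by linarith)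
  rw [node_mul_sig_even hd0 (by norm_num) even_two hd2'] at hd
  rw [node_mul_sig_even hc (by norm_num) even_two hc2']
  have hmono : node c 2 * sigI ((Real.pi * (2 : ℕ)) ^ 2) (c ^ 2) ≤
      node d 2 * sigI ((Real.pi * (2 : ℕ)) ^ 2) (d ^ 2) := by
    unfold node
    exact node_sigI_mono (sq_nonneg c) hcd2 hd10 hK36
  set Dd : ℝ := node d 2 * sigI ((Real.pi * (2 : ℕ)) ^ 2) (d ^ 2) with hDd
  have hstep : ∫ l in Ioi (0 : ℝ), wgt α (node c 2) l * (l * Lam c l + Real.exp (-l) * (ε + -Dd)) ≤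
      ∫ l in Ioi (0 : ℝ), wgt α (node c 2) l * (l * Lam c l + Real.exp (-l) *
      (ε + -(node c 2 * sigI ((Real.pi * (2 : ℕ)) ^ 2) (c ^ 2)))) := by
    apply setIntegral_mono_on (wh_integrable hα0 hα1' hx _) (wh_integrable hα0 hα1' hx _)
      measurableSet_Ioi
    intro l hl
    apply mul_le_mul_of_nonneg_left _ (wgt_pos hl).le
    have := mul_le_mul_of_nonneg_left (show ε + -Dd ≤ ε +
      -(node c 2 * sigI ((Real.pi * (2 : ℕ)) ^ 2) (c ^ 2)) by linarith) (Real.exp_pos (-l)).le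
    linarith
  refine le_trans ?_ hstep
  apply single_crossing (w₂ := wgt α₀ (node d 2)) (wh_integrable hα0 hα1' hx _)
    (wh_integrable (by linarith) hα1 hx1 _) (fun l hl => (wgt_pos hl).le) (fun l hl => wgt_pos hl)
  · intro l m hl hlm
    have hm : 0 < m := lt_of_lt_of_le hl hlm
    unfold wgt
    rw [_root_.div_mul_div_comm, _root_.div_mul_div_comm]
    have h1 : l ^ (-α) * m ^ (-α₀) ≤ m ^ (-α) * l ^ (-α₀) := by
      have e1 : l ^ (-α) = l ^ (α₀ - α) * l ^ (-α₀) := by
        rw [← Real.rpow_add hl]; congr 1; ring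
      have e2 : m ^ (-α) = m ^ (α₀ - α) * m ^ (-α₀) := by
        rw [← Real.rpow_add hm]; congr 1; ring
      rw [e1, e2]
      have h2 : l ^ (α₀ - α) ≤ m ^ (α₀ - α) :=
        Real.rpow_le_rpow hl.le hlm (by linarith)
      have h3 : 0 ≤ l ^ (-α₀) * m ^ (-α₀) :=
        mul_nonneg (Real.rpow_nonneg hl.le _) (Real.rpow_nonneg hm.le _)
      have := mul_le_mul_of_nonneg_right h2 h3
      linarith
    have h4 : (m ^ 2 + node c 2 ^ 2) * (l ^ 2 + node d 2 ^ 2) ≤
        (l ^ 2 + node c 2 ^ 2) * (m ^ 2 + node d 2 ^ 2) := by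
      have h5 : l ^ 2 ≤ m ^ 2 := pow_le_pow_left₀ hl.le hlm 2
      have h6 : node d 2 ^ 2 ≤ node c 2 ^ 2 := pow_le_pow_left₀ hx1.le hxx 2
      nlinarith [mul_nonneg (sub_nonneg.2 h5) (sub_nonneg.2 h6)]
    apply div_le_div₀ _ h1 (by positivity) h4
    exact mul_nonneg (Real.rpow_nonneg hm.le _) (Real.rpow_nonneg hl.le _)
  · intro l m hl hlm h
    have e : ∀ l, l * Lam c l + Real.exp (-l) * (ε + -Dd) =
        Real.exp (-l) * (l * gfun c l + (ε - Dd)) := by
      intro l
      rw [Lam_eq]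
      ring
    rw [e] at h ⊢
    have h1 : 0 ≤ l * gfun c l + (ε - Dd) := nonneg_of_mul_nonneg_right h (Real.exp_pos _)
    obtain ⟨h2, h3⟩ := gfun_mono hc hcπ.le hl.le hlm
    apply mul_nonneg (Real.exp_pos _).le
    have h4 : l * gfun c l ≤ m * gfun c m := mul_le_mul hlm h3 h2 (hl.le.trans hlm)
    linarith
  · refine lt_of_lt_of_le hd ?_
    apply setIntegral_mono_on (wh_integrable (by linarith) hα1 hx1 _)
      (wh_integrable (by linarith) hα1 hx1 _) measurableSet_Ioi
    intro l hl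
    have hl' : 0 < l := hl
    apply mul_le_mul_of_nonneg_left _ (wgt_pos hl).le
    have := mul_le_mul_of_nonneg_left (Lam_anti hd10 hcd2 l) hl'.le
    linarith

/-- `S₂` at `(α, c)`. -/
noncomputable def S2 (α c : ℝ) : ℝ :=
  ∫ t in (0 : ℝ)..1, t ^ (α - 1) * convCos (rho c) (node c 2) t

theorem S2_repr {α c ε : ℝ} (hα0 : 0 < α) (hα1 : α < 1) (hc : 0 < c) (hc10 : c ^ 2 ≤ 10) :
    ∫ l in Ioi (0 : ℝ), wgt α (node c 2) l * (l * Lam c l +
      Real.exp (-l) * (ε + node c 2 * sig ((Real.pi * (2 : ℕ)) ^ 2) (c ^ 2))) =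
    Real.Gamma (1 - α) * S2 α c + ε * ∫ l in Ioi (0 : ℝ), wgt α (node c 2) l * Real.exp (-l) := by
  have hπ3 := Real.pi_gt_three
  have hc2' : c < Real.pi * (2 : ℕ) := by
    apply lt_of_pow_lt_pow_left₀ 2 (by positivity)
    push_cast
    nlinarith
  have hx : 0 < node c 2 := Real.sqrt_pos.2 (by push_cast; nlinarith)
  unfold S2
  rw [S_repr hα0 hα1 hc hc2', split_repr hα0 hα1 hx, split_repr hα0 hα1 hx]
  ring

/-- positivity propagates to smaller `α` and smaller `c` -/
theorem S2_pos_of {α α₀ c d : ℝ} (hα0 : 0 < α) (hαα : α ≤ α₀) (hα1 : α₀ < 1)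
    (hc : 0 < c) (hcπ : c < Real.pi) (hcd : c ≤ d) (hd10 : d ^ 2 ≤ 10) (h : 0 < S2 α₀ d) :
    0 ≤ S2 α c := by
  have hcd2 : c ^ 2 ≤ d ^ 2 := pow_le_pow_left₀ hc.le hcd 2
  have h1 := S2_compare hα0 hαα hα1 hc hcπ hcd hd10 (ε := 0) (by
    rw [S2_repr (by linarith) hα1 (lt_of_lt_of_le hc hcd) hd10, zero_mul, add_zero]
    exact mul_pos (Real.Gamma_pos_of_pos (by linarith)) h)
  rw [S2_repr hα0 (by linarith) hc (hcd2.trans hd10), zero_mul, add_zero] at h1
  exact nonneg_of_mul_nonneg_right h1 (Real.Gamma_pos_of_pos (by linarith))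

/-- negativity propagates to larger `α` and larger `c` -/
theorem S2_neg_of {α α₀ c d : ℝ} (hα0 : 0 < α) (hαα : α ≤ α₀) (hα1 : α₀ < 1)
    (hc : 0 < c) (hcπ : c < Real.pi) (hcd : c ≤ d) (hd10 : d ^ 2 ≤ 10) (h : S2 α c < 0) :
    S2 α₀ d < 0 := by
  have hcd2 : c ^ 2 ≤ d ^ 2 := pow_le_pow_left₀ hc.le hcd 2
  have hπ3 := Real.pi_gt_three
  have hd0 : 0 < d := lt_of_lt_of_le hc hcd
  have hx : 0 < node c 2 := Real.sqrt_pos.2 (by push_cast; nlinarith)
  have hx1 : 0 < node d 2 := Real.sqrt_pos.2 (by push_cast; nlinarith)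
  have hEpos : ∀ (β x : ℝ), β < 1 → 0 < x →
      0 ≤ ∫ l in Ioi (0 : ℝ), wgt β x l * Real.exp (-l) := by
    intro β x _ _
    apply setIntegral_nonneg measurableSet_Ioi
    intro l hl
    exact mul_nonneg (wgt_pos hl).le (Real.exp_pos _).le
  by_contra hcon
  push Not at hcon
  have hΓ : 0 < Real.Gamma (1 - α) := Real.Gamma_pos_of_pos (by linarith)
  have hΓ0 : 0 < Real.Gamma (1 - α₀) := Real.Gamma_pos_of_pos (by linarith)
  set Ec : ℝ := ∫ l in Ioi (0 : ℝ), wgt α (node c 2) l * Real.exp (-l) with hEc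
  have hEc0 : 0 ≤ Ec := hEpos α _ (by linarith) hx
  -- the exponential integral at `d` is positive
  have hEd : 0 < ∫ l in Ioi (0 : ℝ), wgt α₀ (node d 2) l * Real.exp (-l) := by
    have h1 := wexp_ge (α := α₀) (by linarith) hα1 hx1
    have h2 : (27 : ℝ) ≤ node d 2 ^ 2 := by
      unfold node
      rw [Real.sq_sqrt (by push_cast; nlinarith)]
      push_cast
      nlinarith [Real.pi_gt_d2]
    have h3 : (1 - α₀) * (2 - α₀) / node d 2 ^ 2 ≤ 2 / 27 := by
      apply div_le_div₀ (by norm_num) (by nlinarith) (by norm_num) h2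
    have h4 : 0 < Real.Gamma (1 - α₀) * (1 - (1 - α₀) * (2 - α₀) / node d 2 ^ 2) :=
      mul_pos hΓ0 (by linarith)
    exact (mul_pos_iff_of_pos_left (by positivity : (0 : ℝ) < node d 2 ^ 2)).1
      (lt_of_lt_of_le h4 h1)
  obtain ⟨ε, hε0, hε⟩ : ∃ ε : ℝ, 0 < ε ∧ Real.Gamma (1 - α) * S2 α c + ε * Ec < 0 := by
    refine ⟨-(Real.Gamma (1 - α) * S2 α c) / (2 * (Ec + 1)), ?_, ?_⟩
    · apply _root_.div_pos _ (by linarith)
      have := mul_neg_of_pos_of_neg hΓ h
      linarith
    · have h5 := mul_neg_of_pos_of_neg hΓ h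
      have h6 : -(Real.Gamma (1 - α) * S2 α c) / (2 * (Ec + 1)) * Ec ≤
          -(Real.Gamma (1 - α) * S2 α c) / 2 := by
        rw [div_mul_eq_mul_div, div_le_div_iff₀ (by linarith) (by norm_num)]
        nlinarith
      linarith
  have h7 := S2_compare hα0 hαα hα1 hc hcπ hcd hd10 (ε := ε) (by
    rw [S2_repr (by linarith) hα1 hd0 hd10]
    have := mul_nonneg hΓ0.le hcon
    have := mul_pos hε0 hEd
    linarith)
  rw [S2_repr hα0 (by linarith) hc (hcd2.trans hd10), ← hEc] at h7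
  linarith

end Pool.Agent.Helper5.Bern
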