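import Pool.Agent.Helper5.BernNumF
import Pool.Agent.Helper5.BernS2
import Pool.Agent.Helper5.BernH

/-!
# The second weight: numerical values, and the sharp range
-/

set_option autoImplicit false

open Set Filter Topology Nat MeasureTheory intervalIntegral

namespace Pool.Agent.Helper5.Bern

/-- Upper bound for the integral by the polynomial approximation. -/
theorem S_upper {α c x : ℝ} (hα : 0 < α) (hc : c ^ 2 ≤ 10) (hx : x ^ 2 ≤ 100) :
    ∫ t in (0 : ℝ)..1, t ^ (α - 1) * convCos (rho c) x t ≤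
      (∑ m ∈ Finset.range 8, (-1) ^ m * (x ^ 2) ^ m * Ecoef α (c ^ 2 / 4) m) +
      ((c ^ 2 / 4) ^ 6 / 518400 / (1 + α) + (x ^ 2) ^ 8 / 355687428096000 / (17 + α)) := by
  set ε : ℝ := (c ^ 2 / 4) ^ 6 / 518400 with hε
  have hε0 : 0 ≤ ε := by positivity
  have hε1 : ε ≤ 2 / 3 := by
    have : (c ^ 2 / 4) ^ 6 ≤ (10 / 4) ^ 6 := pow_le_pow_left₀ (by positivity) (by linarith) 6
    rw [hε]
    norm_num at this
    linarith
  have hcr := continuous_rho c
  have hpolc : Continuous (pol (c ^ 2 / 4)) := by unfold pol; fun_prop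
  have hcpolc : Continuous cpol := by unfold cpol; fun_prop
  -- pointwise bound for the convolution
  have hconv : ∀ t ∈ Icc (0 : ℝ) 1,
      convCos (rho c) x t ≤ (∫ u in (0 : ℝ)..t, pol (c ^ 2 / 4) (t - u) * cpol (x * u)) +
        (ε * t + (x ^ 2) ^ 8 / 355687428096000 * t ^ 17) := by
    intro t ht
    have e1 : ε * t + (x ^ 2) ^ 8 / 355687428096000 * t ^ 17 =
        ∫ u in (0 : ℝ)..t, (ε + (x ^ 2) ^ 8 / 20922789888000 * u ^ 16) := by
      rw [intervalIntegral.integral_add, intervalIntegral.integral_const,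
        intervalIntegral.integral_const_mul, integral_pow]
      · simp
        ring
      · exact intervalIntegrable_const
      · apply Continuous.intervalIntegrable; fun_prop
    unfold convCos
    rw [e1, ← intervalIntegral.integral_add]
    · apply intervalIntegral.integral_mono_on ht.1
      · apply Continuous.intervalIntegrable; fun_prop
      · apply Continuous.intervalIntegrable; fun_prop
      · intro u hu
        have hv0 : 0 ≤ t - u := by linarith [hu.2]
        have hv1 : t - u ≤ 1 := by linarith [hu.1, ht.2]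
        have hu1 : u ≤ 1 := hu.2.trans ht.2
        obtain ⟨h1, h2⟩ := rho_pol hc hv0 hv1
        have h3 := rho_le_one hc hv0 hv1
        have h4 := rho_ge hc hv0 hv1
        rw [← hε] at h2
        have hxu : (x * u) ^ 2 ≤ 100 := by
          rw [mul_pow]
          have : u ^ 2 ≤ 1 := pow_le_one₀ hu.1 hu1
          calc x ^ 2 * u ^ 2 ≤ x ^ 2 * 1 := mul_le_mul_of_nonneg_left this (sq_nonneg x)
            _ ≤ 100 := by linarith
        have h5 := cos_cpol hxu
        have hpow : (x * u) ^ 16 = (x ^ 2) ^ 8 * u ^ 16 := by ring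
        rw [hpow] at h5
        have hP : |pol (c ^ 2 / 4) (t - u)| ≤ 1 := by
          rw [abs_le]
          constructor <;> linarith
        have hcos := Real.abs_cos_le_one (x * u)
        have e2 : rho c (t - u) * Real.cos (x * u) - pol (c ^ 2 / 4) (t - u) * cpol (x * u) =
          (rho c (t - u) - pol (c ^ 2 / 4) (t - u)) * Real.cos (x * u) +
            pol (c ^ 2 / 4) (t - u) * (Real.cos (x * u) - cpol (x * u)) := by ring
        have h6 : |(rho c (t - u) - pol (c ^ 2 / 4) (t - u)) * Real.cos (x * u)| ≤ ε * 1 := by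
          rw [abs_mul, abs_of_nonneg h1]
          exact mul_le_mul h2 hcos (abs_nonneg _) hε0
        have h7 : |pol (c ^ 2 / 4) (t - u) * (Real.cos (x * u) - cpol (x * u))| ≤
            1 * ((x ^ 2) ^ 8 * u ^ 16 / 20922789888000) := by
          rw [abs_mul]
          exact mul_le_mul hP h5 (abs_nonneg _) zero_le_one
        have h8 := abs_le.1 h6
        have h9 := abs_le.1 h7
        have h10 : (x ^ 2) ^ 8 / 20922789888000 * u ^ 16 =
          (x ^ 2) ^ 8 * u ^ 16 / 20922789888000 := by ring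
        rw [h10]
        linarith [h8.2, h9.2]
    · apply Continuous.intervalIntegrable; fun_prop
    · apply Continuous.intervalIntegrable; fun_prop
  have hcontQ := continuous_convCos hcr x
  have hcontP : Continuous (fun t => ∫ u in (0 : ℝ)..t, pol (c ^ 2 / 4) (t - u) * cpol (x * u)) := by
    simp_rw [conv_pol]
    fun_prop
  have e3 : (∑ m ∈ Finset.range 8, (-1) ^ m * (x ^ 2) ^ m * Ecoef α (c ^ 2 / 4) m) +
      (ε / (1 + α) + (x ^ 2) ^ 8 / 355687428096000 / (17 + α)) =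
      ∫ t in (0 : ℝ)..1, t ^ (α - 1) * ((∫ u in (0 : ℝ)..t, pol (c ^ 2 / 4) (t - u) *
        cpol (x * u)) + (ε * t + (x ^ 2) ^ 8 / 355687428096000 * t ^ 17)) := by
    have e4 : ∀ t : ℝ, t ^ (α - 1) * ((∫ u in (0 : ℝ)..t, pol (c ^ 2 / 4) (t - u) *
        cpol (x * u)) + (ε * t + (x ^ 2) ^ 8 / 355687428096000 * t ^ 17)) =
        t ^ (α - 1) * (∫ u in (0 : ℝ)..t, pol (c ^ 2 / 4) (t - u) * cpol (x * u)) +
        (ε * (t ^ (α - 1) * t ^ 1) + (x ^ 2) ^ 8 / 355687428096000 * (t ^ (α - 1) * t ^ 17)) := by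
      intro t
      ring
    simp_rw [e4]
    have i1 := rpow_pow_integrable hα hcontP
    have i2 := (rpow_pow_integrable hα (f := fun t => t ^ 1) (by fun_prop)).const_mul ε
    have i3 := (rpow_pow_integrable hα (f := fun t => t ^ 17) (by fun_prop)).const_mul
      ((x ^ 2) ^ 8 / 355687428096000)
    rw [intervalIntegral.integral_add i1 (i2.add i3), intervalIntegral.integral_add i2 i3,
      intervalIntegral.integral_const_mul, intervalIntegral.integral_const_mul,
      integral_rpow_pow hα, integral_rpow_pow hα, integral_conv_pol hα]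
    push_cast
    ring
  rw [e3]
  apply intervalIntegral.integral_mono_on zero_le_one
  · exact rpow_pow_integrable hα hcontQ
  · apply rpow_pow_integrable hα (f := fun t => (∫ u in (0 : ℝ)..t, pol (c ^ 2 / 4) (t - u) *
        cpol (x * u)) + (ε * t + (x ^ 2) ^ 8 / 355687428096000 * t ^ 17))
    exact hcontP.add (by fun_prop)
  · intro t ht
    exact mul_le_mul_of_nonneg_left (hconv t ht) (Real.rpow_nonneg ht.1 _)


theorem sum_upper {X Xlo Xhi : ℝ} (h0 : 0 ≤ Xlo) (h1 : Xlo ≤ X) (h2 : X ≤ Xhi) {E e : ℕ → ℝ}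
    (he : ∀ m, 0 ≤ e m) (hev : ∀ m, m < 8 → Even m → E m ≤ e m)
    (hod : ∀ m, m < 8 → Odd m → e m ≤ E m) :
    ∑ m ∈ Finset.range 8, (-1) ^ m * X ^ m * E m ≤
    ∑ m ∈ Finset.range 8, (-1) ^ m * (if Even m then Xhi else Xlo) ^ m * e m := by
  apply Finset.sum_le_sum
  intro m hm
  have hm8 := Finset.mem_range.1 hm
  have hX0 : 0 ≤ X := h0.trans h1
  rcases Nat.even_or_odd m with hme | hmo
  · rw [if_pos hme, hme.neg_one_pow, one_mul, one_mul]
    have h3 : X ^ m ≤ Xhi ^ m := pow_le_pow_left₀ hX0 h2 m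
    exact (mul_le_mul_of_nonneg_left (hev m hm8 hme) (pow_nonneg hX0 m)).trans
      (mul_le_mul_of_nonneg_right h3 (he m))
  · rw [if_neg (Nat.not_even_iff_odd.2 hmo), hmo.neg_one_pow]
    have h3 : Xlo ^ m ≤ X ^ m := pow_le_pow_left₀ h0 h1 m
    have h4 : X ^ m * e m ≤ X ^ m * E m :=
      mul_le_mul_of_nonneg_left (hod m hm8 hmo) (pow_nonneg hX0 m)
    have h5 : Xlo ^ m * e m ≤ X ^ m * e m := mul_le_mul_of_nonneg_right h3 (he m)
    linarith

theorem node_bounds {A : ℝ} (hA0 : 0 ≤ A) (hA10 : A ≤ 10) :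
    4 * (3141592 / 1000000 : ℝ) ^ 2 - A ≤ node (√A) 2 ^ 2 ∧
      node (√A) 2 ^ 2 ≤ 4 * (3141593 / 1000000 : ℝ) ^ 2 - A ∧
      0 ≤ 4 * (3141592 / 1000000 : ℝ) ^ 2 - A := by
  have hd2 : (√A) ^ 2 = A := Real.sq_sqrt hA0
  obtain ⟨hπ1, hπ2⟩ := pi_sq_bounds
  have h9 : (9 : ℝ) < (3141592 / 1000000 : ℝ) ^ 2 := by norm_num
  have hx2 : node (√A) 2 ^ 2 = 4 * Real.pi ^ 2 - A := by
    unfold node
    rw [hd2, Real.sq_sqrt]
    · push_cast; ring
    · push_cast; nlinarith
  rw [hx2]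
  exact ⟨by linarith, by linarith, by linarith⟩

theorem S2_lower_num {α A : ℝ} (hα0 : 0 < α) (hA0 : 0 < A) (hA10 : A ≤ 10)
    {e : ℕ → ℝ} (he : ∀ m, 0 ≤ e m)
    (hev : ∀ m, m < 8 → Even m → e m ≤ Ecoef α (A / 4) m)
    (hod : ∀ m, m < 8 → Odd m → Ecoef α (A / 4) m ≤ e m)
    (hS : ((A / 4) ^ 6 / 518400 / (1 + α) +
      (4 * (3141593 / 1000000 : ℝ) ^ 2 - A) ^ 8 / 355687428096000 / (17 + α)) <
      ∑ m ∈ Finset.range 8, (-1) ^ m * (if Even m then 4 * (3141592 / 1000000 : ℝ) ^ 2 - A else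
        4 * (3141593 / 1000000 : ℝ) ^ 2 - A) ^ m * e m) :
    0 < S2 α (√A) := by
  have hd2 : (√A) ^ 2 = A := Real.sq_sqrt hA0.le
  obtain ⟨hxlo, hxhi, hXlo0⟩ := node_bounds hA0.le hA10
  have hSl := S_lower (c := √A) (x := node (√A) 2) hα0 (by rw [hd2]; exact hA10) (by
    have : (3141593 / 1000000 : ℝ) ^ 2 ≤ 10 := by norm_num
    linarith)
  rw [hd2] at hSl
  have hsum := sum_lower hXlo0 hxlo hxhi he hev hod
  have hX8 : (node (√A) 2 ^ 2) ^ 8 ≤ (4 * (3141593 / 1000000 : ℝ) ^ 2 - A) ^ 8 :=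
    pow_le_pow_left₀ (sq_nonneg _) hxhi 8
  have hterm : (node (√A) 2 ^ 2) ^ 8 / 355687428096000 / (17 + α) ≤
      (4 * (3141593 / 1000000 : ℝ) ^ 2 - A) ^ 8 / 355687428096000 / (17 + α) := by
    apply div_le_div_of_nonneg_right _ (by linarith)
    linarith
  unfold S2
  linarith

theorem S2_upper_num {α A : ℝ} (hα0 : 0 < α) (hA0 : 0 < A) (hA10 : A ≤ 10)
    {e : ℕ → ℝ} (he : ∀ m, 0 ≤ e m)
    (hev : ∀ m, m < 8 → Even m → Ecoef α (A / 4) m ≤ e m)
    (hod : ∀ m, m < 8 → Odd m → e m ≤ Ecoef α (A / 4) m)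
    (hS : ((A / 4) ^ 6 / 518400 / (1 + α) +
      (4 * (3141593 / 1000000 : ℝ) ^ 2 - A) ^ 8 / 355687428096000 / (17 + α)) +
      ∑ m ∈ Finset.range 8, (-1) ^ m * (if Even m then 4 * (3141593 / 1000000 : ℝ) ^ 2 - A else
        4 * (3141592 / 1000000 : ℝ) ^ 2 - A) ^ m * e m < 0) :
    S2 α (√A) < 0 := by
  have hd2 : (√A) ^ 2 = A := Real.sq_sqrt hA0.le
  obtain ⟨hxlo, hxhi, hXlo0⟩ := node_bounds hA0.le hA10
  have hSl := S_upper (c := √A) (x := node (√A) 2) hα0 (by rw [hd2]; exact hA10) (by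
    have : (3141593 / 1000000 : ℝ) ^ 2 ≤ 10 := by norm_num
    linarith)
  rw [hd2] at hSl
  have hsum := sum_upper hXlo0 hxlo hxhi he hev hod
  have hX8 : (node (√A) 2 ^ 2) ^ 8 ≤ (4 * (3141593 / 1000000 : ℝ) ^ 2 - A) ^ 8 :=
    pow_le_pow_left₀ (sq_nonneg _) hxhi 8
  have hterm : (node (√A) 2 ^ 2) ^ 8 / 355687428096000 / (17 + α) ≤
      (4 * (3141593 / 1000000 : ℝ) ^ 2 - A) ^ 8 / 355687428096000 / (17 + α) := by
    apply div_le_div_of_nonneg_right _ (by linarith)
    linarith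
  unfold S2
  linarith

theorem S2_p : 0 < S2 (43 / 100) (√(819 / 100)) := by
  have hB : (819 / 100 : ℝ) / 4 = 819 / 400 := by norm_num
  refine S2_lower_num (e := cep) (by norm_num) (by norm_num) (by norm_num) ?_ ?_ ?_ ?_
  · intro m
    unfold cep
    split <;> norm_num
  · intro m hm hme
    rw [hB]
    interval_cases m
    · exact Ep0
    · exact absurd hme (by decide)
    · exact Ep2
    · exact absurd hme (by decide)
    · exact Ep4
    · exact absurd hme (by decide)
    · exact Ep6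
    · exact absurd hme (by decide)
  · intro m hm hmo
    rw [hB]
    interval_cases m
    · exact absurd hmo (by decide)
    · exact Ep1
    · exact absurd hmo (by decide)
    · exact Ep3
    · exact absurd hmo (by decide)
    · exact Ep5
    · exact absurd hmo (by decide)
    · exact Ep7
  · simp only [Finset.sum_range_succ, Finset.sum_range_zero, cep]
    norm_num [Nat.even_iff]

theorem S2_q : S2 (1 / 2) (√(179 / 25)) < 0 := by
  have hB : (179 / 25 : ℝ) / 4 = 179 / 100 := by norm_num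
  refine S2_upper_num (e := ceq) (by norm_num) (by norm_num) (by norm_num) ?_ ?_ ?_ ?_
  · intro m
    unfold ceq
    split <;> norm_num
  · intro m hm hme
    rw [hB]
    interval_cases m
    · exact Eq0
    · exact absurd hme (by decide)
    · exact Eq2
    · exact absurd hme (by decide)
    · exact Eq4
    · exact absurd hme (by decide)
    · exact Eq6
    · exact absurd hme (by decide)
  · intro m hm hmo
    rw [hB]
    interval_cases m
    · exact absurd hmo (by decide)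
    · exact Eq1
    · exact absurd hmo (by decide)
    · exact Eq3
    · exact absurd hmo (by decide)
    · exact Eq5
    · exact absurd hmo (by decide)
    · exact Eq7
  · simp only [Finset.sum_range_succ, Finset.sum_range_zero, ceq]
    norm_num [Nat.even_iff]

theorem S2_r : S2 (9 / 20) (√(397 / 50)) < 0 := by
  have hB : (397 / 50 : ℝ) / 4 = 397 / 200 := by norm_num
  refine S2_upper_num (e := cer) (by norm_num) (by norm_num) (by norm_num) ?_ ?_ ?_ ?_
  · intro m
    unfold cer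
    split <;> norm_num
  · intro m hm hme
    rw [hB]
    interval_cases m
    · exact Er0
    · exact absurd hme (by decide)
    · exact Er2
    · exact absurd hme (by decide)
    · exact Er4
    · exact absurd hme (by decide)
    · exact Er6
    · exact absurd hme (by decide)
  · intro m hm hmo
    rw [hB]
    interval_cases m
    · exact absurd hmo (by decide)
    · exact Er1
    · exact absurd hmo (by decide)
    · exact Er3
    · exact absurd hmo (by decide)
    · exact Er5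
    · exact absurd hmo (by decide)
    · exact Er7
  · simp only [Finset.sum_range_succ, Finset.sum_range_zero, cer]
    norm_num [Nat.even_iff]

theorem Psi_lower {α c : ℝ} (hα : 0 < α) (hc : c ^ 2 ≤ 10) :
    (∑ n ∈ Finset.range 11, rc (c ^ 2 / 4) n / (n + 1 + α)) ≤ Psi α c := by
  rw [Psi_eq]
  have hcr := continuous_rho c
  have hpolc : Continuous (pol (c ^ 2 / 4)) := by unfold pol; fun_prop
  have e : ∫ t in (0 : ℝ)..1, t ^ (α - 1) * (t * pol (c ^ 2 / 4) t) =
      ∑ n ∈ Finset.range 11, rc (c ^ 2 / 4) n / (n + 1 + α) := by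
    have e1 : ∀ t : ℝ, t ^ (α - 1) * (t * pol (c ^ 2 / 4) t) =
        ∑ n ∈ Finset.range 11, rc (c ^ 2 / 4) n * (t ^ (α - 1) * t ^ (n + 1)) := by
      intro t
      unfold pol
      rw [Finset.mul_sum, Finset.mul_sum]
      refine Finset.sum_congr rfl (fun n _ => ?_)
      ring
    simp_rw [e1]
    rw [intervalIntegral.integral_finsetSum]
    · refine Finset.sum_congr rfl (fun n _ => ?_)
      rw [intervalIntegral.integral_const_mul, integral_rpow_pow hα]
      push_cast
      ring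
    · intro n _
      exact (rpow_pow_integrable hα (f := fun t => t ^ (n + 1)) (by fun_prop)).const_mul _
  rw [← e]
  have hca : Continuous (fun t : ℝ => t ^ α) := Real.continuous_rpow_const hα.le
  apply intervalIntegral.integral_mono_on zero_le_one
  · exact rpow_pow_integrable hα (f := fun t => t * pol (c ^ 2 / 4) t) (by fun_prop)
  · exact (hca.mul hcr).intervalIntegrable _ _
  · intro t ht
    obtain ⟨h1, -⟩ := rho_pol hc ht.1 ht.2
    rcases ht.1.eq_or_lt with h0 | h0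
    · rw [← h0, zero_mul, mul_zero, Real.zero_rpow hα.ne', zero_mul]
    · have h2 : t ^ α = t ^ (α - 1) * t := by
        rw [← Real.rpow_add_one h0.ne']; congr 1; ring
      rw [h2, mul_assoc]
      apply mul_le_mul_of_nonneg_left _ (Real.rpow_nonneg h0.le _)
      exact mul_le_mul_of_nonneg_left (by linarith) h0.le

theorem Psi_anti {α c d : ℝ} (hα : 0 < α) (hd : d ^ 2 ≤ 10) (hcd : c ^ 2 ≤ d ^ 2) :
    Psi α d ≤ Psi α c := by
  unfold Psi
  have hc2 : Continuous (fun s : ℝ => (1 - s) ^ α) :=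
    (Real.continuous_rpow_const hα.le).comp (by fun_prop)
  apply intervalIntegral.integral_mono_on zero_le_one
  · exact (hc2.mul (continuous_besR d)).intervalIntegrable _ _
  · exact (hc2.mul (continuous_besR c)).intervalIntegrable _ _
  · intro s hs
    exact mul_le_mul_of_nonneg_left (besR_anti_left hd hcd hs.1 hs.2)
      (Real.rpow_nonneg (by linarith [hs.2]) _)

theorem Psi_q : 0 < Psi 1 (√(179 / 25)) := by
  have hd : (√(179 / 25 : ℝ)) ^ 2 = 179 / 25 := Real.sq_sqrt (by norm_num)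
  have h := Psi_lower (α := 1) (c := √(179 / 25)) (by norm_num) (by rw [hd]; norm_num)
  rw [hd] at h
  refine lt_of_lt_of_le ?_ h
  rw [show (179 / 25 : ℝ) / 4 = 179 / 100 by norm_num]
  simp only [Finset.sum_range_succ, Finset.sum_range_zero, rc]
  norm_num

theorem Psi_r : 0 < Psi (1 / 2) (√(397 / 50)) := by
  have hd : (√(397 / 50 : ℝ)) ^ 2 = 397 / 50 := Real.sq_sqrt (by norm_num)
  have h := Psi_lower (α := 1 / 2) (c := √(397 / 50)) (by norm_num) (by rw [hd]; norm_num)
  rw [hd] at h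
  refine lt_of_lt_of_le ?_ h
  rw [show (397 / 50 : ℝ) / 4 = 397 / 200 by norm_num]
  simp only [Finset.sum_range_succ, Finset.sum_range_zero, rc]
  norm_num

theorem Psi_p : Psi (2 / 5) (√(819 / 100)) ≤ 0 := by
  rw [Psi_eq]
  have hd : (√(819 / 100 : ℝ)) ^ 2 = 819 / 100 := Real.sq_sqrt (by norm_num)
  have h := Psi_upper (α := 2 / 5) (c := √(819 / 100)) (by norm_num) (by rw [hd]; norm_num)
  rw [hd] at h
  refine h.trans ?_
  rw [show (819 / 100 : ℝ) / 4 = 819 / 400 by norm_num]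
  simp only [Finset.sum_range_succ, Finset.sum_range_zero, rc]
  norm_num

theorem zero_ge {α β c A : ℝ} (hα : 0 < α) (hαβ : α ≤ β) (hc : 0 < c) (hA0 : 0 ≤ A)
    (hA : A ≤ 10) (hΨ : Psi α c = 0) (h : 0 < Psi β (√A)) : √A ≤ c := by
  by_contra hcon
  push Not at hcon
  have hd2 : (√A) ^ 2 = A := Real.sq_sqrt hA0
  have h1 : Psi α (√A) ≤ 0 := by
    rw [← hΨ]
    exact Psi_anti hα (by rw [hd2]; exact hA) (pow_le_pow_left₀ hc.le hcon.le 2)
  have h2 := Psi_nonpos_of_le hα hαβ (by rw [hd2]; exact hA) h1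
  linarith

/-- For `9/20 ≤ α < 1` the second weight is negative. -/
theorem S2_neg {α c : ℝ} (hα : 9 / 20 ≤ α) (hα1 : α < 1) (hc : 0 < c) (hcπ : c < Real.pi)
    (hΨ : Psi α c = 0) : S2 α c < 0 := by
  have hc10 : c ^ 2 ≤ 10 := by nlinarith [Real.pi_lt_d2]
  have h40 : √(179 / 25 : ℝ) < Real.pi := by
    rw [Real.sqrt_lt' Real.pi_pos]
    nlinarith [Real.pi_gt_three]
  have h41 : √(397 / 50 : ℝ) < Real.pi := by
    rw [Real.sqrt_lt' Real.pi_pos]
    nlinarith [Real.pi_gt_three]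
  rcases le_or_gt α (1 / 2) with h | h
  · have h1 := zero_ge (by linarith) h hc (by norm_num) (by norm_num) hΨ Psi_r
    exact S2_neg_of (by norm_num) hα hα1 (Real.sqrt_pos.2 (by norm_num)) h41 h1 hc10 S2_r
  · have h1 := zero_ge (by linarith) hα1.le hc (by norm_num) (by norm_num) hΨ Psi_q
    exact S2_neg_of (by norm_num) h.le hα1 (Real.sqrt_pos.2 (by norm_num)) h40 h1 hc10 S2_q

/-- For `0 < α ≤ 43/100` there is a zero `c` of `Ψ_α` in `(0,π)` with `S₂(α,c) ≥ 0`. -/
theorem exists_zero_S2 {α : ℝ} (hα0 : 0 < α) (hα1 : α ≤ 43 / 100) :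
    ∃ c : ℝ, 0 < c ∧ c < Real.pi ∧ Psi α c = 0 ∧ 0 ≤ S2 α c := by
  rcases le_or_gt α (2 / 5) with h | h
  · obtain ⟨c, h1, h2, h3, h4⟩ := exists_param hα0 h
    exact ⟨c, h1, h2, h3, h4 2 (by norm_num)⟩
  · have hd : (√(819 / 100 : ℝ)) ^ 2 = 819 / 100 := Real.sq_sqrt (by norm_num)
    have h3 : Psi α (√(819 / 100)) ≤ 0 :=
      Psi_nonpos_of_le (by norm_num) h.le (by rw [hd]; norm_num) Psi_p
    obtain ⟨c, hc0, hc1, hc2⟩ := exists_zero_of_nonpos hα0 (Real.sqrt_pos.2 (by norm_num)) h3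
    have hcπ : c < Real.pi := by
      refine lt_of_le_of_lt hc1 ?_
      rw [Real.sqrt_lt' Real.pi_pos]
      nlinarith [Real.pi_gt_three]
    exact ⟨c, hc0, hcπ, hc2, S2_pos_of hα0 hα1 (by norm_num) hc0 hcπ hc1
      (by rw [hd]; norm_num) S2_p⟩

/-- All the weights are nonnegative as soon as the second one is, in the form used by
`exists_param`. -/
theorem weights_of_S2 {α c : ℝ} (hα0 : 0 < α) (hα1 : α ≤ 3 / 5) (hc : 0 < c) (hcπ : c < Real.pi)
    (hS : 0 ≤ ∫ t in (0 : ℝ)..1, t ^ (α - 1) *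
        ∫ u in (0 : ℝ)..t, besR c (1 - (t - u)) * Real.cos (√((Real.pi * (2 : ℕ)) ^ 2 - c ^ 2) * u))
    (k : ℕ) (hk : 1 ≤ k) : 0 ≤ ∫ t in (0 : ℝ)..1, t ^ (α - 1) *
        ∫ u in (0 : ℝ)..t, besR c (1 - (t - u)) * Real.cos (√((Real.pi * k) ^ 2 - c ^ 2) * u) :=
  pos_of_S2 hα0 hα1 hc hcπ hS k hk

/-- The sharper form of `exists_param`: range `0 < α ≤ 43/100`. -/
theorem exists_param43 {α : ℝ} (hα0 : 0 < α) (hα1 : α ≤ 43 / 100) :
    ∃ c : ℝ, 0 < c ∧ c < Real.pi ∧ (∫ s in (0 : ℝ)..1, (1 - s) ^ α * besR c s = 0) ∧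
      ∀ k : ℕ, 1 ≤ k → 0 ≤ ∫ t in (0 : ℝ)..1, t ^ (α - 1) *
        ∫ u in (0 : ℝ)..t, besR c (1 - (t - u)) * Real.cos (√((Real.pi * k) ^ 2 - c ^ 2) * u) := by
  obtain ⟨c, h1, h2, h3, h4⟩ := exists_zero_S2 hα0 hα1
  exact ⟨c, h1, h2, h3, fun k hk => pos_of_S2 hα0 (by linarith) h1 h2 h4 k hk⟩

end Pool.Agent.Helper5.Bern
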