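import Pool.Agent.Helper5.BernLap

/-!
# The sine transform of `J₀(c√(1-s²))` at the nodes
-/

set_option autoImplicit false

open Set Filter Topology Nat MeasureTheory intervalIntegral

namespace Pool.Agent.Helper5.Bern

theorem besP_rec (p : ℕ) (y : ℝ) :
    ((p : ℝ) + 1) * besP (p + 1) y - y * besP (p + 2) y = besP p y := by
  have h1 := (hasSum_besP (p + 1) y).mul_left ((p : ℝ) + 1)
  have h2 := (hasSum_besP (p + 2) y).mul_left y
  set g : ℕ → ℝ := fun m => -((m : ℝ) * (-y) ^ m /
    (((m ! : ℕ) : ℝ) * (((m + (p + 1))! : ℕ) : ℝ))) with hg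
  have h3 : HasSum g (y * besP (p + 2) y) := by
    rw [← hasSum_nat_add_iff' 1]
    simp only [Finset.range_one, Finset.sum_singleton]
    have g0 : g 0 = 0 := by simp [hg]
    rw [g0, sub_zero]
    refine hasSum_of_eq h2 (fun m => ?_)
    simp only [hg]
    rw [Nat.factorial_succ m, show m + 1 + (p + 1) = m + (p + 2) by ring]
    have h0 : ((m ! : ℕ) : ℝ) ≠ 0 := by positivity
    have h1 : (((m + (p + 2))! : ℕ) : ℝ) ≠ 0 := by positivity
    push_cast
    rw [pow_succ]
    field_simp
  have h4 := h1.sub h3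
  refine h4.unique (hasSum_of_eq (hasSum_besP p y) (fun m => ?_))
  simp only [hg]
  rw [show m + (p + 1) = (m + p) + 1 by ring, Nat.factorial_succ (m + p)]
  have h0 : ((m ! : ℕ) : ℝ) ≠ 0 := by positivity
  have h1 : (((m + p)! : ℕ) : ℝ) ≠ 0 := by positivity
  have h5 : (m : ℝ) + p + 1 ≠ 0 := by positivity
  push_cast
  field_simp
  ring

theorem hasDerivAt_besP_comp (p : ℕ) {g : ℝ → ℝ} {g' x : ℝ} (hg : HasDerivAt g g' x) :
    HasDerivAt (fun t => besP p (g t)) (-(besP (p + 1) (g x)) * g') x :=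
  (hasDerivAt_besP p (g x)).comp x hg

/-- `sig K A = ∫₀¹ J₀(√A √(1-s²)) sin (√(K-A) s) ds`. -/
noncomputable def sig (K A : ℝ) : ℝ :=
  ∫ s in (0 : ℝ)..1, besP 0 (A * (1 - s ^ 2) / 4) * Real.sin (√(K - A) * s)

/-- the derivative in `A` of the integrand -/
noncomputable def sigD (K A s : ℝ) : ℝ :=
  -(besP 1 (A * (1 - s ^ 2) / 4) * ((1 - s ^ 2) / 4)) * Real.sin (√(K - A) * s) +
    besP 0 (A * (1 - s ^ 2) / 4) * (Real.cos (√(K - A) * s) * (-1 / (2 * √(K - A)) * s))

theorem integral_sigD {K A : ℝ} (hA : A < K) :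
    ∫ s in (0 : ℝ)..1, sigD K A s = -(besP 1 (A / 4) / (4 * √(K - A))) := by
  set x : ℝ := √(K - A) with hx
  have hx0 : 0 < x := Real.sqrt_pos.2 (by linarith)
  have hder : ∀ s ∈ uIcc (0 : ℝ) 1, HasDerivAt
      (fun s => (1 - s ^ 2) * besP 1 (A * (1 - s ^ 2) / 4) * Real.cos (x * s) / (4 * x))
      (sigD K A s) s := by
    intro s _
    have h1 : HasDerivAt (fun s : ℝ => 1 - s ^ 2) (-(2 * s)) s := by
      have := (hasDerivAt_pow 2 s).const_sub 1
      simpa using this
    have h2 : HasDerivAt (fun s : ℝ => A * (1 - s ^ 2) / 4) (A * (-(2 * s)) / 4) s :=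
      (h1.const_mul A).div_const 4
    have h3 : HasDerivAt (fun s : ℝ => besP 1 (A * (1 - s ^ 2) / 4))
      (-(besP 2 (A * (1 - s ^ 2) / 4)) * (A * (-(2 * s)) / 4)) s :=
      hasDerivAt_besP_comp 1 h2
    have h4 : HasDerivAt (fun s : ℝ => Real.cos (x * s)) (-Real.sin (x * s) * x) s := by
      have h5 : HasDerivAt (fun s : ℝ => x * s) x s := by
        have := (hasDerivAt_id s).const_mul x
        rw [mul_one] at this
        exact this
      exact h5.cos
    have h6 : HasDerivAt (fun s => (1 - s ^ 2) * besP 1 (A * (1 - s ^ 2) / 4) *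
        Real.cos (x * s) / (4 * x)) ((((-(2 * s)) * besP 1 (A * (1 - s ^ 2) / 4) + (1 - s ^ 2) *
        (-(besP 2 (A * (1 - s ^ 2) / 4)) * (A * (-(2 * s)) / 4))) * Real.cos (x * s) +
        (1 - s ^ 2) * besP 1 (A * (1 - s ^ 2) / 4) * (-Real.sin (x * s) * x)) / (4 * x)) s :=
      ((h1.mul h3).mul h4).div_const (4 * x)
    refine h6.congr_deriv ?_
    unfold sigD
    rw [← hx]
    have hrec := besP_rec 0 (A * (1 - s ^ 2) / 4)
    norm_num at hrec
    rw [← hrec]
    field_simp
    ring
  have hcont : Continuous (sigD K A) := by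
    unfold sigD
    have h0 := continuous_besP 0
    have h1 := continuous_besP 1
    fun_prop
  rw [intervalIntegral.integral_eq_sub_of_hasDerivAt hder (hcont.intervalIntegrable _ _)]
  norm_num

theorem hasDerivAt_sig {K A : ℝ} (hA : A < K) :
    HasDerivAt (sig K) (-(besP 1 (A / 4) / (4 * √(K - A)))) A := by
  rw [← integral_sigD hA]
  set δ : ℝ := (K - A) / 2 with hδ
  have hδ0 : 0 < δ := by rw [hδ]; linarith
  have hcF : ContinuousOn (fun q : ℝ × ℝ => sigD K q.1 q.2)
      (Metric.closedBall A δ ×ˢ Icc (0 : ℝ) 1) := by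
    intro q hq
    have h1 : q.1 < K := by
      have := hq.1
      rw [Metric.mem_closedBall, Real.dist_eq, abs_le] at this
      rw [hδ] at this
      linarith [this.2]
    have h2 : (2 * √(K - q.1)) ≠ 0 := by
      have := Real.sqrt_pos.2 (show 0 < K - q.1 by linarith)
      positivity
    apply ContinuousAt.continuousWithinAt
    unfold sigD
    have hb0 := (continuous_besP 0)
    have hb1 := (continuous_besP 1)
    have c0 : Continuous (fun q : ℝ × ℝ => besP 0 (q.1 * (1 - q.2 ^ 2) / 4)) :=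
      hb0.comp (by fun_prop)
    have c1 : Continuous (fun q : ℝ × ℝ => besP 1 (q.1 * (1 - q.2 ^ 2) / 4)) :=
      hb1.comp (by fun_prop)
    have c2 : Continuous (fun q : ℝ × ℝ => Real.sin (√(K - q.1) * q.2)) := by fun_prop
    have c3 : Continuous (fun q : ℝ × ℝ => Real.cos (√(K - q.1) * q.2)) := by fun_prop
    have c4 : Continuous (fun q : ℝ × ℝ => (1 - q.2 ^ 2) / 4) := by fun_prop
    have c5 : Continuous (fun q : ℝ × ℝ => 2 * √(K - q.1)) := by fun_prop
    have c6 : ContinuousAt (fun q : ℝ × ℝ => -1 / (2 * √(K - q.1))) q :=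
      continuousAt_const.div c5.continuousAt h2
    exact ((c1.continuousAt.mul c4.continuousAt).neg.mul c2.continuousAt).add
      (c0.continuousAt.mul (c3.continuousAt.mul (c6.mul continuousAt_snd)))
  obtain ⟨C, hC⟩ := ((isCompact_closedBall A δ).prod isCompact_Icc).exists_bound_of_continuousOn hcF
  refine (intervalIntegral.hasDerivAt_integral_of_dominated_loc_of_deriv_le
    (F := fun B s => besP 0 (B * (1 - s ^ 2) / 4) * Real.sin (√(K - B) * s))
    (F' := fun B s => sigD K B s) (bound := fun _ => C) (s := Metric.closedBall A δ)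
    (Metric.closedBall_mem_nhds A hδ0) ?_ ?_ ?_ ?_ ?_ ?_).2
  · refine Filter.Eventually.of_forall (fun B => ?_)
    have h0 := continuous_besP 0
    have : Continuous (fun s : ℝ => besP 0 (B * (1 - s ^ 2) / 4) * Real.sin (√(K - B) * s)) := by
      fun_prop
    exact this.aestronglyMeasurable
  · have h0 := continuous_besP 0
    have : Continuous (fun s : ℝ => besP 0 (A * (1 - s ^ 2) / 4) * Real.sin (√(K - A) * s)) := by
      fun_prop
    exact this.intervalIntegrable _ _
  · have : Continuous (fun s => sigD K A s) := by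
      unfold sigD
      have h0 := continuous_besP 0
      have h1 := continuous_besP 1
      fun_prop
    exact this.aestronglyMeasurable
  · refine Filter.Eventually.of_forall (fun s hs B hB => ?_)
    rw [uIoc_of_le zero_le_one] at hs
    exact hC (B, s) ⟨hB, ⟨hs.1.le, hs.2⟩⟩
  · exact intervalIntegrable_const
  · refine Filter.Eventually.of_forall (fun s _ B hB => ?_)
    have hBK : B < K := by
      rw [Metric.mem_closedBall, Real.dist_eq, abs_le] at hB
      rw [hδ] at hB
      linarith [hB.2]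
    have h1 : HasDerivAt (fun B : ℝ => B * (1 - s ^ 2) / 4) ((1 - s ^ 2) / 4) B := by
      have := ((hasDerivAt_id B).mul_const (1 - s ^ 2)).div_const 4
      rw [one_mul] at this
      exact this
    have h2 : HasDerivAt (fun B : ℝ => besP 0 (B * (1 - s ^ 2) / 4))
      (-(besP 1 (B * (1 - s ^ 2) / 4)) * ((1 - s ^ 2) / 4)) B :=
      hasDerivAt_besP_comp 0 h1
    have h3 : HasDerivAt (fun B : ℝ => √(K - B)) (-1 / (2 * √(K - B))) B :=
      ((hasDerivAt_id B).const_sub K).sqrt (by simp only [id]; linarith)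
    have h4 : HasDerivAt (fun B : ℝ => Real.sin (√(K - B) * s))
      (Real.cos (√(K - B) * s) * (-1 / (2 * √(K - B)) * s)) B := (h3.mul_const s).sin
    have h5 := h2.mul h4
    refine h5.congr_deriv ?_
    unfold sigD
    ring

theorem continuous_sig (K : ℝ) : Continuous (sig K) := by
  unfold sig
  apply intervalIntegral.continuous_parametric_intervalIntegral_of_continuous' (a₀ := 0) (b₀ := 1)
  have h0 := continuous_besP 0
  have c0 : Continuous (fun q : ℝ × ℝ => besP 0 (q.1 * (1 - q.2 ^ 2) / 4)) :=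
      h0.comp (by fun_prop)
  have c2 : Continuous (fun q : ℝ × ℝ => Real.sin (√(K - q.1) * q.2)) := by fun_prop
  exact c0.mul c2

/-- `sigI K A = ∫₀ᴬ besP 1 (B/4) / (4 √(K-B)) dB`. -/
noncomputable def sigI (K A : ℝ) : ℝ := ∫ B in (0 : ℝ)..A, besP 1 (B / 4) / (4 * √(K - B))

theorem continuousOn_sigI_integrand {K A : ℝ} (hA : A < K) :
    ContinuousOn (fun B : ℝ => besP 1 (B / 4) / (4 * √(K - B))) (Icc 0 A) := by
  have h1 := continuous_besP 1
  apply ContinuousOn.div
  · fun_prop
  · fun_prop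
  · intro B hB
    have := Real.sqrt_pos.2 (show 0 < K - B by linarith [hB.2])
    positivity

theorem sig_eq {K A : ℝ} (hA0 : 0 ≤ A) (hA : A < K) : sig K A = sig K 0 - sigI K A := by
  have h := intervalIntegral.integral_eq_sub_of_hasDerivAt (a := 0) (b := A) (f := sig K)
    (f' := fun B => -(besP 1 (B / 4) / (4 * √(K - B))))
    (fun B hB => by
      rw [uIcc_of_le hA0] at hB
      exact hasDerivAt_sig (by linarith [hB.2]))
    (by
      have := (continuousOn_sigI_integrand hA).neg
      rw [← uIcc_of_le hA0] at this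
      exact this.intervalIntegrable)
  rw [intervalIntegral.integral_neg] at h
  unfold sigI
  linarith

theorem integral_besP_one_div (A : ℝ) :
    ∫ B in (0 : ℝ)..A, besP 1 (B / 4) / 4 = 1 - besP 0 (A / 4) := by
  have hder : ∀ B ∈ uIcc (0 : ℝ) A, HasDerivAt (fun B => -besP 0 (B / 4)) (besP 1 (B / 4) / 4) B := by
    intro B _
    have h1 : HasDerivAt (fun B : ℝ => B / 4) (1 / 4) B := (hasDerivAt_id B).div_const 4
    have h2 : HasDerivAt (fun B : ℝ => besP 0 (B / 4)) (-(besP 1 (B / 4)) * (1 / 4)) B :=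
      hasDerivAt_besP_comp 0 h1
    refine h2.neg.congr_deriv ?_
    ring
  have h1 := continuous_besP 1
  rw [intervalIntegral.integral_eq_sub_of_hasDerivAt hder
    ((show Continuous (fun B : ℝ => besP 1 (B / 4) / 4) by fun_prop).intervalIntegrable _ _)]
  rw [zero_div, besP_zero]
  norm_num
  ring

theorem integral_mul_besP_one_div (A : ℝ) :
    ∫ B in (0 : ℝ)..A, B * (besP 1 (B / 4) / 4) = A * (besP 1 (A / 4) - besP 0 (A / 4)) := by
  have hder : ∀ B ∈ uIcc (0 : ℝ) A, HasDerivAt (fun B => B * (besP 1 (B / 4) - besP 0 (B / 4)))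
      (B * (besP 1 (B / 4) / 4)) B := by
    intro B _
    have h1 : HasDerivAt (fun B : ℝ => B / 4) (1 / 4) B := (hasDerivAt_id B).div_const 4
    have h2 : HasDerivAt (fun B : ℝ => besP 0 (B / 4)) (-(besP 1 (B / 4)) * (1 / 4)) B :=
      hasDerivAt_besP_comp 0 h1
    have h3 : HasDerivAt (fun B : ℝ => besP 1 (B / 4)) (-(besP 2 (B / 4)) * (1 / 4)) B :=
      hasDerivAt_besP_comp 1 h1
    refine ((hasDerivAt_id B).mul (h3.sub h2)).congr_deriv ?_
    have hrec := besP_rec 0 (B / 4)
    norm_num at hrec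
    simp only [id]
    have e : (fun B : ℝ => besP 1 (B / 4)) B = besP 1 (B / 4) := rfl
    show 1 * (besP 1 (B / 4) - besP 0 (B / 4)) +
      B * (-(besP 2 (B / 4)) * (1 / 4) - -(besP 1 (B / 4)) * (1 / 4)) = B * (besP 1 (B / 4) / 4)
    rw [← hrec]
    ring
  have h1 := continuous_besP 1
  rw [intervalIntegral.integral_eq_sub_of_hasDerivAt hder
    ((show Continuous (fun B : ℝ => B * (besP 1 (B / 4) / 4)) by
      fun_prop).intervalIntegrable _ _)]
  ring

theorem besP_one_pos' {B : ℝ} (h0 : 0 ≤ B) (h1 : B ≤ 10) : 0 < besP 1 (B / 4) :=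
  besP_one_pos (by linarith) (by linarith)

/-- upper bound for `√(K-A) ∫ ...`. -/
theorem sigI_le {K A : ℝ} (hA0 : 0 ≤ A) (hA10 : A ≤ 10) (hA : A < K) :
    √(K - A) * sigI K A ≤ 1 - besP 0 (A / 4) := by
  unfold sigI
  rw [← integral_besP_one_div, ← intervalIntegral.integral_const_mul]
  have hc := continuousOn_sigI_integrand hA
  rw [← uIcc_of_le hA0] at hc
  have h1 := continuous_besP 1
  apply intervalIntegral.integral_mono_on hA0
  · exact hc.intervalIntegrable.const_mul _
  · exact (show Continuous (fun B : ℝ => besP 1 (B / 4) / 4) by fun_prop).intervalIntegrable _ _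
  · intro B hB
    have hE := besP_one_pos' hB.1 (hB.2.trans hA10)
    have hs : 0 < √(K - B) := Real.sqrt_pos.2 (by linarith [hB.2])
    have hs2 : √(K - A) ≤ √(K - B) := Real.sqrt_le_sqrt (by linarith [hB.2])
    rw [mul_div_assoc', div_le_div_iff₀ (by positivity) (by norm_num)]
    nlinarith [mul_le_mul_of_nonneg_right hs2 hE.le]

/-- lower bound for `√K ∫ ...`. -/
theorem sigI_ge {K A : ℝ} (hA0 : 0 ≤ A) (hA10 : A ≤ 10) (hA : A < K) :
    (1 - besP 0 (A / 4)) + A * (besP 1 (A / 4) - besP 0 (A / 4)) / (2 * K) ≤ √K * sigI K A := by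
  have hK : 0 < K := by linarith
  have e : (1 - besP 0 (A / 4)) + A * (besP 1 (A / 4) - besP 0 (A / 4)) / (2 * K) =
      ∫ B in (0 : ℝ)..A, (besP 1 (B / 4) / 4 + (B * (besP 1 (B / 4) / 4)) / (2 * K)) := by
    have h1 := continuous_besP 1
    rw [intervalIntegral.integral_add,
      intervalIntegral.integral_div (2 * K) (fun B => B * (besP 1 (B / 4) / 4)),
      integral_besP_one_div, integral_mul_besP_one_div]
    · exact (show Continuous (fun B : ℝ => besP 1 (B / 4) / 4) by fun_prop).intervalIntegrable _ _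
    · exact (show Continuous (fun B : ℝ => (B * (besP 1 (B / 4) / 4)) / (2 * K)) by
        fun_prop).intervalIntegrable _ _
  rw [e]
  unfold sigI
  rw [← intervalIntegral.integral_const_mul]
  have hc := continuousOn_sigI_integrand hA
  rw [← uIcc_of_le hA0] at hc
  have h1 := continuous_besP 1
  apply intervalIntegral.integral_mono_on hA0
  · exact (show Continuous (fun B : ℝ => besP 1 (B / 4) / 4 +
      (B * (besP 1 (B / 4) / 4)) / (2 * K)) by fun_prop).intervalIntegrable _ _
  · exact hc.intervalIntegrable.const_mul _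
  · intro B hB
    have hE := besP_one_pos' hB.1 (hB.2.trans hA10)
    have hKB : 0 < K - B := by linarith [hB.2]
    have hs : 0 < √(K - B) := Real.sqrt_pos.2 hKB
    have hsK : 0 < √K := Real.sqrt_pos.2 hK
    have hkey : (1 + B / (2 * K)) * √(K - B) ≤ √K := by
      rw [← Real.sqrt_sq (show 0 ≤ 1 + B / (2 * K) by have := hB.1; positivity),
        ← Real.sqrt_mul (sq_nonneg _)]
      apply Real.sqrt_le_sqrt
      have hB0 := hB.1
      have : (1 + B / (2 * K)) ^ 2 * (K - B) = K - (3 * B ^ 2 * K + B ^ 3) / (4 * K ^ 2) := by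
        field_simp
        ring
      rw [this]
      have : 0 ≤ (3 * B ^ 2 * K + B ^ 3) / (4 * K ^ 2) := by positivity
      linarith
    have e2 : besP 1 (B / 4) / 4 + (B * (besP 1 (B / 4) / 4)) / (2 * K) =
      besP 1 (B / 4) / 4 * (1 + B / (2 * K)) := by ring
    rw [e2]
    have e3 : √K * (besP 1 (B / 4) / (4 * √(K - B))) = besP 1 (B / 4) / 4 * (√K / √(K - B)) := by
      field_simp
    rw [e3]
    apply mul_le_mul_of_nonneg_left _ (by positivity)
    rw [le_div_iff₀ hs]
    exact hkey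

/-- values at `A = 0` -/
theorem sig_zero {k : ℕ} (hk : 1 ≤ k) :
    sig ((Real.pi * k) ^ 2) 0 = (1 - (-1) ^ k) / (Real.pi * k) := by
  have hk' : (0 : ℝ) < Real.pi * k := by
    have : (0 : ℝ) < k := by exact_mod_cast hk
    positivity
  unfold sig
  simp only [zero_mul, zero_div, besP_zero, sub_zero]
  rw [Real.sqrt_sq hk'.le]
  simp only [Nat.factorial_zero, Nat.cast_one, div_one, one_mul]
  have h := integral_comp_mul_left (a := 0) (b := 1) (fun s => Real.sin s) hk'.ne'
  rw [h, integral_sin]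
  simp only [mul_zero, mul_one, Real.cos_zero, smul_eq_mul]
  rw [mul_comm Real.pi k, Real.cos_nat_mul_pi]
  field_simp

end Pool.Agent.Helper5.Bern
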