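import Pool.Agent.Helper5.BernId

/-!
# Signs and monotonicity of the power series `besP` on `[0, 5/2]`
-/

set_option autoImplicit false

open Set Filter Topology Nat MeasureTheory intervalIntegral

namespace Pool.Agent.Helper5.Bern

/-- Remainder of an alternating series whose terms decrease from the index `N` on. -/
theorem alt_tail {f : ℕ → ℝ} {s : ℝ} (hs : HasSum (fun m => (-1) ^ m * f m) s) (N : ℕ)
    (hf : ∀ m, N ≤ m → f (m + 1) ≤ f m) :
    0 ≤ (-1) ^ N * (s - ∑ m ∈ Finset.range N, (-1) ^ m * f m) ∧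
      (-1) ^ N * (s - ∑ m ∈ Finset.range N, (-1) ^ m * f m) ≤ f N := by
  have h1 : HasSum (fun m => (-1) ^ (m + N) * f (m + N))
      (s - ∑ m ∈ Finset.range N, (-1) ^ m * f m) := (hasSum_nat_add_iff' N).2 hs
  have h2 : HasSum (fun m => (-1) ^ m * f (m + N))
      ((-1) ^ N * (s - ∑ m ∈ Finset.range N, (-1) ^ m * f m)) := by
    refine hasSum_of_eq (h1.mul_left ((-1) ^ N)) (fun m => ?_)
    have e : (-1 : ℝ) ^ N * (-1) ^ N = 1 := by rw [← mul_pow]; norm_num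
    rw [pow_add]
    linear_combination (-(-1 : ℝ) ^ m * f (m + N)) * e
  have hanti : Antitone (fun m => f (m + N)) :=
    antitone_nat_of_succ_le (fun m => by
      have := hf (m + N) (by omega)
      rwa [show m + N + 1 = m + 1 + N by ring] at this)
  have ht := h2.tendsto_sum_nat
  have h3 := hanti.alternating_series_le_tendsto ht 0
  have h4 := hanti.tendsto_le_alternating_series ht 0
  simp at h3 h4
  exact ⟨h3, h4⟩

theorem hasSum_besP' (p : ℕ) (y : ℝ) :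
    HasSum (fun m : ℕ => (-1) ^ m * (y ^ m / (((m ! : ℕ) : ℝ) * (((m + p)! : ℕ) : ℝ))))
      (besP p y) :=
  hasSum_of_eq (hasSum_besP p y) (fun m => by rw [neg_pow y]; ring)

theorem besP_term_anti (p : ℕ) {y : ℝ} (h0 : 0 ≤ y) (h4 : y ≤ 4) (m : ℕ) (hm : 1 ≤ m) :
    y ^ (m + 1) / ((((m + 1)! : ℕ) : ℝ) * (((m + 1 + p)! : ℕ) : ℝ)) ≤
      y ^ m / (((m ! : ℕ) : ℝ) * (((m + p)! : ℕ) : ℝ)) := by
  rw [show m + 1 + p = (m + p) + 1 by ring, Nat.factorial_succ m, Nat.factorial_succ (m + p),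
    pow_succ]
  have h1 : (0 : ℝ) < ((m ! : ℕ) : ℝ) := by positivity
  have h2 : (0 : ℝ) < (((m + p)! : ℕ) : ℝ) := by positivity
  push_cast
  have hm' : (1 : ℝ) ≤ m := by exact_mod_cast hm
  have hp' : (0 : ℝ) ≤ p := by positivity
  have h5 : (4 : ℝ) ≤ ((m : ℝ) + 1) * ((m : ℝ) + p + 1) := by nlinarith
  have e : y ^ m * y / (((m : ℝ) + 1) * ((m ! : ℕ) : ℝ) * (((m : ℝ) + p + 1) * (((m + p)! : ℕ) : ℝ)))
      = (y ^ m / (((m ! : ℕ) : ℝ) * (((m + p)! : ℕ) : ℝ))) *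
        (y / (((m : ℝ) + 1) * ((m : ℝ) + p + 1))) := by
    field_simp
  rw [e]
  have h6 : y / (((m : ℝ) + 1) * ((m : ℝ) + p + 1)) ≤ 1 := by
    rw [div_le_one (by positivity)]; linarith
  exact mul_le_of_le_one_right (by positivity) h6

/-- Even partial sums bound `besP` from below, the gap is at most the next term. -/
theorem besP_partial (p : ℕ) {y : ℝ} (h0 : 0 ≤ y) (h4 : y ≤ 4) (N : ℕ) (hN : 1 ≤ N) :
    0 ≤ (-1) ^ N * (besP p y - ∑ m ∈ Finset.range N,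
      (-1) ^ m * (y ^ m / (((m ! : ℕ) : ℝ) * (((m + p)! : ℕ) : ℝ)))) ∧
    (-1) ^ N * (besP p y - ∑ m ∈ Finset.range N,
      (-1) ^ m * (y ^ m / (((m ! : ℕ) : ℝ) * (((m + p)! : ℕ) : ℝ)))) ≤
      y ^ N / (((N ! : ℕ) : ℝ) * (((N + p)! : ℕ) : ℝ)) :=
  alt_tail (hasSum_besP' p y) N (fun m hm => besP_term_anti p h0 h4 m (by omega))

theorem besP_one_pos {y : ℝ} (h0 : 0 ≤ y) (h1 : y ≤ 5 / 2) : 0 < besP 1 y := by
  have h := (besP_partial 1 h0 (by linarith) 4 (by norm_num)).1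
  simp only [Finset.sum_range_succ, Finset.sum_range_zero] at h
  norm_num [Nat.factorial] at h
  nlinarith [mul_nonneg h0 h0, mul_nonneg (mul_nonneg h0 h0) (sub_nonneg.2 h1),
    mul_nonneg h0 (sub_nonneg.2 h1), mul_nonneg h0 (mul_nonneg h0 h0),
    mul_nonneg (mul_nonneg h0 (sub_nonneg.2 h1)) (sub_nonneg.2 h1), sq_nonneg (y - 2)]

theorem besP_two_pos {y : ℝ} (h0 : 0 ≤ y) (h1 : y ≤ 5 / 2) : 0 < besP 2 y := by
  have h := (besP_partial 2 h0 (by linarith) 4 (by norm_num)).1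
  simp only [Finset.sum_range_succ, Finset.sum_range_zero] at h
  norm_num [Nat.factorial] at h
  nlinarith [mul_nonneg h0 h0, mul_nonneg (mul_nonneg h0 h0) (sub_nonneg.2 h1),
    mul_nonneg h0 (sub_nonneg.2 h1), mul_nonneg h0 (mul_nonneg h0 h0),
    mul_nonneg (mul_nonneg h0 (sub_nonneg.2 h1)) (sub_nonneg.2 h1), sq_nonneg (y - 2)]

theorem besP_zero_antitone : AntitoneOn (besP 0) (Icc 0 (5 / 2)) := by
  refine antitoneOn_of_deriv_nonpos (convex_Icc _ _) (continuous_besP 0).continuousOn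
    (fun y _ => (hasDerivAt_besP 0 y).differentiableAt.differentiableWithinAt) ?_
  intro y hy
  rw [interior_Icc] at hy
  rw [(hasDerivAt_besP 0 y).deriv]
  have := besP_one_pos hy.1.le hy.2.le
  simp only [zero_add]
  linarith

theorem besP_one_antitone : AntitoneOn (besP 1) (Icc 0 (5 / 2)) := by
  refine antitoneOn_of_deriv_nonpos (convex_Icc _ _) (continuous_besP 1).continuousOn
    (fun y _ => (hasDerivAt_besP 1 y).differentiableAt.differentiableWithinAt) ?_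
  intro y hy
  rw [interior_Icc] at hy
  rw [(hasDerivAt_besP 1 y).deriv]
  have := besP_two_pos hy.1.le hy.2.le
  show -besP 2 y ≤ 0
  linarith

/-- the argument of `besP` in `besR` -/
theorem arg_mem {c s : ℝ} (hc : c ^ 2 ≤ 10) (hs0 : 0 ≤ s) (hs1 : s ≤ 1) :
    c ^ 2 * (1 - s ^ 2) / 4 ∈ Icc (0 : ℝ) (5 / 2) := by
  have h1 : 0 ≤ 1 - s ^ 2 := by nlinarith
  have h2 : 1 - s ^ 2 ≤ 1 := by nlinarith [sq_nonneg s]
  constructor
  · have := mul_nonneg (sq_nonneg c) h1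
    linarith
  · have : c ^ 2 * (1 - s ^ 2) ≤ 10 * 1 := mul_le_mul hc h2 h1 (by norm_num)
    linarith

/-- `besR c` is nondecreasing on `[0,1]` for `c² ≤ 10`. -/
theorem besR_mono {c : ℝ} (hc : c ^ 2 ≤ 10) : MonotoneOn (besR c) (Icc 0 1) := by
  intro s hs t ht hst
  rw [besR_eq, besR_eq]
  apply besP_zero_antitone (arg_mem hc ht.1 ht.2) (arg_mem hc hs.1 hs.2)
  have : s ^ 2 ≤ t ^ 2 := pow_le_pow_left₀ hs.1 hst 2
  have := mul_le_mul_of_nonneg_left (by linarith : 1 - t ^ 2 ≤ 1 - s ^ 2) (sq_nonneg c)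
  linarith

/-- `besR c s` is nonincreasing in `c²`. -/
theorem besR_anti_left {c d s : ℝ} (hd : d ^ 2 ≤ 10) (hcd : c ^ 2 ≤ d ^ 2) (hs0 : 0 ≤ s)
    (hs1 : s ≤ 1) : besR d s ≤ besR c s := by
  rw [besR_eq, besR_eq]
  apply besP_zero_antitone (arg_mem (hcd.trans hd) hs0 hs1) (arg_mem hd hs0 hs1)
  have h1 : 0 ≤ 1 - s ^ 2 := by nlinarith
  have := mul_le_mul_of_nonneg_right hcd h1
  linarith

/-- A sign-change point of a monotone function. -/
theorem exists_sign_change {f : ℝ → ℝ} (hf : MonotoneOn f (Icc 0 1)) :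
    ∃ r ∈ Icc (0 : ℝ) 1, (∀ s ∈ Icc (0 : ℝ) 1, s < r → f s ≤ 0) ∧
      (∀ s ∈ Icc (0 : ℝ) 1, r < s → 0 ≤ f s) := by
  by_cases hne : ∃ s ∈ Icc (0 : ℝ) 1, f s ≤ 0
  · set T : Set ℝ := {s | s ∈ Icc (0 : ℝ) 1 ∧ f s ≤ 0} with hT
    have hTne : T.Nonempty := by
      obtain ⟨s, hs, hs'⟩ := hne
      exact ⟨s, hs, hs'⟩
    have hTb : BddAbove T := ⟨1, fun s hs => hs.1.2⟩
    refine ⟨sSup T, ⟨?_, ?_⟩, ?_, ?_⟩
    · obtain ⟨s, hs⟩ := hTne
      exact hs.1.1.trans (le_csSup hTb hs)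
    · exact csSup_le hTne (fun s hs => hs.1.2)
    · intro s hs hsr
      obtain ⟨t, ht, hst⟩ := exists_lt_of_lt_csSup hTne hsr
      exact (hf hs ht.1 hst.le).trans ht.2
    · intro s hs hrs
      by_contra hcon
      push Not at hcon
      exact absurd (le_csSup hTb ⟨hs, hcon.le⟩) (not_le.2 hrs)
  · push Not at hne
    refine ⟨0, ⟨le_refl _, zero_le_one⟩, ?_, ?_⟩
    · intro s hs h
      exact absurd hs.1 (not_le.2 h)
    · intro s hs _
      exact (hne s hs).le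

/-- If `f` changes sign from `-` to `+` at `r`, `w` is nondecreasing, then
`w r * ∫ f ≤ ∫ w f`. -/
theorem sign_change_integral {f w : ℝ → ℝ} {r : ℝ} (hr : r ∈ Icc (0 : ℝ) 1)
    (hf1 : ∀ s ∈ Icc (0 : ℝ) 1, s < r → f s ≤ 0) (hf2 : ∀ s ∈ Icc (0 : ℝ) 1, r < s → 0 ≤ f s)
    (hw : MonotoneOn w (Icc 0 1)) (hfi : IntervalIntegrable f volume 0 1)
    (hwi : IntervalIntegrable (fun s => w s * f s) volume 0 1) :
    w r * ∫ s in (0 : ℝ)..1, f s ≤ ∫ s in (0 : ℝ)..1, w s * f s := by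
  rw [← intervalIntegral.integral_const_mul]
  apply intervalIntegral.integral_mono_on zero_le_one (hfi.const_mul _) hwi
  intro s hs
  rcases lt_trichotomy s r with h | h | h
  · have h1 := hw hs hr h.le
    exact mul_le_mul_of_nonpos_right h1 (hf1 s hs h)
  · rw [h]
  · have h1 := hw hr hs h.le
    exact mul_le_mul_of_nonneg_right h1 (hf2 s hs h)

end Pool.Agent.Helper5.Bern
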