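import Pool.Agent.Helper5.Structure

set_option autoImplicit false

namespace Pool.Agent.Helper5

open Finset

/-- `a` has at most `s` primes in `Z a`, and at most `r` prime factors (with multiplicity)
outside `Z a`. -/
def st (Z : ℤ → Finset ℕ) (s r : ℕ) (a : ℤ) : Prop :=
  (Z a).card ≤ s ∧ ∑ p ∈ a.natAbs.primeFactors \ Z a, val p a ≤ r

lemma val_pos_of_mem {p : ℕ} {a : ℤ} (hp : p ∈ a.natAbs.primeFactors) : 1 ≤ val p a := by
  unfold val
  rw [Nat.mem_primeFactors] at hp
  exact (hp.1.dvd_iff_one_le_factorization hp.2.2).mp hp.2.1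

lemma st_card {Z : ℤ → Finset ℕ} {s r : ℕ} {a : ℤ} (h : st Z s r a) :
    a.natAbs.primeFactors.card ≤ s + r := by
  have h1 : (a.natAbs.primeFactors \ Z a).card ≤ r := by
    calc (a.natAbs.primeFactors \ Z a).card = ∑ _p ∈ a.natAbs.primeFactors \ Z a, 1 := by simp
      _ ≤ ∑ p ∈ a.natAbs.primeFactors \ Z a, val p a := by
          apply sum_le_sum
          intro p hp
          exact val_pos_of_mem (mem_sdiff.mp hp).1
      _ ≤ r := h.2
  have h2 : a.natAbs.primeFactors ⊆ Z a ∪ (a.natAbs.primeFactors \ Z a) := by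
    intro p hp
    by_cases hz : p ∈ Z a
    · exact mem_union_left _ hz
    · exact mem_union_right _ (mem_sdiff.mpr ⟨hp, hz⟩)
  have h3 := (card_le_card h2).trans (card_union_le _ _)
  have := h.1
  omega

lemma val_eq_zero_of_not_dvd {p : ℕ} {a : ℤ} (h : p ∉ a.natAbs.primeFactors) : val p a = 0 := by
  unfold val
  exact Finsupp.notMem_support_iff.mp (by rwa [Nat.support_factorization])

lemma sum_val_le {Z : ℤ → Finset ℕ} {s r : ℕ} {a : ℤ} (h : st Z s r a) (T : Finset ℕ)
    (hT : ∀ p ∈ T, p ∉ Z a) : ∑ p ∈ T, val p a ≤ r := by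
  classical
  refine le_trans ?_ h.2
  calc ∑ p ∈ T, val p a = ∑ p ∈ T ∩ a.natAbs.primeFactors, val p a := by
        symm
        apply sum_subset inter_subset_left
        intro p hp hp'
        apply val_eq_zero_of_not_dvd
        intro h; exact hp' (mem_inter.mpr ⟨hp, h⟩)
    _ ≤ _ := by
        apply sum_le_sum_of_subset
        intro p hp
        rw [mem_inter] at hp
        exact mem_sdiff.mpr ⟨hp.2, hT p hp.1⟩

lemma sign_mP {P : Finset ℕ} (hP : ∀ p ∈ P, p.Prime) {a : ℤ} (ha : a ≠ 0) :
    (mP P a < 0 ↔ a < 0) := by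
  have h := uP_mul_mP hP ha
  have hu : (0 : ℤ) < uP P a := by exact_mod_cast uP_pos hP a
  constructor
  · intro h1
    rw [← h]; exact mul_neg_of_pos_of_neg hu h1
  · intro h1
    rw [← h] at h1
    by_contra hcon
    push Not at hcon
    have := mul_nonneg hu.le hcon
    omega

lemma eq_of_val {a b : ℤ} (ha : a ≠ 0) (hb : b ≠ 0) (hs : a < 0 ↔ b < 0)
    (h : ∀ q : ℕ, q.Prime → val q a = val q b) : a = b := by
  have h1 : a.natAbs = b.natAbs := by
    apply Nat.eq_of_factorization_eq (Int.natAbs_ne_zero.mpr ha) (Int.natAbs_ne_zero.mpr hb)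
    intro q
    by_cases hq : q.Prime
    · exact h q hq
    · rw [Nat.factorization_eq_zero_of_not_prime _ hq, Nat.factorization_eq_zero_of_not_prime _ hq]
  omega

/-- bound for the number of representations of `x` as a product of a good pair -/
lemma card_prod_fibre_le {P : Finset ℕ} (hP : ∀ p ∈ P, p.Prime) {A D : Finset ℤ}
    (hA : (0 : ℤ) ∉ A) (hD : (0 : ℤ) ∉ D) {Z ZD : ℤ → Finset ℕ} {s r sD rD F : ℕ}
    (hZ : ∀ a ∈ A, st Z s r a) (hZD : ∀ d ∈ D, st ZD sD rD d)
    (hF : ∀ m, (A.filter (fun a => mP P a = m)).card ≤ F) (x : ℤ) (R : Finset (ℤ × ℤ))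
    (hR : ∀ e ∈ R, e.1 ∈ D ∧ e.2 ∈ A ∧ e.1 * e.2 = x ∧ ∀ p ∈ ZD e.1, p ∈ Z e.2 → p ∈ P) :
    R.card ≤ 2 * (2 ^ (s + r + sD + rD) * 2 ^ (s + r + sD + rD + (r + rD))) * F := by
  classical
  rcases R.eq_empty_or_nonempty with rfl | ⟨e₀, he₀⟩
  · simp
  have h1ne : ∀ e ∈ R, e.1 ≠ 0 := fun e he h => hD (h ▸ (hR e he).1)
  have h2ne : ∀ e ∈ R, e.2 ≠ 0 := fun e he h => hA (h ▸ (hR e he).2.1)
  have hx : x ≠ 0 := by
    rw [← (hR e₀ he₀).2.2.1]; exact mul_ne_zero (h1ne _ he₀) (h2ne _ he₀)
  set T := x.natAbs.primeFactors \ P with hT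
  have hTcard : T.card ≤ s + r + sD + rD := by
    have h1 := st_card (hZ _ (hR e₀ he₀).2.1)
    have h2 := st_card (hZD _ (hR e₀ he₀).1)
    have h3 : x.natAbs.primeFactors = e₀.1.natAbs.primeFactors ∪ e₀.2.natAbs.primeFactors := by
      rw [← (hR e₀ he₀).2.2.1, Int.natAbs_mul, Nat.primeFactors_mul
        (Int.natAbs_ne_zero.mpr (h1ne _ he₀)) (Int.natAbs_ne_zero.mpr (h2ne _ he₀))]
    have h4 : T.card ≤ x.natAbs.primeFactors.card := card_le_card sdiff_subset
    rw [h3] at h4
    have h5 := card_union_le e₀.1.natAbs.primeFactors e₀.2.natAbs.primeFactors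
    omega
  -- the code
  let f : ℤ × ℤ → (ℕ → ℕ) := fun e p =>
    if p ∈ T then (if p ∈ Z e.2 then val p e.1 else val p e.2) else 0
  let c : ℤ × ℤ → Bool × Finset ℕ × (ℕ → ℕ) := fun e =>
    (decide (e.2 < 0), T.filter (fun p => p ∈ Z e.2), f e)
  have hcodes : (R.image c).card ≤ 2 * (2 ^ (s + r + sD + rD) * 2 ^ (s + r + sD + rD + (r + rD))) := by
    have hsub : R.image c ⊆ (univ : Finset Bool) ×ˢ (T.powerset ×ˢ (R.image f)) := by
      intro z hz
      rw [mem_image] at hz
      obtain ⟨e, he, rfl⟩ := hz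
      simp only [c, mem_product, mem_univ, true_and, mem_powerset]
      exact ⟨filter_subset _ _, mem_image_of_mem _ he⟩
    refine (card_le_card hsub).trans ?_
    rw [card_product, card_product, card_powerset]
    simp only [card_univ, Fintype.card_bool]
    apply Nat.mul_le_mul_left
    apply Nat.mul_le_mul
    · exact Nat.pow_le_pow_right (by norm_num) hTcard
    · refine (card_fun_le T (r + rD) (R.image f) ?_).trans
        (Nat.pow_le_pow_right (by norm_num) (by omega))
      intro g hg
      rw [mem_image] at hg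
      obtain ⟨e, he, rfl⟩ := hg
      refine ⟨fun p hp => by simp [f, hp], ?_⟩
      have e1 : ∑ p ∈ T, f e p = ∑ p ∈ T.filter (fun p => p ∈ Z e.2), val p e.1 +
          ∑ p ∈ T.filter (fun p => ¬ p ∈ Z e.2), val p e.2 := by
        rw [← sum_filter_add_sum_filter_not T (fun p => p ∈ Z e.2)]
        congr 1
        · apply sum_congr rfl
          intro p hp
          rw [mem_filter] at hp
          simp [f, hp.1, hp.2]
        · apply sum_congr rfl
          intro p hp
          rw [mem_filter] at hp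
          simp [f, hp.1, hp.2]
      rw [e1]
      obtain ⟨hd, ha, _, hdis⟩ := hR e he
      have h1 : ∑ p ∈ T.filter (fun p => p ∈ Z e.2), val p e.1 ≤ rD := by
        apply sum_val_le (hZD _ hd)
        intro p hp hz
        rw [mem_filter, hT, mem_sdiff] at hp
        exact hp.1.2 (hdis p hz hp.2)
      have h2 : ∑ p ∈ T.filter (fun p => ¬ p ∈ Z e.2), val p e.2 ≤ r := by
        apply sum_val_le (hZ _ ha)
        intro p hp
        rw [mem_filter] at hp
        exact hp.2
      omega
  have hfib : ∀ z ∈ R.image c, (R.filter (fun e => c e = z)).card ≤ F := by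
    intro z hz
    rw [mem_image] at hz
    obtain ⟨e₁, he₁, rfl⟩ := hz
    -- all elements of the fibre have the same `mP P e.2`
    have hm : ∀ e ∈ R.filter (fun e => c e = c e₁), mP P e.2 = mP P e₁.2 := by
      intro e he
      rw [mem_filter] at he
      obtain ⟨heR, hce⟩ := he
      simp only [c, Prod.mk.injEq] at hce
      obtain ⟨hc1, hc2, hc3⟩ := hce
      have hc1' : e.2 < 0 ↔ e₁.2 < 0 := by simpa using hc1
      apply eq_of_val (mP_ne_zero hP (h2ne e heR)) (mP_ne_zero hP (h2ne e₁ he₁))
      · rw [sign_mP hP (h2ne e heR), sign_mP hP (h2ne e₁ he₁), hc1']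
      · intro q hq
        rw [val_mP hP (h2ne e heR), val_mP hP (h2ne e₁ he₁)]
        by_cases hqP : q ∈ P
        · simp [hqP]
        · rw [if_neg hqP, if_neg hqP]
          by_cases hqT : q ∈ T
          · have hE : q ∈ Z e.2 ↔ q ∈ Z e₁.2 := by
              have := congrArg (fun (W : Finset ℕ) => q ∈ W) hc2
              simpa [hqT] using this
            have hfq : f e q = f e₁ q := congrFun hc3 q
            by_cases hz : q ∈ Z e.2
            · have hz' := hE.mp hz
              simp only [f, if_pos hqT, if_pos hz, if_pos hz'] at hfq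
              have hv : val q e.1 + val q e.2 = val q x := by
                rw [← val_mul (h1ne e heR) (h2ne e heR), (hR e heR).2.2.1]
              have hv' : val q e₁.1 + val q e₁.2 = val q x := by
                rw [← val_mul (h1ne e₁ he₁) (h2ne e₁ he₁), (hR e₁ he₁).2.2.1]
              omega
            · have hz' : q ∉ Z e₁.2 := fun h => hz (hE.mpr h)
              simp only [f, if_pos hqT, if_neg hz, if_neg hz'] at hfq
              exact hfq
          · have hqx : q ∉ x.natAbs.primeFactors := fun h => hqT (mem_sdiff.mpr ⟨h, hqP⟩)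
            have hv : val q e.1 + val q e.2 = val q x := by
              rw [← val_mul (h1ne e heR) (h2ne e heR), (hR e heR).2.2.1]
            have hv' : val q e₁.1 + val q e₁.2 = val q x := by
              rw [← val_mul (h1ne e₁ he₁) (h2ne e₁ he₁), (hR e₁ he₁).2.2.1]
            have h0 := val_eq_zero_of_not_dvd hqx
            omega
    have hinj : Set.InjOn (fun e : ℤ × ℤ => e.2) (R.filter (fun e => c e = c e₁) : Finset (ℤ × ℤ)) := by
      intro e he e' he' h
      rw [mem_coe, mem_filter] at he he'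
      have h1 := (hR e he.1).2.2.1
      have h2 := (hR e' he'.1).2.2.1
      simp only at h
      rw [← h] at h2
      have h3 : e.1 = e'.1 := mul_right_cancel₀ (h2ne e he.1) (h1.trans h2.symm)
      exact Prod.ext h3 h
    rw [← card_image_of_injOn hinj]
    refine (card_le_card ?_).trans (hF (mP P e₁.2))
    intro a ha
    rw [mem_image] at ha
    obtain ⟨e, he, rfl⟩ := ha
    rw [mem_filter]
    exact ⟨(hR e (mem_filter.mp he).1).2.1, hm e he⟩
  calc R.card ≤ F * (R.image c).card := card_le_mul_card_image R F hfib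
    _ ≤ F * (2 * (2 ^ (s + r + sD + rD) * 2 ^ (s + r + sD + rD + (r + rD)))) :=
        Nat.mul_le_mul_left _ hcodes
    _ = _ := by ring

/-- **Product step** -/
theorem prod_step {P : Finset ℕ} (hP : ∀ p ∈ P, p.Prime) {A D : Finset ℤ}
    (hA : (0 : ℤ) ∉ A) (hD : (0 : ℤ) ∉ D) {Z ZD : ℤ → Finset ℕ} {s r sD rD F H : ℕ}
    (hZ : ∀ a ∈ A, st Z s r a) (hZD : ∀ d ∈ D, st ZD sD rD d)
    (hF : ∀ m, (A.filter (fun a => mP P a = m)).card ≤ F)
    (hH : ∀ p, p ∉ P → H * (A.filter (fun a => p ∈ Z a)).card ≤ 2 * A.card)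
    (hHs : 4 * sD ≤ H) :
    D.card * A.card ≤
      2 * (2 * (2 ^ (s + r + sD + rD) * 2 ^ (s + r + sD + rD + (r + rD))) * F) *
        (image₂ (· * ·) D A).card := by
  classical
  let g : ℤ × ℤ → Prop := fun e => ∀ p ∈ ZD e.1, p ∈ Z e.2 → p ∈ P
  let G := (D ×ˢ A).filter g
  have hG : D.card * A.card ≤ 2 * G.card := by
    have h1 : ∀ d ∈ D, A.card ≤ 2 * (A.filter (fun a => g (d, a))).card := by
      intro d hd
      have hsplit := Finset.card_filter_add_card_filter_not (s := A) (fun a => g (d, a))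
      set b := (A.filter (fun a => ¬ g (d, a))).card with hb
      have hbs : b ≤ ∑ p ∈ ZD d \ P, (A.filter (fun a => p ∈ Z a)).card := by
        refine le_trans (card_le_card ?_) card_biUnion_le
        intro a ha
        rw [mem_filter] at ha
        obtain ⟨haA, hg⟩ := ha
        simp only [g] at hg
        push Not at hg
        obtain ⟨p, hp1, hp2, hp3⟩ := hg
        rw [mem_biUnion]
        exact ⟨p, mem_sdiff.mpr ⟨hp1, hp3⟩, mem_filter.mpr ⟨haA, hp2⟩⟩
      have h2 : H * b ≤ sD * (2 * A.card) := by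
        calc H * b ≤ H * ∑ p ∈ ZD d \ P, (A.filter (fun a => p ∈ Z a)).card :=
              Nat.mul_le_mul_left _ hbs
          _ = ∑ p ∈ ZD d \ P, H * (A.filter (fun a => p ∈ Z a)).card := by rw [mul_sum]
          _ ≤ ∑ _p ∈ ZD d \ P, 2 * A.card := by
              apply sum_le_sum
              intro p hp
              exact hH p (mem_sdiff.mp hp).2
          _ = (ZD d \ P).card * (2 * A.card) := by rw [sum_const, smul_eq_mul]
          _ ≤ sD * (2 * A.card) := by
              apply Nat.mul_le_mul_right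
              exact (card_le_card sdiff_subset).trans (hZD d hd).1
      have h3 : 2 * b ≤ A.card := by
        rcases Nat.eq_zero_or_pos sD with h0 | h0
        · have : (ZD d \ P) = ∅ := by
            have := (card_le_card (sdiff_subset (s := ZD d) (t := P))).trans (hZD d hd).1
            exact card_eq_zero.mp (by omega)
          rw [this] at hbs
          simp only [sum_empty] at hbs
          omega
        · have : sD * (2 * (2 * b)) ≤ sD * (2 * A.card) := by
            calc sD * (2 * (2 * b)) = 4 * sD * b := by ring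
              _ ≤ H * b := Nat.mul_le_mul_right _ hHs
              _ ≤ _ := h2
          have := Nat.le_of_mul_le_mul_left this h0
          omega
      omega
    have h2 : G.card = ∑ d ∈ D, (A.filter (fun a => g (d, a))).card := by
      show ((D ×ˢ A).filter g).card = _
      rw [card_filter, sum_product]
      apply sum_congr rfl
      intro d _
      rw [card_filter]
    rw [h2, mul_sum]
    calc D.card * A.card = ∑ _d ∈ D, A.card := by rw [sum_const, smul_eq_mul]
      _ ≤ _ := sum_le_sum h1
  set B := 2 * (2 ^ (s + r + sD + rD) * 2 ^ (s + r + sD + rD + (r + rD))) * F with hB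
  have hfib : ∀ x ∈ G.image (fun e => e.1 * e.2), (G.filter (fun e => e.1 * e.2 = x)).card ≤ B := by
    intro x _
    apply card_prod_fibre_le hP hA hD hZ hZD hF x
    intro e he
    rw [mem_filter, mem_filter, mem_product] at he
    exact ⟨he.1.1.1, he.1.1.2, he.2, he.1.2⟩
  have h3 := card_le_mul_card_image G B hfib
  have h4 : (G.image (fun e => e.1 * e.2)).card ≤ (image₂ (· * ·) D A).card := by
    apply card_le_card
    intro S hS
    rw [mem_image] at hS
    obtain ⟨e, he, rfl⟩ := hS
    rw [mem_filter, mem_product] at he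
    exact mem_image₂_of_mem he.1.1 he.1.2
  calc D.card * A.card ≤ 2 * G.card := hG
    _ ≤ 2 * (B * (G.image (fun e => e.1 * e.2)).card) := Nat.mul_le_mul_left _ h3
    _ ≤ 2 * (B * (image₂ (· * ·) D A).card) :=
        Nat.mul_le_mul_left _ (Nat.mul_le_mul_left _ h4)
    _ = _ := by ring

end Pool.Agent.Helper5
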