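import Mathlib
import Pool.Agent.Helper39.Rot.Defs

/-!
Infinite composition of near-identity analytic circle diffeomorphisms (MP_707bda_al, ROT-C).
-/

namespace Pool.Agent.Helper5.RotC

open Pool.Agent.Helper39.Rot Filter Topology Complex

/-- The open strip `|Im z| < ρ`. -/
def strip (ρ : ℝ) : Set ℂ := {z | |z.im| < ρ}

theorem strip_open (ρ : ℝ) : IsOpen (strip ρ) :=
  isOpen_lt (continuous_abs.comp Complex.continuous_im) continuous_const

theorem strip_convex (ρ : ℝ) : Convex ℝ (strip ρ) := by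
  have : strip ρ = Complex.imLm ⁻¹' (Set.Ioo (-ρ) ρ) := by
    ext z
    simp [strip, abs_lt]
  rw [this]
  exact (convex_Ioo _ _).linear_preimage _

theorem strip_mono {a b : ℝ} (h : a ≤ b) : strip a ⊆ strip b := fun _ hz => lt_of_lt_of_le hz h

theorem real_mem_strip {ρ : ℝ} (h : 0 < ρ) (x : ℝ) : (x : ℂ) ∈ strip ρ := by
  simp [strip, h]

theorem add_mem_strip {ρ δ : ℝ} {z w : ℂ} (hz : z ∈ strip ρ) (h : ‖w - z‖ ≤ δ) :
    w ∈ strip (ρ + δ) := by
  have h1 : |w.im - z.im| ≤ ‖w - z‖ := by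
    rw [← Complex.sub_im]; exact Complex.abs_im_le_norm _
  have h2 : |w.im| ≤ |z.im| + |w.im - z.im| := by
    have := abs_add_le z.im (w.im - z.im)
    simpa using this
  have h3 : |z.im| < ρ := hz
  show |w.im| < ρ + δ
  linarith

/-- Complex compositions. -/
def cc (Y : ℕ → ℂ → ℂ) : ℕ → ℂ → ℂ
  | 0 => id
  | (K + 1) => cc Y K ∘ Y K

/-- The standing hypotheses. -/
structure Hyp (Y : ℕ → ℂ → ℂ) : Prop where
  hd : ∀ k, DifferentiableOn ℂ (Y k) (strip 2)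
  h1 : ∀ k z, z ∈ strip 2 → ‖Y k z - z‖ ≤ (1 / 2 : ℝ) ^ (k + 3)
  h2 : ∀ k z, z ∈ strip 2 → ‖deriv (Y k) z - 1‖ ≤ (1 / 2 : ℝ) ^ (k + 3)

variable {Y : ℕ → ℂ → ℂ}

theorem Hyp.shift (H : Hyp Y) (K : ℕ) : Hyp fun j => Y (K + j) where
  hd k := H.hd _
  h1 k z hz := (H.h1 _ z hz).trans
    (pow_le_pow_of_le_one (by norm_num) (by norm_num) (by omega))
  h2 k z hz := (H.h2 _ z hz).trans
    (pow_le_pow_of_le_one (by norm_num) (by norm_num) (by omega))

theorem Hyp.lip (H : Hyp Y) (k : ℕ) {z w : ℂ} (hz : z ∈ strip 2) (hw : w ∈ strip 2) :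
    ‖(Y k w - w) - (Y k z - z)‖ ≤ (1 / 2 : ℝ) ^ (k + 3) * ‖w - z‖ := by
  have hdz : ∀ x ∈ strip 2, DifferentiableAt ℂ (Y k) x := fun x hx =>
    (H.hd k).differentiableAt ((strip_open 2).mem_nhds hx)
  refine Convex.norm_image_sub_le_of_norm_deriv_le (f := fun z => Y k z - z)
    (fun x hx => (hdz x hx).sub differentiableAt_fun_id) ?_ (strip_convex 2) hz hw
  intro x hx
  have : deriv (fun z => Y k z - z) x = deriv (Y k) x - 1 := by
    have h := ((hdz x hx).hasDerivAt.sub (hasDerivAt_id x)).deriv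
    exact h
  rw [this]
  exact H.h2 k x hx

theorem Hyp.lip' (H : Hyp Y) (k : ℕ) {z w : ℂ} (hz : z ∈ strip 2) (hw : w ∈ strip 2) :
    ‖Y k w - Y k z‖ ≤ (1 + (1 / 2 : ℝ) ^ (k + 3)) * ‖w - z‖ := by
  have h := H.lip k hz hw
  have : Y k w - Y k z = ((Y k w - w) - (Y k z - z)) + (w - z) := by ring
  rw [this]
  refine (norm_add_le _ _).trans ?_
  linarith

/-- Widths of the strips. -/
noncomputable def rho (K : ℕ) : ℝ := 3 / 2 + (1 / 2 : ℝ) ^ (K + 2)

theorem rho_succ (K : ℕ) : rho (K + 1) + (1 / 2 : ℝ) ^ (K + 3) = rho K := by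
  unfold rho; ring

theorem rho_le (K : ℕ) : rho K ≤ 2 := by
  unfold rho
  have : (1 / 2 : ℝ) ^ (K + 2) ≤ (1 / 2 : ℝ) ^ 2 :=
    pow_le_pow_of_le_one (by norm_num) (by norm_num) (by omega)
  norm_num at this ⊢
  linarith

theorem rho_ge (K : ℕ) : 3 / 2 ≤ rho K := by
  unfold rho
  have : (0 : ℝ) ≤ (1 / 2 : ℝ) ^ (K + 2) := by positivity
  linarith

theorem Hyp.maps (H : Hyp Y) (K : ℕ) {z : ℂ} (hz : z ∈ strip (rho (K + 1))) :
    Y K z ∈ strip (rho K) := by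
  rw [← rho_succ K]
  exact add_mem_strip hz (H.h1 K z (strip_mono (rho_le _) hz))

theorem Hyp.main (H : Hyp Y) (K : ℕ) :
    DifferentiableOn ℂ (cc Y K) (strip (rho K)) ∧
    ∀ z ∈ strip (rho K), ∀ w ∈ strip (rho K),
      ‖cc Y K w - cc Y K z‖ ≤ (2 - (1 / 2 : ℝ) ^ K) * ‖w - z‖ := by
  induction K with
  | zero =>
    refine ⟨differentiableOn_id, fun z _ w _ => ?_⟩
    simp only [cc, id]
    norm_num
  | succ K ih =>
    have hsub : strip (rho (K + 1)) ⊆ strip 2 := strip_mono (rho_le _)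
    refine ⟨ih.1.comp ((H.hd K).mono hsub) fun z hz => H.maps K hz, fun z hz w hw => ?_⟩
    have h1 := ih.2 _ (H.maps K hz) _ (H.maps K hw)
    have h2 := H.lip' K (hsub hz) (hsub hw)
    show ‖cc Y K (Y K w) - cc Y K (Y K z)‖ ≤ _
    have hp : (0 : ℝ) ≤ (1 / 2 : ℝ) ^ K := by positivity
    have hp1 : (1 / 2 : ℝ) ^ K ≤ 1 := pow_le_one₀ (by norm_num) (by norm_num)
    have h3 : (2 - (1 / 2 : ℝ) ^ K) * (1 + (1 / 2 : ℝ) ^ (K + 3)) ≤ 2 - (1 / 2 : ℝ) ^ (K + 1) := by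
      have e1 : (1 / 2 : ℝ) ^ (K + 3) = (1 / 2 : ℝ) ^ K * (1 / 8) := by ring
      have e2 : (1 / 2 : ℝ) ^ (K + 1) = (1 / 2 : ℝ) ^ K * (1 / 2) := by ring
      rw [e1, e2]
      nlinarith
    calc ‖cc Y K (Y K w) - cc Y K (Y K z)‖ ≤ (2 - (1 / 2 : ℝ) ^ K) * ‖Y K w - Y K z‖ := h1
      _ ≤ (2 - (1 / 2 : ℝ) ^ K) * ((1 + (1 / 2 : ℝ) ^ (K + 3)) * ‖w - z‖) :=
          mul_le_mul_of_nonneg_left h2 (by linarith)
      _ = ((2 - (1 / 2 : ℝ) ^ K) * (1 + (1 / 2 : ℝ) ^ (K + 3))) * ‖w - z‖ := by ring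
      _ ≤ _ := mul_le_mul_of_nonneg_right h3 (norm_nonneg _)

theorem Hyp.step (H : Hyp Y) {z : ℂ} (hz : z ∈ strip (3 / 2)) (K : ℕ) :
    dist (cc Y K z) (cc Y (K + 1) z) ≤ (1 / 4 : ℝ) * (1 / 2 : ℝ) ^ K := by
  have hz1 : z ∈ strip (rho (K + 1)) := strip_mono (rho_ge _) hz
  have hz0 : z ∈ strip (rho K) := strip_mono (rho_ge _) hz
  have h1 := (H.main K).2 _ hz0 _ (H.maps K hz1)
  have h2 := H.h1 K z (strip_mono (rho_le K) hz0)
  rw [dist_comm, dist_eq_norm]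
  show ‖cc Y K (Y K z) - cc Y K z‖ ≤ _
  have hp : (0 : ℝ) ≤ (1 / 2 : ℝ) ^ K := by positivity
  calc ‖cc Y K (Y K z) - cc Y K z‖ ≤ (2 - (1 / 2 : ℝ) ^ K) * ‖Y K z - z‖ := h1
    _ ≤ 2 * (1 / 2 : ℝ) ^ (K + 3) := by
      refine mul_le_mul ?_ h2 (norm_nonneg _) (by norm_num)
      linarith
    _ = _ := by ring

theorem Hyp.exists_lim (H : Hyp Y) : ∃ G : ℂ → ℂ,
    (∀ z ∈ strip (3 / 2), Tendsto (fun K => cc Y K z) atTop (𝓝 (G z))) ∧
    DifferentiableOn ℂ G (strip (3 / 2)) := by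
  have h : ∀ z ∈ strip (3 / 2), ∃ g, Tendsto (fun K => cc Y K z) atTop (𝓝 g) := fun z hz =>
    cauchySeq_tendsto_of_complete
      (cauchySeq_of_le_geometric (1 / 2 : ℝ) (1 / 4 : ℝ) (by norm_num) (H.step hz))
  choose! G hG using h
  refine ⟨G, hG, ?_⟩
  have hunif : TendstoUniformlyOn (fun K z => cc Y K z) G atTop (strip (3 / 2)) := by
    rw [Metric.tendstoUniformlyOn_iff]
    intro ε hε
    have hlim : Tendsto (fun n : ℕ => (1 / 4 : ℝ) * (1 / 2 : ℝ) ^ n / (1 - 1 / 2)) atTop (𝓝 0) := by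
      have := (tendsto_pow_atTop_nhds_zero_of_lt_one (r := (1 / 2 : ℝ)) (by norm_num)
        (by norm_num)).const_mul (1 / 4 : ℝ)
      have := this.div_const (1 - 1 / 2 : ℝ)
      simpa using this
    filter_upwards [hlim.eventually (gt_mem_nhds hε)] with n hn z hz
    rw [dist_comm]
    exact (dist_le_of_le_geometric_of_tendsto (1 / 2 : ℝ) (1 / 4 : ℝ) (by norm_num) (H.step hz)
      (hG z hz) n).trans_lt hn
  refine hunif.tendstoLocallyUniformlyOn.differentiableOn ?_ (strip_open _)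
  exact Eventually.of_forall fun K => (H.main K).1.mono (strip_mono (rho_ge _))

/-! ### Real side -/

variable {y : ℕ → ℝ → ℝ}

theorem cc_real (hr : ∀ k (x : ℝ), Y k x = (y k x : ℂ)) (K : ℕ) (x : ℝ) :
    cc Y K x = (compUpTo y K x : ℂ) := by
  induction K generalizing x with
  | zero => rfl
  | succ K ih =>
    show cc Y K (Y K x) = (compUpTo y K (y K x) : ℂ)
    rw [hr, ih]

theorem y_diff (H : Hyp Y) (hr : ∀ k (x : ℝ), Y k x = (y k x : ℂ)) (k : ℕ) (x x' : ℝ) :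
    |(y k x' - x') - (y k x - x)| ≤ (1 / 2 : ℝ) ^ (k + 3) * |x' - x| := by
  have h := H.lip k (real_mem_strip two_pos x) (real_mem_strip two_pos x')
  rw [hr, hr] at h
  have e1 : ((y k x' : ℂ) - x') - ((y k x : ℂ) - x) = (((y k x' - x') - (y k x - x) : ℝ) : ℂ) := by
    push_cast; ring
  have e2 : (x' : ℂ) - x = ((x' - x : ℝ) : ℂ) := by push_cast; ring
  rw [e1, e2, Complex.norm_real, Complex.norm_real, Real.norm_eq_abs, Real.norm_eq_abs] at h
  exact h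

theorem y_cont (H : Hyp Y) (hr : ∀ k (x : ℝ), Y k x = (y k x : ℂ)) (k : ℕ) :
    Continuous (y k) := by
  have : LipschitzWith 2 (y k) := by
    refine LipschitzWith.of_dist_le_mul fun x x' => ?_
    have h := y_diff H hr k x' x
    have hp1 : (1 / 2 : ℝ) ^ (k + 3) ≤ 1 := pow_le_one₀ (by norm_num) (by norm_num)
    rw [Real.dist_eq, Real.dist_eq]
    have h1 : |y k x - y k x'| ≤ |(y k x - x) - (y k x' - x')| + |x - x'| := by
      have := abs_add_le ((y k x - x) - (y k x' - x')) (x - x')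
      have e : (y k x - x) - (y k x' - x') + (x - x') = y k x - y k x' := by ring
      rwa [e] at this
    have h2 : (1 / 2 : ℝ) ^ (k + 3) * |x - x'| ≤ 1 * |x - x'| :=
      mul_le_mul_of_nonneg_right hp1 (abs_nonneg _)
    simp only [NNReal.coe_ofNat]
    linarith
  exact this.continuous

theorem comp_cont (H : Hyp Y) (hr : ∀ k (x : ℝ), Y k x = (y k x : ℂ)) (K : ℕ) :
    Continuous (compUpTo y K) := by
  induction K with
  | zero => exact continuous_id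
  | succ K ih => exact ih.comp (y_cont H hr K)

theorem comp_expand (H : Hyp Y) (hr : ∀ k (x : ℝ), Y k x = (y k x : ℂ)) (K : ℕ) {x x' : ℝ}
    (hx : x ≤ x') :
    (1 / 2 + (1 / 2 : ℝ) ^ (K + 1)) * (x' - x) ≤ compUpTo y K x' - compUpTo y K x := by
  induction K generalizing x x' with
  | zero => simp only [compUpTo, id]; norm_num
  | succ K ih =>
    show _ ≤ compUpTo y K (y K x') - compUpTo y K (y K x)
    have h := y_diff H hr K x x'
    rw [abs_of_nonneg (sub_nonneg.2 hx)] at h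
    have h1 := (abs_le.1 h).1
    have hp : (0 : ℝ) ≤ (1 / 2 : ℝ) ^ K := by positivity
    have hp1 : (1 / 2 : ℝ) ^ K ≤ 1 := pow_le_one₀ (by norm_num) (by norm_num)
    have hq : (1 / 2 : ℝ) ^ (K + 3) = (1 / 2 : ℝ) ^ K * (1 / 8) := by ring
    have hq1 : (1 / 2 : ℝ) ^ (K + 1) = (1 / 2 : ℝ) ^ K * (1 / 2) := by ring
    have hq2 : (1 / 2 : ℝ) ^ (K + 1 + 1) = (1 / 2 : ℝ) ^ K * (1 / 4) := by ring
    have h2 : (1 - (1 / 2 : ℝ) ^ (K + 3)) * (x' - x) ≤ y K x' - y K x := by linarith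
    have hnn : 0 ≤ x' - x := sub_nonneg.2 hx
    have h3 : y K x ≤ y K x' := by
      have : 0 ≤ (1 - (1 / 2 : ℝ) ^ (K + 3)) * (x' - x) :=
        mul_nonneg (by rw [hq]; linarith) hnn
      linarith
    refine le_trans ?_ (ih h3)
    have h4 : (1 / 2 + (1 / 2 : ℝ) ^ (K + 1)) * ((1 - (1 / 2 : ℝ) ^ (K + 3)) * (x' - x)) ≤
        (1 / 2 + (1 / 2 : ℝ) ^ (K + 1)) * (y K x' - y K x) :=
      mul_le_mul_of_nonneg_left h2 (by positivity)
    refine le_trans ?_ h4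
    rw [← mul_assoc]
    refine mul_le_mul_of_nonneg_right ?_ hnn
    rw [hq, hq1, hq2]
    nlinarith

theorem core (H : Hyp Y) (hr : ∀ k (x : ℝ), Y k x = (y k x : ℂ)) :
    ∃ f : ℝ → ℝ, (∀ x, AnalyticAt ℝ f x) ∧ (∀ x, 0 < deriv f x) ∧
      ∀ x, Tendsto (fun K => compUpTo y K x) atTop (𝓝 (f x)) := by
  obtain ⟨G, hG, hGd⟩ := H.exists_lim
  have hmem : ∀ x : ℝ, (x : ℂ) ∈ strip (3 / 2) := real_mem_strip (by norm_num)
  have hlim : ∀ x : ℝ, Tendsto (fun K => compUpTo y K x) atTop (𝓝 (G x).re) := by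
    intro x
    have h := (Complex.continuous_re.tendsto _).comp (hG x (hmem x))
    refine h.congr fun K => ?_
    simp only [Function.comp]
    rw [cc_real hr, Complex.ofReal_re]
  have han : ∀ x : ℝ, AnalyticAt ℝ (fun x : ℝ => (G x).re) x := fun x =>
    (hGd.analyticAt ((strip_open _).mem_nhds (hmem x))).re_ofReal
  refine ⟨fun x => (G x).re, han, fun x => ?_, hlim⟩
  have hexp : ∀ x x' : ℝ, x ≤ x' → 1 / 2 * (x' - x) ≤ (G x').re - (G x).re := by
    intro x x' hx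
    refine ge_of_tendsto ((hlim x').sub (hlim x)) (Eventually.of_forall fun K => ?_)
    refine le_trans ?_ (comp_expand H hr K hx)
    refine mul_le_mul_of_nonneg_right ?_ (sub_nonneg.2 hx)
    have : (0 : ℝ) ≤ (1 / 2 : ℝ) ^ (K + 1) := by positivity
    linarith
  have hder := (han x).differentiableAt.hasDerivAt
  rw [hasDerivAt_iff_tendsto_slope] at hder
  have hle : 1 / 2 ≤ deriv (fun x : ℝ => (G x).re) x := by
    refine ge_of_tendsto hder ?_
    filter_upwards [self_mem_nhdsWithin] with x' hx'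
    rw [slope_def_field]
    rcases lt_or_gt_of_ne (show x' ≠ x from hx') with h | h
    · have h5 := hexp x' x h.le
      have h6 : ((G x').re - (G x).re) / (x' - x) = ((G x).re - (G x').re) / (x - x') := by
        rw [← neg_div_neg_eq, neg_sub, neg_sub]
      rw [h6, le_div_iff₀ (by linarith)]
      exact h5
    · rw [le_div_iff₀ (by linarith)]
      exact hexp x x' h.le
  linarith

theorem compUpTo_add (y : ℕ → ℝ → ℝ) (K M : ℕ) (x : ℝ) :
    compUpTo y (K + M) x = compUpTo y K (compUpTo (fun j => y (K + j)) M x) := by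
  induction M generalizing x with
  | zero => rfl
  | succ M ih =>
    show compUpTo y (K + M) (y (K + M) x) = _
    rw [ih]
    rfl

theorem compUpTo_trans (y : ℕ → ℝ → ℝ) (τ : ℝ) (h : ∀ j x, y j (x + τ) = y j x + τ) (K : ℕ)
    (x : ℝ) : compUpTo y K (x + τ) = compUpTo y K x + τ := by
  induction K generalizing x with
  | zero => rfl
  | succ K ih =>
    show compUpTo y K (y K (x + τ)) = compUpTo y K (y K x) + τ
    rw [h, ih]

/-- module C -/
theorem inf_comp (Y : ℕ → ℂ → ℂ) (y : ℕ → ℝ → ℝ)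
    (hd : ∀ k, DifferentiableOn ℂ (Y k) {z | |z.im| < 2})
    (h1 : ∀ k z, |z.im| < 2 → ‖Y k z - z‖ ≤ (1 / 2 : ℝ) ^ (k + 3))
    (h2 : ∀ k z, |z.im| < 2 → ‖deriv (Y k) z - 1‖ ≤ (1 / 2 : ℝ) ^ (k + 3))
    (hr : ∀ k (x : ℝ), Y k x = (y k x : ℂ))
    (hp : ∀ k x, y k (x + 1) = y k x + 1) :
    ∃ f : ℝ → ℝ, (∀ x, AnalyticAt ℝ f x) ∧ (∀ x, 0 < deriv f x) ∧ (∀ x, f (x + 1) = f x + 1) ∧
      ∀ K, ∃ h : ℝ → ℝ, (∀ x, f x = compUpTo y K (h x)) ∧
        ∀ τ : ℝ, (∀ j, K ≤ j → ∀ x, y j (x + τ) = y j x + τ) → ∀ x, h (x + τ) = h x + τ := by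
  have H : Hyp Y := ⟨hd, h1, h2⟩
  obtain ⟨f, hf1, hf2, hf3⟩ := core H hr
  refine ⟨f, hf1, hf2, fun x => ?_, fun K => ?_⟩
  · refine tendsto_nhds_unique (hf3 (x + 1)) (((hf3 x).add_const 1).congr fun K => ?_)
    rw [compUpTo_trans y 1 hp]
  · obtain ⟨h, -, -, hh3⟩ := core (H.shift K) (y := fun j => y (K + j)) (fun k x => hr _ x)
    refine ⟨h, fun x => ?_, fun τ hτ x => ?_⟩
    · have e1 : Tendsto (fun M => compUpTo y (K + M) x) atTop (𝓝 (f x)) :=
        (hf3 x).comp (tendsto_add_atTop_nat K |>.congr fun n => by omega)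
      have e2 := ((comp_cont H hr K).tendsto (h x)).comp (hh3 x)
      exact tendsto_nhds_unique e1 (e2.congr fun M => (compUpTo_add y K M x).symm)
    · refine tendsto_nhds_unique (hh3 (x + τ)) (((hh3 x).add_const τ).congr fun M => ?_)
      rw [compUpTo_trans (fun j => y (K + j)) τ fun j x => hτ _ (by omega) x]

end Pool.Agent.Helper5.RotC
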