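import Pool.Agent.Helper5.SumMain

set_option autoImplicit false

namespace Pool.Agent.Helper5

open Finset

lemma uP_erase {P : Finset ℕ} {p : ℕ} (hp : p ∈ P) (a : ℤ) :
    uP P a = p ^ val p a * uP (P.erase p) a := by
  unfold uP
  rw [← mul_prod_erase P _ hp]

lemma mP_erase {P : Finset ℕ} (hP : ∀ p ∈ P, p.Prime) {p : ℕ} (hp : p ∈ P) {a : ℤ} (ha : a ≠ 0) :
    mP (P.erase p) a = (p : ℤ) ^ val p a * mP P a := by
  have hP' : ∀ q ∈ P.erase p, q.Prime := fun q hq => hP q (mem_of_mem_erase hq)
  have h1 := uP_mul_mP hP ha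
  have h2 := uP_mul_mP hP' ha
  have h3 : (uP (P.erase p) a : ℤ) ≠ 0 := by exact_mod_cast (uP_pos hP' a).ne'
  apply mul_left_cancel₀ h3
  rw [h2]
  rw [uP_erase hp] at h1
  push_cast at h1
  linarith

/-- **Popular fixing**: pass to a large subset on which, for all primes in a subset `P'`, the
valuations are spread on the fibres; the number of `P'`-free parts does not grow. -/
theorem popular (Q : ℕ) : ∀ (n : ℕ) (P : Finset ℕ), P.card = n → (∀ p ∈ P, p.Prime) →
    ∀ A : Finset ℤ, (0 : ℤ) ∉ A → ∃ P' ⊆ P, ∃ A' ⊆ A,
      A.card ≤ A'.card * Q ^ (P.card - P'.card) ∧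
      (A'.image (mP P')).card ≤ (A.image (mP P)).card ∧
      ∀ p ∈ P', ∀ φ : ℤ → ℕ,
        Q * (A'.filter (fun a => val p a = φ (mP P' a))).card ≤ A'.card := by
  intro n
  induction n with
  | zero =>
    intro P hPn hP A hA
    have hP0 : P = ∅ := card_eq_zero.mp hPn
    subst hP0
    exact ⟨∅, subset_refl _, A, subset_refl _, by simp, le_refl _, by simp⟩
  | succ n ih =>
    intro P hPn hP A hA
    classical
    by_cases hall : ∀ p ∈ P, ∀ φ : ℤ → ℕ,
        Q * (A.filter (fun a => val p a = φ (mP P a))).card ≤ A.card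
    · exact ⟨P, subset_refl _, A, subset_refl _, by simp, le_refl _, hall⟩
    · push Not at hall
      obtain ⟨p, hp, φ, hφ⟩ := hall
      set A₁ := A.filter (fun a => val p a = φ (mP P a)) with hA₁
      have hcard : (P.erase p).card = n := by rw [card_erase_of_mem hp, hPn]; rfl
      obtain ⟨P', hP', A', hA', h1, h2, h3⟩ := ih (P.erase p) hcard
        (fun q hq => hP q (mem_of_mem_erase hq)) A₁ (fun h => hA (mem_filter.mp h).1)
      refine ⟨P', hP'.trans (erase_subset _ _), A', hA'.trans (filter_subset _ _), ?_, ?_, h3⟩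
      · have hle : P'.card ≤ n := by rw [← hcard]; exact card_le_card hP'
        have e : P.card - P'.card = ((P.erase p).card - P'.card) + 1 := by omega
        rw [e, pow_succ]
        calc A.card ≤ Q * A₁.card := hφ.le
          _ ≤ Q * (A'.card * Q ^ ((P.erase p).card - P'.card)) := Nat.mul_le_mul_left _ h1
          _ = _ := by ring
      · refine h2.trans ?_
        have hsub : A₁.image (mP (P.erase p)) ⊆
            (A.image (mP P)).image (fun m => (p : ℤ) ^ φ m * m) := by
          intro x hx
          rw [mem_image] at hx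
          obtain ⟨a, ha, rfl⟩ := hx
          rw [hA₁, mem_filter] at ha
          have ha0 : a ≠ 0 := fun h => hA (h ▸ ha.1)
          rw [mem_image]
          refine ⟨mP P a, mem_image_of_mem _ ha.1, ?_⟩
          rw [mP_erase hP hp ha0, ha.2]
        exact (card_le_card hsub).trans card_image_le

/-- **Kernel**: a set of primes `P` contained in `Z a` for many `a`, all other primes being
rare. -/
theorem kernel (A : Finset ℤ) (Z : ℤ → Finset ℕ) (H : ℕ) :
    ∃ P : Finset ℕ, A.card ≤ H ^ P.card * (A.filter (fun a => P ⊆ Z a)).card ∧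
      ∀ p, p ∉ P → H * ((A.filter (fun a => P ⊆ Z a)).filter (fun a => p ∈ Z a)).card ≤
        (A.filter (fun a => P ⊆ Z a)).card := by
  classical
  rcases A.eq_empty_or_nonempty with rfl | hA
  · exact ⟨∅, by simp, by simp⟩
  let U := A.biUnion Z
  let Fam := U.powerset.filter
    (fun P => A.card ≤ H ^ P.card * (A.filter (fun a => P ⊆ Z a)).card)
  have hne : Fam.Nonempty := by
    refine ⟨∅, ?_⟩
    simp [Fam]
  obtain ⟨P, hP, hmax⟩ := exists_max_image Fam Finset.card hne
  rw [mem_filter, mem_powerset] at hP
  refine ⟨P, hP.2, ?_⟩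
  intro p hp
  by_contra hcon
  push Not at hcon
  set A₀ := A.filter (fun a => P ⊆ Z a) with hA₀
  set A₁ := A₀.filter (fun a => p ∈ Z a) with hA₁
  have hA₁eq : A₁ = A.filter (fun a => insert p P ⊆ Z a) := by
    ext a
    simp only [hA₁, hA₀, mem_filter, insert_subset_iff]
    tauto
  have hA₁ne : A₁.Nonempty := by
    rw [← card_pos]
    rcases Nat.eq_zero_or_pos A₁.card with h | h
    · rw [h] at hcon; simp at hcon
    · exact h
  obtain ⟨a, ha⟩ := hA₁ne
  have ha' := ha
  rw [hA₁eq, mem_filter] at ha'
  have hmem : insert p P ∈ Fam := by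
    rw [mem_filter, mem_powerset]
    refine ⟨?_, ?_⟩
    · intro q hq
      exact mem_biUnion.mpr ⟨a, ha'.1, ha'.2 hq⟩
    · rw [← hA₁eq, card_insert_of_notMem hp]
      calc A.card ≤ H ^ P.card * A₀.card := hP.2
        _ ≤ H ^ P.card * (H * A₁.card) := Nat.mul_le_mul_left _ hcon.le
        _ = _ := by ring
  have := hmax _ hmem
  rw [card_insert_of_notMem hp] at this
  omega

/-- number of functions supported on `T` with sum at most `r` -/
lemma card_fun_le (T : Finset ℕ) : ∀ (r : ℕ) (W : Finset (ℕ → ℕ)),
    (∀ f ∈ W, (∀ p, p ∉ T → f p = 0) ∧ ∑ p ∈ T, f p ≤ r) → W.card ≤ 2 ^ (T.card + r) := by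
  classical
  induction T using Finset.induction_on with
  | empty =>
    intro r W hW
    have : W ⊆ {0} := by
      intro f hf
      rw [mem_singleton]
      ext p
      exact (hW f hf).1 p (notMem_empty _)
    have h1 := card_le_card this
    have h2 : 1 ≤ 2 ^ r := Nat.one_le_two_pow
    simp only [card_singleton] at h1
    simp only [card_empty, zero_add]
    omega
  | insert p T hp ih =>
    intro r W hW
    have hsub : W ⊆ (range (r + 1)).biUnion (fun j => W.filter (fun f => f p = j)) := by
      intro f hf
      rw [mem_biUnion]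
      refine ⟨f p, ?_, mem_filter.mpr ⟨hf, rfl⟩⟩
      have := (hW f hf).2
      rw [sum_insert hp] at this
      rw [mem_range]; omega
    have hj : ∀ j ∈ range (r + 1), (W.filter (fun f => f p = j)).card ≤ 2 ^ (T.card + (r - j)) := by
      intro j hj
      have hinj : Set.InjOn (fun f : ℕ → ℕ => Function.update f p 0)
          (W.filter (fun f => f p = j) : Finset (ℕ → ℕ)) := by
        intro f hf g hg h
        rw [mem_coe, mem_filter] at hf hg
        ext q
        by_cases hq : q = p
        · subst hq; rw [hf.2, hg.2]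
        · have := congrFun h q
          simpa [Function.update_of_ne hq] using this
      rw [← card_image_of_injOn hinj]
      apply ih
      intro g hg
      rw [mem_image] at hg
      obtain ⟨f, hf, rfl⟩ := hg
      rw [mem_filter] at hf
      have h1 := hW f hf.1
      refine ⟨?_, ?_⟩
      · intro q hq
        by_cases hqp : q = p
        · subst hqp; simp
        · rw [Function.update_of_ne hqp]
          exact h1.1 q (by simp [hqp, hq])
      · have h2 := h1.2
        rw [sum_insert hp, hf.2] at h2
        have : ∑ q ∈ T, Function.update f p 0 q = ∑ q ∈ T, f q := by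
          apply sum_congr rfl
          intro q hq
          rw [Function.update_of_ne]
          rintro rfl; exact hp hq
        rw [this]; omega
    have hgeom : ∀ r : ℕ, ∑ j ∈ range (r + 1), 2 ^ (T.card + (r - j)) ≤ 2 ^ (T.card + 1 + r) := by
      intro r
      have h1 : ∑ j ∈ range (r + 1), 2 ^ (T.card + (r - j)) =
          ∑ j ∈ range (r + 1), 2 ^ (T.card + j) := by
        have h := sum_range_reflect (fun j => 2 ^ (T.card + j)) (r + 1)
        rw [← h]
        apply sum_congr rfl
        intro j _
        congr 1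
      rw [h1]
      have h2 : ∀ n, ∑ j ∈ range n, 2 ^ (T.card + j) ≤ 2 ^ (T.card + n) := by
        intro n
        induction n with
        | zero => simp
        | succ n ihn =>
          rw [sum_range_succ, ← add_assoc, pow_succ]
          omega
      have h3 := h2 (r + 1)
      rwa [show T.card + (r + 1) = T.card + 1 + r by ring] at h3
    rw [card_insert_of_notMem hp]
    calc W.card ≤ _ := card_le_card hsub
      _ ≤ ∑ j ∈ range (r + 1), (W.filter (fun f => f p = j)).card := card_biUnion_le
      _ ≤ ∑ j ∈ range (r + 1), 2 ^ (T.card + (r - j)) := sum_le_sum hj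
      _ ≤ _ := hgeom r

end Pool.Agent.Helper5
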