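import Pool.Agent.Helper5.SumStep

set_option autoImplicit false

namespace Pool.Agent.Helper5

open Finset

/-- a pair `(d, Y)` is good -/
def good (P : Finset ℕ) (q K : ℕ) (D M : Finset ℤ) (e : ℤ × ℤ) : Prop :=
  (∀ p ∈ P, ¬ bad p K D e.1 (val p e.2)) ∧
  ∀ i, ¬ (bad q K D e.1 (val q e.2 + i) ∧ bad q K M (mP P e.2) i)

lemma card_fibre_le {P : Finset ℕ} (hP : ∀ p ∈ P, p.Prime) {q K L ℓ : ℕ} (hq : q ∈ P)
    (hK : 2 ≤ K) {D A : Finset ℤ} (hA : (0 : ℤ) ∉ A)
    (hL : D.card < K ^ (L + 1)) (hℓ : D.card * A.card < K ^ (ℓ + 1)) (S : ℤ)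
    (R : Finset (ℤ × ℤ))
    (hR : ∀ e ∈ R, e.1 ∈ D ∧ e.2 ∈ A ∧ e.1 + e.2 = S ∧ good P q K D (A.image (mP P)) e) :
    R.card ≤ (L + 1) ^ P.card * 2 ^ ℓ := by
  classical
  have hne0 : ∀ e ∈ R, e.2 ≠ 0 := fun e he h => hA (h ▸ (hR e he).2.1)
  -- the valuation vector
  let F : ℤ × ℤ → ({p // p ∈ P} → ℕ) := fun e p => val p.1 e.2
  have himg : (R.image F).card ≤ (L + 1) ^ P.card := by
    have hsub : R.image F ⊆ Fintype.piFinset
        (fun p : {p // p ∈ P} => R.image (fun e => val p.1 e.2)) := by
      intro f hf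
      rw [mem_image] at hf
      obtain ⟨e, he, rfl⟩ := hf
      rw [Fintype.mem_piFinset]
      intro p
      exact mem_image_of_mem _ he
    refine (card_le_card hsub).trans ?_
    rw [Fintype.card_piFinset]
    calc ∏ p : {p // p ∈ P}, (R.image (fun e => val p.1 e.2)).card
        ≤ ∏ _p : {p // p ∈ P}, (L + 1) := by
          apply prod_le_prod' 
          intro p _
          apply card_val_le (hP p.1 p.2) hK hL S R
          intro e he
          obtain ⟨h1, h2, h3, h4⟩ := hR e he
          exact ⟨h1, hne0 e he, h3, h4.1 p.1 p.2⟩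
      _ = (L + 1) ^ P.card := by simp
  have hfib : ∀ f ∈ R.image F, (R.filter (fun e => F e = f)).card ≤ 2 ^ ℓ := by
    intro f _
    set R' := R.filter (fun e => F e = f) with hR'
    rcases R'.eq_empty_or_nonempty with h0 | ⟨e₀, he₀⟩
    · rw [h0]; simp
    have he₀' := he₀
    rw [hR', mem_filter] at he₀'
    set u : ℕ := uP P e₀.2 with hu
    have hupos : 0 < u := uP_pos hP _
    have huu : ∀ e ∈ R', uP P e.2 = u := by
      intro e he
      rw [hR', mem_filter] at he
      unfold uP at hu ⊢
      rw [hu]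
      apply prod_congr rfl
      intro p hp
      have h1 := congrFun (he.2.trans he₀'.2.symm) ⟨p, hp⟩
      simp only [F] at h1
      rw [h1]
    set v := val q e₀.2 with hv
    have hvv : ∀ e ∈ R', val q e.2 = v := by
      intro e he
      rw [hR', mem_filter] at he
      have h1 := congrFun (he.2.trans he₀'.2.symm) ⟨q, hq⟩
      simpa [F] using h1
    have hYe : ∀ e ∈ R', (u : ℤ) * mP P e.2 = e.2 := by
      intro e he
      rw [← huu e he]
      rw [hR', mem_filter] at he
      exact uP_mul_mP hP (hne0 e he.1)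
    have hqp := hP q hq
    -- u = q^v * u'
    have hvu : u.factorization q = v := by
      rw [hu, uP_factorization hP, if_pos hq]
    let Φ : ℤ × ℤ → ℤ × ℤ := fun e => (e.1, mP P e.2)
    have hinjΦ : Set.InjOn Φ R' := by
      intro e he e' he' h
      simp only [Φ, Prod.mk.injEq] at h
      have h1 : e.1 = e'.1 := h.1
      have h2 : mP P e.2 = mP P e'.2 := h.2
      have h3 : e.2 = e'.2 := by
        rw [← hYe e he, ← hYe e' he', h2]
      exact Prod.ext h1 h3
    rw [← card_image_of_injOn hinjΦ]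
    have hmemR : ∀ e ∈ R', e ∈ R := fun e he => (mem_filter.mp he).1
    apply two_tree hqp.two_le hK v D (A.image (mP P)) ℓ 0
    · intro x hx
      rw [mem_image] at hx
      obtain ⟨e, he, rfl⟩ := hx
      exact ⟨(hR e (hmemR e he)).1, mem_image_of_mem _ (hR e (hmemR e he)).2.1⟩
    · intro x hx x' hx' i
      rw [mem_image] at hx hx'
      obtain ⟨e, he, rfl⟩ := hx
      obtain ⟨e', he', rfl⟩ := hx'
      simp only [Φ]
      have hs := (hR e (hmemR e he)).2.2.1
      have hs' := (hR e' (hmemR e' he')).2.2.1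
      have h1 : e.1 - e'.1 = (u : ℤ) * (mP P e'.2 - mP P e.2) := by
        rw [mul_sub, hYe e he, hYe e' he']; linarith
      rw [h1]
      by_cases hz : mP P e'.2 - mP P e.2 = 0
      · have hz' : mP P e.2 - mP P e'.2 = 0 := by linarith
        rw [hz, hz']; simp
      · have hz' : mP P e.2 - mP P e'.2 ≠ 0 := fun h => hz (by linarith)
        have hu0 : (u : ℤ) ≠ 0 := by exact_mod_cast hupos.ne'
        rw [pow_dvd_iff_val hqp (mul_ne_zero hu0 hz), pow_dvd_iff_val hqp hz',
          val_mul hu0 hz, val_natCast, hvu]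
        have : val q (mP P e'.2 - mP P e.2) = val q (mP P e.2 - mP P e'.2) := by
          unfold val
          rw [← Int.natAbs_neg, neg_sub]
        rw [this]
        omega
    · intro x hx x' hx' h
      rw [mem_image] at hx hx'
      obtain ⟨e, he, rfl⟩ := hx
      obtain ⟨e', he', rfl⟩ := hx'
      simp only [Φ] at h
      have h3 : e.2 = e'.2 := by
        rw [← hYe e he, ← hYe e' he', h]
      have hs := (hR e (hmemR e he)).2.2.1
      have hs' := (hR e' (hmemR e' he')).2.2.1
      have h4 : e.1 = e'.1 := by linarith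
      simp only [Φ, h3, h4]
    · intro x hx i
      rw [mem_image] at hx
      obtain ⟨e, he, rfl⟩ := hx
      have h1 := (hR e (hmemR e he)).2.2.2.2 i
      rw [hvv e he] at h1
      exact h1
    · intro x _ x' _; simp
    · intro x hx
      rw [mem_image] at hx
      obtain ⟨e, he, rfl⟩ := hx
      refine lt_of_le_of_lt ?_ hℓ
      exact Nat.mul_le_mul (nd_le _ _ _ _) ((nd_le _ _ _ _).trans card_image_le)
  calc R.card ≤ 2 ^ ℓ * (R.image F).card := 
        card_le_mul_card_image R (2 ^ ℓ) hfib
    _ ≤ 2 ^ ℓ * (L + 1) ^ P.card := Nat.mul_le_mul_left _ himg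
    _ = _ := by ring

/-- few summands are bad for a given `d` -/
lemma card_not_good_le {P : Finset ℕ} (hP : ∀ p ∈ P, p.Prime) {q K Q jD jM : ℕ} (hq : q ∈ P)
    (hK : 2 ≤ K) {D A : Finset ℤ}
    (hjD : D.card < 2 ^ jD) (hjM : A.card < 2 ^ jM)
    (hQ : ∀ p ∈ P, ∀ φ : ℤ → ℕ, Q * (A.filter (fun a => val p a = φ (mP P a))).card ≤ A.card)
    {M : Finset ℤ} (hM : M = A.image (mP P))
    {d : ℤ} (hd : d ∈ D) [DecidablePred (fun Y => ¬ good P q K D M (d, Y))] :
    Q * (A.filter (fun Y => ¬ good P q K D M (d, Y))).card ≤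
      (P.card * (K * jD) + (K * jD) * (K * jM)) * A.card := by
  classical
  -- first kind
  let T1 : ℕ → Finset ℕ := fun p => (A.image (val p)).filter (bad p K D d)
  have hT1 : ∀ p ∈ P, (T1 p).card ≤ K * jD := by
    intro p hp
    exact (card_bad hd (T1 p) (fun i hi => (mem_filter.mp hi).2) hjD hK).le
  have h1 : ∀ p ∈ P, Q * (A.filter (fun Y => val p Y ∈ T1 p)).card ≤ (K * jD) * A.card := by
    intro p hp
    exact card_filter_mem_le (f := val p) (g := mP P) (hQ p hp) (K * jD) (fun _ => T1 p)
      (fun _ => hT1 p hp)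
  -- second kind
  let T2 : ℤ → Finset ℕ := fun m => if m ∈ M then
    (A.image (val q)).filter (fun x => ∃ i, bad q K D d (x + i) ∧ bad q K M m i) else ∅
  have hT2 : ∀ m, (T2 m).card ≤ (K * jD) * (K * jM) := by
    intro m
    by_cases hm : m ∈ M
    · have hex : ∀ x ∈ T2 m, ∃ i, bad q K D d (x + i) ∧ bad q K M m i := by
        intro x hx
        simp only [T2, if_pos hm, mem_filter] at hx
        exact hx.2
      choose! ι hι using hex
      have hinj : Set.InjOn (fun x => (x + ι x, ι x)) (T2 m : Set ℕ) := by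
        intro x _ y _ h
        simp only [Prod.mk.injEq] at h
        omega
      rw [← card_image_of_injOn hinj]
      have hsub : (T2 m).image (fun x => (x + ι x, ι x)) ⊆
          ((T2 m).image (fun x => x + ι x)) ×ˢ ((T2 m).image ι) := by
        intro z hz
        rw [mem_image] at hz
        obtain ⟨x, hx, rfl⟩ := hz
        rw [mem_product]
        exact ⟨mem_image_of_mem _ hx, mem_image_of_mem _ hx⟩
      refine (card_le_card hsub).trans ?_
      rw [card_product]
      apply Nat.mul_le_mul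
      · refine (card_bad (p := q) hd _ (fun i hi => ?_) hjD hK).le
        rw [mem_image] at hi
        obtain ⟨x, hx, rfl⟩ := hi
        exact (hι x hx).1
      · refine (card_bad (p := q) hm _ (fun i hi => ?_) (lt_of_le_of_lt (hM ▸ card_image_le) hjM) hK).le
        rw [mem_image] at hi
        obtain ⟨x, hx, rfl⟩ := hi
        exact (hι x hx).2
    · simp [T2, hm]
  have h2 : Q * (A.filter (fun Y => val q Y ∈ T2 (mP P Y))).card ≤
      ((K * jD) * (K * jM)) * A.card :=
    card_filter_mem_le (f := val q) (g := mP P) (hQ q hq) _ T2 hT2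
  have hsub : A.filter (fun Y => ¬ good P q K D M (d, Y)) ⊆
      (P.biUnion (fun p => A.filter (fun Y => val p Y ∈ T1 p))) ∪
        A.filter (fun Y => val q Y ∈ T2 (mP P Y)) := by
    intro Y hY
    rw [mem_filter] at hY
    obtain ⟨hYA, hYg⟩ := hY
    unfold good at hYg
    rw [not_and_or] at hYg
    rw [mem_union]
    rcases hYg with h | h
    · left
      push Not at h
      obtain ⟨p, hp, hb⟩ := h
      rw [mem_biUnion]
      refine ⟨p, hp, ?_⟩
      rw [mem_filter]
      exact ⟨hYA, mem_filter.mpr ⟨mem_image_of_mem _ hYA, hb⟩⟩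
    · right
      push Not at h
      obtain ⟨i, hb1, hb2⟩ := h
      rw [mem_filter]
      refine ⟨hYA, ?_⟩
      simp only [T2]
      rw [if_pos (hM ▸ mem_image_of_mem _ hYA), mem_filter]
      exact ⟨mem_image_of_mem _ hYA, i, hb1, hb2⟩
  have h3 := (card_le_card hsub).trans (card_union_le _ _)
  have h4 : (P.biUnion (fun p => A.filter (fun Y => val p Y ∈ T1 p))).card ≤
      ∑ p ∈ P, (A.filter (fun Y => val p Y ∈ T1 p)).card := card_biUnion_le
  calc Q * (A.filter (fun Y => ¬ good P q K D M (d, Y))).card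
      ≤ Q * ((∑ p ∈ P, (A.filter (fun Y => val p Y ∈ T1 p)).card) +
          (A.filter (fun Y => val q Y ∈ T2 (mP P Y))).card) := by
        apply Nat.mul_le_mul_left
        omega
    _ = (∑ p ∈ P, Q * (A.filter (fun Y => val p Y ∈ T1 p)).card) +
          Q * (A.filter (fun Y => val q Y ∈ T2 (mP P Y))).card := by
        rw [mul_add, mul_sum]
    _ ≤ (∑ _p ∈ P, (K * jD) * A.card) + ((K * jD) * (K * jM)) * A.card := by
        apply Nat.add_le_add _ h2
        exact sum_le_sum h1
    _ = _ := by rw [sum_const, smul_eq_mul]; ring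

/-- **Sum step**: adding the structured set `A` to an arbitrary set `D` is almost injective. -/
theorem sum_step {P : Finset ℕ} (hP : ∀ p ∈ P, p.Prime) (hne : P.Nonempty)
    {K Q jD jM L ℓ : ℕ} (hK : 2 ≤ K) {D A : Finset ℤ} (hA : (0 : ℤ) ∉ A)
    (hjD : D.card < 2 ^ jD) (hjM : A.card < 2 ^ jM)
    (hL : D.card < K ^ (L + 1)) (hℓ : D.card * A.card < K ^ (ℓ + 1))
    (hQ : ∀ p ∈ P, ∀ φ : ℤ → ℕ, Q * (A.filter (fun a => val p a = φ (mP P a))).card ≤ A.card)
    (hQbig : 2 * (P.card * (K * jD) + (K * jD) * (K * jM)) ≤ Q) :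
    D.card * A.card ≤ 2 * ((L + 1) ^ P.card * 2 ^ ℓ) * (image₂ (· + ·) D A).card := by
  classical
  rcases D.eq_empty_or_nonempty with rfl | hDne
  · simp
  obtain ⟨q, hq⟩ := hne
  set M := A.image (mP P) with hM
  have hjDpos : 0 < jD := by
    rcases Nat.eq_zero_or_pos jD with h | h
    · subst h
      have := Finset.card_pos.mpr hDne
      simp at hjD
      exact absurd hjD hDne.ne_empty
    · exact h
  set X := P.card * (K * jD) + (K * jD) * (K * jM) with hX
  have hXpos : 0 < X := by
    have : 0 < P.card := Finset.card_pos.mpr ⟨q, hq⟩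
    have : 0 < P.card * (K * jD) := by positivity
    omega
  let G := (D ×ˢ A).filter (fun e => good P q K D M e)
  have hG : D.card * A.card ≤ 2 * G.card := by
    have h1 : ∀ d ∈ D, A.card ≤ 2 * (A.filter (fun Y => good P q K D M (d, Y))).card := by
      intro d hd
      have hb := card_not_good_le hP hq hK hjD hjM hQ hM hd
      have hsplit := Finset.card_filter_add_card_filter_not (s := A)
        (fun Y => good P q K D M (d, Y))
      set b := (A.filter (fun Y => ¬ good P q K D M (d, Y))).card with hbdef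
      set g := (A.filter (fun Y => good P q K D M (d, Y))).card with hgdef
      have h2 : 2 * X * b ≤ X * A.card := by
        calc 2 * X * b ≤ Q * b := Nat.mul_le_mul_right _ hQbig
          _ ≤ X * A.card := hb
      have h3 : 2 * b ≤ A.card := by
        have : X * (2 * b) ≤ X * A.card := by
          calc X * (2 * b) = 2 * X * b := by ring
            _ ≤ _ := h2
        exact Nat.le_of_mul_le_mul_left this hXpos
      omega
    have h2 : G.card = ∑ d ∈ D, (A.filter (fun Y => good P q K D M (d, Y))).card := by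
      show ((D ×ˢ A).filter (fun e => good P q K D M e)).card = _
      rw [card_filter, sum_product]
      apply sum_congr rfl
      intro d _
      rw [card_filter]
    rw [h2, mul_sum]
    calc D.card * A.card = ∑ _d ∈ D, A.card := by rw [sum_const, smul_eq_mul]
      _ ≤ _ := sum_le_sum h1
  have hfib : ∀ S ∈ G.image (fun e => e.1 + e.2),
      (G.filter (fun e => e.1 + e.2 = S)).card ≤ (L + 1) ^ P.card * 2 ^ ℓ := by
    intro S _
    apply card_fibre_le hP hq hK hA hL hℓ S
    intro e he
    rw [mem_filter, mem_filter, mem_product] at he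
    exact ⟨he.1.1.1, he.1.1.2, he.2, he.1.2⟩
  have h3 := card_le_mul_card_image G ((L + 1) ^ P.card * 2 ^ ℓ) hfib
  have h4 : (G.image (fun e => e.1 + e.2)).card ≤ (image₂ (· + ·) D A).card := by
    apply card_le_card
    intro S hS
    rw [mem_image] at hS
    obtain ⟨e, he, rfl⟩ := hS
    rw [mem_filter, mem_product] at he
    exact mem_image₂_of_mem he.1.1 he.1.2
  calc D.card * A.card ≤ 2 * G.card := hG
    _ ≤ 2 * (((L + 1) ^ P.card * 2 ^ ℓ) * (G.image (fun e => e.1 + e.2)).card) :=
        Nat.mul_le_mul_left _ h3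
    _ ≤ 2 * (((L + 1) ^ P.card * 2 ^ ℓ) * (image₂ (· + ·) D A).card) :=
        Nat.mul_le_mul_left _ (Nat.mul_le_mul_left _ h4)
    _ = _ := by ring

end Pool.Agent.Helper5
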