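import Pool.Agent.Helper5.TwoTree

set_option autoImplicit false

namespace Pool.Agent.Helper5

/-- the `p`-adic valuation of an integer -/
def val (p : ℕ) (a : ℤ) : ℕ := a.natAbs.factorization p

/-- the part of `a` composed of the primes in `P` -/
def uP (P : Finset ℕ) (a : ℤ) : ℕ := ∏ p ∈ P, p ^ val p a

/-- the part of `a` free of the primes in `P` -/
def mP (P : Finset ℕ) (a : ℤ) : ℤ := a / (uP P a : ℤ)

lemma pow_dvd_iff_val {p : ℕ} (hp : p.Prime) {a : ℤ} (ha : a ≠ 0) (i : ℕ) :
    (p : ℤ) ^ i ∣ a ↔ i ≤ val p a := by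
  unfold val
  rw [← hp.pow_dvd_iff_le_factorization (Int.natAbs_ne_zero.mpr ha)]
  constructor
  · intro h
    have := Int.natAbs_dvd_natAbs.mpr h
    simpa [Int.natAbs_pow] using this
  · intro h
    have : ((p ^ i : ℕ) : ℤ) ∣ (a.natAbs : ℤ) := Int.natCast_dvd_natCast.mpr h
    rw [Int.dvd_natAbs] at this
    simpa using this

lemma uP_pos {P : Finset ℕ} (hP : ∀ p ∈ P, p.Prime) (a : ℤ) : 0 < uP P a :=
  Finset.prod_pos (fun p hp => Nat.pow_pos (hP p hp).pos)

lemma uP_factorization {P : Finset ℕ} (hP : ∀ p ∈ P, p.Prime) (a : ℤ) (q : ℕ) :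
    (uP P a).factorization q = if q ∈ P then val q a else 0 := by
  unfold uP
  rw [Nat.factorization_prod (fun p hp => (Nat.pow_pos (hP p hp).pos).ne')]
  rw [Finsupp.finsetSum_apply]
  have : ∀ p ∈ P, ((p ^ val p a).factorization) q = if q = p then val p a else 0 := by
    intro p hp
    rw [(hP p hp).factorization_pow, Finsupp.single_apply]
    by_cases h : p = q
    · simp [h]
    · simp [h, Ne.symm h]
  rw [Finset.sum_congr rfl this]
  simp

lemma uP_dvd {P : Finset ℕ} (hP : ∀ p ∈ P, p.Prime) {a : ℤ} (ha : a ≠ 0) : (uP P a : ℤ) ∣ a := by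
  rw [← Int.dvd_natAbs, Int.natCast_dvd_natCast]
  rw [← Nat.factorization_le_iff_dvd (uP_pos hP a).ne' (Int.natAbs_ne_zero.mpr ha)]
  intro q
  rw [uP_factorization hP]
  split_ifs
  · exact le_refl _
  · exact Nat.zero_le _

lemma uP_mul_mP {P : Finset ℕ} (hP : ∀ p ∈ P, p.Prime) {a : ℤ} (ha : a ≠ 0) :
    (uP P a : ℤ) * mP P a = a := by
  unfold mP
  exact Int.mul_ediv_cancel' (uP_dvd hP ha)

lemma mP_ne_zero {P : Finset ℕ} (hP : ∀ p ∈ P, p.Prime) {a : ℤ} (ha : a ≠ 0) : mP P a ≠ 0 := by
  intro h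
  have := uP_mul_mP hP ha
  rw [h, mul_zero] at this
  exact ha this.symm

lemma val_mul {p : ℕ} {a b : ℤ} (ha : a ≠ 0) (hb : b ≠ 0) :
    val p (a * b) = val p a + val p b := by
  unfold val
  rw [Int.natAbs_mul, Nat.factorization_mul (Int.natAbs_ne_zero.mpr ha) (Int.natAbs_ne_zero.mpr hb)]
  rfl

lemma val_natCast (p n : ℕ) : val p (n : ℤ) = n.factorization p := by
  unfold val; simp

lemma val_mP {P : Finset ℕ} (hP : ∀ p ∈ P, p.Prime) {a : ℤ} (ha : a ≠ 0) (q : ℕ) :
    val q (mP P a) = if q ∈ P then 0 else val q a := by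
  have h := uP_mul_mP hP ha
  have h2 : val q ((uP P a : ℤ) * mP P a) = val q a := by rw [h]
  rw [val_mul (by exact_mod_cast (uP_pos hP a).ne') (mP_ne_zero hP ha), val_natCast,
    uP_factorization hP] at h2
  split_ifs at h2 ⊢ with hq
  · omega
  · omega

/-- if every graph `{f a = φ (g a)}` is sparse, then so are unions of few graphs -/
lemma card_filter_mem_le {A : Finset ℤ} {Q : ℕ} {f : ℤ → ℕ} {g : ℤ → ℤ}
    (h : ∀ φ : ℤ → ℕ, Q * (A.filter (fun a => f a = φ (g a))).card ≤ A.card) (R : ℕ) :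
    ∀ T : ℤ → Finset ℕ, (∀ m, (T m).card ≤ R) →
    Q * (A.filter (fun a => f a ∈ T (g a))).card ≤ R * A.card := by
  induction R with
  | zero =>
    intro T hT
    have : A.filter (fun a => f a ∈ T (g a)) = ∅ := by
      apply Finset.filter_false_of_mem
      intro a _ hmem
      have h0 := hT (g a)
      have : T (g a) = ∅ := Finset.card_eq_zero.mp (by omega)
      rw [this] at hmem
      exact absurd hmem (Finset.notMem_empty _)
    rw [this]; simp
  | succ R ih =>
    intro T hT
    classical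
    let φ : ℤ → ℕ := fun m => if hm : (T m).Nonempty then (T m).min' hm else 0
    let T' : ℤ → Finset ℕ := fun m => (T m).erase (φ m)
    have hT' : ∀ m, (T' m).card ≤ R := by
      intro m
      by_cases hm : (T m).Nonempty
      · have hmem : φ m ∈ T m := by
          simp only [φ, hm, dif_pos]; exact Finset.min'_mem _ _
        have := Finset.card_erase_of_mem hmem
        have h2 := hT m
        show ((T m).erase (φ m)).card ≤ R
        omega
      · rw [Finset.not_nonempty_iff_eq_empty] at hm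
        show ((T m).erase (φ m)).card ≤ R
        rw [hm]; simp
    have hsub : A.filter (fun a => f a ∈ T (g a)) ⊆
        A.filter (fun a => f a = φ (g a)) ∪ A.filter (fun a => f a ∈ T' (g a)) := by
      intro a ha
      rw [Finset.mem_filter] at ha
      rw [Finset.mem_union, Finset.mem_filter, Finset.mem_filter]
      by_cases hc : f a = φ (g a)
      · exact Or.inl ⟨ha.1, hc⟩
      · exact Or.inr ⟨ha.1, Finset.mem_erase.mpr ⟨hc, ha.2⟩⟩
    have h1 := (Finset.card_le_card hsub).trans (Finset.card_union_le _ _)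
    have h2 := h φ
    have h3 := ih T' hT'
    calc Q * (A.filter (fun a => f a ∈ T (g a))).card
        ≤ Q * ((A.filter (fun a => f a = φ (g a))).card +
            (A.filter (fun a => f a ∈ T' (g a))).card) := Nat.mul_le_mul_left _ h1
      _ = Q * (A.filter (fun a => f a = φ (g a))).card +
            Q * (A.filter (fun a => f a ∈ T' (g a))).card := by ring
      _ ≤ A.card + R * A.card := Nat.add_le_add h2 h3
      _ = (R + 1) * A.card := by ring

/-- for a fixed sum, few valuations of the second summand occur -/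
lemma card_val_le {p K : ℕ} (hp : p.Prime) (hK : 2 ≤ K) {D : Finset ℤ} {L : ℕ}
    (hL : D.card < K ^ (L + 1)) (S : ℤ) (W : Finset (ℤ × ℤ))
    (hW : ∀ e ∈ W, e.1 ∈ D ∧ e.2 ≠ 0 ∧ e.1 + e.2 = S ∧ ¬ bad p K D e.1 (val p e.2)) :
    (W.image (fun e => val p e.2)).card ≤ L + 1 := by
  classical
  set V := W.image (fun e => val p e.2) with hV
  rcases V.eq_empty_or_nonempty with h0 | hne
  · rw [h0]; simp
  · have hmax := V.max'_mem hne
    set a := V.max' hne with ha
    rw [hV, Finset.mem_image] at hmax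
    obtain ⟨e, he, hea⟩ := hmax
    obtain ⟨heD, he0, heS, -⟩ := hW e he
    have hlight : ∀ i ∈ V.erase a, K * nd p D e.1 (i + 1) < nd p D e.1 i := by
      intro i hi
      rw [Finset.mem_erase] at hi
      have hi2 := hi.2
      rw [hV, Finset.mem_image] at hi2
      obtain ⟨e', he', he'i⟩ := hi2
      obtain ⟨he'D, he'0, he'S, hb⟩ := hW e' he'
      have hlt : i < a := lt_of_le_of_ne (V.le_max' i hi.2) hi.1
      have hsub : e'.1 - e.1 = e.2 - e'.2 := by linarith
      have h1 : (p : ℤ) ^ (i + 1) ∣ e.2 := (pow_dvd_iff_val hp he0 _).mpr (by omega)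
      have h2 : (p : ℤ) ^ i ∣ e'.2 := (pow_dvd_iff_val hp he'0 _).mpr (by omega)
      have h3 : ¬ (p : ℤ) ^ (i + 1) ∣ e'.2 := by
        rw [pow_dvd_iff_val hp he'0]; omega
      rw [he'i] at hb
      apply light_of_heavy (d := e'.1) _ _ hb
      · rw [hsub]
        exact dvd_sub ((pow_dvd_pow _ (Nat.le_succ i)).trans h1) h2
      · rw [hsub]
        intro h4
        apply h3
        have := dvd_sub h1 h4
        have e0 : e.2 - (e.2 - e'.2) = e'.2 := by ring
        rwa [e0] at this
    have h5 := card_light heD (V.erase a) hlight hL hK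
    have h6 := Finset.card_erase_of_mem (V.max'_mem hne)
    have h7 : (V.erase a).card = V.card - 1 := h6
    have h8 : 1 ≤ V.card := Finset.card_pos.mpr hne
    omega

end Pool.Agent.Helper5
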