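import Mathlib

set_option autoImplicit false

/-!
Trees of residues of finite sets of integers modulo powers of a prime:
heavy and light steps, and the two-tree decoding lemma.
-/

namespace Pool.Agent.Helper5

/-- the number of elements of `D` congruent to `d` modulo `p ^ i` -/
def nd (p : ℕ) (D : Finset ℤ) (d : ℤ) (i : ℕ) : ℕ :=
  (D.filter (fun x => ((p : ℤ) ^ i ∣ x - d))).card

/-- `i` is a bad level for `d`: passing to residues modulo `p ^ (i+1)` loses at least the
proportion `1 / K` of the class of `d` modulo `p ^ i`. -/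
def bad (p K : ℕ) (D : Finset ℤ) (d : ℤ) (i : ℕ) : Prop :=
  K * nd p D d (i + 1) ≤ (K - 1) * nd p D d i

lemma nd_anti (p : ℕ) (D : Finset ℤ) (d : ℤ) {i j : ℕ} (h : i ≤ j) :
    nd p D d j ≤ nd p D d i := by
  unfold nd
  apply Finset.card_le_card
  intro x hx
  simp only [Finset.mem_filter] at hx ⊢
  exact ⟨hx.1, (pow_dvd_pow _ h).trans hx.2⟩

lemma nd_pos (p : ℕ) (D : Finset ℤ) {d : ℤ} (hd : d ∈ D) (i : ℕ) : 1 ≤ nd p D d i := by
  unfold nd
  apply Finset.card_pos.mpr
  exact ⟨d, by simp [hd]⟩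

lemma nd_zero (p : ℕ) (D : Finset ℤ) (d : ℤ) : nd p D d 0 = D.card := by
  unfold nd
  simp

lemma nd_le (p : ℕ) (D : Finset ℤ) (d : ℤ) (i : ℕ) : nd p D d i ≤ D.card := by
  rw [← nd_zero p D d]; exact nd_anti p D d (Nat.zero_le _)

lemma nd_congr (p : ℕ) (D : Finset ℤ) {d d' : ℤ} {i : ℕ} (h : (p : ℤ) ^ i ∣ d - d') :
    nd p D d i = nd p D d' i := by
  unfold nd
  congr 1
  ext x
  simp only [Finset.mem_filter, and_congr_right_iff]
  intro _
  constructor
  · intro hx
    have := dvd_add hx h
    simpa using this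
  · intro hx
    have := dvd_sub hx h
    have e : x - d' - (d - d') = x - d := by ring
    rwa [e] at this

lemma nd_add (p : ℕ) (D : Finset ℤ) {d d' : ℤ} {i : ℕ} (h : (p : ℤ) ^ i ∣ d - d')
    (h' : ¬ (p : ℤ) ^ (i + 1) ∣ d - d') :
    nd p D d (i + 1) + nd p D d' (i + 1) ≤ nd p D d i := by
  unfold nd
  rw [← Finset.card_union_of_disjoint]
  · apply Finset.card_le_card
    intro x hx
    simp only [Finset.mem_union, Finset.mem_filter] at hx ⊢
    rcases hx with hx | hx
    · exact ⟨hx.1, (pow_dvd_pow _ (Nat.le_succ i)).trans hx.2⟩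
    · refine ⟨hx.1, ?_⟩
      have h1 : (p : ℤ) ^ i ∣ x - d' := (pow_dvd_pow _ (Nat.le_succ i)).trans hx.2
      have := dvd_sub h1 h
      have e : x - d' - (d - d') = x - d := by ring
      rwa [e] at this
  · rw [Finset.disjoint_left]
    intro x hx hx'
    simp only [Finset.mem_filter] at hx hx'
    apply h'
    have := dvd_sub hx'.2 hx.2
    have e : x - d' - (x - d) = d - d' := by ring
    rwa [e] at this

/-- if `d` is heavy at a level at which `d'` branches off, then `d'` is light there. -/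
lemma light_of_heavy {p K : ℕ} {D : Finset ℤ} {d d' : ℤ} {i : ℕ}
    (h : (p : ℤ) ^ i ∣ d - d') (h' : ¬ (p : ℤ) ^ (i + 1) ∣ d - d')
    (hd : ¬ bad p K D d i) : K * nd p D d' (i + 1) < nd p D d' i := by
  unfold bad at hd
  push Not at hd
  have h1 := nd_add p D h h'
  have h2 := nd_congr p D h
  rw [← h2]
  rcases Nat.eq_zero_or_pos K with hK | hK
  · subst hK; simp at hd
  · obtain ⟨k, rfl⟩ : ∃ k, K = k + 1 := ⟨K - 1, by omega⟩
    simp only [Nat.add_sub_cancel] at hd
    nlinarith

/-- two elements branching at a level are not both heavy. -/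
lemma not_both_heavy {p K : ℕ} (hK : 2 ≤ K) {D : Finset ℤ} {d d' : ℤ} {i : ℕ}
    (h : (p : ℤ) ^ i ∣ d - d') (h' : ¬ (p : ℤ) ^ (i + 1) ∣ d - d')
    (hd : ¬ bad p K D d i) : bad p K D d' i := by
  have h1 := light_of_heavy h h' hd
  unfold bad
  obtain ⟨k, rfl⟩ : ∃ k, K = k + 1 := ⟨K - 1, by omega⟩
  simp only [Nat.add_sub_cancel]
  nlinarith

/-- Counting lemma: each level in `V` shrinks the class by the factor `β / α`. -/
lemma card_levels {p : ℕ} {D : Finset ℤ} {d : ℤ} (hd : d ∈ D) (α β : ℕ) (V : Finset ℕ)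
    (hV : ∀ i ∈ V, α * nd p D d (i + 1) ≤ β * nd p D d i) :
    α ^ V.card ≤ β ^ V.card * D.card := by
  have key : ∀ n : ℕ, α ^ (V.filter (· < n)).card * nd p D d n ≤
      β ^ (V.filter (· < n)).card * D.card := by
    intro n
    induction n with
    | zero => simp [nd_zero]
    | succ n ih =>
      by_cases hn : n ∈ V
      · have e : V.filter (· < n + 1) = insert n (V.filter (· < n)) := by
          ext x
          simp only [Finset.mem_filter, Finset.mem_insert]
          constructor
          · rintro ⟨h1, h2⟩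
            rcases Nat.lt_succ_iff_lt_or_eq.mp h2 with h | h
            · exact Or.inr ⟨h1, h⟩
            · exact Or.inl h
          · rintro (h | ⟨h1, h2⟩)
            · subst h; exact ⟨hn, Nat.lt_succ_self _⟩
            · exact ⟨h1, by omega⟩
        rw [e, Finset.card_insert_of_notMem (by simp)]
        have h1 := hV n hn
        calc α ^ ((V.filter (· < n)).card + 1) * nd p D d (n + 1)
            = α ^ (V.filter (· < n)).card * (α * nd p D d (n + 1)) := by ring
          _ ≤ α ^ (V.filter (· < n)).card * (β * nd p D d n) := Nat.mul_le_mul_left _ h1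
          _ = β * (α ^ (V.filter (· < n)).card * nd p D d n) := by ring
          _ ≤ β * (β ^ (V.filter (· < n)).card * D.card) := Nat.mul_le_mul_left _ ih
          _ = β ^ ((V.filter (· < n)).card + 1) * D.card := by ring
      · have e : V.filter (· < n + 1) = V.filter (· < n) := by
          ext x
          simp only [Finset.mem_filter, and_congr_right_iff]
          intro hx
          constructor
          · intro h2
            rcases Nat.lt_succ_iff_lt_or_eq.mp h2 with h | h
            · exact h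
            · subst h; exact absurd hx hn
          · intro h; omega
        rw [e]
        exact (Nat.mul_le_mul_left _ (nd_anti p D d (Nat.le_succ n))).trans ih
  obtain ⟨n, hn⟩ : ∃ n, ∀ i ∈ V, i < n := by
    refine ⟨V.sup id + 1, fun i hi => ?_⟩
    have := Finset.le_sup (f := id) hi
    simp only [id] at this
    omega
  have e : V.filter (· < n) = V := Finset.filter_true_of_mem hn
  have h1 := key n
  rw [e] at h1
  calc α ^ V.card = α ^ V.card * 1 := by ring
    _ ≤ α ^ V.card * nd p D d n := Nat.mul_le_mul_left _ (nd_pos p D hd n)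
    _ ≤ _ := h1

/-- the number of light levels is bounded -/
lemma card_light {p K : ℕ} {D : Finset ℤ} {d : ℤ} (hd : d ∈ D) (V : Finset ℕ)
    (hV : ∀ i ∈ V, K * nd p D d (i + 1) < nd p D d i) {L : ℕ} (hL : D.card < K ^ (L + 1))
    (hK : 2 ≤ K) : V.card ≤ L := by
  have h := card_levels hd K 1 V (fun i hi => by simpa using (hV i hi).le)
  simp only [one_pow, one_mul] at h
  have h2 : K ^ V.card < K ^ (L + 1) := lt_of_le_of_lt h hL
  have := (Nat.pow_lt_pow_iff_right (by omega : 1 < K)).mp h2
  omega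

/-- the number of bad levels is bounded -/
lemma card_bad {p K : ℕ} {D : Finset ℤ} {d : ℤ} (hd : d ∈ D) (V : Finset ℕ)
    (hV : ∀ i ∈ V, bad p K D d i) {j : ℕ} (hj : D.card < 2 ^ j)
    (hK : 2 ≤ K) : V.card < K * j := by
  by_contra hcon
  push Not at hcon
  obtain ⟨V', hV', hc⟩ := Finset.exists_subset_card_eq hcon
  have h := card_levels hd K (K - 1) V' (fun i hi => hV i (hV' hi))
  rw [hc] at h
  obtain ⟨k, rfl⟩ : ∃ k, K = k + 1 := ⟨K - 1, by omega⟩
  simp only [Nat.add_sub_cancel] at h
  -- `2 * k ^ (k+1) ≤ (k+1) ^ (k+1)`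
  have hB : 2 * k ^ (k + 1) ≤ (k + 1) ^ (k + 1) := by
    have hk : 1 ≤ k := by omega
    have h1 : ∀ n : ℕ, k ^ (n + 1) + (n + 1) * k ^ n ≤ (k + 1) ^ (n + 1) := by
      intro n
      induction n with
      | zero => simp
      | succ n ih =>
        calc k ^ (n + 1 + 1) + (n + 1 + 1) * k ^ (n + 1)
            ≤ (k + 1) * (k ^ (n + 1) + (n + 1) * k ^ n) := by
              have : 0 ≤ (n + 1) * k ^ n := Nat.zero_le _
              have e : (k + 1) * (k ^ (n + 1) + (n + 1) * k ^ n) =
                k ^ (n + 1 + 1) + (n + 1 + 1) * k ^ (n + 1) + (n + 1) * k ^ n := by ring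
              omega
          _ ≤ (k + 1) * (k + 1) ^ (n + 1) := Nat.mul_le_mul_left _ ih
          _ = (k + 1) ^ (n + 1 + 1) := by ring
    have h1 := h1 k
    have h3 : k ^ (k + 1) ≤ (k + 1) * k ^ k := by
      rw [pow_succ, mul_comm]
      exact Nat.mul_le_mul_right _ (Nat.le_succ k)
    omega
  have h4 : (k + 1) ^ ((k + 1) * j) ≥ 2 ^ j * k ^ ((k + 1) * j) := by
    rw [pow_mul, pow_mul, ← mul_pow]
    exact Nat.pow_le_pow_left hB j
  have hkpos : 0 < k ^ ((k + 1) * j) := Nat.pow_pos (by omega)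
  have h5 : 2 ^ j * k ^ ((k + 1) * j) ≤ D.card * k ^ ((k + 1) * j) := by
    calc 2 ^ j * k ^ ((k + 1) * j) ≤ (k + 1) ^ ((k + 1) * j) := h4
      _ ≤ k ^ ((k + 1) * j) * D.card := h
      _ = _ := by ring
  have h6 := Nat.le_of_mul_le_mul_right h5 hkpos
  omega

end Pool.Agent.Helper5
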