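import Pool.Agent.Helper5.Tree

set_option autoImplicit false

namespace Pool.Agent.Helper5

lemma exists_pow_not_dvd {p : ℕ} (hp : 2 ≤ p) {x : ℤ} (hx : x ≠ 0) :
    ∃ i : ℕ, ¬ (p : ℤ) ^ (i + 1) ∣ x := by
  refine ⟨x.natAbs, fun h => ?_⟩
  have h1 : p ^ (x.natAbs + 1) ∣ x.natAbs := by
    have := Int.natAbs_dvd_natAbs.mpr h
    simpa [Int.natAbs_pow] using this
  have h2 := Nat.le_of_dvd (Int.natAbs_pos.mpr hx) h1
  have h3 : x.natAbs + 1 < p ^ (x.natAbs + 1) := Nat.lt_pow_self (by omega)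
  omega

/-- Decoding lemma for a single dilate: the pairs `(d, m)` with a given value of `d + u * m`
such that no level is simultaneously bad for `d` and (after the shift) for `m` are few. -/
lemma two_tree {p K : ℕ} (hp : 2 ≤ p) (hK : 2 ≤ K) (v : ℕ) (D M : Finset ℤ) (ℓ : ℕ) :
    ∀ (j : ℕ) (R : Finset (ℤ × ℤ)),
    (∀ e ∈ R, e.1 ∈ D ∧ e.2 ∈ M) →
    (∀ e ∈ R, ∀ e' ∈ R, ∀ i, ((p:ℤ)^(v+i) ∣ e.1 - e'.1 ↔ (p:ℤ)^i ∣ e.2 - e'.2)) →
    (∀ e ∈ R, ∀ e' ∈ R, e.2 = e'.2 → e = e') →
    (∀ e ∈ R, ∀ i, ¬ (bad p K D e.1 (v+i) ∧ bad p K M e.2 i)) →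
    (∀ e ∈ R, ∀ e' ∈ R, (p:ℤ)^j ∣ e.2 - e'.2) →
    (∀ e ∈ R, nd p D e.1 (v+j) * nd p M e.2 j < K^(ℓ+1)) →
    R.card ≤ 2^ℓ := by
  induction ℓ with
  | zero =>
    intro j R hR hdiv hinj hgood hcong hpot
    by_contra hcard
    push Not at hcard
    simp only [pow_zero] at hcard
    -- there are two distinct elements
    obtain ⟨e₁, he₁, e₂, he₂, hne⟩ := Finset.one_lt_card.mp hcard
    -- minimal branching level
    have hex : ∃ i : ℕ, ∃ e ∈ R, ∃ e' ∈ R, ¬ (p:ℤ)^(i+1) ∣ e.2 - e'.2 := by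
      have : e₁.2 - e₂.2 ≠ 0 := fun h => hne (hinj e₁ he₁ e₂ he₂ (by linarith))
      obtain ⟨i, hi⟩ := exists_pow_not_dvd hp this
      exact ⟨i, e₁, he₁, e₂, he₂, hi⟩
    classical
    let i := Nat.find hex
    obtain ⟨e, he, e', he', hnd⟩ := Nat.find_spec hex
    have hall : ∀ a ∈ R, ∀ b ∈ R, (p:ℤ)^i ∣ a.2 - b.2 := by
      intro a ha b hb
      rcases Nat.eq_zero_or_pos i with h0 | h0
      · rw [h0]; simp
      · have := Nat.find_min hex (m := i - 1) (by show i - 1 < i; omega)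
        push Not at this
        have h2 := this a ha b hb
        rwa [Nat.sub_add_cancel h0] at h2
    have hji : j ≤ i := by
      by_contra hlt
      push Not at hlt
      exact hnd ((pow_dvd_pow _ (by show i + 1 ≤ j; omega)).trans (hcong e he e' he'))
    have hD1 : (p:ℤ)^(v+i) ∣ e.1 - e'.1 := (hdiv e he e' he' i).mpr (hall e he e' he')
    have hD2 : ¬ (p:ℤ)^(v+i+1) ∣ e.1 - e'.1 := by
      intro h
      exact hnd ((hdiv e he e' he' (i+1)).mp (by rw [← add_assoc]; exact h))
    have hM1 := hall e he e' he'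
    have hM2 : ¬ (p:ℤ)^(i+1) ∣ e.2 - e'.2 := hnd
    have hM1' : (p:ℤ)^i ∣ e'.2 - e.2 := hall e' he' e he
    have hM2' : ¬ (p:ℤ)^(i+1) ∣ e'.2 - e.2 := by
      intro h; apply hM2
      have := (dvd_neg.mpr h); simpa using this
    have hD1' : (p:ℤ)^(v+i) ∣ e'.1 - e.1 := (hdiv e' he' e he i).mpr hM1'
    have hD2' : ¬ (p:ℤ)^(v+i+1) ∣ e'.1 - e.1 := by
      intro h; apply hD2
      have := (dvd_neg.mpr h); simpa using this
    have key : ∃ a ∈ R, K * nd p D a.1 (v+i+1) < nd p D a.1 (v+i) ∨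
        K * nd p M a.2 (i+1) < nd p M a.2 i := by
      by_cases hb : bad p K D e.1 (v+i)
      · have hm : ¬ bad p K M e.2 i := fun h => hgood e he i ⟨hb, h⟩
        exact ⟨e', he', Or.inr (light_of_heavy hM1 hM2 hm)⟩
      · exact ⟨e', he', Or.inl (light_of_heavy hD1 hD2 hb)⟩
    obtain ⟨a, ha, hlight⟩ := key
    have h1 : nd p D a.1 (v+i) * nd p M a.2 i < K^(0+1) :=
      lt_of_le_of_lt (Nat.mul_le_mul (nd_anti p D _ (by omega)) (nd_anti p M _ hji)) (hpot a ha)
    have hposD := nd_pos p D (hR a ha).1 (v+i)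
    have hposM := nd_pos p M (hR a ha).2 i
    have hposD1 := nd_pos p D (hR a ha).1 (v+i+1)
    have hposM1 := nd_pos p M (hR a ha).2 (i+1)
    simp only [zero_add, pow_one] at h1
    rcases hlight with h | h
    · have : K * 1 ≤ K * nd p D a.1 (v+i+1) := Nat.mul_le_mul_left _ hposD1
      nlinarith
    · have : K * 1 ≤ K * nd p M a.2 (i+1) := Nat.mul_le_mul_left _ hposM1
      nlinarith
  | succ ℓ ih =>
    intro j R hR hdiv hinj hgood hcong hpot
    by_cases hcard : R.card ≤ 1
    · exact hcard.trans Nat.one_le_two_pow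
    push Not at hcard
    obtain ⟨e₁, he₁, e₂, he₂, hne⟩ := Finset.one_lt_card.mp hcard
    have hex : ∃ i : ℕ, ∃ e ∈ R, ∃ e' ∈ R, ¬ (p:ℤ)^(i+1) ∣ e.2 - e'.2 := by
      have : e₁.2 - e₂.2 ≠ 0 := fun h => hne (hinj e₁ he₁ e₂ he₂ (by linarith))
      obtain ⟨i, hi⟩ := exists_pow_not_dvd hp this
      exact ⟨i, e₁, he₁, e₂, he₂, hi⟩
    classical
    let i := Nat.find hex
    obtain ⟨g, hg, g', hg', hnd⟩ := Nat.find_spec hex
    have hall : ∀ a ∈ R, ∀ b ∈ R, (p:ℤ)^i ∣ a.2 - b.2 := by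
      intro a ha b hb
      rcases Nat.eq_zero_or_pos i with h0 | h0
      · rw [h0]; simp
      · have := Nat.find_min hex (m := i - 1) (by show i - 1 < i; omega)
        push Not at this
        have h2 := this a ha b hb
        rwa [Nat.sub_add_cancel h0] at h2
    have hji : j ≤ i := by
      by_contra hlt
      push Not at hlt
      exact hnd ((pow_dvd_pow _ (by show i + 1 ≤ j; omega)).trans (hcong g hg g' hg'))
    -- every element has a partner branching off at level i
    have hpartner : ∀ e ∈ R, ∃ e' ∈ R, ¬ (p:ℤ)^(i+1) ∣ e.2 - e'.2 := by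
      intro e he
      by_contra hcon
      push Not at hcon
      apply hnd
      have h1 := hcon g hg
      have h2 := hcon g' hg'
      have := dvd_sub h2 h1
      have e0 : e.2 - g'.2 - (e.2 - g.2) = g.2 - g'.2 := by ring
      rwa [e0] at this
    have htype : ∀ e ∈ R, (¬ bad p K D e.1 (v+i) ∧ K * nd p M e.2 (i+1) < nd p M e.2 i) ∨
        (bad p K D e.1 (v+i) ∧ ¬ bad p K M e.2 i ∧
          K * nd p D e.1 (v+i+1) < nd p D e.1 (v+i)) := by
      intro e he
      obtain ⟨e', he', hM2⟩ := hpartner e he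
      have hM1 := hall e he e' he'
      have hM1' : (p:ℤ)^i ∣ e'.2 - e.2 := hall e' he' e he
      have hM2' : ¬ (p:ℤ)^(i+1) ∣ e'.2 - e.2 := by
        intro h; apply hM2
        have := (dvd_neg.mpr h); simpa using this
      have hD1 : (p:ℤ)^(v+i) ∣ e.1 - e'.1 := (hdiv e he e' he' i).mpr hM1
      have hD2 : ¬ (p:ℤ)^(v+i+1) ∣ e.1 - e'.1 := by
        intro h
        exact hM2 ((hdiv e he e' he' (i+1)).mp (by rw [← add_assoc]; exact h))
      have hD1' : (p:ℤ)^(v+i) ∣ e'.1 - e.1 := (hdiv e' he' e he i).mpr hM1'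
      have hD2' : ¬ (p:ℤ)^(v+i+1) ∣ e'.1 - e.1 := by
        intro h; apply hD2
        have := (dvd_neg.mpr h); simpa using this
      by_cases hb : bad p K D e.1 (v+i)
      · right
        have hm : ¬ bad p K M e.2 i := fun h => hgood e he i ⟨hb, h⟩
        refine ⟨hb, hm, ?_⟩
        have hm' : bad p K M e'.2 i := not_both_heavy hK hM1 hM2 hm
        have hd' : ¬ bad p K D e'.1 (v+i) := fun h => hgood e' he' i ⟨h, hm'⟩
        exact light_of_heavy hD1' hD2' hd'
      · left
        refine ⟨hb, ?_⟩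
        have hd' : bad p K D e'.1 (v+i) := not_both_heavy hK hD1 hD2 hb
        have hm' : ¬ bad p K M e'.2 i := fun h => hgood e' he' i ⟨hd', h⟩
        exact light_of_heavy hM1' hM2' hm'
    have hpot' : ∀ e ∈ R, nd p D e.1 (v+(i+1)) * nd p M e.2 (i+1) < K^(ℓ+1) := by
      intro e he
      have h1 : nd p D e.1 (v+i) * nd p M e.2 i < K^(ℓ+1+1) :=
        lt_of_le_of_lt (Nat.mul_le_mul (nd_anti p D _ (by omega)) (nd_anti p M _ hji)) (hpot e he)
      have hKpos : 0 < K := by omega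
      have hDle : nd p D e.1 (v+(i+1)) ≤ nd p D e.1 (v+i) := nd_anti p D _ (by omega)
      have hMle : nd p M e.2 (i+1) ≤ nd p M e.2 i := nd_anti p M _ (by omega)
      have h2 : K * (nd p D e.1 (v+(i+1)) * nd p M e.2 (i+1)) < K * K^(ℓ+1) := by
        rcases htype e he with ⟨_, h⟩ | ⟨_, _, h⟩
        · calc K * (nd p D e.1 (v+(i+1)) * nd p M e.2 (i+1))
              = nd p D e.1 (v+(i+1)) * (K * nd p M e.2 (i+1)) := by ring
            _ ≤ nd p D e.1 (v+i) * nd p M e.2 i := Nat.mul_le_mul hDle h.le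
            _ < K^(ℓ+1+1) := h1
            _ = K * K^(ℓ+1) := by ring
        · have h' : K * nd p D e.1 (v+(i+1)) ≤ nd p D e.1 (v+i) := by
            rw [← add_assoc]; exact h.le
          calc K * (nd p D e.1 (v+(i+1)) * nd p M e.2 (i+1))
              = (K * nd p D e.1 (v+(i+1))) * nd p M e.2 (i+1) := by ring
            _ ≤ nd p D e.1 (v+i) * nd p M e.2 i := Nat.mul_le_mul h' hMle
            _ < K^(ℓ+1+1) := h1
            _ = K * K^(ℓ+1) := by ring
      exact Nat.lt_of_mul_lt_mul_left h2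
    let R₁ := R.filter (fun e => ¬ bad p K D e.1 (v+i))
    let R₂ := R.filter (fun e => bad p K D e.1 (v+i))
    have hsplit : R.card = R₂.card + R₁.card := by
      rw [← Finset.card_filter_add_card_filter_not (s := R) (fun e => bad p K D e.1 (v+i))]
    have hc1 : R₁.card ≤ 2^ℓ := by
      apply ih (i+1) R₁
      · intro e he; exact hR e (Finset.mem_filter.mp he).1
      · intro e he e' he'
        exact hdiv e (Finset.mem_filter.mp he).1 e' (Finset.mem_filter.mp he').1
      · intro e he e' he'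
        exact hinj e (Finset.mem_filter.mp he).1 e' (Finset.mem_filter.mp he').1
      · intro e he; exact hgood e (Finset.mem_filter.mp he).1
      · intro e he e' he'
        have he0 := Finset.mem_filter.mp he
        have he0' := Finset.mem_filter.mp he'
        by_contra hcon
        have hM1 := hall e he0.1 e' he0'.1
        have hD1 : (p:ℤ)^(v+i) ∣ e.1 - e'.1 := (hdiv e he0.1 e' he0'.1 i).mpr hM1
        have hD2 : ¬ (p:ℤ)^(v+i+1) ∣ e.1 - e'.1 := by
          intro h
          exact hcon ((hdiv e he0.1 e' he0'.1 (i+1)).mp (by rw [← add_assoc]; exact h))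
        exact he0'.2 (not_both_heavy hK hD1 hD2 he0.2)
      · intro e he; exact hpot' e (Finset.mem_filter.mp he).1
    have hc2 : R₂.card ≤ 2^ℓ := by
      apply ih (i+1) R₂
      · intro e he; exact hR e (Finset.mem_filter.mp he).1
      · intro e he e' he'
        exact hdiv e (Finset.mem_filter.mp he).1 e' (Finset.mem_filter.mp he').1
      · intro e he e' he'
        exact hinj e (Finset.mem_filter.mp he).1 e' (Finset.mem_filter.mp he').1
      · intro e he; exact hgood e (Finset.mem_filter.mp he).1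
      · intro e he e' he'
        have he0 := Finset.mem_filter.mp he
        have he0' := Finset.mem_filter.mp he'
        by_contra hcon
        have hM1 := hall e he0.1 e' he0'.1
        have hm : ¬ bad p K M e.2 i := fun h => hgood e he0.1 i ⟨he0.2, h⟩
        have hm' : ¬ bad p K M e'.2 i := fun h => hgood e' he0'.1 i ⟨he0'.2, h⟩
        exact hm' (not_both_heavy hK hM1 hcon hm)
      · intro e he; exact hpot' e (Finset.mem_filter.mp he).1
    rw [hsplit, pow_succ]
    omega

end Pool.Agent.Helper5
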